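import Pool.Agent.Helper530.Sq.Base

open Finset

namespace Pool.Agent.Helper530.Sq

/-- pairs `(n,k)` in the dyadic box with `2k ≤ n` and `C(n,k)` squarefree -/
noncomputable def badBox (N K : ℕ) : Finset (ℕ × ℕ) := by
  classical
  exact ((Ico N (2 * N)) ×ˢ (Ico K (2 * K))).filter
    (fun x => 2 * x.2 ≤ x.1 ∧ Squarefree (x.1.choose x.2))

end Pool.Agent.Helper530.Sq
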