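import Pool.Agent.Helper530.Sq.Base
import Pool.Agent.Helper530.Sq.BadBox

namespace Pool.Agent.Helper530.Sq


open Finset Filter Topology

namespace SqFAsm

theorem conv_of_approx (s : ℕ → ℝ)
    (h : ∀ ε : ℝ, 0 < ε → ∃ (T : ℕ → ℝ) (l : ℝ), Tendsto T atTop (𝓝 l) ∧
      ∀ᶠ N in atTop, |s N - T N| ≤ ε) :
    ∃ l, Tendsto s atTop (𝓝 l) := by
  have hc : CauchySeq s := by
    rw [Metric.cauchySeq_iff]
    intro ε hε
    obtain ⟨T, l, hT, hE⟩ := h (ε / 5) (by positivity)
    have h1 : ∀ᶠ N in atTop, |T N - l| < ε / 5 := by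
      have h2 := (Metric.tendsto_nhds.1 hT) (ε / 5) (by positivity)
      simpa [Real.dist_eq] using h2
    obtain ⟨N0, hN0⟩ := eventually_atTop.1 (h1.and hE)
    refine ⟨N0, fun m hm n hn => ?_⟩
    obtain ⟨a1, a2⟩ := hN0 m hm
    obtain ⟨b1, b2⟩ := hN0 n hn
    rw [Real.dist_eq]
    rw [abs_le] at a2 b2
    rw [abs_lt] at a1 b1 ⊢
    constructor <;> linarith
  exact cauchySeq_tendsto_of_complete hc

theorem ev_div_le (C ε : ℝ) (hε : 0 < ε) : ∀ᶠ N : ℕ in atTop, C / (N : ℝ) ≤ ε :=
  (tendsto_const_div_atTop_nhds_zero_nat C).eventually_le_const hε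

theorem periodic_density (f : ℕ → Prop) [DecidablePred f] (P : ℕ) (hP : 0 < P)
    (hf : ∀ n, f (n + P) ↔ f n) :
    ∃ l, Tendsto (fun N : ℕ => (((range N).filter f).card : ℝ) / N) atTop (𝓝 l) := by
  have hf2 : ∀ q n, f (P * q + n) ↔ f n := by
    intro q
    induction q with
    | zero => intro n; simp
    | succ q ih =>
      intro n
      rw [show P * (q + 1) + n = P * q + n + P by ring, hf, ih]
  have hcount : ∀ q r, Nat.count f (P * q + r) = q * Nat.count f P + Nat.count f r := by
    intro q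
    induction q with
    | zero => intro r; simp
    | succ q ih =>
      intro r
      rw [show P * (q + 1) + r = P * q + (P + r) by ring, ih, Nat.count_add]
      have h1 : Nat.count (fun k => f (P + k)) r = Nat.count f r := by
        congr 1
        funext k
        have := hf2 1 k
        rw [mul_one] at this
        exact propext this
      rw [h1]
      ring
  apply conv_of_approx
  intro ε hε
  refine ⟨fun _ => (Nat.count f P : ℝ) / P, (Nat.count f P : ℝ) / P, tendsto_const_nhds, ?_⟩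
  filter_upwards [ev_div_le (P : ℝ) ε hε, eventually_gt_atTop 0] with N hN hN0
  rw [← Nat.count_eq_card_filter_range]
  have hPr : (0 : ℝ) < P := by exact_mod_cast hP
  have hNr : (0 : ℝ) < N := by exact_mod_cast hN0
  have e1 : Nat.count f N = (N / P) * Nat.count f P + Nat.count f (N % P) := by
    conv_lhs => rw [← Nat.div_add_mod N P]
    exact hcount _ _
  have e2 : (N : ℝ) = P * ((N / P : ℕ) : ℝ) + ((N % P : ℕ) : ℝ) := by
    exact_mod_cast (Nat.div_add_mod N P).symm
  have e3 : (Nat.count f N : ℝ) = ((N / P : ℕ) : ℝ) * (Nat.count f P : ℝ) +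
      (Nat.count f (N % P) : ℝ) := by exact_mod_cast e1
  have b1 : (Nat.count f (N % P) : ℝ) ≤ P := by
    have h1 : Nat.count f (N % P) ≤ N % P := Nat.count_le f
    have h2 : N % P < P := Nat.mod_lt _ hP
    exact_mod_cast (by omega : Nat.count f (N % P) ≤ P)
  have b2 : (Nat.count f P : ℝ) ≤ P := by exact_mod_cast (Nat.count_le f : Nat.count f P ≤ P)
  have b3 : ((N % P : ℕ) : ℝ) ≤ P := by exact_mod_cast (Nat.mod_lt _ hP).le
  have b4 : (0 : ℝ) ≤ (Nat.count f (N % P) : ℝ) := Nat.cast_nonneg _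
  have b5 : (0 : ℝ) ≤ (Nat.count f P : ℝ) := Nat.cast_nonneg _
  have b6 : (0 : ℝ) ≤ ((N % P : ℕ) : ℝ) := Nat.cast_nonneg _
  have e4 : (Nat.count f N : ℝ) / N - (Nat.count f P : ℝ) / P =
      ((Nat.count f (N % P) : ℝ) - ((N % P : ℕ) : ℝ) * ((Nat.count f P : ℝ) / P)) / N := by
    rw [e3]
    rw [div_sub_div _ _ hNr.ne' hPr.ne', div_eq_div_iff (by positivity) hNr.ne']
    field_simp
    rw [e2]
    ring
  rw [e4, abs_div, abs_of_pos hNr]
  refine le_trans ?_ hN
  apply div_le_div_of_nonneg_right _ hNr.le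
  have b7 : (Nat.count f P : ℝ) / P ≤ 1 := by rw [div_le_one hPr]; exact b2
  have b8 : 0 ≤ (Nat.count f P : ℝ) / P := by positivity
  have b9 : ((N % P : ℕ) : ℝ) * ((Nat.count f P : ℝ) / P) ≤ P := by
    calc ((N % P : ℕ) : ℝ) * ((Nat.count f P : ℝ) / P) ≤ P * 1 :=
          mul_le_mul b3 b7 b8 hPr.le
      _ = P := mul_one _
  have b10 : 0 ≤ ((N % P : ℕ) : ℝ) * ((Nat.count f P : ℝ) / P) := mul_nonneg b6 b8
  rw [abs_le]
  constructor <;> linarith

theorem dvd_choose_iff (d n k : ℕ) : d ∣ n.choose k ↔ k.factorial * d ∣ n.descFactorial k := by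
  rw [Nat.descFactorial_eq_factorial_mul_choose]
  exact (Nat.mul_dvd_mul_iff_left (Nat.factorial_pos k)).symm

theorem desc_periodic (D M n k : ℕ) (hDM : D ∣ M) :
    D ∣ (n + M).descFactorial k ↔ D ∣ n.descFactorial k := by
  rw [← ZMod.natCast_eq_zero_iff, ← ZMod.natCast_eq_zero_iff,
    ← descPochhammer_eval_eq_descFactorial, ← descPochhammer_eval_eq_descFactorial]
  have : ((n + M : ℕ) : ZMod D) = (n : ZMod D) := by
    push_cast
    rw [(ZMod.natCast_eq_zero_iff M D).2 hDM, add_zero]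
  rw [this]

theorem one_factor (p k n : ℕ) (hp : p.Prime) (hkp : k < p) (hkn : k ≤ n)
    (h : p ^ 2 ∣ n.descFactorial k) : ∃ i < k, p ^ 2 ∣ n - i := by
  rw [Nat.descFactorial_eq_prod_range] at h
  have h1 : p ∣ ∏ i ∈ range k, (n - i) := dvd_trans (dvd_pow_self p (by norm_num)) h
  obtain ⟨i, hi, hpi⟩ := (Prime.dvd_finsetProd_iff hp.prime _).1 h1
  rw [Finset.mem_range] at hi
  refine ⟨i, hi, ?_⟩
  rw [← Finset.mul_prod_erase (range k) (fun i => n - i) (Finset.mem_range.2 hi)] at h
  have hcop : Nat.Coprime (p ^ 2) (∏ j ∈ (range k).erase i, (n - j)) := by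
    apply Nat.Coprime.pow_left
    apply Nat.Coprime.prod_right
    intro j hj
    rw [Finset.mem_erase, Finset.mem_range] at hj
    rw [Nat.Prime.coprime_iff_not_dvd hp]
    intro hpj
    rcases lt_or_gt_of_ne hj.1 with hlt | hgt
    · have h2 : p ∣ (n - j) - (n - i) := Nat.dvd_sub hpj hpi
      have h3 : (n - j) - (n - i) = i - j := by omega
      rw [h3] at h2
      have := Nat.le_of_dvd (by omega) h2
      omega
    · have h2 : p ∣ (n - i) - (n - j) := Nat.dvd_sub hpi hpj
      have h3 : (n - i) - (n - j) = j - i := by omega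
      rw [h3] at h2
      have := Nat.le_of_dvd (by omega) h2
      omega
  exact hcop.dvd_of_dvd_mul_right h

open scoped Classical in
theorem bad_card (y k N : ℕ) :
    ((((range N).filter (fun n => ∃ d ∈ Ioo y N, ∃ i < k, i < n ∧ d ^ 2 ∣ n - i)).card : ℕ) : ℝ) ≤
      2 * k * N / (y + 1) := by
  have hsub : (range N).filter (fun n => ∃ d ∈ Ioo y N, ∃ i < k, i < n ∧ d ^ 2 ∣ n - i) ⊆
      (Ioo y N).biUnion (fun d => (range k).biUnion
        (fun i => (range N).filter (fun n => i < n ∧ d ^ 2 ∣ n - i))) := by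
    intro n hn
    rw [Finset.mem_filter] at hn
    obtain ⟨hn, d, hd, i, hi, h1, h2⟩ := hn
    rw [Finset.mem_biUnion]
    refine ⟨d, hd, ?_⟩
    rw [Finset.mem_biUnion]
    refine ⟨i, Finset.mem_range.2 hi, ?_⟩
    rw [Finset.mem_filter]
    exact ⟨hn, h1, h2⟩
  have hin : ∀ d i, ((range N).filter (fun n => i < n ∧ d ^ 2 ∣ n - i)).card ≤ N / d ^ 2 := by
    intro d i
    rw [← Nat.Ioc_filter_dvd_card_eq_div]
    apply Finset.card_le_card_of_injOn (fun n => n - i)
    · intro n hn
      rw [Finset.mem_coe, Finset.mem_filter, Finset.mem_range] at hn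
      rw [Finset.mem_coe, Finset.mem_filter, Finset.mem_Ioc]
      refine ⟨⟨?_, ?_⟩, hn.2.2⟩
      · show 0 < n - i
        omega
      · show n - i ≤ N
        omega
    · intro a ha b hb hab
      rw [Finset.mem_coe, Finset.mem_filter] at ha hb
      have : a - i = b - i := hab
      omega
  have h1 : (((range N).filter (fun n => ∃ d ∈ Ioo y N, ∃ i < k, i < n ∧ d ^ 2 ∣ n - i)).card) ≤
      ∑ d ∈ Ioo y N, ∑ i ∈ range k, N / d ^ 2 := by
    refine (Finset.card_le_card hsub).trans ?_
    refine Finset.card_biUnion_le.trans (Finset.sum_le_sum fun d _ => ?_)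
    exact Finset.card_biUnion_le.trans (Finset.sum_le_sum fun i _ => hin d i)
  have h2 : (((∑ d ∈ Ioo y N, ∑ i ∈ range k, N / d ^ 2 : ℕ)) : ℝ) ≤
      k * N * ∑ d ∈ Ioo y N, ((d : ℝ) ^ 2)⁻¹ := by
    push_cast
    rw [Finset.mul_sum]
    refine Finset.sum_le_sum fun d _ => ?_
    rw [Finset.sum_const, Finset.card_range, nsmul_eq_mul]
    have h3 : ((N / d ^ 2 : ℕ) : ℝ) ≤ (N : ℝ) / ((d ^ 2 : ℕ) : ℝ) := Nat.cast_div_le
    have h4 : (N : ℝ) / ((d ^ 2 : ℕ) : ℝ) = N * ((d : ℝ) ^ 2)⁻¹ := by
      push_cast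
      rw [div_eq_mul_inv]
    rw [h4] at h3
    calc (k : ℝ) * ((N / d ^ 2 : ℕ) : ℝ) ≤ k * (N * ((d : ℝ) ^ 2)⁻¹) := by gcongr
      _ = k * N * ((d : ℝ) ^ 2)⁻¹ := by ring
  have h5 : ∑ d ∈ Ioo y N, ((d : ℝ) ^ 2)⁻¹ ≤ 2 / (y + 1) := sum_Ioo_inv_sq_le y N
  calc _ ≤ (((∑ d ∈ Ioo y N, ∑ i ∈ range k, N / d ^ 2 : ℕ)) : ℝ) := by exact_mod_cast h1
    _ ≤ k * N * ∑ d ∈ Ioo y N, ((d : ℝ) ^ 2)⁻¹ := h2
    _ ≤ k * N * (2 / (y + 1)) := by gcongr
    _ = 2 * k * N / (y + 1) := by ring

theorem fixed_k (k : ℕ) : ∃ l, Tendsto (fun N : ℕ =>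
    (((range N).filter (fun n => 2 * k < n ∧ Squarefree (n.choose k))).card : ℝ) / N)
      atTop (𝓝 l) := by
  apply conv_of_approx
  intro ε hε
  obtain ⟨y, hy⟩ : ∃ y : ℕ, k < y + 1 ∧ 2 * (k : ℝ) / (y + 1) ≤ ε / 2 := by
    obtain ⟨m, hm⟩ := exists_nat_gt (4 * (k : ℝ) / ε)
    refine ⟨max m k, by omega, ?_⟩
    have h1 : (m : ℝ) ≤ (max m k : ℕ) := by exact_mod_cast le_max_left m k
    rw [div_lt_iff₀ hε] at hm
    rw [div_le_iff₀ (by positivity)]
    nlinarith
  let g : ℕ → Prop := fun n => ∀ p ∈ (range (y + 1)).filter Nat.Prime, ¬ p ^ 2 ∣ n.choose k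
  have hper : ∀ n, g (n + (y.factorial ^ 2 * k.factorial)) ↔ g n := by
    intro n
    simp only [g]
    refine forall₂_congr fun p hp => ?_
    rw [Finset.mem_filter, Finset.mem_range] at hp
    rw [dvd_choose_iff, dvd_choose_iff, desc_periodic]
    have h1 : p ∣ y.factorial := Nat.dvd_factorial hp.2.pos (by omega)
    rw [mul_comm]
    exact mul_dvd_mul (pow_dvd_pow_of_dvd h1 2) dvd_rfl
  obtain ⟨l, hl⟩ := periodic_density g (y.factorial ^ 2 * k.factorial) (by positivity) hper
  refine ⟨_, l, hl, ?_⟩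
  filter_upwards [ev_div_le (2 * (k : ℝ) + 1) (ε / 2) (by positivity), eventually_gt_atTop 0]
    with N hN hN0
  have hNr : (0 : ℝ) < N := by exact_mod_cast hN0
  have hle : ((range N).filter (fun n => 2 * k < n ∧ Squarefree (n.choose k))).card ≤
      ((range N).filter g).card := by
    apply Finset.card_le_card
    intro n hn
    rw [Finset.mem_filter] at hn ⊢
    refine ⟨hn.1, fun p hp hdvd => ?_⟩
    rw [Finset.mem_filter] at hp
    exact (Nat.squarefree_iff_prime_squarefree.1 hn.2.2) p hp.2 (by rw [← pow_two]; exact hdvd)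
  classical
  have hge : ((range N).filter g).card ≤
      ((range N).filter (fun n => 2 * k < n ∧ Squarefree (n.choose k))).card + ((2 * k + 1) +
      ((range N).filter (fun n => ∃ d ∈ Ioo y N, ∃ i < k, i < n ∧ d ^ 2 ∣ n - i)).card) := by
    have hsub : (range N).filter g ⊆
        ((range N).filter (fun n => 2 * k < n ∧ Squarefree (n.choose k))) ∪
        (range (2 * k + 1) ∪
        (range N).filter (fun n => ∃ d ∈ Ioo y N, ∃ i < k, i < n ∧ d ^ 2 ∣ n - i)) := by
      intro n hn
      rw [Finset.mem_filter, Finset.mem_range] at hn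
      rw [Finset.mem_union, Finset.mem_union]
      by_cases h1 : n < 2 * k + 1
      · right; left; exact Finset.mem_range.2 h1
      by_cases h2 : Squarefree (n.choose k)
      · left
        rw [Finset.mem_filter]
        exact ⟨Finset.mem_range.2 hn.1, by omega, h2⟩
      · right; right
        rw [Finset.mem_filter]
        refine ⟨Finset.mem_range.2 hn.1, ?_⟩
        rw [Nat.squarefree_iff_prime_squarefree] at h2
        push Not at h2
        obtain ⟨p, hp, hpd⟩ := h2
        have hpy : y < p := by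
          by_contra hcon
          exact hn.2 p (by rw [Finset.mem_filter, Finset.mem_range]; exact ⟨by omega, hp⟩)
            (by rw [pow_two]; exact hpd)
        have h3 : p ^ 2 ∣ n.descFactorial k := by
          rw [Nat.descFactorial_eq_factorial_mul_choose, pow_two]
          exact dvd_mul_of_dvd_right hpd _
        obtain ⟨i, hi, hi2⟩ := one_factor p k n hp (by omega) (by omega) h3
        have hlt : p < N := by
          have h4 := Nat.le_of_dvd (by omega) hi2
          have h5 : p ≤ p ^ 2 := Nat.le_self_pow (by norm_num) p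
          omega
        exact ⟨p, Finset.mem_Ioo.2 ⟨hpy, hlt⟩, i, hi, by omega, hi2⟩
    refine (Finset.card_le_card hsub).trans ?_
    refine (Finset.card_union_le _ _).trans ?_
    gcongr
    refine (Finset.card_union_le _ _).trans ?_
    rw [Finset.card_range]
  have hb := bad_card y k N
  have hle' : (((range N).filter (fun n => 2 * k < n ∧ Squarefree (n.choose k))).card : ℝ) ≤
      (((range N).filter g).card : ℝ) := by exact_mod_cast hle
  have hge' : (((range N).filter g).card : ℝ) ≤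
      (((range N).filter (fun n => 2 * k < n ∧ Squarefree (n.choose k))).card : ℝ) +
      ((2 * (k : ℝ) + 1) + ((((range N).filter
        (fun n => ∃ d ∈ Ioo y N, ∃ i < k, i < n ∧ d ^ 2 ∣ n - i)).card : ℕ) : ℝ)) := by
    exact_mod_cast hge
  rw [abs_sub_comm, ← sub_div, abs_div, abs_of_pos hNr, abs_of_nonneg (by linarith),
    div_le_iff₀ hNr]
  have h6 : 2 * (k : ℝ) * N / (y + 1) ≤ ε / 2 * N := by
    calc 2 * (k : ℝ) * N / (y + 1) = 2 * (k : ℝ) / (y + 1) * N := by ring
      _ ≤ ε / 2 * N := mul_le_mul_of_nonneg_right hy.2 hNr.le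
  rw [div_le_iff₀ hNr] at hN
  linarith

/-- large squarefree pairs -/
def QQ (N i : ℕ) : Finset (ℕ × ℕ) := ((range N) ×ˢ (range N)).filter
  (fun x => 2 ^ i ≤ x.2 ∧ 2 * x.2 ≤ x.1 ∧ Squarefree (x.1.choose x.2))

theorem QQ_card (C c : ℝ) (hc : 0 < c) (h : ∀ N K : ℕ, 1 ≤ N → 1 ≤ K →
      ((badBox N K).card : ℝ) ≤ C * N * (K : ℝ) ^ (-c)) (N i : ℕ) (hN : 1 ≤ N) :
    ((QQ N i).card : ℝ) ≤ 2 * C / (1 - (2 : ℝ) ^ (-c)) * N * ((2 : ℝ) ^ (-c)) ^ i := by
  classical
  have hC : 0 ≤ C := by
    have h1 := h 1 1 le_rfl le_rfl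
    have h2 : (0 : ℝ) ≤ ((badBox 1 1).card : ℝ) := Nat.cast_nonneg _
    simp at h1
    linarith
  set r : ℝ := (2 : ℝ) ^ (-c) with hr
  have hr0 : 0 < r := Real.rpow_pos_of_pos (by norm_num) _
  have hr1 : r < 1 := Real.rpow_lt_one_of_one_lt_of_neg (by norm_num) (by linarith)
  set A : ℕ := Nat.log 2 N + 1 with hA
  have hsub : QQ N i ⊆ (range A).biUnion (fun a => (Ico i A).biUnion
      (fun b => badBox (2 ^ a) (2 ^ b))) := by
    intro x hx
    unfold QQ at hx
    rw [Finset.mem_filter, Finset.mem_product, Finset.mem_range, Finset.mem_range] at hx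
    obtain ⟨⟨h1, h2⟩, h3, h4, h5⟩ := hx
    have hx2 : x.2 ≠ 0 := by
      have : 0 < 2 ^ i := by positivity
      omega
    have hx1 : x.1 ≠ 0 := by omega
    rw [Finset.mem_biUnion]
    refine ⟨Nat.log 2 x.1, ?_, ?_⟩
    · rw [Finset.mem_range, hA]
      have := Nat.log_mono_right (b := 2) h1.le
      omega
    rw [Finset.mem_biUnion]
    refine ⟨Nat.log 2 x.2, ?_, ?_⟩
    · rw [Finset.mem_Ico, hA]
      have h6 := Nat.log_mono_right (b := 2) h2.le
      have h7 : i ≤ Nat.log 2 x.2 := Nat.le_log_of_pow_le (by norm_num) h3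
      omega
    · unfold badBox
      rw [Finset.mem_filter, Finset.mem_product, Finset.mem_Ico, Finset.mem_Ico]
      refine ⟨⟨⟨Nat.pow_log_le_self 2 hx1, ?_⟩, ⟨Nat.pow_log_le_self 2 hx2, ?_⟩⟩, h4, h5⟩
      · rw [← pow_succ']
        exact Nat.lt_pow_succ_log_self (by norm_num) _
      · rw [← pow_succ']
        exact Nat.lt_pow_succ_log_self (by norm_num) _
  have h1 : (QQ N i).card ≤ ∑ a ∈ range A, ∑ b ∈ Ico i A, (badBox (2 ^ a) (2 ^ b)).card := by
    refine (Finset.card_le_card hsub).trans ?_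
    refine Finset.card_biUnion_le.trans (Finset.sum_le_sum fun a _ => ?_)
    exact Finset.card_biUnion_le
  have h2 : ((QQ N i).card : ℝ) ≤ ∑ a ∈ range A, ∑ b ∈ Ico i A, C * 2 ^ a * r ^ b := by
    have h3 : ((QQ N i).card : ℝ) ≤
        ∑ a ∈ range A, ∑ b ∈ Ico i A, ((badBox (2 ^ a) (2 ^ b)).card : ℝ) := by
      exact_mod_cast h1
    refine h3.trans (Finset.sum_le_sum fun a _ => Finset.sum_le_sum fun b _ => ?_)
    refine (h (2 ^ a) (2 ^ b) Nat.one_le_two_pow Nat.one_le_two_pow).trans (le_of_eq ?_)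
    push_cast
    congr 1
    rw [hr, ← Real.rpow_natCast, ← Real.rpow_mul (by norm_num), ← Real.rpow_natCast,
      ← Real.rpow_mul (by norm_num)]
    congr 1
    ring
  have h4 : ∑ a ∈ range A, ∑ b ∈ Ico i A, C * 2 ^ a * r ^ b =
      C * (∑ a ∈ range A, (2 : ℝ) ^ a) * ∑ b ∈ Ico i A, r ^ b := by
    rw [mul_assoc, Finset.sum_mul_sum, Finset.mul_sum]
    refine Finset.sum_congr rfl fun a _ => ?_
    rw [Finset.mul_sum]
    refine Finset.sum_congr rfl fun b _ => ?_
    ring
  have h5 : ∑ a ∈ range A, (2 : ℝ) ^ a ≤ 2 * N := by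
    have h6 : ∑ a ∈ range A, (2 : ℝ) ^ a = 2 ^ A - 1 := by
      rw [geom_sum_eq (by norm_num)]
      norm_num
    have h7 : (2 : ℝ) ^ A ≤ 2 * N := by
      rw [hA, pow_succ']
      have h8 : 2 ^ Nat.log 2 N ≤ N := Nat.pow_log_le_self 2 (by omega)
      have h9 : (2 : ℝ) ^ Nat.log 2 N ≤ N := by exact_mod_cast h8
      linarith
    linarith
  have h6 : ∑ b ∈ Ico i A, r ^ b ≤ r ^ i / (1 - r) := geom_sum_Ico_le_of_lt_one hr0.le hr1
  have h7 : 0 < 1 - r := by linarith
  calc ((QQ N i).card : ℝ) ≤ C * (∑ a ∈ range A, (2 : ℝ) ^ a) * ∑ b ∈ Ico i A, r ^ b := by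
        rw [← h4]; exact h2
    _ ≤ C * (2 * N) * (r ^ i / (1 - r)) := by
        apply mul_le_mul
        · exact mul_le_mul_of_nonneg_left h5 hC
        · exact h6
        · positivity
        · positivity
    _ = 2 * C / (1 - r) * N * r ^ i := by ring

/-- symmetry `k ↔ n-k` -/
theorem row_split (n : ℕ) : ((range (n + 1)).filter (fun k => Squarefree (n.choose k))).card =
    2 * ((range (n + 1)).filter (fun k => 2 * k < n ∧ Squarefree (n.choose k))).card +
    ((range (n + 1)).filter (fun k => 2 * k = n ∧ Squarefree (n.choose k))).card := by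
  have h1 : (range (n + 1)).filter (fun k => Squarefree (n.choose k)) =
      ((range (n + 1)).filter (fun k => 2 * k < n ∧ Squarefree (n.choose k))) ∪
      (((range (n + 1)).filter (fun k => n < 2 * k ∧ Squarefree (n.choose k))) ∪
      ((range (n + 1)).filter (fun k => 2 * k = n ∧ Squarefree (n.choose k)))) := by
    ext k
    simp only [Finset.mem_union, Finset.mem_filter]
    constructor
    · rintro ⟨a, b⟩
      rcases lt_trichotomy (2 * k) n with h | h | h
      · exact Or.inl ⟨a, h, b⟩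
      · exact Or.inr (Or.inr ⟨a, h, b⟩)
      · exact Or.inr (Or.inl ⟨a, h, b⟩)
    · rintro (h | h | h)
      · exact ⟨h.1, h.2.2⟩
      · exact ⟨h.1, h.2.2⟩
      · exact ⟨h.1, h.2.2⟩
  have h2 : ((range (n + 1)).filter (fun k => n < 2 * k ∧ Squarefree (n.choose k))).card =
      ((range (n + 1)).filter (fun k => 2 * k < n ∧ Squarefree (n.choose k))).card := by
    apply Finset.card_bij (fun k _ => n - k)
    · intro k hk
      rw [Finset.mem_filter, Finset.mem_range] at hk ⊢
      refine ⟨by omega, by omega, ?_⟩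
      rw [Nat.choose_symm (by omega)]
      exact hk.2.2
    · intro a ha b hb hab
      rw [Finset.mem_filter, Finset.mem_range] at ha hb
      omega
    · intro k hk
      rw [Finset.mem_filter, Finset.mem_range] at hk
      refine ⟨n - k, ?_, by omega⟩
      rw [Finset.mem_filter, Finset.mem_range]
      refine ⟨by omega, by omega, ?_⟩
      rw [Nat.choose_symm (by omega)]
      exact hk.2.2
  rw [h1, Finset.card_union_of_disjoint, Finset.card_union_of_disjoint, h2]
  · ring
  · rw [Finset.disjoint_left]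
    intro k hk hk2
    rw [Finset.mem_filter] at hk hk2
    omega
  · rw [Finset.disjoint_left]
    intro k hk hk2
    rw [Finset.mem_union, Finset.mem_filter, Finset.mem_filter] at hk2
    rw [Finset.mem_filter] at hk
    rcases hk2 with hk2 | hk2 <;> omega

theorem sum_lt (N i : ℕ) :
    (∑ n ∈ range N, ((range (n + 1)).filter (fun k => 2 * k < n ∧ Squarefree (n.choose k))).card) ≤
      (∑ k ∈ range (2 ^ i), ((range N).filter
        (fun n => 2 * k < n ∧ Squarefree (n.choose k))).card) + (QQ N i).card ∧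
    (∑ k ∈ range (2 ^ i), ((range N).filter
        (fun n => 2 * k < n ∧ Squarefree (n.choose k))).card) ≤
    (∑ n ∈ range N, ((range (n + 1)).filter (fun k => 2 * k < n ∧ Squarefree (n.choose k))).card) := by
  have h1 : (∑ n ∈ range N, ((range (n + 1)).filter
      (fun k => 2 * k < n ∧ Squarefree (n.choose k))).card) =
      (((range N) ×ˢ (range N)).filter
        (fun x => 2 * x.2 < x.1 ∧ Squarefree (x.1.choose x.2))).card := by
    rw [Finset.card_filter, Finset.sum_product]
    refine Finset.sum_congr rfl fun n hn => ?_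
    rw [Finset.mem_range] at hn
    simp only
    rw [← Finset.card_filter]
    congr 1
    ext k
    rw [Finset.mem_filter, Finset.mem_filter, Finset.mem_range, Finset.mem_range]
    constructor
    · rintro ⟨_, b, c⟩; exact ⟨by omega, b, c⟩
    · rintro ⟨_, b, c⟩; exact ⟨by omega, b, c⟩
  have h2 : (∑ k ∈ range (2 ^ i), ((range N).filter
        (fun n => 2 * k < n ∧ Squarefree (n.choose k))).card) =
      (((range N) ×ˢ (range (2 ^ i))).filter
        (fun x => 2 * x.2 < x.1 ∧ Squarefree (x.1.choose x.2))).card := by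
    rw [Finset.card_filter, Finset.sum_product_right]
    refine Finset.sum_congr rfl fun k hk => ?_
    simp only
    rw [← Finset.card_filter]
  rw [h1, h2]
  constructor
  · rw [← Finset.card_union_of_disjoint]
    · apply Finset.card_le_card
      intro x hx
      unfold QQ
      rw [Finset.mem_filter, Finset.mem_product, Finset.mem_range, Finset.mem_range] at hx
      rw [Finset.mem_union, Finset.mem_filter, Finset.mem_filter, Finset.mem_product,
        Finset.mem_product, Finset.mem_range, Finset.mem_range, Finset.mem_range]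
      by_cases h : x.2 < 2 ^ i
      · left; exact ⟨⟨hx.1.1, h⟩, hx.2⟩
      · right; exact ⟨hx.1, by omega, by omega, hx.2.2⟩
    · rw [Finset.disjoint_left]
      intro x hx hx2
      unfold QQ at hx2
      rw [Finset.mem_filter, Finset.mem_product, Finset.mem_range, Finset.mem_range] at hx
      rw [Finset.mem_filter] at hx2
      omega
  · apply Finset.card_le_card
    intro x hx
    rw [Finset.mem_filter, Finset.mem_product, Finset.mem_range, Finset.mem_range] at hx ⊢
    exact ⟨⟨hx.1.1, by omega⟩, hx.2⟩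

theorem sum_eq_le (N i : ℕ) :
    (∑ n ∈ range N, ((range (n + 1)).filter (fun k => 2 * k = n ∧ Squarefree (n.choose k))).card) ≤
      2 ^ i + (QQ N i).card := by
  have h1 : (∑ n ∈ range N, ((range (n + 1)).filter
      (fun k => 2 * k = n ∧ Squarefree (n.choose k))).card) =
      (((range N) ×ˢ (range N)).filter
        (fun x => 2 * x.2 = x.1 ∧ Squarefree (x.1.choose x.2))).card := by
    rw [Finset.card_filter, Finset.sum_product]
    refine Finset.sum_congr rfl fun n hn => ?_
    rw [Finset.mem_range] at hn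
    simp only
    rw [← Finset.card_filter]
    congr 1
    ext k
    rw [Finset.mem_filter, Finset.mem_filter, Finset.mem_range, Finset.mem_range]
    constructor
    · rintro ⟨_, b, c⟩; exact ⟨by omega, b, c⟩
    · rintro ⟨_, b, c⟩; exact ⟨by omega, b, c⟩
  rw [h1]
  have hsub : (((range N) ×ˢ (range N)).filter
        (fun x => 2 * x.2 = x.1 ∧ Squarefree (x.1.choose x.2))) ⊆
      ((range (2 ^ i)).image (fun k => (2 * k, k))) ∪ QQ N i := by
    intro x hx
    rw [Finset.mem_filter, Finset.mem_product] at hx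
    rw [Finset.mem_union]
    by_cases h : x.2 < 2 ^ i
    · left
      rw [Finset.mem_image]
      refine ⟨x.2, Finset.mem_range.2 h, ?_⟩
      ext
      · exact hx.2.1
      · rfl
    · right
      unfold QQ
      rw [Finset.mem_filter, Finset.mem_product]
      exact ⟨hx.1, by omega, by omega, hx.2.2⟩
  refine (Finset.card_le_card hsub).trans ((Finset.card_union_le _ _).trans ?_)
  gcongr
  refine Finset.card_image_le.trans ?_
  rw [Finset.card_range]

end SqFAsm

open SqFAsm

theorem assembly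
    (h : ∃ C c : ℝ, 0 < c ∧ ∀ N K : ℕ, 1 ≤ N → 1 ≤ K →
      ((badBox N K).card : ℝ) ≤ C * N * (K : ℝ) ^ (-c)) :
    ∃ γ : ℝ, 0 < γ ∧ Tendsto (fun N : ℕ =>
      ((∑ n ∈ range N, ((range (n + 1)).filter
        (fun k => Squarefree (n.choose k))).card : ℕ) : ℝ) / (N : ℝ)) atTop (𝓝 γ) := by
  obtain ⟨C, c, hc, hb⟩ := h
  set r : ℝ := (2 : ℝ) ^ (-c) with hr
  have hr0 : 0 < r := Real.rpow_pos_of_pos (by norm_num) _
  have hr1 : r < 1 := Real.rpow_lt_one_of_one_lt_of_neg (by norm_num) (by linarith)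
  set D : ℝ := 2 * C / (1 - r) with hD
  have hex : ∃ l, Tendsto (fun N : ℕ =>
      ((∑ n ∈ range N, ((range (n + 1)).filter
        (fun k => Squarefree (n.choose k))).card : ℕ) : ℝ) / (N : ℝ)) atTop (𝓝 l) := by
    apply conv_of_approx
    intro ε hε
    obtain ⟨i, hi⟩ : ∃ i : ℕ, 3 * D * r ^ i ≤ ε / 2 := by
      have h1 : Tendsto (fun i : ℕ => 3 * D * r ^ i) atTop (𝓝 (3 * D * 0)) :=
        (tendsto_pow_atTop_nhds_zero_of_lt_one hr0.le hr1).const_mul _
      rw [mul_zero] at h1
      exact (h1.eventually_le_const (by positivity : (0 : ℝ) < ε / 2)).exists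
    choose lk hlk using fixed_k
    refine ⟨fun N => ∑ k ∈ range (2 ^ i), 2 * ((((range N).filter
        (fun n => 2 * k < n ∧ Squarefree (n.choose k))).card : ℝ) / N),
      ∑ k ∈ range (2 ^ i), 2 * lk k, ?_, ?_⟩
    · exact tendsto_finsetSum _ fun k _ => (hlk k).const_mul 2
    · filter_upwards [ev_div_le ((2 : ℝ) ^ i) (ε / 2) (by positivity), eventually_gt_atTop 0]
        with N hN hN0
      have hNr : (0 : ℝ) < N := by exact_mod_cast hN0
      have hq := QQ_card C c hc hb N i hN0
      rw [← hr, ← hD] at hq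
      obtain ⟨s1, s2⟩ := sum_lt N i
      have s3 := sum_eq_le N i
      have s4 : (∑ n ∈ range N, ((range (n + 1)).filter (fun k => Squarefree (n.choose k))).card) =
          2 * (∑ n ∈ range N, ((range (n + 1)).filter
            (fun k => 2 * k < n ∧ Squarefree (n.choose k))).card) +
          (∑ n ∈ range N, ((range (n + 1)).filter
            (fun k => 2 * k = n ∧ Squarefree (n.choose k))).card) := by
        rw [Finset.mul_sum, ← Finset.sum_add_distrib]
        exact Finset.sum_congr rfl fun n _ => row_split n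
      rw [s4]
      generalize (∑ n ∈ range N, ((range (n + 1)).filter
            (fun k => 2 * k < n ∧ Squarefree (n.choose k))).card) = u at s1 s2 s3 s4 ⊢
      generalize (∑ n ∈ range N, ((range (n + 1)).filter
            (fun k => 2 * k = n ∧ Squarefree (n.choose k))).card) = m at s3 s4 ⊢
      have s5 : ∑ k ∈ range (2 ^ i), 2 * ((((range N).filter
        (fun n => 2 * k < n ∧ Squarefree (n.choose k))).card : ℝ) / N) =
          2 * ((∑ k ∈ range (2 ^ i), ((range N).filter
        (fun n => 2 * k < n ∧ Squarefree (n.choose k))).card : ℕ) : ℝ) / N := by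
        push_cast
        rw [Finset.mul_sum, Finset.sum_div]
        refine Finset.sum_congr rfl fun k _ => ?_
        ring
      rw [s5]
      generalize (∑ k ∈ range (2 ^ i), ((range N).filter
        (fun n => 2 * k < n ∧ Squarefree (n.choose k))).card) = a at s1 s2 s3 s4 ⊢
      have t1 : (u : ℝ) ≤ a + (QQ N i).card := by exact_mod_cast s1
      have t2 : (a : ℝ) ≤ u := by exact_mod_cast s2
      have t3 : (m : ℝ) ≤ 2 ^ i + (QQ N i).card := by exact_mod_cast s3
      have t4 : (0 : ℝ) ≤ m := Nat.cast_nonneg _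
      rw [← sub_div, abs_div, abs_of_pos hNr, div_le_iff₀ hNr]
      push_cast
      rw [abs_of_nonneg (by linarith)]
      rw [div_le_iff₀ hNr] at hN
      have t5 : 3 * (D * N * r ^ i) ≤ ε / 2 * N := by
        calc 3 * (D * N * r ^ i) = (3 * D * r ^ i) * N := by ring
          _ ≤ ε / 2 * N := by gcongr
      linarith
  obtain ⟨l, hl⟩ := hex
  refine ⟨l, ?_, hl⟩
  have hge : ∀ᶠ N : ℕ in atTop, (1 : ℝ) ≤ ((∑ n ∈ range N, ((range (n + 1)).filter
        (fun k => Squarefree (n.choose k))).card : ℕ) : ℝ) / (N : ℝ) := by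
    filter_upwards [eventually_gt_atTop 0] with N hN0
    have hNr : (0 : ℝ) < N := by exact_mod_cast hN0
    rw [le_div_iff₀ hNr, one_mul]
    have h1 : N ≤ ∑ n ∈ range N, ((range (n + 1)).filter
        (fun k => Squarefree (n.choose k))).card := by
      calc N = ∑ n ∈ range N, 1 := by simp
        _ ≤ _ := by
          refine Finset.sum_le_sum fun n _ => ?_
          rw [Nat.one_le_iff_ne_zero, Finset.card_ne_zero]
          exact ⟨0, by rw [Finset.mem_filter]; exact ⟨by simp, by simp⟩⟩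
    exact_mod_cast h1
  have := ge_of_tendsto hl hge
  linarith

end Pool.Agent.Helper530.Sq
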