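import Mathlib

open Finset Classical

namespace Pool.Agent.Helper530.Sq

/-- the additive character `e(x) = exp(2 π i x)` -/
noncomputable def e (x : ℝ) : ℂ := Complex.exp (2 * Real.pi * x * Complex.I)

/-- robust carry: the fractional part of `x` is smaller than the one of `y`, with margin `g` -/
def Car (x y g : ℝ) : Prop := ∃ a b : ℤ, g ≤ x - a ∧ x - a + g ≤ y - b ∧ y - b ≤ 1 - g

/-- closeness modulo one -/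
def near (x y δ : ℝ) : Prop := ∃ m : ℤ, |x - y - m| ≤ δ

/-- `F` is an exponential sum over at most `A` frequencies of size at most `R`,
with at most `m` of them in each box of half sides `1/N`, `1/K` -/
def Good (N K : ℕ) (F : ℕ → ℕ → ℂ) (m A : ℕ) (R : ℝ) : Prop :=
  ∃ (ι : Type) (_ : Fintype ι) (Θ1 Θ2 : ι → ℝ),
    (∀ n k : ℕ, F n k = ∑ i, e (Θ1 i * n + Θ2 i * k)) ∧
    (∀ c1 c2 : ℝ, (univ.filter
      (fun i => |Θ1 i - c1| ≤ 1 / (N : ℝ) ∧ |Θ2 i - c2| ≤ 1 / (K : ℝ))).card ≤ m) ∧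
    (∀ i, |Θ1 i| ≤ R ∧ |Θ2 i| ≤ R) ∧ Fintype.card ι ≤ A

/-- the two independent biased modes at scale `P` (case A1) -/
def caseA1 (B : Finset ℕ) (L n k : ℕ) : Prop :=
  ∃ a b : Fin 4 → ℤ, (∀ j, |a j| ≤ (L : ℤ) ^ 20 ∧ |b j| ≤ (L : ℤ) ^ 20) ∧
    a 0 * b 1 - a 1 * b 0 ≠ 0 ∧
    (B.card : ℝ) / (L : ℝ) ^ 60 ≤
      ‖∑ p ∈ B, e (((a 0 : ℝ) / (p : ℝ) + (a 2 : ℝ) / (p : ℝ) ^ 2) * n
          + ((a 1 : ℝ) / (p : ℝ) + (a 3 : ℝ) / (p : ℝ) ^ 2) * k)‖ ∧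
    (B.card : ℝ) / (L : ℝ) ^ 60 ≤
      ‖∑ p ∈ B, e (((b 0 : ℝ) / (p : ℝ) + (b 2 : ℝ) / (p : ℝ) ^ 2) * n
          + ((b 1 : ℝ) / (p : ℝ) + (b 3 : ℝ) / (p : ℝ) ^ 2) * k)‖

/-- the primes in `(P, 4P]` -/
noncomputable def pr (P : ℕ) : Finset ℕ := (Ioc P (4 * P)).filter Nat.Prime

/-- parameters of the argument -/
structure Par (t L1 La L N K : ℕ) : Prop where
  hL1 : 1 ≤ L1
  hLa : La = 10 ^ 8 * L1
  hL : L = La ^ 63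
  hLt : L ^ 900 ≤ t
  hlog : 1 + Real.log (N + 1) ≤ L
  hK1 : t ^ 20 ≤ K
  hK2 : K ≤ 2 * t ^ 20
  hKN : K ≤ N
  hB : ((t : ℝ) ≤ L1 * ((pr t).card : ℝ))

end Pool.Agent.Helper530.Sq
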