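import Pool.Agent.Helper530.Sq.Base

namespace Pool.Agent.Helper530.Sq


open Finset Classical

theorem e_add_aux (x y : ℝ) : e (x + y) = e x * e y := by
  unfold e
  rw [← Complex.exp_add]
  congr 1
  push_cast
  ring

theorem Good.mono {N K m A m' A' : ℕ} {F : ℕ → ℕ → ℂ} {R R' : ℝ} (hF : Good N K F m A R)
    (hm : m ≤ m') (hA : A ≤ A') (hR : R ≤ R') : Good N K F m' A' R' := by
  obtain ⟨ι, hι, Θ1, Θ2, h1, h2, h3, h4⟩ := hF
  exact ⟨ι, hι, Θ1, Θ2, h1, fun c1 c2 => (h2 c1 c2).trans hm,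
    fun i => ⟨(h3 i).1.trans hR, (h3 i).2.trans hR⟩, h4.trans hA⟩

/-- multiplying by one more exponential sum -/
theorem Good.mul {N K m A m0 : ℕ} {F : ℕ → ℕ → ℂ} {R R0 ρ : ℝ} (hF : Good N K F m A R)
    (B : Finset ℕ) (α β : ℕ → ℝ) (h0 : ∀ p ∈ B, |α p| ≤ R0 ∧ |β p| ≤ R0)
    (hm : ∀ c1 c2 : ℝ, (B.filter (fun p => |α p - c1| ≤ ρ ∧ |β p - c2| ≤ ρ)).card ≤ m0)
    (hN : 1 / (N : ℝ) + R ≤ ρ) (hK : 1 / (K : ℝ) + R ≤ ρ) :
    Good N K (fun n k => (∑ p ∈ B, e (α p * n + β p * k)) * F n k)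
      (m0 * m) (B.card * A) (R0 + R) := by
  obtain ⟨ι, hι, Θ1, Θ2, h1, h2, h3, h4⟩ := hF
  refine ⟨{p // p ∈ B} × ι, inferInstance, fun x => α x.1 + Θ1 x.2, fun x => β x.1 + Θ2 x.2,
    ?_, ?_, ?_, ?_⟩
  · intro n k
    simp only
    rw [h1 n k, ← Finset.sum_coe_sort B (fun p => e (α p * n + β p * k)), Finset.sum_mul_sum,
      Fintype.sum_prod_type]
    refine Finset.sum_congr rfl fun p _ => Finset.sum_congr rfl fun i _ => ?_
    rw [← e_add_aux]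
    congr 1
    ring
  · intro c1 c2
    set T := (univ : Finset ({p // p ∈ B} × ι)).filter
      (fun x => |α x.1 + Θ1 x.2 - c1| ≤ 1 / (N : ℝ) ∧ |β x.1 + Θ2 x.2 - c2| ≤ 1 / (K : ℝ)) with hT
    have himg : (T.image (fun x => (x.1 : ℕ))) ⊆
        B.filter (fun p => |α p - c1| ≤ ρ ∧ |β p - c2| ≤ ρ) := by
      intro p hp
      obtain ⟨x, hx, rfl⟩ := Finset.mem_image.mp hp
      rw [hT, Finset.mem_filter] at hx
      obtain ⟨_, hx1, hx2⟩ := hx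
      obtain ⟨hb1, hb2⟩ := h3 x.2
      rw [Finset.mem_filter]
      refine ⟨x.1.2, ?_, ?_⟩
      · have : |α x.1 - c1| ≤ |α x.1 + Θ1 x.2 - c1| + |Θ1 x.2| := by
          have e1 : α x.1 - c1 = (α x.1 + Θ1 x.2 - c1) - Θ1 x.2 := by ring
          rw [e1]
          exact abs_sub _ _
        linarith
      · have : |β x.1 - c2| ≤ |β x.1 + Θ2 x.2 - c2| + |Θ2 x.2| := by
          have e1 : β x.1 - c2 = (β x.1 + Θ2 x.2 - c2) - Θ2 x.2 := by ring
          rw [e1]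
          exact abs_sub _ _
        linarith
    have hfib : ∀ p ∈ T.image (fun x => (x.1 : ℕ)),
        (T.filter (fun x => (x.1 : ℕ) = p)).card ≤ m := by
      intro p _
      refine le_trans ?_ (h2 (c1 - α p) (c2 - β p))
      refine Finset.card_le_card_of_injOn (fun x => x.2) ?_ ?_
      · intro x hx
        rw [Finset.mem_coe, Finset.mem_filter, hT, Finset.mem_filter] at hx
        obtain ⟨⟨_, hx1, hx2⟩, hxp⟩ := hx
        rw [Finset.mem_coe, Finset.mem_filter]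
        refine ⟨Finset.mem_univ _, ?_, ?_⟩
        · rw [← hxp]
          have e1 : Θ1 x.2 - (c1 - α x.1) = α x.1 + Θ1 x.2 - c1 := by ring
          rw [e1]; exact hx1
        · rw [← hxp]
          have e1 : Θ2 x.2 - (c2 - β x.1) = β x.1 + Θ2 x.2 - c2 := by ring
          rw [e1]; exact hx2
      · intro x hx y hy hxy
        rw [Finset.mem_coe, Finset.mem_filter] at hx hy
        have h5 : (x.1 : ℕ) = y.1 := hx.2.trans hy.2.symm
        exact Prod.ext (Subtype.ext h5) hxy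
    calc T.card ≤ m * (T.image (fun x => (x.1 : ℕ))).card :=
          Finset.card_le_mul_card_image _ _ hfib
      _ ≤ m * m0 := Nat.mul_le_mul_left m ((Finset.card_le_card himg).trans (hm c1 c2))
      _ = m0 * m := Nat.mul_comm _ _
  · intro x
    obtain ⟨hb1, hb2⟩ := h3 x.2
    obtain ⟨ha1, ha2⟩ := h0 x.1 x.1.2
    exact ⟨(abs_add_le _ _).trans (add_le_add ha1 hb1), (abs_add_le _ _).trans (add_le_add ha2 hb2)⟩
  · rw [Fintype.card_prod, Fintype.card_coe]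
    exact Nat.mul_le_mul_left _ h4

/-- lower bound for a difference of powers -/
theorem pow_sub_lower (u v : ℝ) (hv : 0 ≤ v) (hvu : v ≤ u) (i : ℕ) :
    (u - v) * u ^ i ≤ u ^ (i + 1) - v ^ (i + 1) := by
  have h : v ^ i ≤ u ^ i := pow_le_pow_left₀ hv hvu i
  have : u ^ (i + 1) - v ^ (i + 1) - (u - v) * u ^ i = v * (u ^ i - v ^ i) := by ring
  nlinarith [mul_nonneg hv (sub_nonneg.mpr h)]

/-- upper bound for a difference of powers -/
theorem pow_sub_upper (u v : ℝ) (hv : 0 ≤ v) (hvu : v ≤ u) (i : ℕ) :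
    u ^ (i + 1) - v ^ (i + 1) ≤ (i + 1) * u ^ i * (u - v) := by
  induction i with
  | zero => simp
  | succ k ih =>
    have hu : 0 ≤ u := hv.trans hvu
    have h : v ^ (k + 1) ≤ u ^ (k + 1) := pow_le_pow_left₀ hv hvu (k + 1)
    have e1 : u ^ (k + 1 + 1) - v ^ (k + 1 + 1) =
        u * (u ^ (k + 1) - v ^ (k + 1)) + (u - v) * v ^ (k + 1) := by ring
    rw [e1]
    have h1 : u * (u ^ (k + 1) - v ^ (k + 1)) ≤ u * ((k + 1) * u ^ k * (u - v)) :=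
      mul_le_mul_of_nonneg_left ih hu
    have h2 : (u - v) * v ^ (k + 1) ≤ (u - v) * u ^ (k + 1) :=
      mul_le_mul_of_nonneg_left h (sub_nonneg.mpr hvu)
    calc u * (u ^ (k + 1) - v ^ (k + 1)) + (u - v) * v ^ (k + 1)
        ≤ u * ((k + 1) * u ^ k * (u - v)) + (u - v) * u ^ (k + 1) := add_le_add h1 h2
      _ = ((k + 1 : ℕ) + 1) * u ^ (k + 1) * (u - v) := by push_cast; ring

/-- the one-coordinate spacing estimate -/
theorem spacing (P H J i i' : ℕ) (hi : 1 ≤ i)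
    (hii : i < i') (hi' : i' ≤ J + 1) (hH : 1 ≤ H) (hP : 2 * H * (J + 1) * 4 ^ J ≤ P)
    (a a' : ℤ) (ha : a ≠ 0) (ha' : |a'| ≤ H)
    (C : ℕ) (ρ : ℝ) (hρ : ρ ≤ C / (P : ℝ) ^ (i + 1)) (p q : ℕ) (hp : p ∈ Ioc P (4 * P))
    (hq : q ∈ Ioc P (4 * P)) (hpq : p < q)
    (h : |((a : ℝ) / (p : ℝ) ^ i + (a' : ℝ) / (p : ℝ) ^ i') -
      ((a : ℝ) / (q : ℝ) ^ i + (a' : ℝ) / (q : ℝ) ^ i')| ≤ 2 * ρ) :
    q ≤ p + 4 * C * 4 ^ (J + 1) := by
  rw [Finset.mem_Ioc] at hp hq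
  have hP0 : 0 < P := by
    rcases Nat.eq_zero_or_pos P with h0 | h0
    · subst h0; omega
    · exact h0
  have hPr : (0 : ℝ) < P := by exact_mod_cast hP0
  have hpr : (0 : ℝ) < p := by
    have : 0 < p := lt_trans hP0 hp.1
    exact_mod_cast this
  have hqr : (0 : ℝ) < q := by
    have : 0 < q := lt_trans hP0 hq.1
    exact_mod_cast this
  have hpq' : (p : ℝ) < q := by exact_mod_cast hpq
  set u : ℝ := (p : ℝ)⁻¹ with hu
  set v : ℝ := (q : ℝ)⁻¹ with hv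
  have hu0 : 0 < u := inv_pos.mpr hpr
  have hv0 : 0 < v := inv_pos.mpr hqr
  have hvu : v < u := by
    rw [hu, hv]; exact (inv_lt_inv₀ hqr hpr).mpr hpq'
  have hform : ((a : ℝ) / (p : ℝ) ^ i + (a' : ℝ) / (p : ℝ) ^ i') -
      ((a : ℝ) / (q : ℝ) ^ i + (a' : ℝ) / (q : ℝ) ^ i') =
      a * (u ^ i - v ^ i) + a' * (u ^ i' - v ^ i') := by
    rw [hu, hv]
    simp only [inv_pow, div_eq_mul_inv]
    ring
  rw [hform] at h
  obtain ⟨i0, rfl⟩ : ∃ i0, i = i0 + 1 := ⟨i - 1, by omega⟩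
  obtain ⟨j0, rfl⟩ : ∃ j0, i' = j0 + 1 := ⟨i' - 1, by omega⟩
  have hX0 : 0 ≤ u ^ (i0 + 1) - v ^ (i0 + 1) :=
    sub_nonneg.mpr (pow_le_pow_left₀ hv0.le hvu.le _)
  have hY0 : 0 ≤ u ^ (j0 + 1) - v ^ (j0 + 1) :=
    sub_nonneg.mpr (pow_le_pow_left₀ hv0.le hvu.le _)
  have ha1 : (1 : ℝ) ≤ |(a : ℝ)| := by
    have : (1 : ℤ) ≤ |a| := Int.one_le_abs ha
    exact_mod_cast this
  have ha'1 : |(a' : ℝ)| ≤ H := by exact_mod_cast ha'
  have hlow : (u ^ (i0 + 1) - v ^ (i0 + 1)) - H * (u ^ (j0 + 1) - v ^ (j0 + 1)) ≤ 2 * ρ := by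
    have h1 : |(a : ℝ) * (u ^ (i0 + 1) - v ^ (i0 + 1))| -
        |(a' : ℝ) * (u ^ (j0 + 1) - v ^ (j0 + 1))| ≤
        |(a : ℝ) * (u ^ (i0 + 1) - v ^ (i0 + 1)) + a' * (u ^ (j0 + 1) - v ^ (j0 + 1))| := by
      have := abs_sub_abs_le_abs_sub ((a : ℝ) * (u ^ (i0 + 1) - v ^ (i0 + 1)))
        (-((a' : ℝ) * (u ^ (j0 + 1) - v ^ (j0 + 1))))
      rwa [abs_neg, sub_neg_eq_add] at this
    rw [abs_mul, abs_mul, abs_of_nonneg hX0, abs_of_nonneg hY0] at h1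
    have h2 : u ^ (i0 + 1) - v ^ (i0 + 1) ≤ |(a : ℝ)| * (u ^ (i0 + 1) - v ^ (i0 + 1)) :=
      le_mul_of_one_le_left hX0 ha1
    have h3 : |(a' : ℝ)| * (u ^ (j0 + 1) - v ^ (j0 + 1)) ≤ H * (u ^ (j0 + 1) - v ^ (j0 + 1)) :=
      mul_le_mul_of_nonneg_right ha'1 hY0
    linarith
  have huP : u ≤ (P : ℝ)⁻¹ := by
    rw [hu]
    apply (inv_le_inv₀ hpr hPr).mpr
    have := hp.1.le
    exact_mod_cast this
  have hu1 : u ≤ 1 := by
    refine huP.trans ?_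
    apply inv_le_one_of_one_le₀
    exact_mod_cast hP0
  have hu4 : ((4 : ℝ) * P)⁻¹ ≤ u := by
    rw [hu]
    apply (inv_le_inv₀ (by positivity) hpr).mpr
    have := hp.2
    exact_mod_cast this
  have hlowX : (u - v) * ((4 : ℝ) * P)⁻¹ ^ i0 ≤ u ^ (i0 + 1) - v ^ (i0 + 1) := by
    refine le_trans ?_ (pow_sub_lower u v hv0.le hvu.le i0)
    apply mul_le_mul_of_nonneg_left _ (sub_nonneg.mpr hvu.le)
    exact pow_le_pow_left₀ (by positivity) hu4 i0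
  have hupY : H * (u ^ (j0 + 1) - v ^ (j0 + 1)) ≤ 1 / 2 * ((u - v) * ((4 : ℝ) * P)⁻¹ ^ i0) := by
    have h1 := pow_sub_upper u v hv0.le hvu.le j0
    have h2 : u ^ j0 ≤ (P : ℝ)⁻¹ ^ (i0 + 1) := by
      calc u ^ j0 ≤ u ^ (i0 + 1) := pow_le_pow_of_le_one hu0.le hu1 (by omega)
        _ ≤ (P : ℝ)⁻¹ ^ (i0 + 1) := pow_le_pow_left₀ hu0.le huP _
    have h3 : ((j0 : ℝ) + 1) ≤ (J : ℝ) + 1 := by
      have : j0 ≤ J := by omega
      have : (j0 : ℝ) ≤ J := by exact_mod_cast this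
      linarith
    have h4 : u ^ (j0 + 1) - v ^ (j0 + 1) ≤ ((J : ℝ) + 1) * (P : ℝ)⁻¹ ^ (i0 + 1) * (u - v) := by
      refine h1.trans ?_
      apply mul_le_mul_of_nonneg_right _ (sub_nonneg.mpr hvu.le)
      exact mul_le_mul h3 h2 (by positivity) (by positivity)
    have h5 : (2 : ℝ) * H * (J + 1) * 4 ^ i0 ≤ P := by
      have h6 : 2 * H * (J + 1) * 4 ^ i0 ≤ P := by
        refine le_trans ?_ hP
        apply Nat.mul_le_mul_left
        exact Nat.pow_le_pow_right (by norm_num) (by omega)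
      exact_mod_cast h6
    have h7 : (H : ℝ) * (((J : ℝ) + 1) * (P : ℝ)⁻¹ ^ (i0 + 1)) ≤ 1 / 2 * ((4 : ℝ) * P)⁻¹ ^ i0 := by
      have e1 : (H : ℝ) * (((J : ℝ) + 1) * (P : ℝ)⁻¹ ^ (i0 + 1)) =
          1 / 2 * ((4 : ℝ) * P)⁻¹ ^ i0 * ((2 * H * (J + 1) * 4 ^ i0) * (P : ℝ)⁻¹) := by
        rw [pow_succ, mul_inv, mul_pow]
        have h4i : (4 : ℝ)⁻¹ ^ i0 * 4 ^ i0 = 1 := by
          rw [← mul_pow]; norm_num
        calc (H : ℝ) * (((J : ℝ) + 1) * ((P : ℝ)⁻¹ ^ i0 * (P : ℝ)⁻¹))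
            = (H : ℝ) * (((J : ℝ) + 1) * ((P : ℝ)⁻¹ ^ i0 * (P : ℝ)⁻¹)) * 1 := by ring
          _ = (H : ℝ) * (((J : ℝ) + 1) * ((P : ℝ)⁻¹ ^ i0 * (P : ℝ)⁻¹)) * ((4 : ℝ)⁻¹ ^ i0 * 4 ^ i0) := by
              rw [h4i]
          _ = _ := by ring
      rw [e1]
      have h8 : (2 * (H : ℝ) * (J + 1) * 4 ^ i0) * (P : ℝ)⁻¹ ≤ 1 := by
        rw [← div_eq_mul_inv, div_le_one hPr]
        exact h5
      have h9 : 0 ≤ 1 / 2 * ((4 : ℝ) * P)⁻¹ ^ i0 := by positivity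
      calc 1 / 2 * ((4 : ℝ) * P)⁻¹ ^ i0 * ((2 * H * (J + 1) * 4 ^ i0) * (P : ℝ)⁻¹)
          ≤ 1 / 2 * ((4 : ℝ) * P)⁻¹ ^ i0 * 1 := mul_le_mul_of_nonneg_left h8 h9
        _ = 1 / 2 * ((4 : ℝ) * P)⁻¹ ^ i0 := mul_one _
    calc (H : ℝ) * (u ^ (j0 + 1) - v ^ (j0 + 1))
        ≤ H * (((J : ℝ) + 1) * (P : ℝ)⁻¹ ^ (i0 + 1) * (u - v)) :=
          mul_le_mul_of_nonneg_left h4 (by positivity)
      _ = (H * (((J : ℝ) + 1) * (P : ℝ)⁻¹ ^ (i0 + 1))) * (u - v) := by ring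
      _ ≤ (1 / 2 * ((4 : ℝ) * P)⁻¹ ^ i0) * (u - v) :=
          mul_le_mul_of_nonneg_right h7 (sub_nonneg.mpr hvu.le)
      _ = 1 / 2 * ((u - v) * ((4 : ℝ) * P)⁻¹ ^ i0) := by ring
  have hmain : 1 / 2 * ((u - v) * ((4 : ℝ) * P)⁻¹ ^ i0) ≤ 2 * ρ := by linarith
  have huv : ((q : ℝ) - p) / (16 * (P : ℝ) ^ 2) ≤ u - v := by
    have e1 : u - v = ((q : ℝ) - p) / (p * q) := by
      rw [hu, hv]
      field_simp
    rw [e1]
    apply div_le_div_of_nonneg_left (by linarith) (by positivity)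
    have h1 : (p : ℝ) ≤ 4 * P := by exact_mod_cast hp.2
    have h2 : (q : ℝ) ≤ 4 * P := by exact_mod_cast hq.2
    calc (p : ℝ) * q ≤ (4 * P) * (4 * P) := mul_le_mul h1 h2 hqr.le (by positivity)
      _ = 16 * (P : ℝ) ^ 2 := by ring
  have hfin : (q : ℝ) - p ≤ 4 * C * 4 ^ (i0 + 1 + 1) := by
    have h1 : 1 / 2 * (((q : ℝ) - p) / (16 * (P : ℝ) ^ 2) * ((4 : ℝ) * P)⁻¹ ^ i0) ≤
        2 * (C / (P : ℝ) ^ (i0 + 1 + 1)) := by
      have h2 : ((q : ℝ) - p) / (16 * (P : ℝ) ^ 2) * ((4 : ℝ) * P)⁻¹ ^ i0 ≤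
          (u - v) * ((4 : ℝ) * P)⁻¹ ^ i0 := mul_le_mul_of_nonneg_right huv (by positivity)
      linarith
    have h3 : (q : ℝ) - p = (1 / 2 * (((q : ℝ) - p) / (16 * (P : ℝ) ^ 2) * ((4 : ℝ) * P)⁻¹ ^ i0))
        * (2 * 16 * (P : ℝ) ^ 2 * (4 * P) ^ i0) := by
      rw [inv_pow]
      field_simp
    rw [h3]
    calc (1 / 2 * (((q : ℝ) - p) / (16 * (P : ℝ) ^ 2) * ((4 : ℝ) * P)⁻¹ ^ i0))
        * (2 * 16 * (P : ℝ) ^ 2 * (4 * P) ^ i0)
        ≤ (2 * (C / (P : ℝ) ^ (i0 + 1 + 1))) * (2 * 16 * (P : ℝ) ^ 2 * (4 * P) ^ i0) :=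
          mul_le_mul_of_nonneg_right h1 (by positivity)
      _ = 4 * C * 4 ^ (i0 + 1 + 1) := by
          rw [mul_pow]
          field_simp
          ring
  have hfin' : (q : ℝ) ≤ ((p + 4 * C * 4 ^ (i0 + 1 + 1) : ℕ) : ℝ) := by
    push_cast
    linarith
  have hfin'' : q ≤ p + 4 * C * 4 ^ (i0 + 1 + 1) := by exact_mod_cast hfin'
  refine hfin''.trans ?_
  apply Nat.add_le_add_left
  apply Nat.mul_le_mul_left
  exact Nat.pow_le_pow_right (by norm_num) (by omega)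

/-- spacing of the frequencies of one low scale factor -/
theorem low_mult (P H J i i' : ℕ) (B : Finset ℕ) (hB : B ⊆ Ioc P (4 * P)) (hi : 1 ≤ i)
    (hii : i < i') (hi' : i' ≤ J + 1) (hH : 1 ≤ H) (hP : 2 * H * (J + 1) * 4 ^ J ≤ P)
    (a b a' b' : ℤ) (hab : a ≠ 0 ∨ b ≠ 0) (ha' : |a'| ≤ H) (hb' : |b'| ≤ H)
    (C : ℕ) (ρ : ℝ) (hρ : ρ ≤ C / (P : ℝ) ^ (i + 1)) (c1 c2 : ℝ) :
    (B.filter (fun p : ℕ =>
      |((a : ℝ) / (p : ℝ) ^ i + (a' : ℝ) / (p : ℝ) ^ i') - c1| ≤ ρ ∧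
      |((b : ℝ) / (p : ℝ) ^ i + (b' : ℝ) / (p : ℝ) ^ i') - c2| ≤ ρ)).card
      ≤ 4 * C * 4 ^ (J + 1) + 1 := by
  set T := B.filter (fun p : ℕ =>
      |((a : ℝ) / (p : ℝ) ^ i + (a' : ℝ) / (p : ℝ) ^ i') - c1| ≤ ρ ∧
      |((b : ℝ) / (p : ℝ) ^ i + (b' : ℝ) / (p : ℝ) ^ i') - c2| ≤ ρ) with hT
  have hpair : ∀ p ∈ T, ∀ q ∈ T, p < q → q ≤ p + 4 * C * 4 ^ (J + 1) := by
    intro p hp q hq hpq
    rw [hT, Finset.mem_filter] at hp hq
    obtain ⟨hpB, hp1, hp2⟩ := hp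
    obtain ⟨hqB, hq1, hq2⟩ := hq
    rcases hab with ha | hb
    · refine spacing P H J i i' hi hii hi' hH hP a a' ha ha' C ρ hρ p q (hB hpB) (hB hqB) hpq ?_
      calc _ = |(((a : ℝ) / (p : ℝ) ^ i + (a' : ℝ) / (p : ℝ) ^ i') - c1) -
            (((a : ℝ) / (q : ℝ) ^ i + (a' : ℝ) / (q : ℝ) ^ i') - c1)| := by congr 1; ring
        _ ≤ _ := abs_sub _ _
        _ ≤ 2 * ρ := by linarith
    · refine spacing P H J i i' hi hii hi' hH hP b b' hb hb' C ρ hρ p q (hB hpB) (hB hqB) hpq ?_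
      calc _ = |(((b : ℝ) / (p : ℝ) ^ i + (b' : ℝ) / (p : ℝ) ^ i') - c2) -
            (((b : ℝ) / (q : ℝ) ^ i + (b' : ℝ) / (q : ℝ) ^ i') - c2)| := by congr 1; ring
        _ ≤ _ := abs_sub _ _
        _ ≤ 2 * ρ := by linarith
  rcases T.eq_empty_or_nonempty with h0 | hne
  · rw [h0]; simp
  · have hsub : T ⊆ Finset.Icc (T.min' hne) (T.min' hne + 4 * C * 4 ^ (J + 1)) := by
      intro q hq
      rw [Finset.mem_Icc]
      refine ⟨T.min'_le q hq, ?_⟩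
      rcases (T.min'_le q hq).lt_or_eq with hlt | heq
      · exact hpair _ (T.min'_mem hne) q hq hlt
      · rw [← heq]; exact Nat.le_add_right _ _
    calc T.card ≤ (Finset.Icc (T.min' hne) (T.min' hne + 4 * C * 4 ^ (J + 1))).card :=
          Finset.card_le_card hsub
      _ = 4 * C * 4 ^ (J + 1) + 1 := by
          rw [Nat.card_Icc]; omega

/-- multiply a top family by the low scale factors of types `i ∈ S` -/
theorem chain (N K P H J : ℕ) (B : Finset ℕ) (hB : B ⊆ Ioc P (4 * P)) (hH : 1 ≤ H)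
    (hP : 2 * H * (J + 1) * 4 ^ J ≤ P) (hPK : P ^ (J + 1) ≤ K) (hKN : K ≤ N)
    (F : ℕ → ℕ → ℂ) (m A : ℕ) (R : ℝ) (hF : Good N K F m A R)
    (hR : R ≤ 4 * H / (P : ℝ) ^ (J + 1)) (S : Finset ℕ) (hS : S ⊆ Icc 1 J)
    (i' : ℕ → ℕ) (a b a' b' : ℕ → ℤ) (hi' : ∀ i ∈ S, i < i' i ∧ i' i ≤ J + 1)
    (hab : ∀ i ∈ S, a i ≠ 0 ∨ b i ≠ 0)
    (hbd : ∀ i ∈ S, |a i| ≤ H ∧ |b i| ≤ H ∧ |a' i| ≤ H ∧ |b' i| ≤ H) :
    Good N K (fun n k => (∏ i ∈ S, ∑ p ∈ B,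
        e (((a i : ℝ) / (p : ℝ) ^ i + (a' i : ℝ) / (p : ℝ) ^ (i' i)) * n
          + ((b i : ℝ) / (p : ℝ) ^ i + (b' i : ℝ) / (p : ℝ) ^ (i' i)) * k)) * F n k)
      ((4 * (4 * H + 1) * 4 ^ (J + 1) + 1) ^ S.card * m) (B.card ^ S.card * A)
      (4 * H / (P : ℝ)) := by
  have hJ1 : 1 ≤ (J + 1) * 4 ^ J := Nat.one_le_iff_ne_zero.mpr (by positivity)
  have hP2 : 2 ≤ P := by
    calc 2 = 2 * 1 * 1 := by norm_num
      _ ≤ 2 * H * ((J + 1) * 4 ^ J) := Nat.mul_le_mul (Nat.mul_le_mul_left 2 hH) hJ1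
      _ = 2 * H * (J + 1) * 4 ^ J := by ring
      _ ≤ P := hP
  have hPr : (0 : ℝ) < P := by
    have : 0 < P := by omega
    exact_mod_cast this
  have hP2r : (2 : ℝ) ≤ P := by exact_mod_cast hP2
  have hHr : (0 : ℝ) ≤ H := by positivity
  have hKr : (P : ℝ) ^ (J + 1) ≤ K := by exact_mod_cast hPK
  have hK0 : (0 : ℝ) < K := lt_of_lt_of_le (by positivity) hKr
  have hNr : (K : ℝ) ≤ N := by exact_mod_cast hKN
  have hN0 : (0 : ℝ) < N := lt_of_lt_of_le hK0 hNr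
  have key : ∀ t : ℕ, ∀ j : ℕ, 1 ≤ j → j + t = J + 1 →
      Good N K (fun n k => (∏ i ∈ S.filter (fun i => j ≤ i), ∑ p ∈ B,
        e (((a i : ℝ) / (p : ℝ) ^ i + (a' i : ℝ) / (p : ℝ) ^ (i' i)) * n
          + ((b i : ℝ) / (p : ℝ) ^ i + (b' i : ℝ) / (p : ℝ) ^ (i' i)) * k)) * F n k)
      ((4 * (4 * H + 1) * 4 ^ (J + 1) + 1) ^ (S.filter (fun i => j ≤ i)).card * m)
      (B.card ^ (S.filter (fun i => j ≤ i)).card * A)
      (4 * H / (P : ℝ) ^ j) := by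
    intro t
    induction t with
    | zero =>
      intro j hj hjt
      have hjJ : j = J + 1 := by omega
      subst hjJ
      have hemp : S.filter (fun i => J + 1 ≤ i) = ∅ := by
        apply Finset.filter_eq_empty_iff.mpr
        intro i hi
        have := (Finset.mem_Icc.mp (hS hi)).2
        omega
      rw [hemp]
      simp only [Finset.prod_empty, one_mul, Finset.card_empty, pow_zero]
      exact hF.mono le_rfl le_rfl hR
    | succ t ih =>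
      intro j hj hjt
      have ih' := ih (j + 1) (by omega) (by omega)
      have hRmono : 4 * (H : ℝ) / (P : ℝ) ^ (j + 1) ≤ 4 * H / (P : ℝ) ^ j := by
        apply div_le_div_of_nonneg_left (by positivity) (by positivity)
        exact pow_le_pow_right₀ (by linarith) (Nat.le_succ j)
      by_cases hjS : j ∈ S
      · have hins : S.filter (fun i => j ≤ i) = insert j (S.filter (fun i => j + 1 ≤ i)) := by
          ext x
          simp only [Finset.mem_filter, Finset.mem_insert]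
          constructor
          · rintro ⟨hx, hjx⟩
            rcases hjx.eq_or_lt with h | h
            · left; exact h.symm
            · right; exact ⟨hx, h⟩
          · rintro (h | ⟨hx, h⟩)
            · subst h; exact ⟨hjS, le_rfl⟩
            · exact ⟨hx, by omega⟩
        have hnot : j ∉ S.filter (fun i => j + 1 ≤ i) := by
          simp only [Finset.mem_filter, not_and]
          intro _; omega
        rw [hins, Finset.card_insert_of_notMem hnot]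
        simp only [Finset.prod_insert hnot]
        obtain ⟨hii, hiJ⟩ := hi' j hjS
        obtain ⟨hA1, hB1, hA2, hB2⟩ := hbd j hjS
        have hcoef : ∀ (x x' : ℤ), |x| ≤ H → |x'| ≤ H → ∀ p ∈ B,
            |(x : ℝ) / (p : ℝ) ^ j + (x' : ℝ) / (p : ℝ) ^ (i' j)| ≤ 2 * H / (P : ℝ) ^ j := by
          intro x x' hx hx' p hp
          have hp1 := Finset.mem_Ioc.mp (hB hp)
          have hpP : (P : ℝ) ≤ p := by exact_mod_cast hp1.1.le
          have hp0 : (0 : ℝ) < p := lt_of_lt_of_le hPr hpP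
          have hxr : |(x : ℝ)| ≤ H := by exact_mod_cast hx
          have hxr' : |(x' : ℝ)| ≤ H := by exact_mod_cast hx'
          have h1 : |(x : ℝ) / (p : ℝ) ^ j| ≤ H / (P : ℝ) ^ j := by
            rw [abs_div, abs_of_pos (pow_pos hp0 j)]
            exact div_le_div₀ hHr hxr (by positivity) (pow_le_pow_left₀ hPr.le hpP j)
          have h2 : |(x' : ℝ) / (p : ℝ) ^ (i' j)| ≤ H / (P : ℝ) ^ j := by
            rw [abs_div, abs_of_pos (pow_pos hp0 _)]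
            apply div_le_div₀ hHr hxr' (by positivity)
            calc (P : ℝ) ^ j ≤ (p : ℝ) ^ j := pow_le_pow_left₀ hPr.le hpP j
              _ ≤ (p : ℝ) ^ (i' j) := pow_le_pow_right₀ (by linarith) hii.le
          calc _ ≤ |(x : ℝ) / (p : ℝ) ^ j| + |(x' : ℝ) / (p : ℝ) ^ (i' j)| := abs_add_le _ _
            _ ≤ H / (P : ℝ) ^ j + H / (P : ℝ) ^ j := add_le_add h1 h2
            _ = 2 * H / (P : ℝ) ^ j := by ring
        have hKρ : 1 / (K : ℝ) + 4 * H / (P : ℝ) ^ (j + 1) ≤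
            ((4 * H + 1 : ℕ) : ℝ) / (P : ℝ) ^ (j + 1) := by
          have h1 : 1 / (K : ℝ) ≤ 1 / (P : ℝ) ^ (j + 1) := by
            apply one_div_le_one_div_of_le (by positivity)
            refine le_trans ?_ hKr
            exact pow_le_pow_right₀ (by linarith) (by omega)
          have e1 : ((4 * H + 1 : ℕ) : ℝ) / (P : ℝ) ^ (j + 1) =
              4 * H / (P : ℝ) ^ (j + 1) + 1 / (P : ℝ) ^ (j + 1) := by
            push_cast
            ring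
          rw [e1]; linarith
        have hNρ : 1 / (N : ℝ) + 4 * H / (P : ℝ) ^ (j + 1) ≤
            ((4 * H + 1 : ℕ) : ℝ) / (P : ℝ) ^ (j + 1) := by
          refine le_trans ?_ hKρ
          have : 1 / (N : ℝ) ≤ 1 / (K : ℝ) := one_div_le_one_div_of_le hK0 hNr
          linarith
        have hmul := Good.mul (m0 := 4 * (4 * H + 1) * 4 ^ (J + 1) + 1)
          (R0 := 2 * H / (P : ℝ) ^ j) (ρ := ((4 * H + 1 : ℕ) : ℝ) / (P : ℝ) ^ (j + 1)) ih' B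
          (fun p => (a j : ℝ) / (p : ℝ) ^ j + (a' j : ℝ) / (p : ℝ) ^ (i' j))
          (fun p => (b j : ℝ) / (p : ℝ) ^ j + (b' j : ℝ) / (p : ℝ) ^ (i' j))
          (fun p hp => ⟨hcoef _ _ hA1 hA2 p hp, hcoef _ _ hB1 hB2 p hp⟩)
          (fun c1 c2 => low_mult P H J j (i' j) B hB hj hii hiJ hH hP _ _ _ _ (hab j hjS)
            hA2 hB2 (4 * H + 1) _ le_rfl c1 c2) hNρ hKρ
        have hmul2 := hmul.mono (R' := 4 * H / (P : ℝ) ^ j) (m' := (4 * (4 * H + 1) * 4 ^ (J + 1) + 1) ^ ((S.filter (fun i => j + 1 ≤ i)).card + 1) * m)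
          (A' := B.card ^ ((S.filter (fun i => j + 1 ≤ i)).card + 1) * A)
          (by rw [pow_succ]; apply le_of_eq; ring) (by rw [pow_succ]; apply le_of_eq; ring) (by
            have h1 : 4 * (H : ℝ) / (P : ℝ) ^ (j + 1) ≤ 2 * H / (P : ℝ) ^ j := by
              rw [pow_succ, div_le_div_iff₀ (by positivity) (by positivity)]
              have : 0 ≤ (H : ℝ) * (P : ℝ) ^ j := by positivity
              nlinarith
            have e1 : 4 * (H : ℝ) / (P : ℝ) ^ j = 2 * H / (P : ℝ) ^ j + 2 * H / (P : ℝ) ^ j := by ring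
            rw [e1]; linarith)
        have heq : (fun n k : ℕ => ((∑ p ∈ B,
            e (((a j : ℝ) / (p : ℝ) ^ j + (a' j : ℝ) / (p : ℝ) ^ (i' j)) * n
              + ((b j : ℝ) / (p : ℝ) ^ j + (b' j : ℝ) / (p : ℝ) ^ (i' j)) * k)) *
            (∏ i ∈ S.filter (fun i => j + 1 ≤ i), ∑ p ∈ B,
            e (((a i : ℝ) / (p : ℝ) ^ i + (a' i : ℝ) / (p : ℝ) ^ (i' i)) * n
              + ((b i : ℝ) / (p : ℝ) ^ i + (b' i : ℝ) / (p : ℝ) ^ (i' i)) * k))) * F n k) =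
            (fun n k : ℕ => (∑ p ∈ B,
            e (((a j : ℝ) / (p : ℝ) ^ j + (a' j : ℝ) / (p : ℝ) ^ (i' j)) * n
              + ((b j : ℝ) / (p : ℝ) ^ j + (b' j : ℝ) / (p : ℝ) ^ (i' j)) * k)) *
            ((∏ i ∈ S.filter (fun i => j + 1 ≤ i), ∑ p ∈ B,
            e (((a i : ℝ) / (p : ℝ) ^ i + (a' i : ℝ) / (p : ℝ) ^ (i' i)) * n
              + ((b i : ℝ) / (p : ℝ) ^ i + (b' i : ℝ) / (p : ℝ) ^ (i' i)) * k)) * F n k)) := by
          funext n k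
          rw [mul_assoc]
        rw [heq]
        exact hmul2
      · have hsame : S.filter (fun i => j ≤ i) = S.filter (fun i => j + 1 ≤ i) := by
          ext x
          simp only [Finset.mem_filter]
          constructor
          · rintro ⟨hx, hjx⟩
            refine ⟨hx, ?_⟩
            rcases hjx.eq_or_lt with h | h
            · subst h; exact absurd hx hjS
            · exact h
          · rintro ⟨hx, h⟩
            exact ⟨hx, by omega⟩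
        rw [hsame]
        exact ih'.mono le_rfl le_rfl hRmono
  have hfin := key J 1 le_rfl (by omega)
  have hall : S.filter (fun i => 1 ≤ i) = S := by
    apply Finset.filter_true_of_mem
    intro i hi
    exact (Finset.mem_Icc.mp (hS hi)).1
  rw [hall, pow_one] at hfin
  exact hfin

end Pool.Agent.Helper530.Sq
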