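import Pool.Agent.Helper530.Sq.Base

namespace Pool.Agent.Helper530.Sq


open Finset

/-- Chebyshev: many primes in `(P, 4P]`. -/
theorem primes_window : ∃ P0 : ℕ, ∀ P : ℕ, P0 ≤ P →
    (P : ℝ) / Real.log (4 * P) ≤ (((Ioc P (4 * P)).filter Nat.Prime).card : ℝ) := by
  have h0 : ∀ᶠ x : ℝ in Filter.atTop, ‖Real.log x‖ ≤ (1 / 50 : ℝ) * ‖x ^ (1 / 2 : ℝ)‖ :=
    (isLittleO_log_rpow_atTop (by norm_num : (0 : ℝ) < 1 / 2)).bound (by norm_num)
  obtain ⟨X, hX⟩ := Filter.eventually_atTop.1 h0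
  refine ⟨⌈max X 2⌉₊, fun P hP => ?_⟩
  have hPX : max X 2 ≤ (P : ℝ) := (Nat.le_ceil _).trans (by exact_mod_cast hP)
  have hP2 : (2 : ℝ) ≤ P := (le_max_right _ _).trans hPX
  have hP2' : 2 ≤ P := by exact_mod_cast hP2
  have h4P : X ≤ 4 * (P : ℝ) := by
    have := (le_max_left X 2).trans hPX
    linarith
  have h1 := hX _ h4P
  set x : ℝ := 4 * (P : ℝ) with hx
  have hx8 : 8 ≤ x := by rw [hx]; linarith
  have hlog : 0 < Real.log x := Real.log_pos (by linarith)
  rw [← Real.sqrt_eq_rpow, Real.norm_of_nonneg hlog.le, Real.norm_of_nonneg (Real.sqrt_nonneg x)] at h1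
  have h2 := Chebyshev.theta_ge (4 * P)
  have hcast : ((4 * P : ℕ) : ℝ) = x := by rw [hx]; push_cast; ring
  rw [hcast] at h2
  have h3 := Chebyshev.theta_le_log4_mul_x (x := (P : ℝ)) (by positivity)
  have hlog4 : Real.log 4 = 2 * Real.log 2 := by
    rw [show (4 : ℝ) = 2 ^ 2 by norm_num, Real.log_pow]; norm_num
  rw [hlog4] at h3
  have hl2 := Real.log_two_gt_d9
  have hs1 : 1 ≤ Real.sqrt x := by
    rw [Real.one_le_sqrt]; linarith
  have hs2 : Real.sqrt x * Real.sqrt x = x := Real.mul_self_sqrt (by linarith)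
  have h4 : Real.log (x + 1) ≤ 2 * Real.log x := by
    have : Real.log (x + 1) ≤ Real.log (x ^ 2) := Real.log_le_log (by linarith) (by nlinarith)
    rwa [Real.log_pow] at this
  have h5 : Real.sqrt x * Real.log x ≤ (1 / 50) * x := by
    calc Real.sqrt x * Real.log x ≤ Real.sqrt x * ((1 / 50) * Real.sqrt x) := by gcongr
      _ = (1 / 50) * (Real.sqrt x * Real.sqrt x) := by ring
      _ = (1 / 50) * x := by rw [hs2]
  have h6 : 2 * Real.log x ≤ 2 * (Real.sqrt x * Real.log x) := by nlinarith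
  have h7 : (P : ℝ) ≤ Chebyshev.theta x - Chebyshev.theta P := by
    have : x * Real.log 2 = 2 * (2 * Real.log 2 * (P : ℝ)) := by rw [hx]; ring
    nlinarith
  have h8 : Chebyshev.theta x - Chebyshev.theta P =
      ∑ p ∈ (Ioc P (4 * P)).filter Nat.Prime, Real.log p := by
    rw [← hcast, Chebyshev.theta, Chebyshev.theta, Nat.floor_natCast, Nat.floor_natCast,
      sub_eq_iff_eq_add]
    rw [Finset.sum_filter, Finset.sum_filter, Finset.sum_filter, add_comm]
    exact (Finset.sum_Ioc_consecutive _ (Nat.zero_le _) (by omega)).symm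
  have h9 : ∑ p ∈ (Ioc P (4 * P)).filter Nat.Prime, Real.log p ≤
      (((Ioc P (4 * P)).filter Nat.Prime).card : ℝ) * Real.log x := by
    rw [← nsmul_eq_mul]
    apply Finset.sum_le_card_nsmul
    intro p hp
    rw [Finset.mem_filter, Finset.mem_Ioc] at hp
    apply Real.log_le_log
    · exact_mod_cast hp.2.pos
    · rw [← hcast]; exact_mod_cast hp.1.2
  rw [div_le_iff₀ hlog]
  linarith

theorem prime_card_lt (P N j : ℕ) (hP : 2 ≤ P) (hN : 0 < N) (hNj : N < P ^ j) (S : Finset ℕ)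
    (hS : ∀ p ∈ S, p.Prime ∧ P < p ∧ p ∣ N) : S.card ≤ j := by
  have h1 : ∏ p ∈ S, p ∣ N :=
    Finset.prod_primes_dvd N (fun p hp => (hS p hp).1.prime) (fun p hp => (hS p hp).2.2)
  have h2 := Nat.le_of_dvd hN h1
  have h3 : P ^ S.card ≤ ∏ p ∈ S, p := by
    rw [← Finset.prod_const]
    exact Finset.prod_le_prod' fun p hp => (hS p hp).2.1.le
  have h4 : P ^ S.card < P ^ j := by omega
  exact ((Nat.pow_lt_pow_iff_right (by omega)).1 h4).le

open Classical in
/-- few primes `p` in `(P,4P]` have `z / p` close to an integer -/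
theorem generic_one_aux (P z j : ℕ) (η : ℝ) (hP : 2 ≤ P) (hη : 0 < η) (hz : 4 * η * P < z)
    (hj : 2 * z ≤ P ^ j) :
    ((((Ioc P (4 * P)).filter Nat.Prime).filter
      (fun p : ℕ => ∃ m : ℤ, |(z : ℝ) / p - m| < η)).card : ℝ) ≤ j * (8 * η * P + 1) := by
  set S := ((Ioc P (4 * P)).filter Nat.Prime).filter
      (fun p : ℕ => ∃ m : ℤ, |(z : ℝ) / p - m| < η) with hS
  have hPpos : (0 : ℝ) < P := by exact_mod_cast (by omega : 0 < P)
  set x : ℝ := 4 * η * P with hx
  have hxpos : 0 < x := by positivity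
  set K : ℤ := ⌈x⌉ - 1 with hK
  have hKx : (K : ℝ) < x := by
    rw [hK]; push_cast
    have := Int.ceil_lt_add_one x
    linarith
  have hK0 : 0 ≤ K := by
    have : 0 < ⌈x⌉ := Int.ceil_pos.2 hxpos
    omega
  have hsub : S ⊆ (Finset.Icc (-K) K).biUnion (fun r => S.filter (fun p : ℕ => (p : ℤ) ∣ (z : ℤ) - r)) := by
    intro p hp
    rw [Finset.mem_biUnion]
    have hp' := hp
    rw [hS, Finset.mem_filter, Finset.mem_filter, Finset.mem_Ioc] at hp'
    obtain ⟨⟨⟨hp1, hp2⟩, hp3⟩, m, hm⟩ := hp'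
    have hp0 : (0 : ℝ) < p := by exact_mod_cast hp3.pos
    have hr : |((z : ℤ) - m * p : ℤ)| ≤ K := by
      have h1 : |(((z : ℤ) - m * p : ℤ) : ℝ)| < x := by
        have h2 : (((z : ℤ) - m * p : ℤ) : ℝ) = p * ((z : ℝ) / p - m) := by
          push_cast
          field_simp
        rw [h2, abs_mul, abs_of_pos hp0]
        calc (p : ℝ) * |(z : ℝ) / p - m| < p * η := by gcongr
          _ ≤ (4 * P) * η := by
            have : (p : ℝ) ≤ 4 * P := by exact_mod_cast hp2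
            gcongr
          _ = x := by rw [hx]; ring
      have h3 : (|((z : ℤ) - m * p : ℤ)| : ℤ) < ⌈x⌉ := by
        rw [Int.lt_ceil]
        push_cast
        push_cast at h1
        exact h1
      omega
    refine ⟨(z : ℤ) - m * p, ?_, ?_⟩
    · rw [Finset.mem_Icc]
      exact abs_le.1 hr
    · rw [Finset.mem_filter]
      refine ⟨hp, ?_⟩
      have : (z : ℤ) - ((z : ℤ) - m * p) = m * p := by ring
      rw [this]
      exact Dvd.intro_left m rfl
  have hcard : ∀ r ∈ Finset.Icc (-K) K,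
      (S.filter (fun p : ℕ => (p : ℤ) ∣ (z : ℤ) - r)).card ≤ j := by
    intro r hr
    rw [Finset.mem_Icc] at hr
    have hKz : K < (z : ℤ) := by
      have : (K : ℝ) < (z : ℝ) := hKx.trans hz
      exact_mod_cast this
    have hpos : 0 < (z : ℤ) - r := by omega
    have hlt : (z : ℤ) - r < 2 * z := by omega
    obtain ⟨N, hN⟩ := Int.eq_ofNat_of_zero_le hpos.le
    have hN0 : 0 < N := by omega
    have hNj : N < P ^ j := by
      have : N < 2 * z := by omega
      omega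
    apply prime_card_lt P N j hP hN0 hNj
    intro p hp
    rw [Finset.mem_filter] at hp
    obtain ⟨hp1, hp2⟩ := hp
    rw [hS, Finset.mem_filter, Finset.mem_filter, Finset.mem_Ioc] at hp1
    refine ⟨hp1.1.2, hp1.1.1.1, ?_⟩
    rw [hN] at hp2
    exact_mod_cast hp2
  have h1 : S.card ≤ (Finset.Icc (-K) K).card * j :=
    (Finset.card_le_card hsub).trans (Finset.card_biUnion_le_card_mul _ _ _ hcard)
  have h2 : ((Finset.Icc (-K) K).card : ℝ) ≤ 8 * η * P + 1 := by
    rw [Int.card_Icc]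
    have : ((K + 1 - -K).toNat : ℝ) = 2 * (K : ℝ) + 1 := by
      have h3 : ((K + 1 - -K).toNat : ℤ) = 2 * K + 1 := by omega
      exact_mod_cast h3
    rw [this]
    have : 8 * η * P = 2 * x := by rw [hx]; ring
    linarith
  calc (S.card : ℝ) ≤ ((Finset.Icc (-K) K).card : ℝ) * j := by exact_mod_cast h1
    _ ≤ (8 * η * P + 1) * j := by gcongr
    _ = j * (8 * η * P + 1) := mul_comm _ _

open Classical in
/-- few integers `p` in `(P,4P]` have `z / p^2` close to an integer -/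
theorem generic_two (P z : ℕ) (η : ℝ) (hP : 1 ≤ P) (hη : 0 < η) (hη4 : η ≤ 1 / 4)
    (hz : P ^ 2 ≤ z) :
    (((Ioc P (4 * P)).filter
      (fun p : ℕ => ∃ m : ℤ, |(z : ℝ) / (p : ℝ) ^ 2 - m| < η)).card : ℝ)
      ≤ 768 * η * P + (z : ℝ) / (P : ℝ) ^ 2 + 2 := by
  have hPpos : (0 : ℝ) < P := by exact_mod_cast (by omega : 0 < P)
  have hzP : (P : ℝ) ^ 2 ≤ z := by exact_mod_cast hz
  have hzpos : (0 : ℝ) < z := lt_of_lt_of_le (by positivity) hzP
  set D : ℝ := 256 * η * P ^ 3 / z with hD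
  have hD0 : 0 < D := by positivity
  set M : ℕ := ⌊(z : ℝ) / P ^ 2 + 1 / 4⌋₊ with hM
  set S := (Ioc P (4 * P)).filter (fun p : ℕ => ∃ m : ℤ, |(z : ℝ) / (p : ℝ) ^ 2 - m| < η) with hS
  have hsub : S ⊆ (range (M + 1)).biUnion
      (fun m => (Ioc P (4 * P)).filter (fun p : ℕ => |(z : ℝ) / (p : ℝ) ^ 2 - m| < η)) := by
    intro p hp
    rw [hS, Finset.mem_filter] at hp
    obtain ⟨hp1, m, hm⟩ := hp
    rw [Finset.mem_biUnion]
    have hp2 := Finset.mem_Ioc.1 hp1
    have hPp : (P : ℝ) < p := by exact_mod_cast hp2.1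
    have h1 : (z : ℝ) / (p : ℝ) ^ 2 ≤ z / P ^ 2 := by gcongr
    have h2 : 0 < (z : ℝ) / (p : ℝ) ^ 2 := div_pos hzpos (pow_pos (hPpos.trans hPp) 2)
    rw [abs_lt] at hm
    have h3 : (-1 : ℝ) < m := by linarith
    have h4 : (-1 : ℤ) < m := by exact_mod_cast h3
    obtain ⟨k, rfl⟩ := Int.eq_ofNat_of_zero_le (by omega : 0 ≤ m)
    refine ⟨k, ?_, ?_⟩
    · rw [Finset.mem_range, Nat.lt_succ_iff, hM, Nat.le_floor_iff (by positivity)]
      have : ((Int.ofNat k : ℤ) : ℝ) = (k : ℝ) := by simp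
      push_cast at hm
      linarith [hm.1]
    · rw [Finset.mem_filter]
      refine ⟨hp1, ?_⟩
      rw [abs_lt]
      push_cast at hm
      exact hm
  have hone : ∀ m ∈ range (M + 1),
      (((Ioc P (4 * P)).filter (fun p : ℕ => |(z : ℝ) / (p : ℝ) ^ 2 - (m : ℕ)| < η)).card : ℝ) ≤ D + 1 := by
    intro m _
    set T := (Ioc P (4 * P)).filter (fun p : ℕ => |(z : ℝ) / (p : ℝ) ^ 2 - (m : ℕ)| < η) with hT
    rcases T.eq_empty_or_nonempty with hTe | hTn
    · rw [hTe]; simp; positivity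
    · have hmin := T.min'_mem hTn
      have hmax := T.max'_mem hTn
      have hle := T.min'_le_max' hTn
      have hTsub : T ⊆ Icc (T.min' hTn) (T.max' hTn) := fun p hp =>
        Finset.mem_Icc.2 ⟨T.min'_le p hp, T.le_max' p hp⟩
      have hcard := Finset.card_le_card hTsub
      rw [Nat.card_Icc] at hcard
      generalize T.min' hTn = p at hmin hle hcard
      generalize T.max' hTn = q at hmax hle hcard
      rw [hT, Finset.mem_filter, Finset.mem_Ioc, abs_lt] at hmin hmax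
      have hcard' : (T.card : ℝ) ≤ (q : ℝ) - p + 1 := by
        have : T.card + p ≤ q + 1 := by omega
        have : (T.card : ℝ) + p ≤ q + 1 := by exact_mod_cast this
        linarith
      have hPp : (P : ℝ) ≤ p := by exact_mod_cast hmin.1.1.le
      have hPq : (P : ℝ) ≤ q := by exact_mod_cast hmax.1.1.le
      have hp4 : (p : ℝ) ≤ 4 * P := by exact_mod_cast hmin.1.2
      have hq4 : (q : ℝ) ≤ 4 * P := by exact_mod_cast hmax.1.2
      have hpq : (p : ℝ) ≤ q := by exact_mod_cast hle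
      have hp0 : (0 : ℝ) < p := by linarith
      have hq0 : (0 : ℝ) < q := by linarith
      have h1 : (z : ℝ) / (p : ℝ) ^ 2 - z / (q : ℝ) ^ 2 < 2 * η := by linarith [hmin.2.2, hmax.2.1]
      have h2 : (z : ℝ) / (p : ℝ) ^ 2 - z / (q : ℝ) ^ 2 =
          z * (q - p) * (q + p) / (p ^ 2 * q ^ 2) := by
        field_simp
        ring
      have h3 : (p : ℝ) ^ 2 * q ^ 2 ≤ 256 * P ^ 4 := by
        calc (p : ℝ) ^ 2 * (q : ℝ) ^ 2 ≤ (4 * (P : ℝ)) ^ 2 * (4 * (P : ℝ)) ^ 2 := by gcongr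
          _ = 256 * (P : ℝ) ^ 4 := by ring
      rw [h2, div_lt_iff₀ (by positivity)] at h1
      have h4 : 2 * η * ((p : ℝ) ^ 2 * q ^ 2) ≤ 2 * η * (256 * P ^ 4) := by gcongr
      have h5 : z * ((q : ℝ) - p) * (2 * P) ≤ z * (q - p) * (q + p) := by
        apply mul_le_mul_of_nonneg_left (by linarith)
        exact mul_nonneg hzpos.le (by linarith)
      have h6 : (z * ((q : ℝ) - p)) * (2 * P) < (256 * η * P ^ 3) * (2 * P) := by
        calc _ ≤ z * ((q : ℝ) - p) * (q + p) := h5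
          _ < _ := h1
          _ ≤ _ := h4
          _ = _ := by ring
      have h7 : z * ((q : ℝ) - p) < 256 * η * P ^ 3 := lt_of_mul_lt_mul_right h6 (by positivity)
      have h8 : (q : ℝ) - p < D := by
        rw [hD, lt_div_iff₀ hzpos]; linarith
      linarith
  have h1 : (S.card : ℝ) ≤ ((M : ℝ) + 1) * (D + 1) := by
    have h2 : (S.card : ℝ) ≤ ∑ m ∈ range (M + 1),
        (((Ioc P (4 * P)).filter (fun p : ℕ => |(z : ℝ) / (p : ℝ) ^ 2 - (m : ℕ)| < η)).card : ℝ) := by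
      exact_mod_cast (Finset.card_le_card hsub).trans Finset.card_biUnion_le
    refine h2.trans ((Finset.sum_le_card_nsmul _ _ _ hone).trans ?_)
    rw [Finset.card_range, nsmul_eq_mul]
    push_cast
    exact le_rfl
  have h2 : (M : ℝ) ≤ (z : ℝ) / P ^ 2 + 1 / 4 := Nat.floor_le (by positivity)
  have h3 : ((M : ℝ) + 1) * (D + 1) ≤ ((z : ℝ) / P ^ 2 + 2) * (D + 1) := by
    apply mul_le_mul_of_nonneg_right (by linarith) (by linarith)
  have h4 : (z : ℝ) / P ^ 2 * D = 256 * η * P := by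
    rw [hD]; field_simp
  have h5 : D ≤ 256 * η * P := by
    rw [hD, div_le_iff₀ hzpos]
    calc 256 * η * (P : ℝ) ^ 3 = 256 * η * P * P ^ 2 := by ring
      _ ≤ 256 * η * P * z := by gcongr
  calc (S.card : ℝ) ≤ ((z : ℝ) / P ^ 2 + 2) * (D + 1) := h1.trans h3
    _ = (z : ℝ) / P ^ 2 * D + 2 * D + z / P ^ 2 + 2 := by ring
    _ ≤ 768 * η * P + (z : ℝ) / (P : ℝ) ^ 2 + 2 := by rw [h4]; linarith

open Classical in
/-- few primes `p` in `(P,4P]` have `z / p` close to an integer -/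
theorem generic_one (P z j : ℕ) (η : ℝ) (hP : 2 ≤ P) (hη : 0 < η) (hz : 4 * η * P < z)
    (hj : 2 * z ≤ P ^ j) :
    (((Ioc P (4 * P)).filter
      (fun p : ℕ => p.Prime ∧ ∃ m : ℤ, |(z : ℝ) / (p : ℝ) - m| < η)).card : ℝ)
      ≤ j * (8 * η * P + 1) := by
  have h := generic_one_aux P z j η hP hη hz hj
  rw [Finset.filter_filter] at h
  convert h using 3

end Pool.Agent.Helper530.Sq
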