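import Pool.Agent.Helper530.Sq.Base

namespace Pool.Agent.Helper530.Sq


open Finset

lemma e_add' (x y : ℝ) : e (x + y) = e x * e y := by
  unfold e
  rw [← Complex.exp_add]
  congr 1
  push_cast; ring

lemma e_norm' (x : ℝ) : ‖e x‖ = 1 := by
  unfold e
  have : (2 * (Real.pi : ℂ) * x * Complex.I) = ((2 * Real.pi * x : ℝ) : ℂ) * Complex.I := by
    push_cast; ring
  rw [this]
  exact Complex.norm_exp_ofReal_mul_I _

lemma e_conj' (x : ℝ) : (starRingEnd ℂ) (e x) = e (-x) := by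
  unfold e
  rw [← Complex.exp_conj]
  congr 1
  simp only [map_mul, Complex.conj_I, Complex.conj_ofReal, Complex.ofReal_neg]
  have : (starRingEnd ℂ) 2 = 2 := Complex.conj_ofReal 2
  rw [this]
  ring

lemma e_nat (a : ℝ) (n : ℕ) : e (a * n) = (e a) ^ n := by
  unfold e
  rw [← Complex.exp_nat_mul]
  congr 1
  push_cast; ring

lemma e_sub_one (a : ℝ) (ha : |a| ≤ 1 / 2) : 4 * |a| ≤ ‖e a - 1‖ := by
  have h1 : ‖e a - 1‖ = 2 * |Real.sin (Real.pi * a)| := by
    have : e a - 1 = e (a / 2) * (e (a / 2) - e (-(a / 2))) := by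
      rw [mul_sub, ← e_add', ← e_add']
      have h2 : a / 2 + -(a / 2) = 0 := by ring
      have h3 : a / 2 + a / 2 = a := by ring
      rw [h2, h3]
      have : e 0 = 1 := by unfold e; simp
      rw [this]
    rw [this, norm_mul, e_norm', one_mul]
    have h4 : e (a / 2) - e (-(a / 2)) = 2 * (Real.sin (Real.pi * a) : ℂ) * Complex.I := by
      unfold e
      have e1 : (2 * (Real.pi : ℂ) * ((a / 2 : ℝ) : ℂ) * Complex.I) = ((Real.pi * a : ℝ) : ℂ) * Complex.I := by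
        push_cast; ring
      have e2 : (2 * (Real.pi : ℂ) * ((-(a / 2) : ℝ) : ℂ) * Complex.I)
          = ((-(Real.pi * a) : ℝ) : ℂ) * Complex.I := by
        push_cast; ring
      rw [e1, e2, Complex.exp_mul_I, Complex.exp_mul_I]
      push_cast
      rw [Complex.cos_neg, Complex.sin_neg]
      ring
    rw [h4, norm_mul, norm_mul, Complex.norm_I, mul_one, Complex.norm_real, Real.norm_eq_abs]
    norm_num
  rw [h1]
  have h5 : 2 / Real.pi * |Real.pi * a| ≤ |Real.sin (Real.pi * a)| := by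
    apply Real.mul_abs_le_abs_sin
    rw [abs_mul, abs_of_pos Real.pi_pos]
    nlinarith [Real.pi_pos]
  have h6 : 2 / Real.pi * |Real.pi * a| = 2 * |a| := by
    rw [abs_mul, abs_of_pos Real.pi_pos]
    field_simp
  linarith

lemma geo (N : ℕ) (a : ℝ) :
    ‖∑ n ∈ Ico N (2 * N), e (a * n)‖ ≤ N := by
  refine (norm_sum_le _ _).trans ?_
  simp only [e_norm', sum_const, Nat.card_Ico, nsmul_eq_mul, mul_one]
  have : 2 * N - N = N := by omega
  rw [this]

lemma geo2 (N : ℕ) (a : ℝ) (ha : |a| ≤ 1 / 2) (ha0 : a ≠ 0) :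
    ‖∑ n ∈ Ico N (2 * N), e (a * n)‖ ≤ 1 / (2 * |a|) := by
  have hpos : 0 < |a| := abs_pos.2 ha0
  have h4 := e_sub_one a ha
  have hne : e a ≠ 1 := by
    intro h
    rw [h, sub_self, norm_zero] at h4
    linarith
  have hsum : ∑ n ∈ Ico N (2 * N), e (a * n) = ((e a) ^ (2 * N) - (e a) ^ N) / (e a - 1) := by
    rw [← geom_sum_Ico hne (by omega)]
    apply sum_congr rfl
    intro n _
    exact e_nat a n
  rw [hsum, norm_div]
  rw [div_le_div_iff₀ (by linarith) (by positivity)]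
  have h5 : ‖(e a) ^ (2 * N) - (e a) ^ N‖ ≤ 2 := by
    refine (norm_sub_le _ _).trans ?_
    rw [norm_pow, norm_pow, e_norm', one_pow, one_pow]
    norm_num
  nlinarith [norm_nonneg ((e a) ^ (2 * N) - (e a) ^ N)]

noncomputable def wt (N : ℕ) (c : ℤ) : ℝ := 2 * N / (|(c : ℝ)| + 1)

lemma wt_nonneg (N : ℕ) (c : ℤ) : 0 ≤ wt N c := by unfold wt; positivity

lemma geo_wt (N : ℕ) (hN : 1 ≤ N) (a : ℝ) (ha : |a| ≤ 1 / 2) :
    ‖∑ n ∈ Ico N (2 * N), e (a * n)‖ ≤ wt N ⌊N * a⌋ := by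
  unfold wt
  have hNr : (1 : ℝ) ≤ N := by exact_mod_cast hN
  have f1 := Int.floor_le (N * a : ℝ)
  have f2 := Int.lt_floor_add_one (N * a : ℝ)
  set c := ⌊(N * a : ℝ)⌋ with hc
  have h1 := geo N a
  rcases lt_trichotomy c 0 with h | h | h
  · rcases eq_or_lt_of_le (show c ≤ -1 by omega) with h' | h'
    · rw [h']
      norm_num
      exact h1
    · have hc2 : c ≤ -2 := by omega
      have hcr : (c : ℝ) ≤ -2 := by exact_mod_cast hc2
      have ha0 : a < 0 := by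
        by_contra hcon
        push Not at hcon
        have : 0 ≤ (N : ℝ) * a := by positivity
        linarith
      refine (geo2 N a ha ha0.ne).trans ?_
      rw [abs_of_neg ha0, abs_of_neg (by linarith)]
      rw [div_le_div_iff₀ (by linarith) (by linarith)]
      nlinarith
  · rw [h]
    simp
    linarith
  · have hc1 : 1 ≤ c := by omega
    have hcr : (1 : ℝ) ≤ c := by exact_mod_cast hc1
    have ha0 : 0 < a := by
      by_contra hcon
      push Not at hcon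
      have : (N : ℝ) * a ≤ 0 := mul_nonpos_of_nonneg_of_nonpos (by linarith) hcon
      linarith
    refine (geo2 N a ha ha0.ne').trans ?_
    rw [abs_of_pos ha0, abs_of_pos (by linarith)]
    rw [div_le_div_iff₀ (by linarith) (by linarith)]
    nlinarith

lemma sum_wt (N : ℕ) : ∑ c ∈ Icc (-(N : ℤ)) N, wt N c ≤ 4 * N * (1 + Real.log (N + 1)) := by
  have hmap : ∀ c ∈ Icc (-(N : ℤ)) N, c.natAbs ∈ range (N + 1) := by
    intro c hc
    rw [mem_Icc] at hc
    rw [mem_range]; omega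
  rw [← sum_fiberwise_of_maps_to hmap]
  have h1 : ∀ k ∈ range (N + 1), ∑ c ∈ Icc (-(N : ℤ)) N with c.natAbs = k, wt N c
      ≤ 4 * N * (((k + 1 : ℕ) : ℝ))⁻¹ := by
    intro k _
    have h2 : ∀ c ∈ (Icc (-(N : ℤ)) N).filter (fun c => c.natAbs = k), wt N c = 2 * N / ((k : ℝ) + 1) := by
      intro c hc
      rw [mem_filter] at hc
      unfold wt
      have : |(c : ℝ)| = k := by
        rw [← hc.2]
        rw [← Int.cast_abs, Int.abs_eq_natAbs]
        simp
      rw [this]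
    rw [sum_congr rfl h2, sum_const, nsmul_eq_mul]
    have hcard : ((Icc (-(N : ℤ)) N).filter (fun c => c.natAbs = k)).card ≤ 2 := by
      have : (Icc (-(N : ℤ)) N).filter (fun c => c.natAbs = k) ⊆ {(k : ℤ), -(k : ℤ)} := by
        intro c hc
        rw [mem_filter] at hc
        rw [mem_insert, mem_singleton]
        omega
      exact (card_le_card this).trans (card_le_two)
    have hcr : ((((Icc (-(N : ℤ)) N).filter (fun c => c.natAbs = k)).card : ℕ) : ℝ) ≤ 2 := by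
      exact_mod_cast hcard
    have hpos : 0 ≤ 2 * (N : ℝ) / ((k : ℝ) + 1) := by positivity
    calc _ ≤ 2 * (2 * (N : ℝ) / ((k : ℝ) + 1)) := mul_le_mul_of_nonneg_right hcr hpos
      _ = 4 * N * (((k + 1 : ℕ) : ℝ))⁻¹ := by push_cast; field_simp; ring
  refine (sum_le_sum h1).trans ?_
  rw [← mul_sum]
  apply mul_le_mul_of_nonneg_left _ (by positivity)
  have h3 := harmonic_le_one_add_log (N + 1)
  unfold harmonic at h3
  push_cast at h3 ⊢
  exact h3

/-- two dimensional large sieve with multiplicity -/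
theorem large_sieve {ι : Type} [Fintype ι] (Θ1 Θ2 : ι → ℝ) (N K m : ℕ) (hN : 1 ≤ N)
    (hK : 1 ≤ K) (h1 : ∀ i, |Θ1 i| ≤ 1 / 4) (h2 : ∀ i, |Θ2 i| ≤ 1 / 4)
    (hm : ∀ c1 c2 : ℝ, (univ.filter
      (fun i => |Θ1 i - c1| ≤ 1 / (N : ℝ) ∧ |Θ2 i - c2| ≤ 1 / (K : ℝ))).card ≤ m) :
    ∑ n ∈ Ico N (2 * N), ∑ k ∈ Ico K (2 * K), ‖∑ i, e (Θ1 i * n + Θ2 i * k)‖ ^ 2
      ≤ 16 * m * Fintype.card ι * N * K * (1 + Real.log (N + 1)) * (1 + Real.log (K + 1)) := by
  classical
  have hNr : (1 : ℝ) ≤ N := by exact_mod_cast hN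
  have hKr : (1 : ℝ) ≤ K := by exact_mod_cast hK
  -- expand
  have hexp : ∀ n k : ℕ, ‖∑ i, e (Θ1 i * n + Θ2 i * k)‖ ^ 2
      = (∑ i, ∑ j, e ((Θ1 j - Θ1 i) * n) * e ((Θ2 j - Θ2 i) * k)).re := by
    intro n k
    set S := ∑ i, e (Θ1 i * n + Θ2 i * k) with hS
    have : ((‖S‖ ^ 2 : ℝ) : ℂ) = (starRingEnd ℂ) S * S := by
      rw [mul_comm, Complex.mul_conj, Complex.normSq_eq_norm_sq]
    have h5 : ‖S‖ ^ 2 = ((starRingEnd ℂ) S * S).re := by
      rw [← this, Complex.ofReal_re]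
    rw [h5, hS, map_sum, sum_mul_sum]
    congr 1
    apply sum_congr rfl
    intro i _
    apply sum_congr rfl
    intro j _
    rw [e_conj', ← e_add', ← e_add']
    congr 1
    ring
  have hsw : ∑ n ∈ Ico N (2 * N), ∑ k ∈ Ico K (2 * K), ‖∑ i, e (Θ1 i * n + Θ2 i * k)‖ ^ 2
      = (∑ i, ∑ j, (∑ n ∈ Ico N (2 * N), e ((Θ1 j - Θ1 i) * n))
        * (∑ k ∈ Ico K (2 * K), e ((Θ2 j - Θ2 i) * k))).re := by
    simp_rw [hexp, ← Complex.re_sum]
    congr 1
    have e1 : ∀ n : ℕ, ∑ k ∈ Ico K (2 * K), ∑ i, ∑ j, e ((Θ1 j - Θ1 i) * n) * e ((Θ2 j - Θ2 i) * k)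
        = ∑ i, ∑ j, ∑ k ∈ Ico K (2 * K), e ((Θ1 j - Θ1 i) * n) * e ((Θ2 j - Θ2 i) * k) := by
      intro n
      rw [sum_comm]
      apply sum_congr rfl
      intro i _
      rw [sum_comm]
    simp_rw [e1]
    rw [sum_comm]
    apply sum_congr rfl
    intro i _
    rw [sum_comm]
    apply sum_congr rfl
    intro j _
    rw [sum_mul_sum]
  rw [hsw]
  refine (Complex.re_le_norm _).trans ?_
  refine (norm_sum_le _ _).trans ?_
  -- one row
  have hrow : ∀ i : ι, ‖∑ j, (∑ n ∈ Ico N (2 * N), e ((Θ1 j - Θ1 i) * n))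
        * (∑ k ∈ Ico K (2 * K), e ((Θ2 j - Θ2 i) * k))‖
      ≤ m * ((4 * N * (1 + Real.log (N + 1))) * (4 * K * (1 + Real.log (K + 1)))) := by
    intro i
    refine (norm_sum_le _ _).trans ?_
    have hd1 : ∀ j, |Θ1 j - Θ1 i| ≤ 1 / 2 := by
      intro j
      have := h1 i; have := h1 j
      rw [abs_le] at *
      constructor <;> linarith
    have hd2 : ∀ j, |Θ2 j - Θ2 i| ≤ 1 / 2 := by
      intro j
      have := h2 i; have := h2 j
      rw [abs_le] at *
      constructor <;> linarith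
    set cell : ι → ℤ × ℤ := fun j => (⌊(N : ℝ) * (Θ1 j - Θ1 i)⌋, ⌊(K : ℝ) * (Θ2 j - Θ2 i)⌋) with hcell
    have hstep : ∀ j, ‖(∑ n ∈ Ico N (2 * N), e ((Θ1 j - Θ1 i) * n))
        * (∑ k ∈ Ico K (2 * K), e ((Θ2 j - Θ2 i) * k))‖ ≤ wt N (cell j).1 * wt K (cell j).2 := by
      intro j
      rw [norm_mul]
      exact mul_le_mul (geo_wt N hN _ (hd1 j)) (geo_wt K hK _ (hd2 j)) (norm_nonneg _) (wt_nonneg _ _)
    refine (sum_le_sum (fun j _ => hstep j)).trans ?_
    have hfl : ∀ (L : ℕ) (a : ℝ), |a| ≤ 1 / 2 → ⌊(L : ℝ) * a⌋ ∈ Icc (-(L : ℤ)) L := by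
      intro L a ha
      rw [abs_le] at ha
      have hL : (0 : ℝ) ≤ L := by positivity
      rw [mem_Icc]
      constructor
      · rw [Int.le_floor]; push_cast; nlinarith
      · have : ⌊(L : ℝ) * a⌋ ≤ ⌊((L : ℤ) : ℝ)⌋ := by
          apply Int.floor_le_floor
          push_cast; nlinarith
        rwa [Int.floor_intCast] at this
    have hmap : ∀ j ∈ (univ : Finset ι), cell j ∈ (Icc (-(N : ℤ)) N) ×ˢ (Icc (-(K : ℤ)) K) := by
      intro j _
      rw [mem_product]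
      exact ⟨hfl N _ (hd1 j), hfl K _ (hd2 j)⟩
    rw [← sum_fiberwise_of_maps_to hmap]
    have hfib : ∀ c ∈ (Icc (-(N : ℤ)) N) ×ˢ (Icc (-(K : ℤ)) K),
        ∑ j ∈ univ with cell j = c, wt N (cell j).1 * wt K (cell j).2 ≤ m * (wt N c.1 * wt K c.2) := by
      intro c _
      have : ∀ j ∈ univ.filter (fun j => cell j = c), wt N (cell j).1 * wt K (cell j).2
          = wt N c.1 * wt K c.2 := by
        intro j hj
        rw [mem_filter] at hj
        rw [hj.2]
      rw [sum_congr rfl this, sum_const, nsmul_eq_mul]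
      apply mul_le_mul_of_nonneg_right _ (mul_nonneg (wt_nonneg _ _) (wt_nonneg _ _))
      have hsub : (univ.filter (fun j => cell j = c)) ⊆ univ.filter
          (fun j => |Θ1 j - (Θ1 i + (c.1 + 1 / 2) / N)| ≤ 1 / (N : ℝ) ∧
            |Θ2 j - (Θ2 i + (c.2 + 1 / 2) / K)| ≤ 1 / (K : ℝ)) := by
        intro j hj
        rw [mem_filter] at hj ⊢
        refine ⟨mem_univ _, ?_⟩
        have hj1 : ⌊(N : ℝ) * (Θ1 j - Θ1 i)⌋ = c.1 := congrArg Prod.fst hj.2
        have hj2 : ⌊(K : ℝ) * (Θ2 j - Θ2 i)⌋ = c.2 := congrArg Prod.snd hj.2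
        have a1 := Int.floor_le ((N : ℝ) * (Θ1 j - Θ1 i))
        have a2 := Int.lt_floor_add_one ((N : ℝ) * (Θ1 j - Θ1 i))
        have a3 := Int.floor_le ((K : ℝ) * (Θ2 j - Θ2 i))
        have a4 := Int.lt_floor_add_one ((K : ℝ) * (Θ2 j - Θ2 i))
        rw [hj1] at a1 a2
        rw [hj2] at a3 a4
        have key : ∀ (L x c : ℝ), 1 ≤ L → c ≤ L * x → L * x < c + 1 → |x - (c + 1 / 2) / L| ≤ 1 / L := by
          intro L x c hL hx1 hx2
          have hL0 : 0 < L := by linarith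
          have : x - (c + 1 / 2) / L = (L * x - (c + 1 / 2)) / L := by field_simp
          rw [this, abs_div, abs_of_pos hL0]
          apply div_le_div_of_nonneg_right _ hL0.le
          rw [abs_le]; constructor <;> linarith
        constructor
        · have := key N _ _ hNr a1 a2
          have e2 : Θ1 j - (Θ1 i + ((c.1 : ℝ) + 1 / 2) / N) = Θ1 j - Θ1 i - ((c.1 : ℝ) + 1 / 2) / N := by ring
          rw [e2]; exact this
        · have := key K _ _ hKr a3 a4
          have e2 : Θ2 j - (Θ2 i + ((c.2 : ℝ) + 1 / 2) / K) = Θ2 j - Θ2 i - ((c.2 : ℝ) + 1 / 2) / K := by ring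
          rw [e2]; exact this
      have := (card_le_card hsub).trans (hm _ _)
      exact_mod_cast this
    refine (sum_le_sum hfib).trans ?_
    rw [← mul_sum, sum_product]
    apply mul_le_mul_of_nonneg_left _ (by positivity)
    have e3 : ∑ x ∈ Icc (-(N : ℤ)) N, ∑ y ∈ Icc (-(K : ℤ)) K, wt N x * wt K y
        = (∑ x ∈ Icc (-(N : ℤ)) N, wt N x) * (∑ y ∈ Icc (-(K : ℤ)) K, wt K y) := by
      rw [sum_mul_sum]
    rw [e3]
    apply mul_le_mul (sum_wt N) (sum_wt K) (sum_nonneg (fun _ _ => wt_nonneg _ _))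
    have : 0 ≤ Real.log ((N : ℝ) + 1) := Real.log_nonneg (by linarith)
    positivity
  refine (sum_le_sum (fun i _ => hrow i)).trans ?_
  rw [sum_const, card_univ, nsmul_eq_mul]
  apply le_of_eq
  ring

end Pool.Agent.Helper530.Sq
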