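import Pool.Agent.Helper530.Sq.Base
import Pool.Agent.Helper530.Sq.Sieve
import Pool.Agent.Helper530.Sq.Chain

namespace Pool.Agent.Helper530.Sq


open Finset Classical

/-- TARGET 1 -/
theorem Good.count {N K m A : ℕ} {F : ℕ → ℕ → ℂ} {R : ℝ} (hF : Good N K F m A R)
    (hR : R ≤ 1 / 4) (hN : 1 ≤ N) (hK : 1 ≤ K) :
    ∑ n ∈ Ico N (2 * N), ∑ k ∈ Ico K (2 * K), ‖F n k‖ ^ 2
      ≤ 16 * m * A * N * K * (1 + Real.log (N + 1)) * (1 + Real.log (K + 1)) := by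
  obtain ⟨ι, hι, Θ1, Θ2, h1, h2, h3, h4⟩ := hF
  have h5 := large_sieve Θ1 Θ2 N K m hN hK (fun i => (h3 i).1.trans hR)
    (fun i => (h3 i).2.trans hR) h2
  simp only [h1]
  refine h5.trans ?_
  have h6 : (Fintype.card ι : ℝ) ≤ A := by exact_mod_cast h4
  have hl1 : 0 ≤ 1 + Real.log ((N : ℝ) + 1) := by
    have : 0 ≤ Real.log ((N : ℝ) + 1) := Real.log_nonneg (by
      have : (0 : ℝ) ≤ N := Nat.cast_nonneg N
      linarith)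
    linarith
  have hl2 : 0 ≤ 1 + Real.log ((K : ℝ) + 1) := by
    have : 0 ≤ Real.log ((K : ℝ) + 1) := Real.log_nonneg (by
      have : (0 : ℝ) ≤ K := Nat.cast_nonneg K
      linarith)
    linarith
  gcongr

/-- the finite set of data for one type -/
noncomputable def DD (J : ℕ) : Finset (ℕ × ℤ × ℤ × ℤ × ℤ) :=
  range (J + 2) ×ˢ Icc (-128) 128 ×ˢ Icc (-128) 128 ×ˢ Icc (-128) 128 ×ˢ Icc (-128) 128

/-- the sum attached to a type -/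
noncomputable def SS (B : Finset ℕ) (i : ℕ) (d : ℕ × ℤ × ℤ × ℤ × ℤ) (n k : ℕ) : ℂ :=
  ∑ p ∈ B, e (((d.2.1 : ℝ) / (p : ℝ) ^ i + (d.2.2.2.1 : ℝ) / (p : ℝ) ^ d.1) * n
    + ((d.2.2.1 : ℝ) / (p : ℝ) ^ i + (d.2.2.2.2 : ℝ) / (p : ℝ) ^ d.1) * k)

/-- validity of the data at `x` -/
def QQ (J : ℕ) (B : Finset ℕ) (F : ℕ → ℕ → ℕ → ℂ) (θ : ℝ)
    (z : ℕ × ℕ × (Fin (J + 1) → ℕ × ℤ × ℤ × ℤ × ℤ)) (x : ℕ × ℕ) : Prop :=
  θ ≤ ‖F z.1 x.1 x.2‖ ∧ ∀ i ∈ (Icc 1 J).erase z.2.1,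
    (i < (z.2.2 (Fin.ofNat (J + 1) i)).1 ∧ (z.2.2 (Fin.ofNat (J + 1) i)).1 ≤ J + 1) ∧
    ((z.2.2 (Fin.ofNat (J + 1) i)).2.1 ≠ 0 ∨ (z.2.2 (Fin.ofNat (J + 1) i)).2.2.1 ≠ 0) ∧
    (|(z.2.2 (Fin.ofNat (J + 1) i)).2.1| ≤ 128 ∧ |(z.2.2 (Fin.ofNat (J + 1) i)).2.2.1| ≤ 128 ∧
      |(z.2.2 (Fin.ofNat (J + 1) i)).2.2.2.1| ≤ 128 ∧
      |(z.2.2 (Fin.ofNat (J + 1) i)).2.2.2.2| ≤ 128) ∧
    (B.card : ℝ) / 10 ^ 9 ≤ ‖SS B i (z.2.2 (Fin.ofNat (J + 1) i)) x.1 x.2‖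

theorem card_QQ (J : ℕ) (hJ : 1 ≤ J) (N K P : ℕ) (B : Finset ℕ) (Bad : Finset (ℕ × ℕ))
    (F : ℕ → ℕ → ℕ → ℂ) (m A : ℕ) (R θ : ℝ)
    (hK : 1 ≤ K) (hKN : K ≤ N) (hB : B ⊆ Ioc P (4 * P)) (hBne : B.Nonempty)
    (hP : 256 * (J + 1) * 4 ^ (J + 1) ≤ P) (hPK : P ^ (J + 1) ≤ K)
    (hBad : Bad ⊆ (Ico N (2 * N)) ×ˢ (Ico K (2 * K)))
    (z : ℕ × ℕ × (Fin (J + 1) → ℕ × ℤ × ℤ × ℤ × ℤ))
    (hF : Good N K (F z.1) m A R) (hR : R ≤ 512 / (P : ℝ) ^ (J + 1)) (hθ : 0 < θ)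
    (hz : z.2.1 ∈ Icc 1 J) :
    ((Bad.filter (QQ J B F θ z)).card : ℝ) ≤
      (16 * ((4 * (4 * 128 + 1) * 4 ^ (J + 1) + 1 : ℕ) : ℝ) ^ (J - 1) * (10 ^ 18) ^ (J - 1)) *
        m * A * N * K * (1 + Real.log (N + 1)) ^ 2 / (θ ^ 2 * (B.card : ℝ) ^ (J - 1)) := by
  have hNpos : 1 ≤ N := hK.trans hKN
  have hlogN : 0 ≤ Real.log ((N : ℝ) + 1) := Real.log_nonneg (by
      have : (0 : ℝ) ≤ N := Nat.cast_nonneg N
      linarith)
  have hlogK : Real.log ((K : ℝ) + 1) ≤ Real.log ((N : ℝ) + 1) := by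
    apply Real.log_le_log
    · positivity
    · have : (K : ℝ) ≤ N := by exact_mod_cast hKN
      linarith
  have hBc : (0 : ℝ) < B.card := by exact_mod_cast Finset.card_pos.2 hBne
  rcases (Bad.filter (QQ J B F θ z)).eq_empty_or_nonempty with hem | ⟨x0, hx0⟩
  · rw [hem]
    simp only [Finset.card_empty, Nat.cast_zero]
    positivity
  have hq := (Finset.mem_filter.1 hx0).2
  set S : Finset ℕ := (Icc 1 J).erase z.2.1 with hS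
  have hScard : S.card = J - 1 := by
    rw [hS, Finset.card_erase_of_mem hz]; simp
  set d : ℕ → ℕ × ℤ × ℤ × ℤ × ℤ := fun i => z.2.2 (Fin.ofNat (J + 1) i) with hd
  have hPpos : 8192 ≤ P := by
    have h1 : 2 ≤ J + 1 := by omega
    have h2 : 4 ^ 2 ≤ 4 ^ (J + 1) := Nat.pow_le_pow_right (by norm_num) h1
    calc 8192 = 256 * 2 * 4 ^ 2 := by norm_num
      _ ≤ 256 * (J + 1) * 4 ^ (J + 1) := by gcongr
      _ ≤ P := hP
  have hPR : (8192 : ℝ) ≤ P := by exact_mod_cast hPpos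
  have hgood := chain N K P 128 J B hB (by norm_num) (by
      calc 2 * 128 * (J + 1) * 4 ^ J ≤ 256 * (J + 1) * 4 ^ (J + 1) := by
            have h3 : 4 ^ J ≤ 4 ^ (J + 1) := Nat.pow_le_pow_right (by norm_num) (by omega)
            calc 2 * 128 * (J + 1) * 4 ^ J = 256 * (J + 1) * 4 ^ J := by ring
              _ ≤ 256 * (J + 1) * 4 ^ (J + 1) := Nat.mul_le_mul_left _ h3
        _ ≤ P := hP) hPK hKN (F z.1) m A R hF
    (hR.trans (by norm_num)) S (Finset.erase_subset _ _) (fun i => (d i).1) (fun i => (d i).2.1)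
    (fun i => (d i).2.2.1) (fun i => (d i).2.2.2.1) (fun i => (d i).2.2.2.2)
    (fun i hi => (hq.2 i hi).1) (fun i hi => (hq.2 i hi).2.1)
    (fun i hi => by
      have := (hq.2 i hi).2.2.1
      exact_mod_cast this)
  have hcount := hgood.count (by
    rw [div_le_iff₀ (by linarith)]
    push_cast
    linarith) hNpos hK
  set G : ℕ → ℕ → ℂ := fun n k => (∏ i ∈ S, SS B i (d i) n k) * F z.1 n k with hG
  have hcount' : ∑ n ∈ Ico N (2 * N), ∑ k ∈ Ico K (2 * K), ‖G n k‖ ^ 2 ≤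
      16 * (((4 * (4 * 128 + 1) * 4 ^ (J + 1) + 1) ^ S.card * m : ℕ) : ℝ) *
        ((B.card ^ S.card * A : ℕ) : ℝ) * N * K * (1 + Real.log (N + 1)) *
        (1 + Real.log (K + 1)) := hcount
  rw [hScard] at hcount'
  -- lower bound
  set c : ℝ := θ ^ 2 * ((B.card : ℝ) / 10 ^ 9) ^ (2 * (J - 1)) with hc
  have hlow : ∀ x ∈ Bad.filter (QQ J B F θ z), c ≤ ‖G x.1 x.2‖ ^ 2 := by
    intro x hx
    have hqx := (Finset.mem_filter.1 hx).2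
    have h1 : ((B.card : ℝ) / 10 ^ 9) ^ (J - 1) ≤ ‖∏ i ∈ S, SS B i (d i) x.1 x.2‖ := by
      rw [norm_prod, ← hScard]
      rw [← Finset.prod_const]
      apply Finset.prod_le_prod
      · intro i hi
        positivity
      · intro i hi
        exact (hqx.2 i hi).2.2.2
    have h2 : ((B.card : ℝ) / 10 ^ 9) ^ (J - 1) * θ ≤ ‖G x.1 x.2‖ := by
      rw [hG, norm_mul]
      exact mul_le_mul h1 hqx.1 hθ.le (norm_nonneg _)
    calc c = (((B.card : ℝ) / 10 ^ 9) ^ (J - 1) * θ) ^ 2 := by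
          rw [hc, mul_pow, ← pow_mul, mul_comm 2 (J - 1)]; ring
      _ ≤ _ := pow_le_pow_left₀ (by positivity) h2 2
  have hsub : Bad.filter (QQ J B F θ z) ⊆ (Ico N (2 * N)) ×ˢ (Ico K (2 * K)) :=
    (Finset.filter_subset _ _).trans hBad
  have hsum : ((Bad.filter (QQ J B F θ z)).card : ℝ) * c ≤
      ∑ n ∈ Ico N (2 * N), ∑ k ∈ Ico K (2 * K), ‖G n k‖ ^ 2 := by
    rw [← Finset.sum_product' (f := fun n k => ‖G n k‖ ^ 2)]
    calc ((Bad.filter (QQ J B F θ z)).card : ℝ) * c = ∑ x ∈ Bad.filter (QQ J B F θ z), c := by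
          rw [Finset.sum_const, nsmul_eq_mul]
      _ ≤ ∑ x ∈ Bad.filter (QQ J B F θ z), ‖G x.1 x.2‖ ^ 2 := Finset.sum_le_sum hlow
      _ ≤ ∑ x ∈ (Ico N (2 * N)) ×ˢ (Ico K (2 * K)), ‖G x.1 x.2‖ ^ 2 :=
          Finset.sum_le_sum_of_subset_of_nonneg hsub (fun _ _ _ => by positivity)
  have hcpos : 0 < c := by rw [hc]; positivity
  have hfin := hsum.trans hcount'
  rw [← le_div_iff₀ hcpos] at hfin
  refine hfin.trans ?_
  rw [div_le_div_iff₀ hcpos (by positivity)]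
  push_cast
  set M1 : ℝ := 2052 * 4 ^ (J + 1) + 1 with hM1
  have hM1pos : 0 < M1 := by rw [hM1]; positivity
  have hcc : c = θ ^ 2 * ((B.card : ℝ) ^ (J - 1) * (B.card : ℝ) ^ (J - 1)) /
      (10 ^ 18) ^ (J - 1) := by
    rw [hc, div_pow, mul_comm 2 (J - 1), pow_mul, pow_mul, sq ((B.card : ℝ) ^ (J - 1)),
      ← pow_mul, ← pow_mul, ← pow_mul]
    rw [show 9 * ((J - 1) * 2) = 18 * (J - 1) by ring]
    ring
  rw [hcc]
  have hl : (1 + Real.log ((N : ℝ) + 1)) * (1 + Real.log ((K : ℝ) + 1)) ≤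
      (1 + Real.log ((N : ℝ) + 1)) ^ 2 := by
    rw [sq]
    apply mul_le_mul_of_nonneg_left (by linarith) (by linarith)
  set L1 := 1 + Real.log ((N : ℝ) + 1)
  set L2 := 1 + Real.log ((K : ℝ) + 1)
  set b := (B.card : ℝ) ^ (J - 1)
  set E18 := ((10 : ℝ) ^ 18) ^ (J - 1)
  have hE : 0 < E18 := by positivity
  have hb : 0 < b := by positivity
  have e1 : 16 * (M1 ^ (J - 1) * ↑m) * (b * ↑A) * ↑N * ↑K * L1 * L2 * (θ ^ 2 * b) =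
      (16 * M1 ^ (J - 1) * m * A * N * K * (θ ^ 2 * (b * b))) * (L1 * L2) := by ring
  have e2 : 16 * M1 ^ (J - 1) * E18 * ↑m * ↑A * ↑N * ↑K * L1 ^ 2 * (θ ^ 2 * (b * b) / E18) =
      (16 * M1 ^ (J - 1) * m * A * N * K * (θ ^ 2 * (b * b))) * L1 ^ 2 := by
    field_simp
  rw [e1, e2]
  apply mul_le_mul_of_nonneg_left hl
  positivity

/-- TARGET 2: counting pairs for which a top family is large and the low scale modes exist -/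
theorem count_bad (J : ℕ) (hJ : 1 ≤ J) : ∃ C : ℝ, 0 < C ∧
    ∀ (N K P : ℕ) (B : Finset ℕ) (Bad : Finset (ℕ × ℕ)) (T : Finset ℕ)
      (F : ℕ → ℕ → ℕ → ℂ) (m A : ℕ) (R θ : ℝ),
      1 ≤ K → K ≤ N → B ⊆ Ioc P (4 * P) → B.Nonempty → 256 * (J + 1) * 4 ^ (J + 1) ≤ P →
      P ^ (J + 1) ≤ K → Bad ⊆ (Ico N (2 * N)) ×ˢ (Ico K (2 * K)) →
      (∀ τ ∈ T, Good N K (F τ) m A R) → R ≤ 512 / (P : ℝ) ^ (J + 1) → 0 < θ →
      (∀ x ∈ Bad, ∃ τ ∈ T, θ ≤ ‖F τ x.1 x.2‖) →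
      (∀ x ∈ Bad, ∃ m0 ∈ Icc 1 J, ∀ i ∈ (Icc 1 J).erase m0, ∃ (i' : ℕ) (a b a' b' : ℤ),
        i < i' ∧ i' ≤ J + 1 ∧ (a ≠ 0 ∨ b ≠ 0) ∧ |a| ≤ 128 ∧ |b| ≤ 128 ∧ |a'| ≤ 128 ∧
        |b'| ≤ 128 ∧ (B.card : ℝ) / 10 ^ 9 ≤
          ‖∑ p ∈ B, e (((a : ℝ) / (p : ℝ) ^ i + (a' : ℝ) / (p : ℝ) ^ i') * x.1
            + ((b : ℝ) / (p : ℝ) ^ i + (b' : ℝ) / (p : ℝ) ^ i') * x.2)‖) →
      (Bad.card : ℝ) ≤ C * T.card * m * A * N * K * (1 + Real.log (N + 1)) ^ 2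
        / (θ ^ 2 * (B.card : ℝ) ^ (J - 1)) := by
  set Δ : Finset (Fin (J + 1) → ℕ × ℤ × ℤ × ℤ × ℤ) := Fintype.piFinset (fun _ => DD J) with hΔ
  have hΔpos : 0 < Δ.card := by
    rw [Finset.card_pos]
    refine ⟨fun _ => (0, 0, 0, 0, 0), ?_⟩
    rw [hΔ, Fintype.mem_piFinset]
    intro _
    simp [DD]
  set c0 : ℝ := 16 * ((4 * (4 * 128 + 1) * 4 ^ (J + 1) + 1 : ℕ) : ℝ) ^ (J - 1) *
    (10 ^ 18) ^ (J - 1) with hc0
  have hc0pos : 0 < c0 := by rw [hc0]; positivity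
  refine ⟨J * Δ.card * c0, by positivity, ?_⟩
  intro N K P B Bad T F m A R θ hK hKN hB hBne hP hPK hBad hF hR hθ htop hlow
  have hsub : Bad ⊆ (T ×ˢ Icc 1 J ×ˢ Δ).biUnion (fun z => Bad.filter (QQ J B F θ z)) := by
    intro x hx
    obtain ⟨τ, hτ, hτθ⟩ := htop x hx
    obtain ⟨m0, hm0, hm⟩ := hlow x hx
    choose! i' a b a' b' h1 h2 h3 h4 h5 h6 h7 h8 using hm
    set gg : ℕ → ℕ × ℤ × ℤ × ℤ × ℤ := fun i =>
      if i ∈ (Icc 1 J).erase m0 then (i' i, a i, b i, a' i, b' i) else (0, 0, 0, 0, 0) with hgg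
    rw [Finset.mem_biUnion]
    refine ⟨(τ, m0, fun j => gg j.val), ?_, ?_⟩
    · rw [Finset.mem_product, Finset.mem_product]
      refine ⟨hτ, hm0, ?_⟩
      rw [hΔ, Fintype.mem_piFinset]
      intro j
      simp only [hgg]
      split_ifs with hj
      · have k1 := h2 _ hj
        have k4 := abs_le.1 (h4 _ hj)
        have k5 := abs_le.1 (h5 _ hj)
        have k6 := abs_le.1 (h6 _ hj)
        have k7 := abs_le.1 (h7 _ hj)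
        simp only [DD, Finset.mem_product, Finset.mem_range, Finset.mem_Icc]
        exact ⟨by omega, ⟨k4.1, k4.2⟩, ⟨k5.1, k5.2⟩, ⟨k6.1, k6.2⟩, ⟨k7.1, k7.2⟩⟩
      · simp [DD]
    · rw [Finset.mem_filter]
      refine ⟨hx, hτθ, ?_⟩
      intro i hi
      have hi' : i < J + 1 := by
        have := (Finset.mem_Icc.1 (Finset.mem_of_mem_erase hi)).2
        omega
      have hval : (Fin.ofNat (J + 1) i).val = i := by
        simp [Fin.ofNat, Nat.mod_eq_of_lt hi']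
      have hgi : gg i = (i' i, a i, b i, a' i, b' i) := by
        simp only [hgg]; rw [if_pos hi]
      simp only [hval, hgi]
      exact ⟨⟨h1 i hi, h2 i hi⟩, h3 i hi, ⟨h4 i hi, h5 i hi, h6 i hi, h7 i hi⟩, h8 i hi⟩
  set X : ℝ := c0 * m * A * N * K * (1 + Real.log (N + 1)) ^ 2 /
    (θ ^ 2 * (B.card : ℝ) ^ (J - 1)) with hX
  have h1 : (Bad.card : ℝ) ≤ ∑ z ∈ T ×ˢ Icc 1 J ×ˢ Δ, ((Bad.filter (QQ J B F θ z)).card : ℝ) := by
    have := (Finset.card_le_card hsub).trans Finset.card_biUnion_le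
    exact_mod_cast this
  have h2 : ∑ z ∈ T ×ˢ Icc 1 J ×ˢ Δ, ((Bad.filter (QQ J B F θ z)).card : ℝ) ≤
      ∑ z ∈ T ×ˢ Icc 1 J ×ˢ Δ, X := by
    apply Finset.sum_le_sum
    intro z hz
    rw [Finset.mem_product, Finset.mem_product] at hz
    exact card_QQ J hJ N K P B Bad F m A R θ hK hKN hB hBne hP hPK hBad z (hF _ hz.1) hR hθ hz.2.1
  refine h1.trans (h2.trans (le_of_eq ?_))
  rw [Finset.sum_const, nsmul_eq_mul, Finset.card_product, Finset.card_product, Nat.card_Icc]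
  push_cast
  rw [hX]
  ring

end Pool.Agent.Helper530.Sq
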