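import Pool.Agent.Helper530.Sq.Base

namespace Pool.Agent.Helper530.Sq


theorem geometry_aux_pos (a r c : ℝ) (ha : 2 ≤ a) :
    ∃ y : ℝ, c ≤ y ∧ y ≤ c + 1 / 2 ∧ ∃ m : ℤ, a * y = r + m := by
  have ha0 : 0 < a := by linarith
  refine ⟨(r + ⌈a * c - r⌉) / a, ?_, ?_, ⌈a * c - r⌉, by field_simp⟩
  · rw [le_div_iff₀ ha0]
    have := Int.le_ceil (a * c - r)
    linarith
  · rw [div_le_iff₀ ha0]
    have := Int.ceil_lt_add_one (a * c - r)
    nlinarith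

theorem geometry_aux (a r c : ℝ) (ha : 2 ≤ |a|) :
    ∃ y : ℝ, c ≤ y ∧ y ≤ c + 1 / 2 ∧ ∃ m : ℤ, a * y = r + m := by
  rcases le_or_gt 0 a with h | h
  · rw [abs_of_nonneg h] at ha
    exact geometry_aux_pos a r c ha
  · rw [abs_of_neg h] at ha
    obtain ⟨y, h1, h2, m, hm⟩ := geometry_aux_pos (-a) (-r) c ha
    refine ⟨y, h1, h2, -m, ?_⟩
    push_cast
    linarith

theorem geometry_fract (x η : ℝ) (h : ∀ m : ℤ, η ≤ |x - m|) :
    η ≤ Int.fract x ∧ Int.fract x ≤ 1 - η := by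
  have h1 := h ⌊x⌋
  have h2 := h (⌊x⌋ + 1)
  have h3 := Int.fract_nonneg x
  have h4 := Int.fract_lt_one x
  have h5 : x - ⌊x⌋ = Int.fract x := rfl
  rw [h5, abs_of_nonneg h3] at h1
  have h6 : x - ((⌊x⌋ + 1 : ℤ) : ℝ) = Int.fract x - 1 := by
    push_cast; rw [← h5]; ring
  rw [h6, abs_of_neg (by linarith)] at h2
  exact ⟨h1, by linarith⟩

/-- choosing a carry point on a coset of a one dimensional subtorus -/
theorem geometry (u1 u3 : ℤ) (hu : IsCoprime u1 u3) (x1 x3 η : ℝ) (hη : 0 < η)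
    (hη4 : η ≤ 1 / 4) (h1 : ∀ m : ℤ, η ≤ |x1 - m|) (h3 : ∀ m : ℤ, η ≤ |x3 - m|)
    (h13 : ∀ m : ℤ, η ≤ |x1 - x3 - m|) :
    ∃ y1 y3 : ℝ, η / 2 ≤ y1 ∧ y1 + η / 2 ≤ y3 ∧ y3 ≤ 1 - η / 2 ∧
      ∃ m : ℤ, u1 * y1 + u3 * y3 = u1 * x1 + u3 * x3 + m := by
  rcases le_or_gt 2 |u3| with hu3 | hu3
  · have : (2 : ℝ) ≤ |(u3 : ℝ)| := by exact_mod_cast hu3
    obtain ⟨y, hy1, hy2, m, hm⟩ := geometry_aux u3 (u1 * x1 + u3 * x3 - u1 * (1 / 6)) (1 / 3) this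
    exact ⟨1 / 6, y, by linarith, by linarith, by linarith, m, by linarith⟩
  rcases le_or_gt 2 |u1| with hu1 | hu1
  · have : (2 : ℝ) ≤ |(u1 : ℝ)| := by exact_mod_cast hu1
    obtain ⟨y, hy1, hy2, m, hm⟩ := geometry_aux u1 (u1 * x1 + u3 * x3 - u3 * (5 / 6)) (1 / 6) this
    exact ⟨y, 5 / 6, by linarith, by linarith, by linarith, m, by linarith⟩
  have e1 : u1 = -1 ∨ u1 = 0 ∨ u1 = 1 := by
    rw [abs_lt] at hu1; omega
  have e3 : u3 = -1 ∨ u3 = 0 ∨ u3 = 1 := by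
    rw [abs_lt] at hu3; omega
  obtain ⟨f1, f1'⟩ := geometry_fract x1 η h1
  obtain ⟨f3, f3'⟩ := geometry_fract x3 η h3
  obtain ⟨f13, f13'⟩ := geometry_fract (x1 - x3) η h13
  have g1 : Int.fract x1 = x1 - ⌊x1⌋ := rfl
  have g3 : Int.fract x3 = x3 - ⌊x3⌋ := rfl
  have g13 : Int.fract (x1 - x3) = x1 - x3 - ⌊x1 - x3⌋ := rfl
  -- the three families
  have caseB : ∀ e : ℤ, ∃ y1 y3 : ℝ, η / 2 ≤ y1 ∧ y1 + η / 2 ≤ y3 ∧ y3 ≤ 1 - η / 2 ∧
      ∃ m : ℤ, e * y1 = e * x1 + m := fun e =>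
    ⟨Int.fract x1, 1 - η / 2, by linarith, by linarith, le_rfl, -e * ⌊x1⌋, by
      rw [g1]; push_cast; ring⟩
  have caseC : ∀ e : ℤ, ∃ y1 y3 : ℝ, η / 2 ≤ y1 ∧ y1 + η / 2 ≤ y3 ∧ y3 ≤ 1 - η / 2 ∧
      ∃ m : ℤ, e * y3 = e * x3 + m := fun e =>
    ⟨η / 2, Int.fract x3, le_rfl, by linarith, by linarith, -e * ⌊x3⌋, by
      rw [g3]; push_cast; ring⟩
  have caseD : ∀ e : ℤ, ∃ y1 y3 : ℝ, η / 2 ≤ y1 ∧ y1 + η / 2 ≤ y3 ∧ y3 ≤ 1 - η / 2 ∧
      ∃ m : ℤ, e * y1 - e * y3 = e * x1 - e * x3 + m := fun e =>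
    ⟨Int.fract (x1 - x3) / 2, 1 - Int.fract (x1 - x3) / 2, by linarith, by linarith, by linarith,
      -e * (⌊x1 - x3⌋ + 1), by
      rw [g13]; push_cast; ring⟩
  have caseE : ∀ e : ℤ, ∃ y1 y3 : ℝ, η / 2 ≤ y1 ∧ y1 + η / 2 ≤ y3 ∧ y3 ≤ 1 - η / 2 ∧
      ∃ m : ℤ, e * y1 + e * y3 = e * x1 + e * x3 + m := by
    intro e
    have k0 := Int.fract_nonneg (x1 + x3)
    have k1 := Int.fract_lt_one (x1 + x3)
    have k2 : Int.fract (x1 + x3) = x1 + x3 - ⌊x1 + x3⌋ := rfl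
    rcases le_or_gt (1 / 2) (Int.fract (x1 + x3)) with h | h
    · exact ⟨Int.fract (x1 + x3) / 4, 3 * Int.fract (x1 + x3) / 4, by linarith, by linarith,
        by linarith, -e * ⌊x1 + x3⌋, by rw [k2]; push_cast; ring⟩
    · exact ⟨(1 + Int.fract (x1 + x3)) / 2 - 1 / 8, (1 + Int.fract (x1 + x3)) / 2 + 1 / 8,
        by linarith, by linarith, by linarith, e - e * ⌊x1 + x3⌋, by rw [k2]; push_cast; ring⟩
  rcases e1 with rfl | rfl | rfl <;> rcases e3 with rfl | rfl | rfl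
  · obtain ⟨y1, y3, a, b, c, m, hm⟩ := caseE (-1)
    exact ⟨y1, y3, a, b, c, m, by push_cast at *; linarith⟩
  · obtain ⟨y1, y3, a, b, c, m, hm⟩ := caseB (-1)
    exact ⟨y1, y3, a, b, c, m, by push_cast at *; linarith⟩
  · obtain ⟨y1, y3, a, b, c, m, hm⟩ := caseD (-1)
    exact ⟨y1, y3, a, b, c, m, by push_cast at *; linarith⟩
  · obtain ⟨y1, y3, a, b, c, m, hm⟩ := caseC (-1)
    exact ⟨y1, y3, a, b, c, m, by push_cast at *; linarith⟩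
  · rw [isCoprime_zero_left, Int.isUnit_iff] at hu
    omega
  · obtain ⟨y1, y3, a, b, c, m, hm⟩ := caseC 1
    exact ⟨y1, y3, a, b, c, m, by push_cast at *; linarith⟩
  · obtain ⟨y1, y3, a, b, c, m, hm⟩ := caseD 1
    exact ⟨y1, y3, a, b, c, m, by push_cast at *; linarith⟩
  · obtain ⟨y1, y3, a, b, c, m, hm⟩ := caseB 1
    exact ⟨y1, y3, a, b, c, m, by push_cast at *; linarith⟩
  · obtain ⟨y1, y3, a, b, c, m, hm⟩ := caseE 1
    exact ⟨y1, y3, a, b, c, m, by push_cast at *; linarith⟩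

/-- small Bezout coefficients -/
theorem small_bezout (u1 u2 : ℤ) (hu : IsCoprime u1 u2) :
    ∃ v1 v2 : ℤ, u1 * v2 - u2 * v1 = 1 ∧ |v1| ≤ 1 + |u1| + |u2| ∧ |v2| ≤ 1 + |u1| + |u2| := by
  by_cases h0 : u1 = 0
  · subst h0
    rw [isCoprime_zero_left, Int.isUnit_iff] at hu
    rcases hu with rfl | rfl
    · exact ⟨-1, 0, by norm_num, by norm_num, by norm_num⟩
    · exact ⟨1, 0, by norm_num, by norm_num, by norm_num⟩
  obtain ⟨a, b, hab⟩ := hu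
  have hm := Int.emod_add_mul_ediv (-b) u1
  have hm0 := Int.emod_nonneg (-b) h0
  have hm1 := Int.emod_lt_abs (-b) h0
  set v1 := (-b) % u1 with hv1
  set q := (-b) / u1 with hq
  refine ⟨v1, a - q * u2, ?_, ?_, ?_⟩
  · have : v1 = -b - u1 * q := by linarith
    rw [this]
    linear_combination hab
  · rw [abs_of_nonneg hm0]
    have := abs_nonneg u2
    linarith
  · have hdet : u1 * (a - q * u2) = 1 + u2 * v1 := by
      have : v1 = -b - u1 * q := by linarith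
      rw [this]
      linear_combination hab
    have h1 : |u1| * |a - q * u2| ≤ |u1| * (1 + |u2|) := by
      rw [← abs_mul, hdet]
      have hu1pos : 1 ≤ |u1| := Int.one_le_abs h0
      calc |1 + u2 * v1| ≤ |1| + |u2 * v1| := abs_add_le _ _
        _ = 1 + |u2| * v1 := by rw [abs_mul, abs_one, abs_of_nonneg hm0]
        _ ≤ |u1| + |u2| * |u1| := by
            have := abs_nonneg u2
            nlinarith
        _ = _ := by ring
    have h2 := le_of_mul_le_mul_left h1 (abs_pos.2 h0)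
    have := abs_nonneg u1
    linarith

end Pool.Agent.Helper530.Sq
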