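import Pool.Agent.Helper530.Sq.Base

namespace Pool.Agent.Helper530.Sq


open Finset Classical

lemma e_add' (x y : ℝ) : e (x + y) = e x * e y := by
  unfold e; rw [← Complex.exp_add]; congr 1; push_cast; ring

lemma e_zero' : e 0 = 1 := by unfold e; simp

lemma e_norm' (x : ℝ) : ‖e x‖ = 1 := by
  unfold e
  rw [show (2 * Real.pi * x * Complex.I : ℂ) = ((2 * Real.pi * x : ℝ) : ℂ) * Complex.I by
    push_cast; ring]
  exact Complex.norm_exp_ofReal_mul_I _

lemma e_conj' (x : ℝ) : (starRingEnd ℂ) (e x) = e (-x) := by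
  have h : ∀ y : ℝ, e y = Complex.exp (((2 * Real.pi * y : ℝ) : ℂ) * Complex.I) := by
    intro y; unfold e; congr 1; push_cast; ring
  rw [h, h, ← Complex.exp_conj, map_mul, Complex.conj_ofReal, Complex.conj_I]
  congr 1
  push_cast
  ring

lemma e_int' (x : ℝ) (m : ℤ) : e (x - m) = e x := by
  unfold e
  rw [Complex.exp_eq_exp_iff_exists_int]
  exact ⟨-m, by push_cast; ring⟩

lemma e_sum' {ι : Type*} (s : Finset ι) (f : ι → ℝ) : e (∑ i ∈ s, f i) = ∏ i ∈ s, e (f i) := by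
  induction s using Finset.induction_on with
  | empty => simp [e_zero']
  | insert a s ha ih => rw [sum_insert ha, prod_insert ha, e_add', ih]

lemma e_sub_one' (y : ℝ) (hy : |y| ≤ 1 / 2) : 4 * |y| ≤ ‖e y - 1‖ := by
  have h1 : ‖e y - 1‖ = 2 * |Real.sin (Real.pi * y)| := by
    unfold e
    have h := Complex.norm_exp_I_mul_ofReal_sub_one (2 * Real.pi * y)
    rw [show (2 * Real.pi * y * Complex.I : ℂ) = Complex.I * ((2 * Real.pi * y : ℝ) : ℂ) by
      push_cast; ring, h, show 2 * Real.pi * y / 2 = Real.pi * y by ring, norm_mul,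
      Real.norm_eq_abs, Real.norm_eq_abs]
    norm_num
  rw [h1]
  have h2 : |Real.sin (Real.pi * y)| = Real.sin (Real.pi * |y|) := by
    rcases le_total 0 y with h | h
    · rw [abs_of_nonneg h, abs_of_nonneg]
      rw [abs_of_nonneg h] at hy
      apply Real.sin_nonneg_of_nonneg_of_le_pi
      · exact mul_nonneg Real.pi_pos.le h
      · nlinarith [Real.pi_pos]
    · rw [abs_of_nonpos h, mul_neg, Real.sin_neg, abs_of_nonpos]
      rw [abs_of_nonpos h] at hy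
      apply Real.sin_nonpos_of_nonpos_of_neg_pi_le
      · exact mul_nonpos_of_nonneg_of_nonpos Real.pi_pos.le h
      · nlinarith [Real.pi_pos]
  rw [h2]
  have h3 := Real.mul_le_sin (x := Real.pi * |y|) (by positivity) (by nlinarith [Real.pi_pos])
  have h4 : 2 / Real.pi * (Real.pi * |y|) = 2 * |y| := by
    field_simp
  rw [h4] at h3
  linarith

/-- the index type -/
abbrev KI (H : ℕ) := (Fin 4 → Fin H) × (Fin 4 → Fin H)

def S4 {H : ℕ} (f : Fin 4 → Fin H) : ℕ := ∑ k, (f k : ℕ)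

def ph {H : ℕ} (i : KI H) : ℤ := (S4 i.1 : ℤ) - S4 i.2

noncomputable def kap (H : ℕ) (x : ℝ) : ℝ := (‖∑ h : Fin H, e ((h : ℕ) * x)‖ / H) ^ 8

lemma S4_lt {H : ℕ} (hH : 1 ≤ H) (f : Fin 4 → Fin H) : S4 f < 4 * H := by
  unfold S4
  rw [Fin.sum_univ_four]
  have h0 := (f 0).2
  have h1 := (f 1).2
  have h2 := (f 2).2
  have h3 := (f 3).2
  omega

lemma ph_zero_iff {H : ℕ} (f g : Fin 4 → Fin H) : ph (f, g) = 0 ↔ S4 f = S4 g := by
  unfold ph
  simp [sub_eq_zero]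

lemma ph_le {H : ℕ} (hH : 1 ≤ H) (i : KI H) : |ph i| ≤ 4 * H := by
  have h1 := S4_lt hH i.1
  have h2 := S4_lt hH i.2
  unfold ph
  rw [abs_le]
  constructor <;> omega

lemma KI_card (H : ℕ) : Fintype.card (KI H) = H ^ 8 := by
  simp [KI]
  ring

lemma kap_expand {H : ℕ} (hH : 1 ≤ H) (x : ℝ) :
    ((kap H x : ℝ) : ℂ) = ((H : ℂ) ^ 8)⁻¹ * ∑ i : KI H, e (ph i * x) := by
  have hH0 : (H : ℂ) ≠ 0 := by
    have : H ≠ 0 := by omega
    exact_mod_cast this
  set z : ℂ := ∑ h : Fin H, e ((h : ℕ) * x) with hz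
  have h1 : z ^ 4 = ∑ f : Fin 4 → Fin H, e (S4 f * x) := by
    rw [hz, Fintype.sum_pow]
    apply Finset.sum_congr rfl
    intro f _
    rw [← e_sum']
    congr 1
    unfold S4
    push_cast
    rw [Finset.sum_mul]
  have h2 : (starRingEnd ℂ) z ^ 4 = ∑ g : Fin 4 → Fin H, e (-(S4 g * x)) := by
    rw [← map_pow, h1, map_sum]
    apply Finset.sum_congr rfl
    intro g _
    exact e_conj' _
  have h3 : z ^ 4 * (starRingEnd ℂ) z ^ 4 = ∑ i : KI H, e (ph i * x) := by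
    rw [h1, h2, Finset.sum_mul_sum, ← Finset.sum_product', Finset.univ_product_univ]
    apply Finset.sum_congr rfl
    intro i _
    rw [← e_add']
    congr 1
    unfold ph
    push_cast
    ring
  have h4 : ((‖z‖ ^ 8 : ℝ) : ℂ) = z ^ 4 * (starRingEnd ℂ) z ^ 4 := by
    rw [← mul_pow, Complex.mul_conj, Complex.normSq_eq_norm_sq]
    push_cast
    ring
  unfold kap
  rw [← hz, ← h3, ← h4, div_pow]
  push_cast
  field_simp

lemma kap_nonneg (H : ℕ) (x : ℝ) : 0 ≤ kap H x := by unfold kap; positivity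

lemma kap_le_one {H : ℕ} (hH : 1 ≤ H) (x : ℝ) : kap H x ≤ 1 := by
  have hH0 : (0 : ℝ) < H := by exact_mod_cast hH
  unfold kap
  apply pow_le_one₀ (by positivity)
  rw [div_le_one hH0]
  refine (norm_sum_le _ _).trans ?_
  simp [e_norm']

lemma kap_far {H : ℕ} (hH : 1 ≤ H) {x δ : ℝ} (hδ : 0 < δ) (hx : ∀ m : ℤ, δ ≤ |x - m|) :
    kap H x ≤ (1 / (2 * H * δ)) ^ 8 := by
  have hH0 : (0 : ℝ) < H := by exact_mod_cast hH
  unfold kap
  apply pow_le_pow_left₀ (by positivity)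
  have hx1 := hx (round x)
  have hx2 := abs_sub_round x
  have h1 := e_sub_one' _ hx2
  rw [e_int'] at h1
  have h2 : ∑ h : Fin H, e ((h : ℕ) * x) = ∑ h ∈ Finset.range H, (e x) ^ h := by
    rw [Finset.sum_range]
    apply Finset.sum_congr rfl
    intro h _
    unfold e
    rw [← Complex.exp_nat_mul]
    congr 1
    push_cast
    ring
  have hne : e x ≠ 1 := by
    intro hh
    rw [hh, sub_self, norm_zero] at h1
    linarith
  rw [h2, geom_sum_eq hne, norm_div]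
  have h3 : ‖e x ^ H - 1‖ ≤ 2 := by
    refine (norm_sub_le _ _).trans ?_
    rw [norm_pow, e_norm', one_pow, norm_one]; norm_num
  have h4 : 4 * δ ≤ ‖e x - 1‖ := by linarith
  have h5 : 0 < ‖e x - 1‖ := by linarith
  rw [div_div, div_le_div_iff₀ (by positivity) (by positivity)]
  nlinarith [norm_nonneg (e x - 1), norm_nonneg (e x ^ H - 1), mul_pos hH0 hδ]

/-- the proportion of zero phases -/
lemma zero_phase {H : ℕ} (hH : 1 ≤ H) :
    (H : ℝ) ^ 8 / (4 * H) ≤ ((Finset.univ.filter (fun i : KI H => ph i = 0)).card : ℝ) := by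
  have hH0 : (0 : ℝ) < H := by exact_mod_cast hH
  have h1 : ((Finset.univ.filter (fun i : KI H => ph i = 0)).card : ℝ) =
      ∑ s ∈ Finset.range (4 * H),
        ((Finset.univ.filter (fun f : Fin 4 → Fin H => S4 f = s)).card : ℝ) ^ 2 := by
    have h2 : (Finset.univ.filter (fun i : KI H => ph i = 0)) =
        (Finset.range (4 * H)).biUnion (fun s =>
          (Finset.univ.filter (fun f : Fin 4 → Fin H => S4 f = s)) ×ˢ
          (Finset.univ.filter (fun f : Fin 4 → Fin H => S4 f = s))) := by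
      ext ⟨f, g⟩
      simp only [Finset.mem_filter, Finset.mem_univ, true_and, Finset.mem_biUnion,
        Finset.mem_range, Finset.mem_product, ph_zero_iff]
      constructor
      · intro h
        exact ⟨S4 f, S4_lt hH f, rfl, h.symm⟩
      · rintro ⟨s, _, h1, h2⟩
        rw [h1, h2]
    rw [h2, Finset.card_biUnion]
    · push_cast
      apply Finset.sum_congr rfl
      intro s _
      rw [Finset.card_product]
      push_cast
      ring
    · intro s _ s' _ hss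
      rw [Function.onFun, Finset.disjoint_left]
      rintro ⟨f, g⟩ h1 h2
      simp only [Finset.mem_product, Finset.mem_filter, Finset.mem_univ, true_and] at h1 h2
      exact hss (h1.1.symm.trans h2.1)
  have h3 : ∑ s ∈ Finset.range (4 * H),
        ((Finset.univ.filter (fun f : Fin 4 → Fin H => S4 f = s)).card : ℝ) = (H : ℝ) ^ 4 := by
    have h4 : ∑ s ∈ Finset.range (4 * H),
        (Finset.univ.filter (fun f : Fin 4 → Fin H => S4 f = s)).card =
        (Finset.univ : Finset (Fin 4 → Fin H)).card := by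
      rw [← Finset.card_eq_sum_card_fiberwise]
      intro f _
      exact Finset.mem_coe.2 (Finset.mem_range.2 (S4_lt hH f))
    have h5 : (Finset.univ : Finset (Fin 4 → Fin H)).card = H ^ 4 := by simp
    rw [h5] at h4
    exact_mod_cast h4
  have h6 := sq_sum_le_card_mul_sum_sq (s := Finset.range (4 * H))
    (f := fun s => ((Finset.univ.filter (fun f : Fin 4 → Fin H => S4 f = s)).card : ℝ))
  rw [h3, Finset.card_range, ← h1] at h6
  push_cast at h6
  rw [div_le_iff₀ (by positivity)]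
  nlinarith

lemma prod_expand {H : ℕ} (hH : 1 ≤ H) {d : ℕ} (Y : Fin d → ℝ) :
    ((∏ j, kap H (Y j) : ℝ) : ℂ) =
      (((H : ℂ) ^ 8)⁻¹) ^ d * ∑ I : Fin d → KI H, e (∑ j, ph (I j) * Y j) := by
  push_cast
  rw [Finset.prod_congr rfl (fun j _ => kap_expand hH (Y j)), Finset.prod_mul_distrib,
    Finset.prod_const, Finset.card_univ, Fintype.card_fin]
  congr 1
  rw [Finset.prod_univ_sum]
  simp only [Fintype.piFinset_univ]
  apply Finset.sum_congr rfl
  intro I _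
  rw [e_sum']

lemma Z_card {H : ℕ} (hH : 1 ≤ H) (d : ℕ) :
    ((1 : ℝ) / (4 * H)) ^ d * ((H : ℝ) ^ 8) ^ d ≤
      ((Finset.univ.filter (fun I : Fin d → KI H => ∀ j, ph (I j) = 0)).card : ℝ) := by
  have hH0 : (0 : ℝ) < H := by exact_mod_cast hH
  have h1 : Finset.univ.filter (fun I : Fin d → KI H => ∀ j, ph (I j) = 0) =
     Fintype.piFinset (fun _ => Finset.univ.filter (fun i : KI H => ph i = 0)) := by
    ext I; simp
  rw [h1, Fintype.card_piFinset, Finset.prod_const, Finset.card_univ, Fintype.card_fin]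
  push_cast
  rw [← mul_pow]
  apply pow_le_pow_left₀ (by positivity)
  have := zero_phase hH
  calc _ = (H:ℝ)^8/(4*H) := by ring
    _ ≤ _ := this

/-- splitting the kernel sum -/
lemma kernel_far {B : Finset ℕ} {d : ℕ} (Y : Fin d → ℕ → ℝ) {H : ℕ} (hH : 1 ≤ H) {δ : ℝ}
    (hδ : 0 < δ) (P : ℕ → Prop) [DecidablePred P]
    (hP : ∀ p ∈ B, ¬ P p → ∃ j, ∀ m : ℤ, δ ≤ |Y j p - m|) :
    ∑ p ∈ B, ∏ j, kap H (Y j p) ≤ ((B.filter P).card : ℝ) + (1 / (2 * H * δ)) ^ 8 * B.card := by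
  have hH0 : (0 : ℝ) < H := by exact_mod_cast hH
  have h1 : ∀ p, ∏ j, kap H (Y j p) ≤ 1 := fun p =>
    Finset.prod_le_one (fun j _ => kap_nonneg _ _) (fun j _ => kap_le_one hH _)
  have h2 : ∀ p ∈ B, ∏ j, kap H (Y j p) ≤ (if P p then (1 : ℝ) else 0) + (1 / (2 * H * δ)) ^ 8 := by
    intro p hp
    by_cases hPp : P p
    · rw [if_pos hPp]
      have := h1 p
      have h0 : (0 : ℝ) ≤ (1 / (2 * H * δ)) ^ 8 := by positivity
      linarith
    · rw [if_neg hPp, zero_add]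
      obtain ⟨j, hj⟩ := hP p hp hPp
      have h3 := kap_far hH hδ hj
      rw [← Finset.mul_prod_erase Finset.univ _ (Finset.mem_univ j)]
      have h4 : ∏ x ∈ Finset.univ.erase j, kap H (Y x p) ≤ 1 :=
        Finset.prod_le_one (fun j _ => kap_nonneg _ _) (fun j _ => kap_le_one hH _)
      have h5 : 0 ≤ ∏ x ∈ Finset.univ.erase j, kap H (Y x p) :=
        Finset.prod_nonneg (fun j _ => kap_nonneg _ _)
      calc _ ≤ kap H (Y j p) * 1 := mul_le_mul_of_nonneg_left h4 (kap_nonneg _ _)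
        _ = _ := mul_one _
        _ ≤ _ := h3
  refine (Finset.sum_le_sum h2).trans ?_
  rw [Finset.sum_add_distrib, Finset.sum_const, ← Finset.sum_filter, Finset.sum_const]
  simp only [nsmul_eq_mul, mul_one]
  linarith [mul_comm (B.card : ℝ) ((1 / (2 * H * δ)) ^ 8)]

/-- TARGET 1: if no small mode is biased then many points are near any centre -/
theorem kernel_pos (B : Finset ℕ) (d : ℕ) (X : Fin d → ℕ → ℝ) (c : Fin d → ℝ) (H : ℕ)
    (hH : 1 ≤ H) (τ δ : ℝ) (hτ : 0 ≤ τ) (hδ : 0 < δ)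
    (hmode : ∀ l : Fin d → ℤ, l ≠ 0 → (∀ j, |l j| ≤ 4 * H) →
      ‖∑ p ∈ B, e (∑ j, l j * X j p)‖ ≤ τ * B.card) :
    ((1 / (4 * (H : ℝ))) ^ d - τ - (1 / (2 * H * δ)) ^ 8) * B.card ≤
      ((B.filter (fun p => ∀ j, ∃ m : ℤ, |X j p - c j - m| < δ)).card : ℝ) := by
  have hH0 : (0 : ℝ) < H := by exact_mod_cast hH
  have hfar := kernel_far (B := B) (fun j p => X j p - c j) hH hδ
    (fun p => ∀ j, ∃ m : ℤ, |X j p - c j - m| < δ) (by
      intro p _ hp
      push Not at hp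
      exact hp)
  have hN : (0 : ℝ) < ((H : ℝ) ^ 8) ^ d := by positivity
  set F : (Fin d → KI H) → ℂ := fun I =>
    e (-(∑ j, ph (I j) * c j)) * ∑ p ∈ B, e (∑ j, ph (I j) * X j p) with hF
  have hsum : ((∑ p ∈ B, ∏ j, kap H (X j p - c j) : ℝ) : ℂ) =
      (((H : ℂ) ^ 8)⁻¹) ^ d * ∑ I : Fin d → KI H, F I := by
    rw [Complex.ofReal_sum, Finset.sum_congr rfl (fun p _ => prod_expand hH _), ← Finset.mul_sum]
    congr 1
    rw [Finset.sum_comm]
    apply Finset.sum_congr rfl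
    intro I _
    rw [hF]
    simp only
    rw [Finset.mul_sum]
    apply Finset.sum_congr rfl
    intro p _
    rw [← e_add']
    congr 1
    simp only [mul_sub, Finset.sum_sub_distrib]
    ring
  have hF0 : ∀ I : Fin d → KI H, (∀ j, ph (I j) = 0) → F I = B.card := by
    intro I hI
    simp [hF, hI, e_zero']
  have hF1 : ∀ I : Fin d → KI H, ¬ (∀ j, ph (I j) = 0) → ‖F I‖ ≤ τ * B.card := by
    intro I hI
    simp only [hF]
    rw [norm_mul, e_norm', one_mul]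
    apply hmode (fun j => ph (I j))
    · intro h
      apply hI
      intro j
      exact congrFun h j
    · intro j
      exact ph_le hH _
  have hsplit := Finset.sum_filter_add_sum_filter_not (Finset.univ : Finset (Fin d → KI H))
    (fun I => ∀ j, ph (I j) = 0) F
  have hZ := Z_card hH d
  set Z := Finset.univ.filter (fun I : Fin d → KI H => ∀ j, ph (I j) = 0) with hZd
  have hZs : ∑ I ∈ Z, F I = Z.card * B.card := by
    rw [Finset.sum_congr rfl (fun I hI => hF0 I (Finset.mem_filter.1 hI).2), Finset.sum_const,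
      nsmul_eq_mul]
  have hrest : ‖∑ I ∈ Finset.univ.filter (fun I : Fin d → KI H => ¬ ∀ j, ph (I j) = 0), F I‖ ≤
      ((H : ℝ) ^ 8) ^ d * (τ * B.card) := by
    refine (norm_sum_le_of_le _ (fun I hI => hF1 I (Finset.mem_filter.1 hI).2)).trans ?_
    rw [Finset.sum_const, nsmul_eq_mul]
    apply mul_le_mul_of_nonneg_right _ (by positivity)
    have : (Finset.univ.filter (fun I : Fin d → KI H => ¬ ∀ j, ph (I j) = 0)).card ≤
        Fintype.card (Fin d → KI H) := Finset.card_le_univ _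
    have h2 : Fintype.card (Fin d → KI H) = (H ^ 8) ^ d := by
      rw [Fintype.card_fun, KI_card, Fintype.card_fin]
    rw [h2] at this
    exact_mod_cast this
  rw [← hsplit, hZs] at hsum
  have hreal : (∑ p ∈ B, ∏ j, kap H (X j p - c j)) - (((H : ℝ) ^ 8)⁻¹) ^ d * (Z.card * B.card) ≥
      - (τ * B.card) := by
    have h1 : (((∑ p ∈ B, ∏ j, kap H (X j p - c j)) -
        (((H : ℝ) ^ 8)⁻¹) ^ d * (Z.card * B.card) : ℝ) : ℂ) =
        (((H : ℂ) ^ 8)⁻¹) ^ d *
          ∑ I ∈ Finset.univ.filter (fun I : Fin d → KI H => ¬ ∀ j, ph (I j) = 0), F I := by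
      rw [Complex.ofReal_sub, hsum]
      push_cast
      ring
    have h2 : |(∑ p ∈ B, ∏ j, kap H (X j p - c j)) -
        (((H : ℝ) ^ 8)⁻¹) ^ d * (Z.card * B.card)| ≤ τ * B.card := by
      rw [← Real.norm_eq_abs, ← Complex.norm_real, h1, norm_mul, norm_pow, norm_inv, norm_pow,
        Complex.norm_natCast, inv_pow]
      rw [inv_mul_le_iff₀ hN]
      exact hrest
    linarith [(abs_le.1 h2).1]
  have hmain : (1 / (4 * (H : ℝ))) ^ d * B.card ≤
      (((H : ℝ) ^ 8)⁻¹) ^ d * (Z.card * B.card) := by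
    rw [inv_pow, ← mul_assoc]
    apply mul_le_mul_of_nonneg_right _ (by positivity)
    rw [le_inv_mul_iff₀ hN, mul_comm]
    exact hZ
  rw [sub_mul, sub_mul]
  linarith [hfar, hreal, hmain]

/-- averaging: some centre has a large kernel sum -/
lemma exists_centre (G : Finset ℕ) (hGne : G.Nonempty) {d : ℕ} (Y : Fin d → ℕ → ℝ) {H : ℕ}
    (hH : 1 ≤ H) :
    ∃ p0 ∈ G, (1 / (4 * (H : ℝ))) ^ d * G.card ≤ ∑ p ∈ G, ∏ j, kap H (Y j p - Y j p0) := by
  have hH0 : (0 : ℝ) < H := by exact_mod_cast hH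
  have hN : (0 : ℝ) < ((H : ℝ) ^ 8) ^ d := by positivity
  by_contra hcon
  push Not at hcon
  have h1 : ∑ q ∈ G, ∑ p ∈ G, ∏ j, kap H (Y j p - Y j q) <
      ∑ q ∈ G, (1 / (4 * (H : ℝ))) ^ d * G.card :=
    Finset.sum_lt_sum_of_nonempty hGne (fun q hq => hcon q hq)
  have hsq : ∀ A : ℕ → ℝ, ((‖∑ p ∈ G, e (A p)‖ ^ 2 : ℝ) : ℂ) =
      ∑ q ∈ G, ∑ p ∈ G, e (A p - A q) := by
    intro A
    have h3 : ((‖∑ p ∈ G, e (A p)‖ ^ 2 : ℝ) : ℂ) =
        (∑ p ∈ G, e (A p)) * (starRingEnd ℂ) (∑ p ∈ G, e (A p)) := by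
      rw [Complex.mul_conj, Complex.normSq_eq_norm_sq]
    rw [h3, map_sum, Finset.sum_mul_sum, Finset.sum_comm]
    apply Finset.sum_congr rfl
    intro q _
    apply Finset.sum_congr rfl
    intro p _
    rw [e_conj', ← e_add', sub_eq_add_neg]
  have h2 : ∑ q ∈ G, ∑ p ∈ G, ∏ j, kap H (Y j p - Y j q) =
      (((H : ℝ) ^ 8)⁻¹) ^ d * ∑ I : Fin d → KI H, ‖∑ p ∈ G, e (∑ j, ph (I j) * Y j p)‖ ^ 2 := by
    have h4 : ((∑ q ∈ G, ∑ p ∈ G, ∏ j, kap H (Y j p - Y j q) : ℝ) : ℂ) =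
        (((((H : ℝ) ^ 8)⁻¹) ^ d *
          ∑ I : Fin d → KI H, ‖∑ p ∈ G, e (∑ j, ph (I j) * Y j p)‖ ^ 2 : ℝ) : ℂ) := by
      have hR : ((∑ I : Fin d → KI H, ‖∑ p ∈ G, e (∑ j, ph (I j) * Y j p)‖ ^ 2 : ℝ) : ℂ) =
          ∑ I : Fin d → KI H, ∑ q ∈ G, ∑ p ∈ G,
            e ((∑ j, ph (I j) * Y j p) - (∑ j, ph (I j) * Y j q)) := by
        rw [Complex.ofReal_sum]
        exact Finset.sum_congr rfl (fun I _ => hsq (fun p => ∑ j, ph (I j) * Y j p))
      rw [Complex.ofReal_mul, hR, Complex.ofReal_sum]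
      have h5 : ∀ q ∈ G, ((∑ p ∈ G, ∏ j, kap H (Y j p - Y j q) : ℝ) : ℂ) =
          (((H : ℂ) ^ 8)⁻¹) ^ d * ∑ I : Fin d → KI H,
            ∑ p ∈ G, e ((∑ j, ph (I j) * Y j p) - (∑ j, ph (I j) * Y j q)) := by
        intro q _
        rw [Complex.ofReal_sum, Finset.sum_congr rfl (fun p _ => prod_expand hH _),
          ← Finset.mul_sum]
        congr 1
        rw [Finset.sum_comm]
        apply Finset.sum_congr rfl
        intro I _
        apply Finset.sum_congr rfl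
        intro p _
        congr 1
        simp only [mul_sub, Finset.sum_sub_distrib]
      rw [Finset.sum_congr rfl h5, ← Finset.mul_sum, Finset.sum_comm]
      congr 1
      push_cast
      rfl
    exact_mod_cast h4
  have hZ := Z_card hH d
  set Z := Finset.univ.filter (fun I : Fin d → KI H => ∀ j, ph (I j) = 0) with hZd
  have h6 : (Z.card : ℝ) * (G.card : ℝ) ^ 2 ≤
      ∑ I : Fin d → KI H, ‖∑ p ∈ G, e (∑ j, ph (I j) * Y j p)‖ ^ 2 := by
    calc (Z.card : ℝ) * (G.card : ℝ) ^ 2 = ∑ I ∈ Z, (G.card : ℝ) ^ 2 := by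
          rw [Finset.sum_const, nsmul_eq_mul]
      _ = ∑ I ∈ Z, ‖∑ p ∈ G, e (∑ j, ph (I j) * Y j p)‖ ^ 2 := by
          apply Finset.sum_congr rfl
          intro I hI
          have h7 := (Finset.mem_filter.1 hI).2
          simp [h7, e_zero']
      _ ≤ _ := Finset.sum_le_sum_of_subset_of_nonneg (Finset.subset_univ _)
          (fun _ _ _ => by positivity)
  rw [h2, Finset.sum_const, nsmul_eq_mul] at h1
  have h8 : (G.card : ℝ) * ((1 / (4 * (H : ℝ))) ^ d * G.card) ≤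
      (((H : ℝ) ^ 8)⁻¹) ^ d *
        ∑ I : Fin d → KI H, ‖∑ p ∈ G, e (∑ j, ph (I j) * Y j p)‖ ^ 2 := by
    rw [inv_pow, le_inv_mul_iff₀ hN]
    refine le_trans ?_ h6
    have h9 : (G.card : ℝ) ^ 2 * ((1 / (4 * (H : ℝ))) ^ d * ((H : ℝ) ^ 8) ^ d) ≤
        (G.card : ℝ) ^ 2 * Z.card := mul_le_mul_of_nonneg_left hZ (by positivity)
    nlinarith [h9]
  linarith

/-- the mixed kernel sum -/
lemma mixed_sum (B : Finset ℕ) {d : ℕ} (Y : Fin d → ℕ → ℝ) (c : Fin d → ℝ) (t : ℕ → ℝ) (t0 : ℝ)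
    {H : ℕ} (hH : 1 ≤ H) {τ : ℝ} (hτ : 0 ≤ τ)
    (hmode : ∀ (l : ℤ) (m : Fin d → ℤ), l ≠ 0 → |l| ≤ 4 * H → (∀ j, |m j| ≤ 4 * H) →
      ‖∑ p ∈ B, e (l * t p + ∑ j, m j * Y j p)‖ ≤ τ * B.card) :
    (1 / (4 * (H : ℝ))) * (∑ p ∈ B, ∏ j, kap H (Y j p - c j)) - τ * B.card ≤
      ∑ p ∈ B, (∏ j, kap H (Y j p - c j)) * kap H (t p - t0) := by
  have hH0 : (0 : ℝ) < H := by exact_mod_cast hH
  have hN : (0 : ℝ) < (H : ℝ) ^ 8 := by positivity
  have hNd : (0 : ℝ) < ((H : ℝ) ^ 8) ^ d := by positivity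
  set K : ℕ → ℝ := fun p => ∏ j, kap H (Y j p - c j) with hK
  have hK0 : ∀ p, 0 ≤ K p := fun p => Finset.prod_nonneg (fun j _ => kap_nonneg _ _)
  have hKe : ∀ p, ((K p : ℝ) : ℂ) =
      (((H : ℂ) ^ 8)⁻¹) ^ d * ∑ I : Fin d → KI H, e (∑ j, ph (I j) * (Y j p - c j)) :=
    fun p => prod_expand hH _
  set F : KI H → ℂ := fun i => ∑ p ∈ B, ((K p : ℝ) : ℂ) * e (ph i * (t p - t0)) with hF
  have hsum : ((∑ p ∈ B, K p * kap H (t p - t0) : ℝ) : ℂ) =
      ((H : ℂ) ^ 8)⁻¹ * ∑ i : KI H, F i := by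
    rw [Complex.ofReal_sum]
    have h1 : ∀ p ∈ B, ((K p * kap H (t p - t0) : ℝ) : ℂ) = ((H : ℂ) ^ 8)⁻¹ *
        ∑ i : KI H, ((K p : ℝ) : ℂ) * e (ph i * (t p - t0)) := by
      intro p _
      rw [Complex.ofReal_mul, kap_expand hH, ← Finset.mul_sum]
      ring
    rw [Finset.sum_congr rfl h1, ← Finset.mul_sum, Finset.sum_comm]
  have hF0 : ∀ i : KI H, ph i = 0 → F i = ((∑ p ∈ B, K p : ℝ) : ℂ) := by
    intro i hi
    simp [hF, hi, e_zero']
  have hF1 : ∀ i : KI H, ¬ (ph i = 0) → ‖F i‖ ≤ τ * B.card := by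
    intro i hi
    have h2 : F i = (((H : ℂ) ^ 8)⁻¹) ^ d * ∑ I : Fin d → KI H,
        e (-(ph i * t0) - ∑ j, ph (I j) * c j) * ∑ p ∈ B, e (ph i * t p + ∑ j, ph (I j) * Y j p) := by
      simp only [hF]
      have h3 : ∀ p ∈ B, ((K p : ℝ) : ℂ) * e (ph i * (t p - t0)) = (((H : ℂ) ^ 8)⁻¹) ^ d *
          ∑ I : Fin d → KI H, e (-(ph i * t0) - ∑ j, ph (I j) * c j) *
            e (ph i * t p + ∑ j, ph (I j) * Y j p) := by
        intro p _
        rw [hKe, mul_assoc, Finset.sum_mul]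
        congr 1
        apply Finset.sum_congr rfl
        intro I _
        rw [← e_add', ← e_add']
        congr 1
        simp only [mul_sub, Finset.sum_sub_distrib]
        ring
      rw [Finset.sum_congr rfl h3, ← Finset.mul_sum, Finset.sum_comm]
      congr 1
      apply Finset.sum_congr rfl
      intro I _
      rw [Finset.mul_sum]
    rw [h2, norm_mul, norm_pow, norm_inv, norm_pow, Complex.norm_natCast, inv_pow,
      inv_mul_le_iff₀ hNd]
    have h4 : ∀ I ∈ (Finset.univ : Finset (Fin d → KI H)),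
        ‖e (-(ph i * t0) - ∑ j, ph (I j) * c j) *
          ∑ p ∈ B, e (ph i * t p + ∑ j, ph (I j) * Y j p)‖ ≤ τ * B.card := by
      intro I _
      rw [norm_mul, e_norm', one_mul]
      exact hmode (ph i) (fun j => ph (I j)) hi (ph_le hH _) (fun j => ph_le hH _)
    refine (norm_sum_le_of_le _ h4).trans ?_
    rw [Finset.sum_const, nsmul_eq_mul, Finset.card_univ, Fintype.card_fun, KI_card,
      Fintype.card_fin]
    push_cast
    exact le_rfl
  have hsplit := Finset.sum_filter_add_sum_filter_not (Finset.univ : Finset (KI H))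
    (fun i => ph i = 0) F
  have hZ := zero_phase hH
  set Z := Finset.univ.filter (fun i : KI H => ph i = 0) with hZd
  have hZs : ∑ i ∈ Z, F i = Z.card * ((∑ p ∈ B, K p : ℝ) : ℂ) := by
    rw [Finset.sum_congr rfl (fun i hi => hF0 i (Finset.mem_filter.1 hi).2), Finset.sum_const,
      nsmul_eq_mul]
  have hrest : ‖∑ i ∈ Finset.univ.filter (fun i : KI H => ¬ ph i = 0), F i‖ ≤
      (H : ℝ) ^ 8 * (τ * B.card) := by
    refine (norm_sum_le_of_le _ (fun i hi => hF1 i (Finset.mem_filter.1 hi).2)).trans ?_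
    rw [Finset.sum_const, nsmul_eq_mul]
    apply mul_le_mul_of_nonneg_right _ (by positivity)
    have : (Finset.univ.filter (fun i : KI H => ¬ ph i = 0)).card ≤
        Fintype.card (KI H) := Finset.card_le_univ _
    rw [KI_card] at this
    exact_mod_cast this
  rw [← hsplit, hZs] at hsum
  have h1 : (((∑ p ∈ B, K p * kap H (t p - t0)) -
      ((H : ℝ) ^ 8)⁻¹ * (Z.card * (∑ p ∈ B, K p)) : ℝ) : ℂ) =
      ((H : ℂ) ^ 8)⁻¹ *
        ∑ i ∈ Finset.univ.filter (fun i : KI H => ¬ ph i = 0), F i := by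
    rw [Complex.ofReal_sub, hsum]
    push_cast
    ring
  have h2 : |(∑ p ∈ B, K p * kap H (t p - t0)) -
      ((H : ℝ) ^ 8)⁻¹ * (Z.card * (∑ p ∈ B, K p))| ≤ τ * B.card := by
    rw [← Real.norm_eq_abs, ← Complex.norm_real, h1, norm_mul, norm_inv, norm_pow,
      Complex.norm_natCast]
    rw [inv_mul_le_iff₀ hN]
    exact hrest
  have h3 := (abs_le.1 h2).1
  have hS : 0 ≤ ∑ p ∈ B, K p := Finset.sum_nonneg (fun p _ => hK0 p)
  have hmain : (1 / (4 * (H : ℝ))) * (∑ p ∈ B, K p) ≤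
      ((H : ℝ) ^ 8)⁻¹ * (Z.card * (∑ p ∈ B, K p)) := by
    rw [← mul_assoc]
    apply mul_le_mul_of_nonneg_right _ hS
    rw [le_inv_mul_iff₀ hN]
    calc (H : ℝ) ^ 8 * (1 / (4 * H)) = (H : ℝ) ^ 8 / (4 * H) := by ring
      _ ≤ _ := hZ
  linarith

/-- TARGET 2 -/
theorem find_point (B G : Finset ℕ) (hG : G ⊆ B) (hGne : G.Nonempty) (s t w1 w2 : ℕ → ℝ)
    (H : ℕ) (hH : 1 ≤ H) (τ δ : ℝ) (hτ : 0 ≤ τ) (hδ : 0 < δ)
    (hmode : ∀ l m a b : ℤ, l ≠ 0 → |l| ≤ 4 * H → |m| ≤ 4 * H → |a| ≤ 4 * H → |b| ≤ 4 * H →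
      ‖∑ p ∈ B, e (l * t p + m * s p + a * w1 p + b * w2 p)‖ ≤ τ * B.card) :
    ∃ p0 ∈ G, ∀ t0 : ℝ,
      (1 / (4 * (H : ℝ))) ^ 4 * G.card - τ * B.card - (1 / (2 * H * δ)) ^ 8 * B.card ≤
        ((B.filter (fun p => near (s p) (s p0) δ ∧ near (w1 p) (w1 p0) δ ∧
          near (w2 p) (w2 p0) δ ∧ near (t p) t0 δ)).card : ℝ) := by
  have hH0 : (0 : ℝ) < H := by exact_mod_cast hH
  obtain ⟨p0, hp0, hp⟩ := exists_centre G hGne (d := 3) ![s, w1, w2] hH
  refine ⟨p0, hp0, fun t0 => ?_⟩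
  have hfar := kernel_far (B := B) (d := 4)
    ![fun p => s p - s p0, fun p => w1 p - w1 p0, fun p => w2 p - w2 p0, fun p => t p - t0]
    hH hδ (fun p => near (s p) (s p0) δ ∧ near (w1 p) (w1 p0) δ ∧
          near (w2 p) (w2 p0) δ ∧ near (t p) t0 δ) (by
      intro p _ hnp
      by_contra hcon
      push Not at hcon
      apply hnp
      have h0 := hcon 0
      have h1 := hcon 1
      have h2 := hcon 2
      have h3 := hcon 3
      refine ⟨?_, ?_, ?_, ?_⟩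
      · obtain ⟨m, hm⟩ := h0; exact ⟨m, by simpa using hm.le⟩
      · obtain ⟨m, hm⟩ := h1; exact ⟨m, by simpa using hm.le⟩
      · obtain ⟨m, hm⟩ := h2; exact ⟨m, by simpa using hm.le⟩
      · obtain ⟨m, hm⟩ := h3; exact ⟨m, by simpa using hm.le⟩)
  have hmix := mixed_sum B (d := 3) ![s, w1, w2]
    (fun j => (![s, w1, w2] : Fin 3 → ℕ → ℝ) j p0) t t0 hH hτ (by
      intro l m hl hl4 hm
      have h := hmode l (m 0) (m 1) (m 2) hl hl4 (hm 0) (hm 1) (hm 2)
      have heq : ∀ p, (l * t p + m 0 * s p + m 1 * w1 p + m 2 * w2 p : ℝ) =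
          l * t p + ∑ j, m j * (![s, w1, w2] : Fin 3 → ℕ → ℝ) j p := by
        intro p
        rw [Fin.sum_univ_three]
        simp
        ring
      rw [Finset.sum_congr rfl (fun p _ => by rw [heq p])] at h
      exact h)
  have hprod : ∀ p, ∏ j : Fin 4, kap H ((![fun p => s p - s p0, fun p => w1 p - w1 p0,
      fun p => w2 p - w2 p0, fun p => t p - t0] : Fin 4 → ℕ → ℝ) j p) =
      (∏ j : Fin 3, kap H ((![s, w1, w2] : Fin 3 → ℕ → ℝ) j p -
        (![s, w1, w2] : Fin 3 → ℕ → ℝ) j p0)) * kap H (t p - t0) := by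
    intro p
    rw [Fin.prod_univ_four, Fin.prod_univ_three]
    simp
  rw [Finset.sum_congr rfl (fun p _ => hprod p)] at hfar
  have hmono : ∑ p ∈ G, ∏ j : Fin 3, kap H ((![s, w1, w2] : Fin 3 → ℕ → ℝ) j p -
        (![s, w1, w2] : Fin 3 → ℕ → ℝ) j p0) ≤
      ∑ p ∈ B, ∏ j : Fin 3, kap H ((![s, w1, w2] : Fin 3 → ℕ → ℝ) j p -
        (![s, w1, w2] : Fin 3 → ℕ → ℝ) j p0) :=
    Finset.sum_le_sum_of_subset_of_nonneg hG
      (fun p _ _ => Finset.prod_nonneg (fun j _ => kap_nonneg _ _))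
  have h5 : (1 / (4 * (H : ℝ))) * ((1 / (4 * (H : ℝ))) ^ 3 * G.card) ≤
      (1 / (4 * (H : ℝ))) * (∑ p ∈ B, ∏ j : Fin 3, kap H ((![s, w1, w2] : Fin 3 → ℕ → ℝ) j p -
        (![s, w1, w2] : Fin 3 → ℕ → ℝ) j p0)) :=
    mul_le_mul_of_nonneg_left (hp.trans hmono) (by positivity)
  have h6 : (1 / (4 * (H : ℝ))) ^ 4 * G.card =
      (1 / (4 * (H : ℝ))) * ((1 / (4 * (H : ℝ))) ^ 3 * G.card) := by ring
  rw [h6]
  linarith

end Pool.Agent.Helper530.Sq
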