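import Pool.Agent.Helper530.Sq.Base
import Pool.Agent.Helper530.Sq.Geo
import Pool.Agent.Helper530.Sq.Kernel

namespace Pool.Agent.Helper530.Sq


open Finset Classical

theorem car_of_close (Lr x1 x3 y1 y3 : ℝ) (hL : 0 < Lr) (a b : ℤ)
    (h1 : 1 / Lr / 2 ≤ y1) (h2 : y1 + 1 / Lr / 2 ≤ y3) (h3 : y3 ≤ 1 - 1 / Lr / 2)
    (ha : |x1 - y1 - a| ≤ 1 / (8 * Lr)) (hb : |x3 - y3 - b| ≤ 1 / (8 * Lr)) :
    Car x1 x3 (1 / (4 * Lr)) := by
  have e8 : 1 / (8 * Lr) = 1 / Lr / 8 := by field_simp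
  have e4 : 1 / (4 * Lr) = 1 / Lr / 4 := by field_simp
  have hpos : 0 < 1 / Lr := by positivity
  rw [e8] at ha hb
  rw [abs_le] at ha hb
  refine ⟨a, b, ?_, ?_, ?_⟩ <;> rw [e4] <;> linarith [ha.1, ha.2, hb.1, hb.2]

theorem gcd_split (a0 a1 : ℤ) (h : a0 ≠ 0 ∨ a1 ≠ 0) : ∃ d u1 u2 : ℤ, 0 < d ∧ a0 = d * u1 ∧
    a1 = d * u2 ∧ IsCoprime u1 u2 := by
  have hg : Int.gcd a0 a1 ≠ 0 := by
    rw [Ne, Int.gcd_eq_zero_iff]
    tauto
  have hg' : 0 < Int.gcd a0 a1 := Nat.pos_of_ne_zero hg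
  refine ⟨(Int.gcd a0 a1 : ℤ), a0 / Int.gcd a0 a1, a1 / Int.gcd a0 a1, by exact_mod_cast hg', ?_,
    ?_, ?_⟩
  · rw [Int.mul_ediv_cancel' (Int.gcd_dvd_left _ _)]
  · rw [Int.mul_ediv_cancel' (Int.gcd_dvd_right _ _)]
  · rw [Int.isCoprime_iff_gcd_eq_one]
    exact Int.gcd_ediv_gcd_ediv_gcd hg'

theorem abs_le_of_mul (d u a : ℤ) (hd : 0 < d) (h : a = d * u) : |u| ≤ |a| := by
  rw [h, abs_mul, abs_of_pos hd]
  nlinarith [abs_nonneg u]

/-- TARGET: two independent biased modes, or many carries -/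
theorem dichotomy (L : ℕ) (hL : 2 ^ 20 ≤ L) (B G : Finset ℕ) (hG : G ⊆ B)
    (hGne : G.Nonempty) (hGB : (B.card : ℝ) ≤ L * G.card) (x1 x3 w1 w2 : ℕ → ℝ)
    (hgen : ∀ p ∈ G, ∀ m : ℤ, 1 / (L : ℝ) ≤ |x1 p - m| ∧ 1 / (L : ℝ) ≤ |x3 p - m| ∧
      1 / (L : ℝ) ≤ |x1 p - x3 p - m|) :
    (∃ a b : Fin 4 → ℤ, (∀ j, |a j| ≤ (L : ℤ) ^ 20 ∧ |b j| ≤ (L : ℤ) ^ 20) ∧
      a 0 * b 1 - a 1 * b 0 ≠ 0 ∧
      (B.card : ℝ) / (L : ℝ) ^ 60 ≤
        ‖∑ p ∈ B, e (a 0 * x1 p + a 1 * x3 p + a 2 * w1 p + a 3 * w2 p)‖ ∧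
      (B.card : ℝ) / (L : ℝ) ^ 60 ≤
        ‖∑ p ∈ B, e (b 0 * x1 p + b 1 * x3 p + b 2 * w1 p + b 3 * w2 p)‖) ∨
    (B.card : ℝ) / (L : ℝ) ^ 60 ≤
      ((B.filter (fun p => Car (x1 p) (x3 p) (1 / (4 * L)) ∧
        ∃ p0 ∈ G, near (w1 p) (w1 p0) (1 / L) ∧ near (w2 p) (w2 p0) (1 / L))).card : ℝ) := by
  by_cases hfirst : (∃ a b : Fin 4 → ℤ, (∀ j, |a j| ≤ (L : ℤ) ^ 20 ∧ |b j| ≤ (L : ℤ) ^ 20) ∧
      a 0 * b 1 - a 1 * b 0 ≠ 0 ∧
      (B.card : ℝ) / (L : ℝ) ^ 60 ≤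
        ‖∑ p ∈ B, e (a 0 * x1 p + a 1 * x3 p + a 2 * w1 p + a 3 * w2 p)‖ ∧
      (B.card : ℝ) / (L : ℝ) ^ 60 ≤
        ‖∑ p ∈ B, e (b 0 * x1 p + b 1 * x3 p + b 2 * w1 p + b 3 * w2 p)‖)
  · exact Or.inl hfirst
  right
  have hLZ : (2:ℤ) ^ 20 ≤ (L:ℤ) := by exact_mod_cast hL
  have hLR : (2:ℝ) ^ 20 ≤ (L:ℝ) := by exact_mod_cast hL
  have hL0 : (0:ℝ) < (L:ℝ) := lt_of_lt_of_le (by norm_num) hLR
  have hL1 : (1:ℝ) ≤ (L:ℝ) := le_trans (by norm_num) hLR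
  have hLZ1 : (1:ℤ) ≤ (L:ℤ) := le_trans (by norm_num) hLZ
  have hcard0 : (0:ℝ) ≤ (B.card : ℝ) := Nat.cast_nonneg _
  have hGB' : (B.card : ℝ) / L ≤ G.card := by
    rw [div_le_iff₀ hL0]
    linarith
  have hη4 : 1 / (L:ℝ) ≤ 1 / 4 := by
    apply one_div_le_one_div_of_le (by norm_num)
    linarith
  have hη : 0 < 1 / (L:ℝ) := by positivity
  by_cases hI : ∃ a : Fin 4 → ℤ, (∀ j, |a j| ≤ 8 * (L:ℤ) ^ 4) ∧ (a 0 ≠ 0 ∨ a 1 ≠ 0) ∧
      (B.card : ℝ) / (L : ℝ) ^ 60 ≤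
        ‖∑ p ∈ B, e (a 0 * x1 p + a 1 * x3 p + a 2 * w1 p + a 3 * w2 p)‖
  · -- CASE II
    obtain ⟨a, ha, ha01, hbias⟩ := hI
    obtain ⟨d, u1, u2, hd, hau1, hau2, hcop⟩ := gcd_split (a 0) (a 1) ha01
    obtain ⟨v1, v2, hdet, hv1, hv2⟩ := small_bezout u1 u2 hcop
    have hu1 : |u1| ≤ 8 * (L:ℤ) ^ 4 := le_trans (abs_le_of_mul d u1 _ hd hau1) (ha 0)
    have hu2 : |u2| ≤ 8 * (L:ℤ) ^ 4 := le_trans (abs_le_of_mul d u2 _ hd hau2) (ha 1)
    have hL4 : (1:ℤ) ≤ (L:ℤ) ^ 4 := one_le_pow₀ hLZ1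
    have hv1' : |v1| ≤ 17 * (L:ℤ) ^ 4 := by linarith
    have hv2' : |v2| ≤ 17 * (L:ℤ) ^ 4 := by linarith
    obtain ⟨p0, hp0, hcount⟩ := find_point B G hG hGne
      (fun p => (u1:ℝ) * x1 p + (u2:ℝ) * x3 p) (fun p => (v1:ℝ) * x1 p + (v2:ℝ) * x3 p) w1 w2
      (L ^ 13) (Nat.one_le_pow _ _ (by omega)) (1 / (L:ℝ) ^ 60) (1 / (L:ℝ) ^ 6) (by positivity) (by positivity)
      (by
        intro l m a' b' hl hlb hmb hab hbb
        push_cast at hlb hmb hab hbb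
        by_contra hcon
        push Not at hcon
        apply hfirst
        have hsize : ∀ u v : ℤ, |u| ≤ 8 * (L:ℤ) ^ 4 → |v| ≤ 17 * (L:ℤ) ^ 4 →
            |m * u + l * v| ≤ (L:ℤ) ^ 20 := by
          intro u v hu hv
          have h1 : |m * u| ≤ (4 * (L:ℤ) ^ 13) * (8 * (L:ℤ) ^ 4) := by
            rw [abs_mul]
            exact mul_le_mul hmb hu (abs_nonneg _) (by positivity)
          have h2 : |l * v| ≤ (4 * (L:ℤ) ^ 13) * (17 * (L:ℤ) ^ 4) := by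
            rw [abs_mul]
            exact mul_le_mul hlb hv (abs_nonneg _) (by positivity)
          have h3 : (100:ℤ) ≤ (L:ℤ) ^ 3 := by
            have : (L:ℤ) ≤ (L:ℤ) ^ 3 := le_self_pow₀ hLZ1 (by norm_num)
            linarith
          calc |m * u + l * v| ≤ |m * u| + |l * v| := abs_add_le _ _
            _ ≤ (4 * (L:ℤ) ^ 13) * (8 * (L:ℤ) ^ 4) + (4 * (L:ℤ) ^ 13) * (17 * (L:ℤ) ^ 4) := by
                linarith
            _ = 100 * (L:ℤ) ^ 17 := by ring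
            _ ≤ (L:ℤ) ^ 3 * (L:ℤ) ^ 17 := mul_le_mul_of_nonneg_right h3 (by positivity)
            _ = (L:ℤ) ^ 20 := by ring
        have h4 : 4 * (L:ℤ) ^ 13 ≤ (L:ℤ) ^ 20 := by
          have h5 : (4:ℤ) ≤ (L:ℤ) ^ 7 := by
            have : (L:ℤ) ≤ (L:ℤ) ^ 7 := le_self_pow₀ hLZ1 (by norm_num)
            linarith
          calc 4 * (L:ℤ) ^ 13 ≤ (L:ℤ) ^ 7 * (L:ℤ) ^ 13 :=
                mul_le_mul_of_nonneg_right h5 (by positivity)
            _ = (L:ℤ) ^ 20 := by ring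
        have h8 : 8 * (L:ℤ) ^ 4 ≤ (L:ℤ) ^ 20 := by
          have h5 : (8:ℤ) ≤ (L:ℤ) ^ 16 := by
            have : (L:ℤ) ≤ (L:ℤ) ^ 16 := le_self_pow₀ hLZ1 (by norm_num)
            linarith
          calc 8 * (L:ℤ) ^ 4 ≤ (L:ℤ) ^ 16 * (L:ℤ) ^ 4 :=
                mul_le_mul_of_nonneg_right h5 (by positivity)
            _ = (L:ℤ) ^ 20 := by ring
        refine ⟨a, ![m * u1 + l * v1, m * u2 + l * v2, a', b'], ?_, ?_, hbias, ?_⟩
        · intro j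
          refine ⟨le_trans (ha j) h8, ?_⟩
          fin_cases j
          · exact hsize u1 v1 hu1 hv1'
          · exact hsize u2 v2 hu2 hv2'
          · exact le_trans hab h4
          · exact le_trans hbb h4
        · change a 0 * (m * u2 + l * v2) - a 1 * (m * u1 + l * v1) ≠ 0
          have : a 0 * (m * u2 + l * v2) - a 1 * (m * u1 + l * v1) = d * l := by
            rw [hau1, hau2]
            linear_combination d * l * hdet
          rw [this]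
          exact mul_ne_zero hd.ne' hl
        · have h9 : (B.card : ℝ) / (L : ℝ) ^ 60 = 1 / (L:ℝ) ^ 60 * B.card := by ring
          rw [h9]
          refine le_trans hcon.le (le_of_eq ?_)
          congr 1
          refine Finset.sum_congr rfl fun p _ => ?_
          congr 1
          change (l:ℝ) * ((v1:ℝ) * x1 p + (v2:ℝ) * x3 p) + (m:ℝ) * ((u1:ℝ) * x1 p + (u2:ℝ) * x3 p)
            + (a':ℝ) * w1 p + (b':ℝ) * w2 p =
            ((m * u1 + l * v1 : ℤ) : ℝ) * x1 p + ((m * u2 + l * v2 : ℤ) : ℝ) * x3 p +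
              (a':ℝ) * w1 p + (b':ℝ) * w2 p
          push_cast
          ring)
    obtain ⟨y1, y3, hy1, hy13, hy3, m0, hm0⟩ := geometry u1 u2 hcop (x1 p0) (x3 p0) (1 / (L:ℝ))
      hη hη4 (fun m => (hgen p0 hp0 m).1) (fun m => (hgen p0 hp0 m).2.1)
      (fun m => (hgen p0 hp0 m).2.2)
    have hc := hcount ((v1:ℝ) * y1 + (v2:ℝ) * y3)
    refine le_trans ?_ (le_trans hc ?_)
    · push_cast
      have e1 : (1 / (4 * (L:ℝ) ^ 13)) ^ 4 * (G.card : ℝ) ≥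
          (B.card : ℝ) * (1 / (256 * (L:ℝ) ^ 53)) := by
        calc (1 / (4 * (L:ℝ) ^ 13)) ^ 4 * (G.card : ℝ) ≥
              (1 / (4 * (L:ℝ) ^ 13)) ^ 4 * ((B.card : ℝ) / L) :=
              mul_le_mul_of_nonneg_left hGB' (by positivity)
          _ = (B.card : ℝ) * (1 / (256 * (L:ℝ) ^ 53)) := by
              field_simp
              ring
      have e2 : (1 / (2 * (L:ℝ) ^ 13 * (1 / (L:ℝ) ^ 6))) ^ 8 = 1 / (256 * (L:ℝ) ^ 56) := by
        field_simp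
        norm_num
      rw [e2]
      have k1 : 2 / (L:ℝ) ^ 60 ≤ 1 / (512 * (L:ℝ) ^ 53) := by
        rw [div_le_div_iff₀ (by positivity) (by positivity)]
        have h1 : (L:ℝ) ≤ (L:ℝ) ^ 7 := le_self_pow₀ hL1 (by norm_num)
        have h2 : (1024:ℝ) ≤ (L:ℝ) ^ 7 := by linarith
        calc 2 * (512 * (L:ℝ) ^ 53) = 1024 * (L:ℝ) ^ 53 := by ring
          _ ≤ (L:ℝ) ^ 7 * (L:ℝ) ^ 53 := mul_le_mul_of_nonneg_right h2 (by positivity)
          _ = 1 * (L:ℝ) ^ 60 := by ring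
      have k2 : 1 / (256 * (L:ℝ) ^ 56) ≤ 1 / (512 * (L:ℝ) ^ 53) := by
        apply one_div_le_one_div_of_le (by positivity)
        have h1 : (L:ℝ) ≤ (L:ℝ) ^ 3 := le_self_pow₀ hL1 (by norm_num)
        have h2 : (2:ℝ) ≤ (L:ℝ) ^ 3 := by linarith
        calc 512 * (L:ℝ) ^ 53 = 256 * (2 * (L:ℝ) ^ 53) := by ring
          _ ≤ 256 * ((L:ℝ) ^ 3 * (L:ℝ) ^ 53) := by
              refine mul_le_mul_of_nonneg_left ?_ (by norm_num)
              exact mul_le_mul_of_nonneg_right h2 (by positivity)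
          _ = 256 * (L:ℝ) ^ 56 := by ring
      have k3 : 1 / (256 * (L:ℝ) ^ 53) = 1 / (512 * (L:ℝ) ^ 53) + 1 / (512 * (L:ℝ) ^ 53) := by
        field_simp
        norm_num
      have k4 : 2 / (L:ℝ) ^ 60 + 1 / (256 * (L:ℝ) ^ 56) ≤ 1 / (256 * (L:ℝ) ^ 53) := by
        rw [k3]; linarith
      have k5 := mul_le_mul_of_nonneg_left k4 hcard0
      have k6 : (B.card : ℝ) / (L:ℝ) ^ 60 = (B.card : ℝ) * (1 / (L:ℝ) ^ 60) := by ring
      have k7 : (B.card : ℝ) * (2 / (L:ℝ) ^ 60 + 1 / (256 * (L:ℝ) ^ 56)) =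
        (B.card : ℝ) * (1 / (L:ℝ) ^ 60) + 1 / (L:ℝ) ^ 60 * (B.card : ℝ) +
          1 / (256 * (L:ℝ) ^ 56) * (B.card : ℝ) := by ring
      linarith
    · refine Nat.cast_le.mpr (Finset.card_le_card ?_)
      intro p hp
      rw [Finset.mem_filter] at hp ⊢
      obtain ⟨hpB, ⟨m1, hm1⟩, hw1, hw2, ⟨m2, hm2⟩⟩ := hp
      refine ⟨hpB, ?_, p0, hp0, ?_, ?_⟩
      · have hsmall : 25 * (L:ℝ) ^ 4 * (1 / (L:ℝ) ^ 6) ≤ 1 / (8 * L) := by
          have e1 : 25 * (L:ℝ) ^ 4 * (1 / (L:ℝ) ^ 6) = 25 / (L:ℝ) ^ 2 := by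
            field_simp
          rw [e1, div_le_div_iff₀ (by positivity) (by positivity)]
          nlinarith
        have hu1r : |(u1:ℝ)| ≤ 8 * (L:ℝ) ^ 4 := by exact_mod_cast hu1
        have hu2r : |(u2:ℝ)| ≤ 8 * (L:ℝ) ^ 4 := by exact_mod_cast hu2
        have hv1r : |(v1:ℝ)| ≤ 17 * (L:ℝ) ^ 4 := by exact_mod_cast hv1'
        have hv2r : |(v2:ℝ)| ≤ 17 * (L:ℝ) ^ 4 := by exact_mod_cast hv2'
        have hdetr : (u1:ℝ) * v2 - u2 * v1 = 1 := by exact_mod_cast hdet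
        set ε1 : ℝ := (u1:ℝ) * x1 p + (u2:ℝ) * x3 p - ((u1:ℝ) * x1 p0 + (u2:ℝ) * x3 p0) - m1
          with hε1
        set ε2 : ℝ := (v1:ℝ) * x1 p + (v2:ℝ) * x3 p - ((v1:ℝ) * y1 + (v2:ℝ) * y3) - m2 with hε2
        have hcomb : ∀ v u : ℝ, |v| ≤ 17 * (L:ℝ) ^ 4 → |u| ≤ 8 * (L:ℝ) ^ 4 →
            |v * ε1| + |u * ε2| ≤ 1 / (8 * L) := by
          intro v u hv hu
          rw [abs_mul, abs_mul]
          have t1 : |v| * |ε1| ≤ 17 * (L:ℝ) ^ 4 * (1 / (L:ℝ) ^ 6) :=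
            mul_le_mul hv hm1 (abs_nonneg _) (by positivity)
          have t2 : |u| * |ε2| ≤ 8 * (L:ℝ) ^ 4 * (1 / (L:ℝ) ^ 6) :=
            mul_le_mul hu hm2 (abs_nonneg _) (by positivity)
          linarith
        refine car_of_close L (x1 p) (x3 p) y1 y3 hL0 (v2 * (m1 - m0) - u2 * m2)
          (-v1 * (m1 - m0) + u1 * m2) hy1 hy13 hy3 ?_ ?_
        · have e1 : x1 p - y1 - ((v2 * (m1 - m0) - u2 * m2 : ℤ) : ℝ) =
              (v2:ℝ) * ε1 - u2 * ε2 := by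
            rw [hε1, hε2]
            push_cast
            linear_combination (y1 - x1 p) * hdetr - (v2 : ℝ) * hm0
          rw [e1]
          exact le_trans (abs_sub _ _) (hcomb v2 u2 hv2r hu2r)
        · have e1 : x3 p - y3 - ((-v1 * (m1 - m0) + u1 * m2 : ℤ) : ℝ) =
              -((v1:ℝ) * ε1) + u1 * ε2 := by
            rw [hε1, hε2]
            push_cast
            linear_combination (y3 - x3 p) * hdetr + (v1 : ℝ) * hm0
          rw [e1]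
          refine le_trans (abs_add_le _ _) ?_
          rw [abs_neg]
          exact hcomb v1 u1 hv1r hu1r
      · obtain ⟨m, hm⟩ := hw1
        refine ⟨m, le_trans hm ?_⟩
        exact one_div_le_one_div_of_le hL0 (le_self_pow₀ hL1 (by norm_num))
      · obtain ⟨m, hm⟩ := hw2
        refine ⟨m, le_trans hm ?_⟩
        exact one_div_le_one_div_of_le hL0 (le_self_pow₀ hL1 (by norm_num))
  · -- CASE I
    push Not at hI
    obtain ⟨p0, hp0, hcount⟩ := find_point B G hG hGne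
      (fun p => x1 p + x3 p) (fun p => x3 p) w1 w2
      (L ^ 4) (Nat.one_le_pow _ _ (by omega)) (1 / (L:ℝ) ^ 60) (1 / (16 * (L:ℝ))) (by positivity) (by positivity)
      (by
        intro l m a' b' hl hlb hmb hab hbb
        push_cast at hlb hmb hab hbb
        have hL4 : (0:ℤ) ≤ (L:ℤ) ^ 4 := by positivity
        have h1 := hI ![m, m + l, a', b'] (by
          intro j
          fin_cases j
          · change |m| ≤ _
            linarith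
          · change |m + l| ≤ _
            have := abs_add_le m l
            linarith
          · change |a'| ≤ _
            linarith
          · change |b'| ≤ _
            linarith) (by
          change m ≠ 0 ∨ m + l ≠ 0
          by_contra hcon
          push Not at hcon
          apply hl
          linarith [hcon.1, hcon.2])
        have h9 : 1 / (L:ℝ) ^ 60 * B.card = (B.card : ℝ) / (L : ℝ) ^ 60 := by ring
        rw [h9]
        refine le_trans (le_of_eq ?_) h1.le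
        congr 1
        refine Finset.sum_congr rfl fun p _ => ?_
        congr 1
        change (l:ℝ) * (x3 p) + (m:ℝ) * (x1 p + x3 p) + (a':ℝ) * w1 p + (b':ℝ) * w2 p =
            (m : ℝ) * x1 p + ((m + l : ℤ) : ℝ) * x3 p + (a':ℝ) * w1 p + (b':ℝ) * w2 p
        push_cast
        ring)
    obtain ⟨y1, y3, hy1, hy13, hy3, m0, hm0⟩ := geometry 1 1 isCoprime_one_left (x1 p0) (x3 p0)
      (1 / (L:ℝ))
      hη hη4 (fun m => (hgen p0 hp0 m).1) (fun m => (hgen p0 hp0 m).2.1)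
      (fun m => (hgen p0 hp0 m).2.2)
    have hc := hcount y3
    refine le_trans ?_ (le_trans hc ?_)
    · push_cast
      have e1 : (1 / (4 * (L:ℝ) ^ 4)) ^ 4 * (G.card : ℝ) ≥
          (B.card : ℝ) * (1 / (256 * (L:ℝ) ^ 17)) := by
        calc (1 / (4 * (L:ℝ) ^ 4)) ^ 4 * (G.card : ℝ) ≥
              (1 / (4 * (L:ℝ) ^ 4)) ^ 4 * ((B.card : ℝ) / L) :=
              mul_le_mul_of_nonneg_left hGB' (by positivity)
          _ = (B.card : ℝ) * (1 / (256 * (L:ℝ) ^ 17)) := by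
              field_simp
              ring
      have e2 : (1 / (2 * (L:ℝ) ^ 4 * (1 / (16 * (L:ℝ))))) ^ 8 = 2 ^ 24 / (L:ℝ) ^ 24 := by
        field_simp
        norm_num
      rw [e2]
      have k1 : 2 / (L:ℝ) ^ 60 ≤ 1 / (512 * (L:ℝ) ^ 17) := by
        rw [div_le_div_iff₀ (by positivity) (by positivity)]
        have h1 : (L:ℝ) ≤ (L:ℝ) ^ 43 := le_self_pow₀ hL1 (by norm_num)
        have h2 : (1024:ℝ) ≤ (L:ℝ) ^ 43 := by linarith
        calc 2 * (512 * (L:ℝ) ^ 17) = 1024 * (L:ℝ) ^ 17 := by ring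
          _ ≤ (L:ℝ) ^ 43 * (L:ℝ) ^ 17 := mul_le_mul_of_nonneg_right h2 (by positivity)
          _ = 1 * (L:ℝ) ^ 60 := by ring
      have k2 : 2 ^ 24 / (L:ℝ) ^ 24 ≤ 1 / (512 * (L:ℝ) ^ 17) := by
        rw [div_le_div_iff₀ (by positivity) (by positivity)]
        have h1 : ((2:ℝ) ^ 20) ^ 7 ≤ (L:ℝ) ^ 7 := pow_le_pow_left₀ (by norm_num) hLR 7
        have h2 : (2:ℝ) ^ 24 * 512 ≤ (L:ℝ) ^ 7 := le_trans (by norm_num) h1
        calc 2 ^ 24 * (512 * (L:ℝ) ^ 17) = (2 ^ 24 * 512) * (L:ℝ) ^ 17 := by ring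
          _ ≤ (L:ℝ) ^ 7 * (L:ℝ) ^ 17 := mul_le_mul_of_nonneg_right h2 (by positivity)
          _ = 1 * (L:ℝ) ^ 24 := by ring
      have k3 : 1 / (256 * (L:ℝ) ^ 17) = 1 / (512 * (L:ℝ) ^ 17) + 1 / (512 * (L:ℝ) ^ 17) := by
        field_simp
        norm_num
      have k4 : 2 / (L:ℝ) ^ 60 + 2 ^ 24 / (L:ℝ) ^ 24 ≤ 1 / (256 * (L:ℝ) ^ 17) := by
        rw [k3]; linarith
      have k5 := mul_le_mul_of_nonneg_left k4 hcard0
      have k6 : (B.card : ℝ) / (L:ℝ) ^ 60 = (B.card : ℝ) * (1 / (L:ℝ) ^ 60) := by ring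
      have k7 : (B.card : ℝ) * (2 / (L:ℝ) ^ 60 + 2 ^ 24 / (L:ℝ) ^ 24) =
        (B.card : ℝ) * (1 / (L:ℝ) ^ 60) + 1 / (L:ℝ) ^ 60 * (B.card : ℝ) +
          2 ^ 24 / (L:ℝ) ^ 24 * (B.card : ℝ) := by ring
      linarith
    · refine Nat.cast_le.mpr (Finset.card_le_card ?_)
      intro p hp
      rw [Finset.mem_filter] at hp ⊢
      obtain ⟨hpB, ⟨m1, hm1⟩, hw1, hw2, ⟨m2, hm2⟩⟩ := hp
      have e16 : 1 / (16 * (L:ℝ)) = 1 / (L:ℝ) / 16 := by field_simp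
      have e8 : 1 / (8 * (L:ℝ)) = 1 / (L:ℝ) / 8 := by field_simp
      refine ⟨hpB, ?_, p0, hp0, ?_, ?_⟩
      · push_cast at hm0
        rw [e16, abs_le] at hm1 hm2
        refine car_of_close L (x1 p) (x3 p) y1 y3 hL0 (m1 - m0 - m2) m2 hy1 hy13 hy3 ?_ ?_
        · rw [e8, abs_le]
          push_cast
          constructor <;> linarith [hm1.1, hm1.2, hm2.1, hm2.2]
        · rw [e8, abs_le]
          constructor <;> linarith [hm1.1, hm1.2, hm2.1, hm2.2]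
      · obtain ⟨m, hm⟩ := hw1
        refine ⟨m, le_trans hm ?_⟩
        rw [e16]
        linarith
      · obtain ⟨m, hm⟩ := hw2
        refine ⟨m, le_trans hm ?_⟩
        rw [e16]
        linarith

end Pool.Agent.Helper530.Sq
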