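import Pool.Agent.Helper530.Sq.Base
import Pool.Agent.Helper530.Sq.Kernel

namespace Pool.Agent.Helper530.Sq


open Finset Classical

/-- TARGET 1 (Kummer) -/
theorem two_carries (n k p i j : ℕ) (hp : p.Prime) (hkn : k ≤ n) (hi : 1 ≤ i) (hij : i < j)
    (h1 : n % p ^ i < k % p ^ i) (h2 : n % p ^ j < k % p ^ j) : p ^ 2 ∣ n.choose k := by
  have key : ∀ q : ℕ, n % q < k % q → q ≤ k % q + (n - k) % q := by
    intro q h
    by_contra hlt
    push Not at hlt
    have h3 : n % q = k % q + (n - k) % q := by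
      have h4 : n = k + (n - k) := by omega
      have h5 : n % q = (k + (n - k)) % q := by rw [← h4]
      rw [h5, Nat.add_mod, Nat.mod_eq_of_lt hlt]
    omega
  rw [hp.pow_dvd_iff_le_factorization (Nat.choose_pos hkn).ne',
    Nat.factorization_choose hp hkn (b := max (Nat.log p n + 1) (j + 1))
      (lt_of_lt_of_le (Nat.lt_succ_self _) (le_max_left _ _))]
  have hsub : ({i, j} : Finset ℕ) ⊆
      (Ico 1 (max (Nat.log p n + 1) (j + 1))).filter
        (fun i => p ^ i ≤ k % p ^ i + (n - k) % p ^ i) := by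
    intro x hx
    simp only [Finset.mem_insert, Finset.mem_singleton] at hx
    rw [Finset.mem_filter, Finset.mem_Ico]
    rcases hx with rfl | rfl
    · exact ⟨⟨hi, lt_of_lt_of_le (by omega) (le_max_right _ _)⟩, key _ h1⟩
    · exact ⟨⟨by omega, lt_of_lt_of_le (by omega) (le_max_right _ _)⟩, key _ h2⟩
  calc 2 = ({i, j} : Finset ℕ).card := (Finset.card_pair hij.ne).symm
    _ ≤ _ := Finset.card_le_card hsub

theorem carry_aux (n k q : ℕ) (hq : 0 < q) (a b : ℤ) (h1 : 0 ≤ (n : ℝ) / q - a)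
    (h2 : (n : ℝ) / q - a < (k : ℝ) / q - b) (h3 : (k : ℝ) / q - b < 1) : n % q < k % q := by
  have hq' : (0 : ℝ) < q := by exact_mod_cast hq
  have hdiv : ∀ m : ℕ, (m : ℝ) / q = ((m / q : ℕ) : ℝ) + ((m % q : ℕ) : ℝ) / q := by
    intro m
    have h4 : ((q * (m / q) + m % q : ℕ) : ℝ) = (m : ℝ) := by rw [Nat.div_add_mod]
    field_simp
    rw [← h4]
    push_cast
    ring
  have hfl : ∀ (m : ℕ) (c : ℤ), 0 ≤ (m : ℝ) / q - c → (m : ℝ) / q - c < 1 →
      (c : ℝ) = ((m / q : ℕ) : ℝ) := by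
    intro m c hc1 hc2
    have h5 : (0 : ℝ) ≤ ((m % q : ℕ) : ℝ) / q := by positivity
    have h6 : ((m % q : ℕ) : ℝ) / q < 1 := by
      rw [div_lt_one hq']
      exact_mod_cast Nat.mod_lt m hq
    rw [hdiv m] at hc1 hc2
    have h7 : (c : ℝ) < ((((m / q : ℕ) : ℤ) + 1 : ℤ) : ℝ) := by
      rw [Int.cast_add, Int.cast_natCast, Int.cast_one]; linarith
    have h8 : ((((m / q : ℕ) : ℤ) - 1 : ℤ) : ℝ) < (c : ℝ) := by
      rw [Int.cast_sub, Int.cast_natCast, Int.cast_one]; linarith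
    have h7' := Int.cast_lt.mp h7
    have h8' := Int.cast_lt.mp h8
    have h9 : c = ((m / q : ℕ) : ℤ) := by omega
    rw [h9, Int.cast_natCast]
  have ha := hfl n a h1 (by linarith)
  have hb := hfl k b (by linarith) h3
  rw [ha, hb, hdiv n, hdiv k] at h2
  have h10 : ((n % q : ℕ) : ℝ) / q < ((k % q : ℕ) : ℝ) / q := by linarith
  rw [div_lt_div_iff_of_pos_right hq'] at h10
  exact_mod_cast h10

/-- TARGET 2 -/
theorem carry_of_Car (n k q : ℕ) (hq : 0 < q) (g : ℝ) (hg : 0 < g)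
    (h : Car ((n : ℝ) / q) ((k : ℝ) / q) g) : n % q < k % q := by
  obtain ⟨a, b, h1, h2, h3⟩ := h
  exact carry_aux n k q hq a b (by linarith) (by linarith) (by linarith)

/-- TARGET 3: all types but at most one are hit by a biased mode -/
theorem low_modes (J : ℕ) (hJ : 1 ≤ J) (B : Finset ℕ) (hB : ∀ p ∈ B, p.Prime)
    (hBne : B.Nonempty) (n k : ℕ) (hkn : k ≤ n) (hsq : Squarefree (n.choose k)) :
    ∃ m0 ∈ Icc 1 J, ∀ i ∈ (Icc 1 J).erase m0, ∃ (i' : ℕ) (a b a' b' : ℤ),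
      i < i' ∧ i' ≤ J + 1 ∧ (a ≠ 0 ∨ b ≠ 0) ∧ |a| ≤ 128 ∧ |b| ≤ 128 ∧ |a'| ≤ 128 ∧ |b'| ≤ 128 ∧
      (B.card : ℝ) / 10 ^ 9 ≤
        ‖∑ p ∈ B, e (((a : ℝ) / (p : ℝ) ^ i + (a' : ℝ) / (p : ℝ) ^ i') * n
          + ((b : ℝ) / (p : ℝ) ^ i + (b' : ℝ) / (p : ℝ) ^ i') * k)‖ := by
  set hit : ℕ → Prop := fun i => ∃ (i' : ℕ) (a b a' b' : ℤ),
      i < i' ∧ i' ≤ J + 1 ∧ (a ≠ 0 ∨ b ≠ 0) ∧ |a| ≤ 128 ∧ |b| ≤ 128 ∧ |a'| ≤ 128 ∧ |b'| ≤ 128 ∧
      (B.card : ℝ) / 10 ^ 9 ≤
        ‖∑ p ∈ B, e (((a : ℝ) / (p : ℝ) ^ i + (a' : ℝ) / (p : ℝ) ^ i') * n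
          + ((b : ℝ) / (p : ℝ) ^ i + (b' : ℝ) / (p : ℝ) ^ i') * k)‖ with hhit
  have hcard : (0 : ℝ) < B.card := by exact_mod_cast hBne.card_pos
  have claim : ∀ i j, 1 ≤ i → i < j → j ≤ J → hit i ∨ hit j := by
    intro i j hi hij hj
    by_contra hcon
    rw [not_or] at hcon
    obtain ⟨hni, hnj⟩ := hcon
    have hker := kernel_pos B 4
      ![fun p => (n : ℝ) / (p : ℝ) ^ i, fun p => (k : ℝ) / (p : ℝ) ^ i,
        fun p => (n : ℝ) / (p : ℝ) ^ j, fun p => (k : ℝ) / (p : ℝ) ^ j]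
      ![1 / 4, 3 / 4, 1 / 4, 3 / 4] 32 (by norm_num) (1 / 10 ^ 9) (1 / 4) (by norm_num) (by norm_num)
      (by
        intro l hl hl2
        have hb : ∀ t, |l t| ≤ 128 := by
          intro t
          have := hl2 t
          push_cast at this
          linarith
        by_cases h01 : l 0 ≠ 0 ∨ l 1 ≠ 0
        · by_contra hlt
          push Not at hlt
          apply hni
          refine ⟨j, l 0, l 1, l 2, l 3, hij, by omega, h01, hb 0, hb 1, hb 2, hb 3, ?_⟩
          have heq : ∑ p ∈ B, e (((l 0 : ℝ) / (p : ℝ) ^ i + (l 2 : ℝ) / (p : ℝ) ^ j) * n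
              + ((l 1 : ℝ) / (p : ℝ) ^ i + (l 3 : ℝ) / (p : ℝ) ^ j) * k) =
              ∑ p ∈ B, e (∑ t, (l t : ℝ) * (![fun p => (n : ℝ) / (p : ℝ) ^ i,
                fun p => (k : ℝ) / (p : ℝ) ^ i, fun p => (n : ℝ) / (p : ℝ) ^ j,
                fun p => (k : ℝ) / (p : ℝ) ^ j] : Fin 4 → ℕ → ℝ) t p) := by
            refine Finset.sum_congr rfl fun p _ => ?_
            congr 1
            rw [Fin.sum_univ_four]
            simp
            ring
          rw [heq]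
          have h5 : (B.card : ℝ) / 10 ^ 9 = 1 / 10 ^ 9 * (B.card : ℝ) := by ring
          rw [h5]
          exact hlt.le
        · push Not at h01
          obtain ⟨h0, h1⟩ := h01
          have h23 : l 2 ≠ 0 ∨ l 3 ≠ 0 := by
            by_contra hc
            push Not at hc
            apply hl
            funext t
            fin_cases t
            · exact h0
            · exact h1
            · exact hc.1
            · exact hc.2
          by_contra hlt
          push Not at hlt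
          apply hnj
          refine ⟨j + 1, l 2, l 3, 0, 0, by omega, by omega, h23, hb 2, hb 3, by norm_num,
            by norm_num, ?_⟩
          have heq : ∑ p ∈ B, e (((l 2 : ℝ) / (p : ℝ) ^ j + ((0 : ℤ) : ℝ) / (p : ℝ) ^ (j + 1)) * n
              + ((l 3 : ℝ) / (p : ℝ) ^ j + ((0 : ℤ) : ℝ) / (p : ℝ) ^ (j + 1)) * k) =
              ∑ p ∈ B, e (∑ t, (l t : ℝ) * (![fun p => (n : ℝ) / (p : ℝ) ^ i,
                fun p => (k : ℝ) / (p : ℝ) ^ i, fun p => (n : ℝ) / (p : ℝ) ^ j,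
                fun p => (k : ℝ) / (p : ℝ) ^ j] : Fin 4 → ℕ → ℝ) t p) := by
            refine Finset.sum_congr rfl fun p _ => ?_
            congr 1
            rw [Fin.sum_univ_four]
            simp [h0, h1]
            ring
          rw [heq]
          have h5 : (B.card : ℝ) / 10 ^ 9 = 1 / 10 ^ 9 * (B.card : ℝ) := by ring
          rw [h5]
          exact hlt.le)
    have hpos : (0 : ℝ) < ((1 / (4 * ((32 : ℕ) : ℝ))) ^ 4 - 1 / 10 ^ 9 -
        (1 / (2 * ((32 : ℕ) : ℝ) * (1 / 4))) ^ 8) * B.card := by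
      apply mul_pos _ hcard
      norm_num
    have hpos2 := lt_of_lt_of_le hpos hker
    have hne : 0 < (B.filter (fun p => ∀ t, ∃ m : ℤ, |(![fun p => (n : ℝ) / (p : ℝ) ^ i,
                fun p => (k : ℝ) / (p : ℝ) ^ i, fun p => (n : ℝ) / (p : ℝ) ^ j,
                fun p => (k : ℝ) / (p : ℝ) ^ j] : Fin 4 → ℕ → ℝ) t p -
                (![1 / 4, 3 / 4, 1 / 4, 3 / 4] : Fin 4 → ℝ) t - m| < 1 / 4)).card := by
      exact_mod_cast hpos2
    obtain ⟨p, hp⟩ := Finset.card_pos.mp hne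
    rw [Finset.mem_filter] at hp
    obtain ⟨hpB, hpt⟩ := hp
    obtain ⟨m0, hm0⟩ := hpt 0
    obtain ⟨m1, hm1⟩ := hpt 1
    obtain ⟨m2, hm2⟩ := hpt 2
    obtain ⟨m3, hm3⟩ := hpt 3
    simp only [Matrix.cons_val_zero, Matrix.cons_val_one, Matrix.cons_val] at hm0 hm1 hm2 hm3
    rw [abs_lt] at hm0 hm1 hm2 hm3
    have hpp := hB p hpB
    have hc1 : n % p ^ i < k % p ^ i := by
      apply carry_aux n k (p ^ i) (pow_pos hpp.pos i) m0 m1
      · push_cast; linarith
      · push_cast; linarith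
      · push_cast; linarith
    have hc2 : n % p ^ j < k % p ^ j := by
      apply carry_aux n k (p ^ j) (pow_pos hpp.pos j) m2 m3
      · push_cast; linarith
      · push_cast; linarith
      · push_cast; linarith
    have hdvd := two_carries n k p i j hpp hkn hi hij hc1 hc2
    have hunit := hsq p (by rwa [pow_two] at hdvd)
    exact hpp.one_lt.ne' (Nat.isUnit_iff.mp hunit)
  by_cases hall : ∀ i ∈ Icc 1 J, hit i
  · exact ⟨1, by rw [Finset.mem_Icc]; omega, fun i hi => hall i (Finset.mem_of_mem_erase hi)⟩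
  · push Not at hall
    obtain ⟨m0, hm0, hnm0⟩ := hall
    refine ⟨m0, hm0, fun i hi => ?_⟩
    rw [Finset.mem_erase, Finset.mem_Icc] at hi
    rw [Finset.mem_Icc] at hm0
    rcases lt_or_gt_of_ne hi.1 with h | h
    · exact (claim i m0 hi.2.1 h hm0.2).resolve_right hnm0
    · exact (claim m0 i hm0.1 h hi.2.2).resolve_left hnm0

end Pool.Agent.Helper530.Sq
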