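import Pool.Agent.Helper530.Sq.Base

namespace Pool.Agent.Helper530.Sq


open Finset Classical

theorem G2_count (S : Finset ℕ) (R : ℝ) (D : ℕ) (hR : 0 ≤ R) (hD : R + 1 ≤ D)
    (h : ∀ q ∈ S, ∀ r ∈ S, |(q : ℝ) - r| ≤ R) : S.card ≤ D := by
  rcases S.eq_empty_or_nonempty with h0 | h0
  · subst h0; simp
  · have hm := S.min'_mem h0
    have hM := S.max'_mem h0
    set m := S.min' h0
    set M := S.max' h0
    have hsub : S ⊆ Finset.Icc m M := by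
      intro x hx
      rw [Finset.mem_Icc]
      exact ⟨S.min'_le x hx, S.le_max' x hx⟩
    have h1 := Finset.card_le_card hsub
    rw [Nat.card_Icc] at h1
    have h2 := h M hM m hm
    have h3 : m ≤ M := S.min'_le M hM
    have h4 : ((M + 1 - m : ℕ) : ℝ) ≤ D := by
      rw [Nat.cast_sub (by omega)]
      push_cast
      have := le_abs_self ((M : ℝ) - m)
      linarith
    have h5 : M + 1 - m ≤ D := by exact_mod_cast h4
    omega

theorem G2_e_add (x y : ℝ) : e x * e y = e (x + y) := by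
  unfold e
  rw [← Complex.exp_add]
  congr 1
  push_cast
  ring

theorem G2_single (N K : ℕ) (B : Finset ℕ) (f g : ℕ → ℝ) (R R' : ℝ) (D : ℕ) (hR : 0 ≤ R)
    (hD : R + 1 ≤ D)
    (h : ∀ q ∈ B, ∀ r ∈ B, |f q - f r| ≤ 2 / (N : ℝ) → |g q - g r| ≤ 2 / (K : ℝ) →
      |(q : ℝ) - r| ≤ R)
    (hb : ∀ q ∈ B, |f q| ≤ R' ∧ |g q| ≤ R') :
    Good N K (fun n k => ∑ p ∈ B, e (f p * n + g p * k)) D B.card R' := by
  refine ⟨↥B, inferInstance, fun i => f i, fun i => g i, ?_, ?_, ?_, ?_⟩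
  · intro n k
    exact (Finset.sum_coe_sort B (fun p => e (f p * n + g p * k))).symm
  · intro c1 c2
    rw [← Finset.card_map ⟨((↑) : ↥B → ℕ), Subtype.val_injective⟩]
    apply G2_count _ R D hR hD
    intro q hq r hr
    rw [Finset.mem_map] at hq hr
    obtain ⟨q', hq', rfl⟩ := hq
    obtain ⟨r', hr', rfl⟩ := hr
    rw [Finset.mem_filter] at hq' hr'
    obtain ⟨-, h1, h2⟩ := hq'
    obtain ⟨-, h3, h4⟩ := hr'
    refine h _ q'.2 _ r'.2 ?_ ?_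
    · show |f q' - f r'| ≤ _
      have : f q' - f r' = (f q' - c1) - (f r' - c1) := by ring
      rw [this]
      have h5 := abs_sub (f q' - c1) (f r' - c1)
      have h6 : (2 : ℝ) / N = 1 / N + 1 / N := by ring
      linarith
    · show |g q' - g r'| ≤ _
      have : g q' - g r' = (g q' - c2) - (g r' - c2) := by ring
      rw [this]
      have h5 := abs_sub (g q' - c2) (g r' - c2)
      have h6 : (2 : ℝ) / K = 1 / K + 1 / K := by ring
      linarith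
  · intro i
    exact hb _ i.2
  · rw [Fintype.card_coe]

theorem G2_pair (N K : ℕ) (B : Finset ℕ) (f g f' g' : ℕ → ℝ) (R R' : ℝ) (D : ℕ) (hR : 0 ≤ R)
    (hD : R + 1 ≤ D)
    (h : ∀ q ∈ B, ∀ r ∈ B, ∀ q' ∈ B, ∀ r' ∈ B,
      |(f q + f' q') - (f r + f' r')| ≤ 2 / (N : ℝ) →
      |(g q + g' q') - (g r + g' r')| ≤ 2 / (K : ℝ) →
      |(q : ℝ) - r| ≤ R ∧ |(q' : ℝ) - r'| ≤ R)
    (hb : ∀ q ∈ B, ∀ q' ∈ B, |f q + f' q'| ≤ R' ∧ |g q + g' q'| ≤ R') :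
    Good N K (fun n k => (∑ p ∈ B, e (f p * n + g p * k)) * (∑ p ∈ B, e (f' p * n + g' p * k)))
      (D ^ 2) (B.card ^ 2) R' := by
  refine ⟨↥B × ↥B, inferInstance, fun i => f i.1 + f' i.2, fun i => g i.1 + g' i.2,
    ?_, ?_, ?_, ?_⟩
  · intro n k
    rw [Fintype.sum_prod_type]
    show (∑ p ∈ B, e (f p * n + g p * k)) * (∑ p ∈ B, e (f' p * n + g' p * k)) = _
    rw [← Finset.sum_coe_sort B (fun p => e (f p * n + g p * k)),
      ← Finset.sum_coe_sort B (fun p => e (f' p * n + g' p * k)), Finset.sum_mul_sum]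
    refine Finset.sum_congr rfl fun i _ => Finset.sum_congr rfl fun j _ => ?_
    rw [G2_e_add]
    congr 1
    ring
  · intro c1 c2
    set T := univ.filter (fun i : ↥B × ↥B => |f i.1 + f' i.2 - c1| ≤ 1 / (N : ℝ) ∧
      |g i.1 + g' i.2 - c2| ≤ 1 / (K : ℝ)) with hT
    have hmem : ∀ x ∈ T, ∀ y ∈ T, |((x.1 : ℕ) : ℝ) - (y.1 : ℕ)| ≤ R ∧
        |((x.2 : ℕ) : ℝ) - (y.2 : ℕ)| ≤ R := by
      intro x hx y hy
      rw [hT, Finset.mem_filter] at hx hy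
      obtain ⟨-, h1, h2⟩ := hx
      obtain ⟨-, h3, h4⟩ := hy
      refine h _ x.1.2 _ y.1.2 _ x.2.2 _ y.2.2 ?_ ?_
      · have : f x.1 + f' x.2 - (f y.1 + f' y.2) =
          (f x.1 + f' x.2 - c1) - (f y.1 + f' y.2 - c1) := by ring
        rw [this]
        have h5 := abs_sub (f x.1 + f' x.2 - c1) (f y.1 + f' y.2 - c1)
        have h6 : (2 : ℝ) / N = 1 / N + 1 / N := by ring
        linarith
      · have : g x.1 + g' x.2 - (g y.1 + g' y.2) =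
          (g x.1 + g' x.2 - c2) - (g y.1 + g' y.2 - c2) := by ring
        rw [this]
        have h5 := abs_sub (g x.1 + g' x.2 - c2) (g y.1 + g' y.2 - c2)
        have h6 : (2 : ℝ) / K = 1 / K + 1 / K := by ring
        linarith
    have hinj : T.card = (T.image (fun x => ((x.1 : ℕ), (x.2 : ℕ)))).card := by
      rw [Finset.card_image_of_injective]
      intro x y hxy
      simp only [Prod.mk.injEq] at hxy
      ext
      · exact hxy.1
      · exact hxy.2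
    have hsub : T.image (fun x => ((x.1 : ℕ), (x.2 : ℕ))) ⊆
        (T.image (fun x => (x.1 : ℕ))) ×ˢ (T.image (fun x => (x.2 : ℕ))) := by
      intro z hz
      rw [Finset.mem_image] at hz
      obtain ⟨x, hx, rfl⟩ := hz
      rw [Finset.mem_product]
      exact ⟨Finset.mem_image_of_mem _ hx, Finset.mem_image_of_mem _ hx⟩
    have h1 : (T.image (fun x => (x.1 : ℕ))).card ≤ D := by
      apply G2_count _ R D hR hD
      intro q hq r hr
      rw [Finset.mem_image] at hq hr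
      obtain ⟨x, hx, rfl⟩ := hq
      obtain ⟨y, hy, rfl⟩ := hr
      exact (hmem x hx y hy).1
    have h2 : (T.image (fun x => (x.2 : ℕ))).card ≤ D := by
      apply G2_count _ R D hR hD
      intro q hq r hr
      rw [Finset.mem_image] at hq hr
      obtain ⟨x, hx, rfl⟩ := hq
      obtain ⟨y, hy, rfl⟩ := hr
      exact (hmem x hx y hy).2
    rw [hinj]
    refine (Finset.card_le_card hsub).trans ?_
    rw [Finset.card_product, sq]
    exact Nat.mul_le_mul h1 h2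
  · intro i
    exact hb _ i.1.2 _ i.2.2
  · rw [Fintype.card_prod, Fintype.card_coe, sq]

theorem G2_A2_lower (P : ℕ) (hP : 1 ≤ P) (q r : ℕ) (hq : q ∈ Ioc P (4 * P))
    (hr : r ∈ Ioc P (4 * P)) :
    |(q : ℝ) - r| ≤ 128 * (P : ℝ) ^ 3 * |1 / (q : ℝ) ^ 2 - 1 / (r : ℝ) ^ 2| := by
  rw [Finset.mem_Ioc] at hq hr
  have hP' : (1 : ℝ) ≤ P := by exact_mod_cast hP
  have hq1 : (P : ℝ) ≤ q := by exact_mod_cast hq.1.le
  have hq2 : (q : ℝ) ≤ 4 * P := by exact_mod_cast hq.2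
  have hr1 : (P : ℝ) ≤ r := by exact_mod_cast hr.1.le
  have hr2 : (r : ℝ) ≤ 4 * P := by exact_mod_cast hr.2
  have hq0 : (0 : ℝ) < q := by linarith
  have hr0 : (0 : ℝ) < r := by linarith
  have h1 : 1 / (q : ℝ) ^ 2 - 1 / (r : ℝ) ^ 2 = -((q : ℝ) - r) * (((q : ℝ) + r) / (q ^ 2 * r ^ 2)) := by
    field_simp
    ring
  rw [h1, abs_mul, abs_neg]
  have h2 : 1 ≤ 128 * (P : ℝ) ^ 3 * |((q : ℝ) + r) / (q ^ 2 * r ^ 2)| := by
    rw [abs_of_pos (by positivity), ← mul_div_assoc, le_div_iff₀ (by positivity), one_mul]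
    have h3 : (q : ℝ) ^ 2 ≤ (4 * P) ^ 2 := by gcongr
    have h4 : (r : ℝ) ^ 2 ≤ (4 * P) ^ 2 := by gcongr
    calc (q : ℝ) ^ 2 * r ^ 2 ≤ (4 * P) ^ 2 * (4 * P) ^ 2 := by gcongr
      _ = 128 * (P : ℝ) ^ 3 * (P + P) := by ring
      _ ≤ 128 * (P : ℝ) ^ 3 * (q + r) := by gcongr
  have h5 := abs_nonneg ((q : ℝ) - r)
  calc |(q : ℝ) - r| = |(q : ℝ) - r| * 1 := by ring
    _ ≤ |(q : ℝ) - r| * (128 * (P : ℝ) ^ 3 * |((q : ℝ) + r) / (q ^ 2 * r ^ 2)|) := by gcongr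
    _ = _ := by ring

theorem G2_A_lower (P : ℕ) (hP : 1 ≤ P) (q r : ℕ) (hq : q ∈ Ioc P (4 * P))
    (hr : r ∈ Ioc P (4 * P)) :
    |(q : ℝ) - r| ≤ 16 * (P : ℝ) ^ 2 * |1 / (q : ℝ) - 1 / (r : ℝ)| := by
  rw [Finset.mem_Ioc] at hq hr
  have hP' : (1 : ℝ) ≤ P := by exact_mod_cast hP
  have hq1 : (P : ℝ) ≤ q := by exact_mod_cast hq.1.le
  have hq2 : (q : ℝ) ≤ 4 * P := by exact_mod_cast hq.2
  have hr1 : (P : ℝ) ≤ r := by exact_mod_cast hr.1.le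
  have hr2 : (r : ℝ) ≤ 4 * P := by exact_mod_cast hr.2
  have hq0 : (0 : ℝ) < q := by linarith
  have hr0 : (0 : ℝ) < r := by linarith
  have h1 : 1 / (q : ℝ) - 1 / (r : ℝ) = -((q : ℝ) - r) * (1 / (q * r)) := by
    field_simp
    ring
  rw [h1, abs_mul, abs_neg]
  have h2 : 1 ≤ 16 * (P : ℝ) ^ 2 * |1 / ((q : ℝ) * r)| := by
    rw [abs_of_pos (by positivity), ← mul_div_assoc, le_div_iff₀ (by positivity), one_mul, mul_one]
    calc (q : ℝ) * r ≤ (4 * P) * (4 * P) := by gcongr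
      _ = 16 * (P : ℝ) ^ 2 := by ring
  have h5 := abs_nonneg ((q : ℝ) - r)
  calc |(q : ℝ) - r| = |(q : ℝ) - r| * 1 := by ring
    _ ≤ |(q : ℝ) - r| * (16 * (P : ℝ) ^ 2 * |1 / ((q : ℝ) * r)|) := by gcongr
    _ = _ := by ring

theorem G2_A2_upper (P : ℕ) (hP : 1 ≤ P) (q r : ℕ) (hq : q ∈ Ioc P (4 * P))
    (hr : r ∈ Ioc P (4 * P)) :
    |1 / (q : ℝ) ^ 2 - 1 / (r : ℝ) ^ 2| ≤ 2 / P * |1 / (q : ℝ) - 1 / (r : ℝ)| := by
  rw [Finset.mem_Ioc] at hq hr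
  have hP' : (1 : ℝ) ≤ P := by exact_mod_cast hP
  have hq1 : (P : ℝ) ≤ q := by exact_mod_cast hq.1.le
  have hr1 : (P : ℝ) ≤ r := by exact_mod_cast hr.1.le
  have hq0 : (0 : ℝ) < q := by linarith
  have hr0 : (0 : ℝ) < r := by linarith
  have h1 : 1 / (q : ℝ) ^ 2 - 1 / (r : ℝ) ^ 2 = (1 / (q : ℝ) + 1 / r) * (1 / (q : ℝ) - 1 / r) := by
    ring
  rw [h1, abs_mul]
  have h2 : |1 / (q : ℝ) + 1 / r| ≤ 2 / P := by
    rw [abs_of_pos (by positivity)]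
    have h3 : 1 / (q : ℝ) ≤ 1 / P := by gcongr
    have h4 : 1 / (r : ℝ) ≤ 1 / P := by gcongr
    have h5 : (2 : ℝ) / P = 1 / P + 1 / P := by ring
    linarith
  gcongr

/-- solving a 2 × 2 integer system -/
theorem G2_solve (H : ℝ) (a0 a1 b0 b1 : ℤ) (ha0 : |(a0 : ℝ)| ≤ H) (ha1 : |(a1 : ℝ)| ≤ H)
    (hb0 : |(b0 : ℝ)| ≤ H) (hb1 : |(b1 : ℝ)| ≤ H) (hdet : a0 * b1 - a1 * b0 ≠ 0) (A A' v : ℝ)
    (h0 : |a0 * A + b0 * A'| ≤ v) (h1 : |a1 * A + b1 * A'| ≤ v) :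
    |A| ≤ 2 * H * v ∧ |A'| ≤ 2 * H * v := by
  have hd : (1 : ℝ) ≤ |((a0 * b1 - a1 * b0 : ℤ) : ℝ)| := by
    rw [← Int.cast_abs]
    exact_mod_cast Int.one_le_abs hdet
  have hv : 0 ≤ v := (abs_nonneg _).trans h0
  have hH : 0 ≤ H := (abs_nonneg _).trans ha0
  constructor
  · have e1 : ((a0 * b1 - a1 * b0 : ℤ) : ℝ) * A = b1 * (a0 * A + b0 * A') - b0 * (a1 * A + b1 * A') := by
      push_cast; ring
    have e2 : |((a0 * b1 - a1 * b0 : ℤ) : ℝ) * A| ≤ H * v + H * v := by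
      rw [e1]
      refine (abs_sub _ _).trans ?_
      rw [abs_mul, abs_mul]
      gcongr
    rw [abs_mul] at e2
    have e3 := abs_nonneg A
    nlinarith
  · have e1 : ((a0 * b1 - a1 * b0 : ℤ) : ℝ) * A' = a0 * (a1 * A + b1 * A') - a1 * (a0 * A + b0 * A') := by
      push_cast; ring
    have e2 : |((a0 * b1 - a1 * b0 : ℤ) : ℝ) * A'| ≤ H * v + H * v := by
      rw [e1]
      refine (abs_sub _ _).trans ?_
      rw [abs_mul, abs_mul]
      gcongr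
    rw [abs_mul] at e2
    have e3 := abs_nonneg A'
    nlinarith

theorem G2_abs_cast (H : ℕ) (l : ℤ) (h : |l| ≤ H) : |(l : ℝ)| ≤ H := by
  rw [← Int.cast_abs]; exact_mod_cast h

/-- top family of type T2 -/
theorem good_T2 (N K P H D : ℕ) (B : Finset ℕ) (hB : B ⊆ Ioc P (4 * P)) (hP : 1 ≤ P)
    (hN : 1 ≤ N) (l : ℤ) (hl : l ≠ 0) (hlH : |l| ≤ H)
    (hD : 256 * (P : ℝ) ^ 3 / N + 1 ≤ D) :
    Good N K (fun n k => ∑ p ∈ B, e (((l : ℝ) / (p : ℝ) ^ 2) * n + 0 * k))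
      D B.card (H / (P : ℝ) ^ 2) := by
  have hN' : (1 : ℝ) ≤ N := by exact_mod_cast hN
  have hP' : (1 : ℝ) ≤ P := by exact_mod_cast hP
  refine G2_single N K B (fun p => (l : ℝ) / (p : ℝ) ^ 2) (fun _ => 0)
    (256 * (P : ℝ) ^ 3 / N) _ D (by positivity) hD ?_ ?_
  · intro q hq r hr h1 _
    have h2 := G2_A2_lower P hP q r (hB hq) (hB hr)
    have h3 : (l : ℝ) / (q : ℝ) ^ 2 - (l : ℝ) / (r : ℝ) ^ 2 =
        l * (1 / (q : ℝ) ^ 2 - 1 / (r : ℝ) ^ 2) := by ring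
    simp only [h3, abs_mul] at h1
    have h4 : (1 : ℝ) ≤ |(l : ℝ)| := by
      rw [← Int.cast_abs]
      exact_mod_cast Int.one_le_abs hl
    have h5 : |1 / (q : ℝ) ^ 2 - 1 / (r : ℝ) ^ 2| ≤ 2 / (N : ℝ) := by
      refine le_trans ?_ h1
      have := abs_nonneg (1 / (q : ℝ) ^ 2 - 1 / (r : ℝ) ^ 2)
      nlinarith
    calc |(q : ℝ) - r| ≤ 128 * (P : ℝ) ^ 3 * |1 / (q : ℝ) ^ 2 - 1 / (r : ℝ) ^ 2| := h2
      _ ≤ 128 * (P : ℝ) ^ 3 * (2 / (N : ℝ)) := by gcongr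
      _ = 256 * (P : ℝ) ^ 3 / N := by ring
  · intro q hq
    have h1 := hB hq
    rw [Finset.mem_Ioc] at h1
    have hq1 : (P : ℝ) ≤ q := by exact_mod_cast h1.1.le
    have hl' := G2_abs_cast H l hlH
    have hq0 : (0 : ℝ) < q := by linarith
    constructor
    · rw [abs_div, abs_of_pos (a := (q : ℝ) ^ 2) (by positivity)]
      gcongr
    · simp only [abs_zero]
      positivity

/-- top family of type A1: two modes with independent first parts -/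
theorem good_A1 (N K P H D : ℕ) (B : Finset ℕ) (hB : B ⊆ Ioc P (4 * P)) (hK : 1 ≤ K)
    (hKN : K ≤ N) (hH : 1 ≤ H) (hP : 16 * H ^ 2 ≤ P) (a b : Fin 4 → ℤ)
    (ha : ∀ j, |a j| ≤ H) (hb : ∀ j, |b j| ≤ H) (hdet : a 0 * b 1 - a 1 * b 0 ≠ 0)
    (hD : 256 * (H : ℝ) * (P : ℝ) ^ 2 / K + 1 ≤ D) :
    Good N K (fun n k =>
        (∑ p ∈ B, e (((a 0 : ℝ) / (p : ℝ) + (a 2 : ℝ) / (p : ℝ) ^ 2) * n
          + ((a 1 : ℝ) / (p : ℝ) + (a 3 : ℝ) / (p : ℝ) ^ 2) * k)) *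
        (∑ p ∈ B, e (((b 0 : ℝ) / (p : ℝ) + (b 2 : ℝ) / (p : ℝ) ^ 2) * n
          + ((b 1 : ℝ) / (p : ℝ) + (b 3 : ℝ) / (p : ℝ) ^ 2) * k)))
      (D ^ 2) (B.card ^ 2) (4 * H / (P : ℝ)) := by
  have hK' : (1 : ℝ) ≤ K := by exact_mod_cast hK
  have hKN' : (K : ℝ) ≤ N := by exact_mod_cast hKN
  have hH' : (1 : ℝ) ≤ H := by exact_mod_cast hH
  have hP1 : 1 ≤ P := by nlinarith
  have hP' : (1 : ℝ) ≤ P := by exact_mod_cast hP1
  have hPH : 16 * (H : ℝ) ^ 2 ≤ P := by exact_mod_cast hP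
  have ha' := fun j => G2_abs_cast H (a j) (ha j)
  have hb' := fun j => G2_abs_cast H (b j) (hb j)
  refine G2_pair N K B (fun p => (a 0 : ℝ) / (p : ℝ) + (a 2 : ℝ) / (p : ℝ) ^ 2)
    (fun p => (a 1 : ℝ) / (p : ℝ) + (a 3 : ℝ) / (p : ℝ) ^ 2)
    (fun p => (b 0 : ℝ) / (p : ℝ) + (b 2 : ℝ) / (p : ℝ) ^ 2)
    (fun p => (b 1 : ℝ) / (p : ℝ) + (b 3 : ℝ) / (p : ℝ) ^ 2)
    (256 * (H : ℝ) * (P : ℝ) ^ 2 / K) _ D (by positivity) hD ?_ ?_
  · intro q hq r hr q' hq' r' hr' h1 h2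
    have hNK : (2 : ℝ) / N ≤ 2 / K := by gcongr
    have u1 := G2_A_lower P hP1 q r (hB hq) (hB hr)
    have u2 := G2_A_lower P hP1 q' r' (hB hq') (hB hr')
    have u3 := G2_A2_upper P hP1 q r (hB hq) (hB hr)
    have u4 := G2_A2_upper P hP1 q' r' (hB hq') (hB hr')
    set A := 1 / (q : ℝ) - 1 / (r : ℝ) with hA
    set A' := 1 / (q' : ℝ) - 1 / (r' : ℝ) with hA'
    set A2 := 1 / (q : ℝ) ^ 2 - 1 / (r : ℝ) ^ 2 with hA2
    set A2' := 1 / (q' : ℝ) ^ 2 - 1 / (r' : ℝ) ^ 2 with hA2'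
    have key : ∀ x y x' y' t : ℝ, |x'| ≤ H → |y'| ≤ H → t ≤ 2 / K →
        |(x * A + y * A') + (x' * A2 + y' * A2')| ≤ t →
        |x * A + y * A'| ≤ 2 / K + 2 * H / P * (|A| + |A'|) := by
      intro x y x' y' t hx' hy' ht h
      have e1 : x * A + y * A' = ((x * A + y * A') + (x' * A2 + y' * A2')) -
        (x' * A2 + y' * A2') := by ring
      rw [e1]
      refine (abs_sub _ _).trans ?_
      have e2 : |x' * A2 + y' * A2'| ≤ H * (2 / P * |A|) + H * (2 / P * |A'|) := by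
        refine (abs_add_le _ _).trans ?_
        rw [abs_mul, abs_mul]
        gcongr
      have e3 : H * (2 / P * |A|) + H * (2 / P * |A'|) = 2 * H / P * (|A| + |A'|) := by ring
      rw [e3] at e2
      linarith
    have k1 := key (a 0) (b 0) (a 2) (b 2) (2 / N) (ha' 2) (hb' 2) hNK (by
      refine le_trans (le_of_eq ?_) h1
      rw [hA, hA', hA2, hA2']
      congr 1
      ring)
    have k2 := key (a 1) (b 1) (a 3) (b 3) (2 / K) (ha' 3) (hb' 3) le_rfl (by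
      refine le_trans (le_of_eq ?_) h2
      rw [hA, hA', hA2, hA2']
      congr 1
      ring)
    have k3 := G2_solve H (a 0) (a 1) (b 0) (b 1) (ha' 0) (ha' 1) (hb' 0) (hb' 1) hdet A A' _ k1 k2
    have k4 : |A| + |A'| ≤ 16 * H / K := by
      have e1 := add_le_add k3.1 k3.2
      have e2 : 2 * (H : ℝ) * (2 / K + 2 * H / P * (|A| + |A'|)) +
          2 * H * (2 / K + 2 * H / P * (|A| + |A'|)) =
          8 * H / K + 8 * H ^ 2 / P * (|A| + |A'|) := by ring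
      rw [e2] at e1
      have e3 : 8 * (H : ℝ) ^ 2 / P ≤ 1 / 2 := by
        rw [div_le_iff₀ (by positivity)]
        linarith
      have e4 : 8 * (H : ℝ) ^ 2 / P * (|A| + |A'|) ≤ 1 / 2 * (|A| + |A'|) := by
        gcongr
      have e5 : 16 * (H : ℝ) / K = 2 * (8 * H / K) := by ring
      rw [e5]
      linarith
    have hAn := abs_nonneg A
    have hAn' := abs_nonneg A'
    constructor
    · calc |(q : ℝ) - r| ≤ 16 * (P : ℝ) ^ 2 * |A| := u1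
        _ ≤ 16 * (P : ℝ) ^ 2 * (16 * H / K) := by gcongr; linarith
        _ = _ := by ring
    · calc |(q' : ℝ) - r'| ≤ 16 * (P : ℝ) ^ 2 * |A'| := u2
        _ ≤ 16 * (P : ℝ) ^ 2 * (16 * H / K) := by gcongr; linarith
        _ = _ := by ring
  · intro q hq q' hq'
    have h1 := hB hq
    rw [Finset.mem_Ioc] at h1
    have hq1 : (P : ℝ) ≤ q := by exact_mod_cast h1.1.le
    have h2 := hB hq'
    rw [Finset.mem_Ioc] at h2
    have hq2 : (P : ℝ) ≤ q' := by exact_mod_cast h2.1.le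
    have key : ∀ (x y : ℝ) (p : ℕ), |x| ≤ H → |y| ≤ H → (P : ℝ) ≤ p →
        |x / (p : ℝ) + y / (p : ℝ) ^ 2| ≤ 2 * H / P := by
      intro x y p hx hy hp
      refine (abs_add_le _ _).trans ?_
      have hp0 : (0 : ℝ) < p := by linarith
      rw [abs_div, abs_div, abs_of_pos (a := (p : ℝ) ^ 2) (by positivity),
        abs_of_pos (a := (p : ℝ)) (by positivity)]
      have e1 : |x| / (p : ℝ) ≤ H / P := by gcongr
      have e2 : |y| / (p : ℝ) ^ 2 ≤ H / P := by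
        gcongr
        nlinarith
      have e3 : 2 * (H : ℝ) / P = H / P + H / P := by ring
      linarith
    have e4 : 4 * (H : ℝ) / P = 2 * H / P + 2 * H / P := by ring
    rw [e4]
    constructor
    · refine (abs_add_le _ _).trans ?_
      exact add_le_add (key _ _ _ (ha' 0) (ha' 2) hq1) (key _ _ _ (hb' 0) (hb' 2) hq2)
    · refine (abs_add_le _ _).trans ?_
      exact add_le_add (key _ _ _ (ha' 1) (ha' 3) hq1) (key _ _ _ (hb' 1) (hb' 3) hq2)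

/-- top family of type T2b: two independent pure second modes -/
theorem good_T2b (N K P H D : ℕ) (B : Finset ℕ) (hB : B ⊆ Ioc P (4 * P)) (hK : 1 ≤ K)
    (hKN : K ≤ N) (hP : 1 ≤ P) (a b : Fin 2 → ℤ)
    (ha : ∀ j, |a j| ≤ H) (hb : ∀ j, |b j| ≤ H) (hdet : a 0 * b 1 - a 1 * b 0 ≠ 0)
    (hD : 512 * (H : ℝ) * (P : ℝ) ^ 3 / K + 1 ≤ D) :
    Good N K (fun n k =>
        (∑ p ∈ B, e (((a 0 : ℝ) / (p : ℝ) ^ 2) * n + ((a 1 : ℝ) / (p : ℝ) ^ 2) * k)) *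
        (∑ p ∈ B, e (((b 0 : ℝ) / (p : ℝ) ^ 2) * n + ((b 1 : ℝ) / (p : ℝ) ^ 2) * k)))
      (D ^ 2) (B.card ^ 2) (2 * H / (P : ℝ) ^ 2) := by
  have hK' : (1 : ℝ) ≤ K := by exact_mod_cast hK
  have hKN' : (K : ℝ) ≤ N := by exact_mod_cast hKN
  have hP' : (1 : ℝ) ≤ P := by exact_mod_cast hP
  have ha' := fun j => G2_abs_cast H (a j) (ha j)
  have hb' := fun j => G2_abs_cast H (b j) (hb j)
  refine G2_pair N K B (fun p => (a 0 : ℝ) / (p : ℝ) ^ 2)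
    (fun p => (a 1 : ℝ) / (p : ℝ) ^ 2)
    (fun p => (b 0 : ℝ) / (p : ℝ) ^ 2)
    (fun p => (b 1 : ℝ) / (p : ℝ) ^ 2)
    (512 * (H : ℝ) * (P : ℝ) ^ 3 / K) _ D (by positivity) hD ?_ ?_
  · intro q hq r hr q' hq' r' hr' h1 h2
    have hNK : (2 : ℝ) / N ≤ 2 / K := by gcongr
    have u1 := G2_A2_lower P hP q r (hB hq) (hB hr)
    have u2 := G2_A2_lower P hP q' r' (hB hq') (hB hr')
    set A2 := 1 / (q : ℝ) ^ 2 - 1 / (r : ℝ) ^ 2 with hA2
    set A2' := 1 / (q' : ℝ) ^ 2 - 1 / (r' : ℝ) ^ 2 with hA2'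
    have k1 : |(a 0 : ℝ) * A2 + b 0 * A2'| ≤ 2 / K := by
      refine le_trans (le_of_eq ?_) (h1.trans hNK)
      rw [hA2, hA2']
      congr 1
      ring
    have k2 : |(a 1 : ℝ) * A2 + b 1 * A2'| ≤ 2 / K := by
      refine le_trans (le_of_eq ?_) h2
      rw [hA2, hA2']
      congr 1
      ring
    have k3 := G2_solve H (a 0) (a 1) (b 0) (b 1) (ha' 0) (ha' 1) (hb' 0) (hb' 1) hdet A2 A2' _ k1 k2
    constructor
    · calc |(q : ℝ) - r| ≤ 128 * (P : ℝ) ^ 3 * |A2| := u1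
        _ ≤ 128 * (P : ℝ) ^ 3 * (2 * H * (2 / K)) := by gcongr; exact k3.1
        _ = _ := by ring
    · calc |(q' : ℝ) - r'| ≤ 128 * (P : ℝ) ^ 3 * |A2'| := u2
        _ ≤ 128 * (P : ℝ) ^ 3 * (2 * H * (2 / K)) := by gcongr; exact k3.2
        _ = _ := by ring
  · intro q hq q' hq'
    have h1 := hB hq
    rw [Finset.mem_Ioc] at h1
    have hq1 : (P : ℝ) ≤ q := by exact_mod_cast h1.1.le
    have h2 := hB hq'
    rw [Finset.mem_Ioc] at h2
    have hq2 : (P : ℝ) ≤ q' := by exact_mod_cast h2.1.le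
    have key : ∀ (x : ℝ) (p : ℕ), |x| ≤ H → (P : ℝ) ≤ p →
        |x / (p : ℝ) ^ 2| ≤ H / (P : ℝ) ^ 2 := by
      intro x p hx hp
      have hp0 : (0 : ℝ) < p := by linarith
      rw [abs_div, abs_of_pos (a := (p : ℝ) ^ 2) (by positivity)]
      gcongr
    have e4 : 2 * (H : ℝ) / (P : ℝ) ^ 2 = H / (P : ℝ) ^ 2 + H / (P : ℝ) ^ 2 := by ring
    rw [e4]
    constructor
    · refine (abs_add_le _ _).trans ?_
      exact add_le_add (key _ _ (ha' 0) hq1) (key _ _ (hb' 0) hq2)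
    · refine (abs_add_le _ _).trans ?_
      exact add_le_add (key _ _ (ha' 1) hq1) (key _ _ (hb' 1) hq2)

end Pool.Agent.Helper530.Sq
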