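import Pool.Agent.Helper530.Sq.Base
import Pool.Agent.Helper530.Sq.Top
import Pool.Agent.Helper530.Sq.Low
import Pool.Agent.Helper530.Sq.Count

namespace Pool.Agent.Helper530.Sq


open Finset Classical

theorem count_gen (J : ℕ) (hJ : 1 ≤ J) (hJ2 : J ≤ 18) : ∃ C : ℝ, 0 < C ∧
    ∀ (ι : Type) (t L1 La L N K : ℕ) (Bad : Finset (ℕ × ℕ)) (T : Finset ι)
      (F : ι → ℕ → ℕ → ℂ) (m A : ℕ) (R θ : ℝ),
      Par t L1 La L N K → Bad ⊆ (Ico N (2 * N)) ×ˢ (Ico K (2 * K)) →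
      (∀ τ ∈ T, Good N K (F τ) m A R) → R ≤ 512 / (t : ℝ) ^ (J + 1) → 0 < θ →
      (∀ x ∈ Bad, ∃ τ ∈ T, θ ≤ ‖F τ x.1 x.2‖) →
      (∀ x ∈ Bad, x.2 ≤ x.1 ∧ Squarefree (x.1.choose x.2)) →
      (Bad.card : ℝ) ≤ C * T.card * m * A * N * (2 * t ^ 20) * (L : ℝ) ^ 2
        * (L1 / t : ℝ) ^ (J - 1) / θ ^ 2 := by
  obtain ⟨C, hC, h⟩ := count_bad J hJ
  refine ⟨C, hC, ?_⟩
  intro ι t L1 La L N K Bad T F m A R θ hpar hBad hT hR hθ hF hx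
  obtain ⟨hL1, hLa, hL, hLt, hlog, hK1, hK2, hKN, hB⟩ := hpar
  have hLa1 : 10 ^ 8 ≤ La := by rw [hLa]; omega
  have hL1' : 10 ^ 16 ≤ L := by
    rw [hL]
    calc 10 ^ 16 = (10 ^ 8) ^ 2 := by norm_num
      _ ≤ La ^ 2 := Nat.pow_le_pow_left hLa1 2
      _ ≤ La ^ 63 := Nat.pow_le_pow_right (by omega) (by norm_num)
  have hLpos : 1 ≤ L := le_trans (by norm_num) hL1'
  have htL : L ≤ t := by
    calc L = L ^ 1 := (pow_one L).symm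
      _ ≤ L ^ 900 := Nat.pow_le_pow_right hLpos (by omega)
      _ ≤ t := hLt
  have ht : 10 ^ 16 ≤ t := hL1'.trans htL
  have ht1 : 1 ≤ t := hLpos.trans htL
  have htpos : (0 : ℝ) < t := by exact_mod_cast ht1
  have hK : 1 ≤ K := le_trans (Nat.one_le_pow _ _ ht1) hK1
  have hsub : pr t ⊆ Ioc t (4 * t) := filter_subset _ _
  have hcard : (0 : ℝ) < (pr t).card := by
    by_contra hcon
    have h0 : ((pr t).card : ℝ) = 0 := le_antisymm (not_lt.1 hcon) (by positivity)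
    rw [h0, mul_zero] at hB
    linarith
  have hne : (pr t).Nonempty := by
    rw [← Finset.card_pos]
    exact_mod_cast hcard
  have hcond : 256 * (J + 1) * 4 ^ (J + 1) ≤ t := by
    calc 256 * (J + 1) * 4 ^ (J + 1) ≤ 256 * (18 + 1) * 4 ^ (18 + 1) := by
          gcongr
          norm_num
      _ ≤ 10 ^ 16 := by norm_num
      _ ≤ t := ht
  have hcond2 : t ^ (J + 1) ≤ K := le_trans (Nat.pow_le_pow_right ht1 (by omega)) hK1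
  -- transport
  let f : T ≃ Fin T.card := T.equivFin
  let F' : ℕ → ℕ → ℕ → ℂ := fun i => if hi : i < T.card then F (f.symm ⟨i, hi⟩) else fun _ _ => 0
  have hF'eq : ∀ i (hi : i < T.card), F' i = F (f.symm ⟨i, hi⟩) := fun i hi => by
    simp only [F', dif_pos hi]
  have hmain := h N K t (pr t) Bad (range T.card) F' m A R θ hK hKN hsub hne hcond hcond2 hBad
    (fun i hi => by
      rw [mem_range] at hi
      rw [hF'eq i hi]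
      exact hT _ (f.symm ⟨i, hi⟩).2) hR hθ
    (fun x hxB => by
      obtain ⟨τ, hτ, hτ2⟩ := hF x hxB
      refine ⟨f ⟨τ, hτ⟩, mem_range.2 (f ⟨τ, hτ⟩).2, ?_⟩
      rw [hF'eq _ (f ⟨τ, hτ⟩).2]
      simpa using hτ2)
    (fun x hxB => by
      obtain ⟨h1, h2⟩ := hx x hxB
      exact low_modes J hJ (pr t) (fun p hp => (mem_filter.1 hp).2) hne x.1 x.2 h1 h2)
  rw [card_range] at hmain
  refine hmain.trans ?_
  have hL1pos : (0 : ℝ) < L1 := by exact_mod_cast hL1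
  have hinv : 1 / ((pr t).card : ℝ) ≤ L1 / t := by
    rw [div_le_div_iff₀ hcard htpos, one_mul]
    exact hB
  have hK2' : (K : ℝ) ≤ 2 * t ^ 20 := by exact_mod_cast hK2
  have hlog0 : 0 ≤ 1 + Real.log (N + 1) := by
    have : 0 ≤ Real.log ((N : ℝ) + 1) := Real.log_nonneg (by
      have : (0 : ℝ) ≤ N := by positivity
      linarith)
    linarith
  calc C * T.card * m * A * N * K * (1 + Real.log (N + 1)) ^ 2 / (θ ^ 2 * ((pr t).card : ℝ) ^ (J - 1))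
      = C * T.card * m * A * N * K * (1 + Real.log (N + 1)) ^ 2 * (1 / ((pr t).card : ℝ)) ^ (J - 1) / θ ^ 2 := by
        rw [div_pow, one_pow]
        field_simp
    _ ≤ C * T.card * m * A * N * (2 * t ^ 20) * (L : ℝ) ^ 2 * (L1 / t : ℝ) ^ (J - 1) / θ ^ 2 := by
        gcongr

theorem par_facts {t L1 La L N K : ℕ} (h : Par t L1 La L N K) :
    (1 : ℝ) ≤ t ∧ (1 : ℝ) ≤ L ∧ (1 : ℝ) ≤ La ∧ (1 : ℝ) ≤ L1 ∧ (L1 : ℝ) ≤ La ∧ (La : ℝ) ^ 63 = L ∧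
      (L : ℝ) ^ 100 ≤ t ∧ (t : ℝ) ^ 20 ≤ K ∧ (K : ℝ) ≤ N ∧ (10 : ℝ) ^ 16 ≤ L := by
  obtain ⟨hL1, hLa, hL, hLt, hlog, hK1, hK2, hKN, hB⟩ := h
  have hLa1 : 10 ^ 8 ≤ La := by rw [hLa]; omega
  have hL1' : 10 ^ 16 ≤ L := by
    rw [hL]
    calc 10 ^ 16 = (10 ^ 8) ^ 2 := by norm_num
      _ ≤ La ^ 2 := Nat.pow_le_pow_left hLa1 2
      _ ≤ La ^ 63 := Nat.pow_le_pow_right (by omega) (by norm_num)
  have hLpos : 1 ≤ L := le_trans (by norm_num) hL1'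
  have htL : L ≤ t := by
    calc L = L ^ 1 := (pow_one L).symm
      _ ≤ L ^ 900 := Nat.pow_le_pow_right hLpos (by omega)
      _ ≤ t := hLt
  refine ⟨by exact_mod_cast hLpos.trans htL, by exact_mod_cast hLpos, ?_, by exact_mod_cast hL1, ?_, ?_,
    ?_, by exact_mod_cast hK1, by exact_mod_cast hKN, ?_⟩
  · exact_mod_cast le_trans (by norm_num) hLa1
  · have : L1 ≤ La := by omega
    exact_mod_cast this
  · rw [hL]; push_cast; rfl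
  · have : L ^ 100 ≤ t := le_trans (Nat.pow_le_pow_right hLpos (by omega)) hLt
    exact_mod_cast this
  · exact_mod_cast hL1'

theorem box_card (d H : ℕ) (hH : 1 ≤ H) :
    ((Fintype.piFinset (fun _ : Fin d => Icc (-(H : ℤ)) (H : ℤ))).card : ℝ) ≤ (3 * (H : ℝ)) ^ d := by
  rw [Fintype.card_piFinset]
  simp only [Int.card_Icc, prod_const, card_univ, Fintype.card_fin]
  have : ((H : ℤ) + 1 - -(H : ℤ)).toNat ≤ 3 * H := by omega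
  calc ((((H : ℤ) + 1 - -(H : ℤ)).toNat ^ d : ℕ) : ℝ) ≤ (((3 * H) ^ d : ℕ) : ℝ) := by
        exact_mod_cast Nat.pow_le_pow_left this d
    _ = (3 * (H : ℝ)) ^ d := by push_cast; rfl

theorem norm_mul_ge {a b : ℂ} {u : ℝ} (hu : 0 ≤ u) (ha : u ≤ ‖a‖) (hb : u ≤ ‖b‖) : u ^ 2 ≤ ‖a * b‖ := by
  rw [norm_mul, sq]
  exact mul_le_mul ha hb hu (norm_nonneg _)

/-- TARGET 1 -/
theorem final_A1 : ∃ C : ℝ, 0 < C ∧ ∀ (t L1 La L N K P : ℕ) (Bad : Finset (ℕ × ℕ)),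
    Par t L1 La L N K → t ^ 8 ≤ P → P ≤ 2 * t ^ 10 → (P : ℝ) ≤ L1 * ((pr P).card : ℝ) →
    Bad ⊆ (Ico N (2 * N)) ×ˢ (Ico K (2 * K)) →
    (∀ x ∈ Bad, x.2 ≤ x.1 ∧ Squarefree (x.1.choose x.2) ∧ caseA1 (pr P) L x.1 x.2) →
    (Bad.card : ℝ) ≤ C * (L : ℝ) ^ 450 * N / t := by
  obtain ⟨C, hC, h⟩ := count_gen 6 (by norm_num) (by norm_num)
  refine ⟨C * (3 ^ 8 * 1025 ^ 2 * 2), by positivity, ?_⟩
  intro t L1 La L N K P Bad hpar hP1 hP2 hPB hBad hx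
  obtain ⟨ht, hL, hLa, hL1, hL1La, hLaL, hLt, hK1, hKN, hLbig⟩ := par_facts hpar
  have hLn : 1 ≤ L := by exact_mod_cast hL
  have htn : 1 ≤ t := by exact_mod_cast ht
  have hKNn : K ≤ N := hpar.hKN
  have hKn : 1 ≤ K := le_trans (Nat.one_le_pow 20 t htn) hpar.hK1
  have hPn : 1 ≤ P := le_trans (Nat.one_le_pow 8 t htn) hP1
  have hP1' : (t : ℝ) ^ 8 ≤ P := by exact_mod_cast hP1
  have hP2' : (P : ℝ) ≤ 2 * t ^ 10 := by exact_mod_cast hP2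
  have hPpos : (0 : ℝ) < P := by exact_mod_cast hPn
  have hKpos : (0 : ℝ) < K := by exact_mod_cast hKn
  have hLnt : L ^ 41 ≤ t := by
    have : (L : ℝ) ^ 41 ≤ (L : ℝ) ^ 100 := pow_le_pow_right₀ hL (by norm_num)
    exact_mod_cast this.trans hLt
  have hLbn : 16 ≤ L := by
    have : (16 : ℝ) ≤ L := le_trans (by norm_num) hLbig
    exact_mod_cast this
  set B := pr P with hBdef
  have hsub : B ⊆ Ioc P (4 * P) := filter_subset _ _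
  have hBpos : (0 : ℝ) < B.card := by
    by_contra hcon
    have h0 : (B.card : ℝ) = 0 := le_antisymm (not_lt.1 hcon) (by positivity)
    rw [h0, mul_zero] at hPB
    linarith
  let V : Finset (Fin 4 → ℤ) := Fintype.piFinset (fun _ : Fin 4 => Icc (-((L ^ 20 : ℕ) : ℤ)) ((L ^ 20 : ℕ) : ℤ))
  let T : Finset ((Fin 4 → ℤ) × (Fin 4 → ℤ)) :=
    (V ×ˢ V).filter (fun τ => τ.1 0 * τ.2 1 - τ.1 1 * τ.2 0 ≠ 0)
  let F : (Fin 4 → ℤ) × (Fin 4 → ℤ) → ℕ → ℕ → ℂ := fun τ n k =>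
        (∑ p ∈ B, e (((τ.1 0 : ℝ) / (p : ℝ) + (τ.1 2 : ℝ) / (p : ℝ) ^ 2) * n
          + ((τ.1 1 : ℝ) / (p : ℝ) + (τ.1 3 : ℝ) / (p : ℝ) ^ 2) * k)) *
        (∑ p ∈ B, e (((τ.2 0 : ℝ) / (p : ℝ) + (τ.2 2 : ℝ) / (p : ℝ) ^ 2) * n
          + ((τ.2 1 : ℝ) / (p : ℝ) + (τ.2 3 : ℝ) / (p : ℝ) ^ 2) * k))
  have hVc : (V.card : ℝ) ≤ (3 * (L : ℝ) ^ 20) ^ 4 := by
    have := box_card 4 (L ^ 20) (Nat.one_le_pow _ _ hLn)
    push_cast at this ⊢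
    exact this
  have hTc : (T.card : ℝ) ≤ (3 * (L : ℝ) ^ 20) ^ 4 * (3 * (L : ℝ) ^ 20) ^ 4 := by
    have h1 : T.card ≤ V.card * V.card := by
      refine (card_filter_le _ _).trans ?_
      rw [card_product]
    calc (T.card : ℝ) ≤ (V.card : ℝ) * V.card := by exact_mod_cast h1
      _ ≤ _ := by gcongr
  have hmemV : ∀ a : Fin 4 → ℤ, a ∈ V ↔ ∀ j, |a j| ≤ ((L ^ 20 : ℕ) : ℤ) := by
    intro a
    simp only [V, Fintype.mem_piFinset, mem_Icc, abs_le]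
  have hmain := h _ t L1 La L N K Bad T F ((1025 * L ^ 20) ^ 2) (B.card ^ 2) (4 * ((L ^ 20 : ℕ) : ℝ) / (P : ℝ))
    (((B.card : ℝ) / (L : ℝ) ^ 60) ^ 2) hpar hBad
    (by
      intro τ hτ
      obtain ⟨hτ1, hτ2⟩ := mem_filter.1 hτ
      obtain ⟨hτ3, hτ4⟩ := mem_product.1 hτ1
      refine good_A1 N K P (L ^ 20) (1025 * L ^ 20) B hsub hKn hKNn (Nat.one_le_pow _ _ hLn) ?_ τ.1 τ.2
        ((hmemV _).1 hτ3) ((hmemV _).1 hτ4) hτ2 ?_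
      · calc 16 * (L ^ 20) ^ 2 ≤ L * (L ^ 20) ^ 2 := by gcongr
          _ = L ^ 41 := by ring
          _ ≤ t := hLnt
          _ = t ^ 1 := (pow_one t).symm
          _ ≤ t ^ 8 := Nat.pow_le_pow_right htn (by norm_num)
          _ ≤ P := hP1
      · push_cast
        have h1 : (P : ℝ) ^ 2 / K ≤ 4 := by
          rw [div_le_iff₀ hKpos]
          calc (P : ℝ) ^ 2 ≤ (2 * (t : ℝ) ^ 10) ^ 2 := by gcongr
            _ = 4 * (t : ℝ) ^ 20 := by ring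
            _ ≤ 4 * (K : ℝ) := by gcongr
        have h2 : 256 * (L : ℝ) ^ 20 * P ^ 2 / K = 256 * (L : ℝ) ^ 20 * (P ^ 2 / K) := by ring
        rw [h2]
        have h3 : (1 : ℝ) ≤ (L : ℝ) ^ 20 := one_le_pow₀ hL
        nlinarith)
    (by
      push_cast
      rw [div_le_div_iff₀ hPpos (by positivity)]
      have h1 : (L : ℝ) ^ 20 ≤ t := le_trans (pow_le_pow_right₀ hL (by norm_num)) hLt
      calc 4 * (L : ℝ) ^ 20 * (t : ℝ) ^ (6 + 1) ≤ 4 * (t : ℝ) * (t : ℝ) ^ (6 + 1) := by gcongr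
        _ = 4 * (t : ℝ) ^ 8 := by ring
        _ ≤ 512 * (t : ℝ) ^ 8 := by gcongr; norm_num
        _ ≤ 512 * (P : ℝ) := by gcongr)
    (by positivity)
    (by
      intro x hxB
      obtain ⟨-, -, a, b, hab, hdet, ha, hb⟩ := hx x hxB
      refine ⟨(a, b), ?_, ?_⟩
      · refine mem_filter.2 ⟨mem_product.2 ⟨(hmemV _).2 ?_, (hmemV _).2 ?_⟩, hdet⟩
        · intro j; push_cast; exact (hab j).1
        · intro j; push_cast; exact (hab j).2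
      · exact norm_mul_ge (by positivity) ha hb)
    (fun x hxB => ⟨(hx x hxB).1, (hx x hxB).2.1⟩)
  refine hmain.trans ?_
  have hL1pos : (0 : ℝ) < L1 := by linarith
  have htpos : (0 : ℝ) < t := by linarith
  have hLpos : (0 : ℝ) < L := by linarith
  have hinv : 1 / (B.card : ℝ) ≤ L1 / t ^ 8 := by
    rw [div_le_div_iff₀ hBpos (by positivity), one_mul]
    exact hP1'.trans hPB
  have hL1L : (L1 : ℝ) ^ 7 ≤ L := by
    calc (L1 : ℝ) ^ 7 ≤ (La : ℝ) ^ 7 := by gcongr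
      _ ≤ (La : ℝ) ^ 63 := pow_le_pow_right₀ hLa (by norm_num)
      _ = L := hLaL
  push_cast
  calc C * (T.card : ℝ) * (1025 * (L : ℝ) ^ 20) ^ 2 * (B.card : ℝ) ^ 2 * N * (2 * (t : ℝ) ^ 20) * (L : ℝ) ^ 2 *
        ((L1 : ℝ) / t) ^ (6 - 1) / (((B.card : ℝ) / (L : ℝ) ^ 60) ^ 2) ^ 2
      = C * (T.card : ℝ) * (1025 * (L : ℝ) ^ 20) ^ 2 * N * (2 * (t : ℝ) ^ 20) * (L : ℝ) ^ 2 *
        ((L1 : ℝ) / t) ^ 5 * (L : ℝ) ^ 240 * (1 / (B.card : ℝ)) ^ 2 := by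
        norm_num only
        field_simp
    _ ≤ C * ((3 * (L : ℝ) ^ 20) ^ 4 * (3 * (L : ℝ) ^ 20) ^ 4) * (1025 * (L : ℝ) ^ 20) ^ 2 * N * (2 * (t : ℝ) ^ 20) *
        (L : ℝ) ^ 2 * ((L1 : ℝ) / t) ^ 5 * (L : ℝ) ^ 240 * (L1 / t ^ 8) ^ 2 := by
        gcongr
    _ = C * (3 ^ 8 * 1025 ^ 2 * 2) * ((L : ℝ) ^ 442 * (L1 : ℝ) ^ 7) * N / t := by
        field_simp
        try ring
    _ ≤ C * (3 ^ 8 * 1025 ^ 2 * 2) * ((L : ℝ) ^ 442 * (L : ℝ) ^ 8) * N / t := by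
        have : (L1 : ℝ) ^ 7 ≤ (L : ℝ) ^ 8 := hL1L.trans (by
          calc (L : ℝ) = (L : ℝ) ^ 1 := (pow_one _).symm
            _ ≤ (L : ℝ) ^ 8 := pow_le_pow_right₀ hL (by norm_num))
        gcongr
    _ = C * (3 ^ 8 * 1025 ^ 2 * 2) * (L : ℝ) ^ 450 * N / t := by
        rw [← pow_add]

/-- TARGET 2 -/
theorem final_T2 : ∃ C : ℝ, 0 < C ∧ ∀ (t L1 La L N K P : ℕ) (Bad : Finset (ℕ × ℕ)),
    Par t L1 La L N K → P = 2 * t ^ 10 → t ^ 24 ≤ 200 * L1 * N →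
    (P : ℝ) ≤ L1 * ((pr P).card : ℝ) →
    Bad ⊆ (Ico N (2 * N)) ×ˢ (Ico K (2 * K)) →
    (∀ x ∈ Bad, x.2 ≤ x.1 ∧ Squarefree (x.1.choose x.2) ∧
      ∃ l : ℤ, l ≠ 0 ∧ |l| ≤ 1024 ∧ ((pr P).card : ℝ) / 10 ^ 4 ≤
        ‖∑ p ∈ pr P, e (((l : ℝ) / (p : ℝ) ^ 2) * x.1 + 0 * x.2)‖) →
    (Bad.card : ℝ) ≤ C * (L : ℝ) ^ 450 * N / t := by
  obtain ⟨C, hC, h⟩ := count_gen 18 (by norm_num) (by norm_num)
  refine ⟨C * (3072 * 10 ^ 6 * 10 ^ 8), by positivity, ?_⟩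
  intro t L1 La L N K P Bad hpar hP ht24 hPB hBad hx
  obtain ⟨ht, hL, hLa, hL1, hL1La, hLaL, hLt, hK1, hKN, hLbig⟩ := par_facts hpar
  have hLn : 1 ≤ L := by exact_mod_cast hL
  have htn : 1 ≤ t := by exact_mod_cast ht
  have hL1n : 1 ≤ L1 := hpar.hL1
  have hKNn : K ≤ N := hpar.hKN
  have hKn : 1 ≤ K := le_trans (Nat.one_le_pow 20 t htn) hpar.hK1
  have hNn : 1 ≤ N := hKn.trans hKNn
  have hPn : 1 ≤ P := by
    rw [hP]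
    have := Nat.one_le_pow 10 t htn
    omega
  have hPr : (P : ℝ) = 2 * (t : ℝ) ^ 10 := by rw [hP]; push_cast; rfl
  have ht24' : (t : ℝ) ^ 24 ≤ 200 * L1 * N := by exact_mod_cast ht24
  have hL1pos : (0 : ℝ) < L1 := by linarith
  have htpos : (0 : ℝ) < t := by linarith
  have hLpos : (0 : ℝ) < L := by linarith
  have hPpos : (0 : ℝ) < P := by exact_mod_cast hPn
  have hKpos : (0 : ℝ) < K := by exact_mod_cast hKn
  have hNpos : (0 : ℝ) < N := by exact_mod_cast hNn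
  set B := pr P with hBdef
  have hsub : B ⊆ Ioc P (4 * P) := filter_subset _ _
  have hBpos : (0 : ℝ) < B.card := by
    by_contra hcon
    have h0 : (B.card : ℝ) = 0 := le_antisymm (not_lt.1 hcon) (by positivity)
    rw [h0, mul_zero] at hPB
    linarith
  let T : Finset ℤ := (Icc (-1024 : ℤ) 1024).filter (fun l => l ≠ 0)
  let F : ℤ → ℕ → ℕ → ℂ := fun l n k => ∑ p ∈ B, e (((l : ℝ) / (p : ℝ) ^ 2) * n + 0 * k)
  have hTc : (T.card : ℝ) ≤ 3072 := by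
    have h1 : T.card ≤ (Icc (-1024 : ℤ) 1024).card := card_filter_le _ _
    rw [Int.card_Icc] at h1
    have h2 : T.card ≤ 3072 := h1.trans (by norm_num)
    exact_mod_cast h2
  have hmain := h _ t L1 La L N K Bad T F (10 ^ 6 * L1 * t ^ 6) B.card (((1024 : ℕ) : ℝ) / (P : ℝ) ^ 2)
    ((B.card : ℝ) / 10 ^ 4) hpar hBad
    (by
      intro l hl
      obtain ⟨hl1, hl2⟩ := mem_filter.1 hl
      rw [mem_Icc] at hl1
      refine good_T2 N K P 1024 (10 ^ 6 * L1 * t ^ 6) B hsub hPn hNn l hl2 ?_ ?_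
      · rw [abs_le]; push_cast; exact hl1
      · push_cast
        have h1 : (t : ℝ) ^ 30 / N ≤ 200 * L1 * t ^ 6 := by
          rw [div_le_iff₀ hNpos]
          calc (t : ℝ) ^ 30 = (t : ℝ) ^ 24 * (t : ℝ) ^ 6 := by ring
            _ ≤ (200 * L1 * N) * (t : ℝ) ^ 6 := by gcongr
            _ = 200 * L1 * (t : ℝ) ^ 6 * N := by ring
        have h2 : 256 * (P : ℝ) ^ 3 / N = 2048 * ((t : ℝ) ^ 30 / N) := by
          rw [hPr]; ring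
        rw [h2]
        have h3 : (1 : ℝ) ≤ L1 * (t : ℝ) ^ 6 := by
          have : (1 : ℝ) ≤ (t : ℝ) ^ 6 := one_le_pow₀ ht
          nlinarith
        nlinarith)
    (by
      rw [div_le_div_iff₀ (by positivity) (by positivity), hPr]
      push_cast
      have h1 : (t : ℝ) ^ 19 ≤ (t : ℝ) ^ 20 := pow_le_pow_right₀ ht (by norm_num)
      calc (1024 : ℝ) * (t : ℝ) ^ (18 + 1) ≤ 1024 * (t : ℝ) ^ 20 := by gcongr
        _ ≤ 2048 * (t : ℝ) ^ 20 := by gcongr; norm_num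
        _ = 512 * (2 * (t : ℝ) ^ 10) ^ 2 := by ring)
    (by positivity)
    (by
      intro x hxB
      obtain ⟨-, -, l, hl0, hl1, hl2⟩ := hx x hxB
      refine ⟨l, mem_filter.2 ⟨mem_Icc.2 (abs_le.1 hl1), hl0⟩, hl2⟩)
    (fun x hxB => ⟨(hx x hxB).1, (hx x hxB).2.1⟩)
  refine hmain.trans ?_
  have hinv : 1 / (B.card : ℝ) ≤ L1 / t ^ 10 := by
    rw [div_le_div_iff₀ hBpos (by positivity), one_mul]
    refine le_trans ?_ hPB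
    rw [hPr]
    have : (0 : ℝ) < t ^ 10 := by positivity
    linarith
  have hL1L : (L1 : ℝ) ^ 19 ≤ L := by
    calc (L1 : ℝ) ^ 19 ≤ (La : ℝ) ^ 19 := by gcongr
      _ ≤ (La : ℝ) ^ 63 := pow_le_pow_right₀ hLa (by norm_num)
      _ = L := hLaL
  push_cast
  norm_num only
  calc C * (T.card : ℝ) * (1000000 * (L1 : ℝ) * (t : ℝ) ^ 6) * (B.card : ℝ) * N * (2 * (t : ℝ) ^ 20) * (L : ℝ) ^ 2 *
        ((L1 : ℝ) / t) ^ 17 / ((B.card : ℝ) / 10000) ^ 2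
      = C * (T.card : ℝ) * (10 ^ 6 * (L1 : ℝ) * (t : ℝ) ^ 6) * N * (2 * (t : ℝ) ^ 20) * (L : ℝ) ^ 2 *
        ((L1 : ℝ) / t) ^ 17 * 10 ^ 8 * (1 / (B.card : ℝ)) := by
        norm_num only
        field_simp
        try ring
    _ ≤ C * 3072 * (10 ^ 6 * (L1 : ℝ) * (t : ℝ) ^ 6) * N * (2 * (t : ℝ) ^ 20) * (L : ℝ) ^ 2 *
        ((L1 : ℝ) / t) ^ 17 * 10 ^ 8 * (L1 / t ^ 10) := by
        gcongr
    _ = C * (3072 * 10 ^ 6 * 10 ^ 8) * (2 * (L : ℝ) ^ 2 * (L1 : ℝ) ^ 19) * N / t := by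
        field_simp
        try ring
    _ ≤ C * (3072 * 10 ^ 6 * 10 ^ 8) * (L : ℝ) ^ 450 * N / t := by
        have : 2 * (L : ℝ) ^ 2 * (L1 : ℝ) ^ 19 ≤ (L : ℝ) ^ 450 := by
          have h2 : (2 : ℝ) ≤ L := le_trans (by norm_num) hLbig
          calc 2 * (L : ℝ) ^ 2 * (L1 : ℝ) ^ 19 ≤ L * (L : ℝ) ^ 2 * L := by gcongr
            _ = (L : ℝ) ^ 4 := by ring
            _ ≤ (L : ℝ) ^ 450 := pow_le_pow_right₀ hL (by omega)
        gcongr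
    _ ≤ _ := by norm_num

/-- TARGET 3 -/
theorem final_T2b : ∃ C : ℝ, 0 < C ∧ ∀ (t L1 La L N K P : ℕ) (Bad : Finset (ℕ × ℕ)),
    Par t L1 La L N K → P = t ^ 8 → (P : ℝ) ≤ L1 * ((pr P).card : ℝ) →
    Bad ⊆ (Ico N (2 * N)) ×ˢ (Ico K (2 * K)) →
    (∀ x ∈ Bad, x.2 ≤ x.1 ∧ Squarefree (x.1.choose x.2) ∧
      ∃ a b : Fin 2 → ℤ, (∀ j, |a j| ≤ (La : ℤ) ^ 20 ∧ |b j| ≤ (La : ℤ) ^ 20) ∧
      a 0 * b 1 - a 1 * b 0 ≠ 0 ∧
      ((pr P).card : ℝ) / (La : ℝ) ^ 60 ≤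
        ‖∑ p ∈ pr P, e (((a 0 : ℝ) / (p : ℝ) ^ 2) * x.1 + ((a 1 : ℝ) / (p : ℝ) ^ 2) * x.2)‖ ∧
      ((pr P).card : ℝ) / (La : ℝ) ^ 60 ≤
        ‖∑ p ∈ pr P, e (((b 0 : ℝ) / (p : ℝ) ^ 2) * x.1 + ((b 1 : ℝ) / (p : ℝ) ^ 2) * x.2)‖) →
    (Bad.card : ℝ) ≤ C * (L : ℝ) ^ 450 * N / t := by
  obtain ⟨C, hC, h⟩ := count_gen 14 (by norm_num) (by norm_num)
  refine ⟨C * (3 ^ 4 * 513 ^ 2 * 2), by positivity, ?_⟩
  intro t L1 La L N K P Bad hpar hP hPB hBad hx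
  obtain ⟨ht, hL, hLa, hL1, hL1La, hLaL, hLt, hK1, hKN, hLbig⟩ := par_facts hpar
  have hLn : 1 ≤ L := by exact_mod_cast hL
  have hLan : 1 ≤ La := by exact_mod_cast hLa
  have htn : 1 ≤ t := by exact_mod_cast ht
  have hKNn : K ≤ N := hpar.hKN
  have hKn : 1 ≤ K := le_trans (Nat.one_le_pow 20 t htn) hpar.hK1
  have hPn : 1 ≤ P := by rw [hP]; exact Nat.one_le_pow 8 t htn
  have hPr : (P : ℝ) = (t : ℝ) ^ 8 := by rw [hP]; push_cast; rfl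
  have hL1pos : (0 : ℝ) < L1 := by linarith
  have htpos : (0 : ℝ) < t := by linarith
  have hLpos : (0 : ℝ) < L := by linarith
  have hLapos : (0 : ℝ) < La := by linarith
  have hPpos : (0 : ℝ) < P := by exact_mod_cast hPn
  have hKpos : (0 : ℝ) < K := by exact_mod_cast hKn
  set B := pr P with hBdef
  have hsub : B ⊆ Ioc P (4 * P) := filter_subset _ _
  have hBpos : (0 : ℝ) < B.card := by
    by_contra hcon
    have h0 : (B.card : ℝ) = 0 := le_antisymm (not_lt.1 hcon) (by positivity)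
    rw [h0, mul_zero] at hPB
    linarith
  let V : Finset (Fin 2 → ℤ) := Fintype.piFinset (fun _ : Fin 2 => Icc (-((La ^ 20 : ℕ) : ℤ)) ((La ^ 20 : ℕ) : ℤ))
  let T : Finset ((Fin 2 → ℤ) × (Fin 2 → ℤ)) :=
    (V ×ˢ V).filter (fun τ => τ.1 0 * τ.2 1 - τ.1 1 * τ.2 0 ≠ 0)
  let F : (Fin 2 → ℤ) × (Fin 2 → ℤ) → ℕ → ℕ → ℂ := fun τ n k =>
        (∑ p ∈ B, e (((τ.1 0 : ℝ) / (p : ℝ) ^ 2) * n + ((τ.1 1 : ℝ) / (p : ℝ) ^ 2) * k)) *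
        (∑ p ∈ B, e (((τ.2 0 : ℝ) / (p : ℝ) ^ 2) * n + ((τ.2 1 : ℝ) / (p : ℝ) ^ 2) * k))
  have hVc : (V.card : ℝ) ≤ (3 * (La : ℝ) ^ 20) ^ 2 := by
    have := box_card 2 (La ^ 20) (Nat.one_le_pow _ _ hLan)
    push_cast at this ⊢
    exact this
  have hTc : (T.card : ℝ) ≤ (3 * (La : ℝ) ^ 20) ^ 2 * (3 * (La : ℝ) ^ 20) ^ 2 := by
    have h1 : T.card ≤ V.card * V.card := by
      refine (card_filter_le _ _).trans ?_
      rw [card_product]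
    calc (T.card : ℝ) ≤ (V.card : ℝ) * V.card := by exact_mod_cast h1
      _ ≤ _ := by gcongr
  have hmemV : ∀ a : Fin 2 → ℤ, a ∈ V ↔ ∀ j, |a j| ≤ ((La ^ 20 : ℕ) : ℤ) := by
    intro a
    simp only [V, Fintype.mem_piFinset, mem_Icc, abs_le]
  have hmain := h _ t L1 La L N K Bad T F ((513 * La ^ 20 * t ^ 4) ^ 2) (B.card ^ 2)
    (2 * ((La ^ 20 : ℕ) : ℝ) / (P : ℝ) ^ 2)
    (((B.card : ℝ) / (La : ℝ) ^ 60) ^ 2) hpar hBad
    (by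
      intro τ hτ
      obtain ⟨hτ1, hτ2⟩ := mem_filter.1 hτ
      obtain ⟨hτ3, hτ4⟩ := mem_product.1 hτ1
      refine good_T2b N K P (La ^ 20) (513 * La ^ 20 * t ^ 4) B hsub hKn hKNn hPn τ.1 τ.2
        ((hmemV _).1 hτ3) ((hmemV _).1 hτ4) hτ2 ?_
      push_cast
      have h1 : (P : ℝ) ^ 3 / K ≤ (t : ℝ) ^ 4 := by
        rw [div_le_iff₀ hKpos]
        calc (P : ℝ) ^ 3 = (t : ℝ) ^ 4 * (t : ℝ) ^ 20 := by rw [hPr]; ring
          _ ≤ (t : ℝ) ^ 4 * (K : ℝ) := by gcongr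
      have h2 : 512 * (La : ℝ) ^ 20 * P ^ 3 / K = 512 * (La : ℝ) ^ 20 * (P ^ 3 / K) := by ring
      rw [h2]
      have h3 : (1 : ℝ) ≤ (La : ℝ) ^ 20 := one_le_pow₀ hLa
      have h4 : (1 : ℝ) ≤ (t : ℝ) ^ 4 := one_le_pow₀ ht
      have h5 : (1 : ℝ) ≤ (La : ℝ) ^ 20 * (t : ℝ) ^ 4 := by nlinarith
      have h6 : 512 * (La : ℝ) ^ 20 * ((P : ℝ) ^ 3 / K) ≤ 512 * (La : ℝ) ^ 20 * (t : ℝ) ^ 4 := by gcongr
      nlinarith)
    (by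
      push_cast
      rw [div_le_div_iff₀ (by positivity) (by positivity), hPr]
      have h1 : (La : ℝ) ^ 20 ≤ t := by
        calc (La : ℝ) ^ 20 ≤ (La : ℝ) ^ 63 := pow_le_pow_right₀ hLa (by norm_num)
          _ = (L : ℝ) ^ 1 := by rw [hLaL, pow_one]
          _ ≤ (L : ℝ) ^ 100 := pow_le_pow_right₀ hL (by norm_num)
          _ ≤ t := hLt
      calc 2 * (La : ℝ) ^ 20 * (t : ℝ) ^ (14 + 1) ≤ 2 * (t : ℝ) * (t : ℝ) ^ (14 + 1) := by gcongr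
        _ = 2 * ((t : ℝ) ^ 8) ^ 2 := by ring
        _ ≤ 512 * ((t : ℝ) ^ 8) ^ 2 := by gcongr; norm_num)
    (by positivity)
    (by
      intro x hxB
      obtain ⟨-, -, a, b, hab, hdet, ha, hb⟩ := hx x hxB
      refine ⟨(a, b), ?_, ?_⟩
      · refine mem_filter.2 ⟨mem_product.2 ⟨(hmemV _).2 ?_, (hmemV _).2 ?_⟩, hdet⟩
        · intro j; push_cast; exact (hab j).1
        · intro j; push_cast; exact (hab j).2
      · exact norm_mul_ge (by positivity) ha hb)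
    (fun x hxB => ⟨(hx x hxB).1, (hx x hxB).2.1⟩)
  refine hmain.trans ?_
  have hinv : 1 / (B.card : ℝ) ≤ L1 / t ^ 8 := by
    rw [div_le_div_iff₀ hBpos (by positivity), one_mul, ← hPr]
    exact hPB
  have hL1L : (L1 : ℝ) ^ 15 ≤ L := by
    calc (L1 : ℝ) ^ 15 ≤ (La : ℝ) ^ 15 := by gcongr
      _ ≤ (La : ℝ) ^ 63 := pow_le_pow_right₀ hLa (by norm_num)
      _ = L := hLaL
  have hLaL' : (La : ℝ) ^ 360 ≤ (L : ℝ) ^ 6 := by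
    calc (La : ℝ) ^ 360 ≤ (La : ℝ) ^ 378 := pow_le_pow_right₀ hLa (by omega)
      _ = ((La : ℝ) ^ 63) ^ 6 := by rw [← pow_mul]
      _ = (L : ℝ) ^ 6 := by rw [hLaL]
  push_cast
  calc C * (T.card : ℝ) * (513 * (La : ℝ) ^ 20 * (t : ℝ) ^ 4) ^ 2 * (B.card : ℝ) ^ 2 * N * (2 * (t : ℝ) ^ 20) *
        (L : ℝ) ^ 2 * ((L1 : ℝ) / t) ^ (14 - 1) / (((B.card : ℝ) / (La : ℝ) ^ 60) ^ 2) ^ 2
      = C * (T.card : ℝ) * (513 * (La : ℝ) ^ 20 * (t : ℝ) ^ 4) ^ 2 * N * (2 * (t : ℝ) ^ 20) * (L : ℝ) ^ 2 *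
        ((L1 : ℝ) / t) ^ 13 * (La : ℝ) ^ 240 * (1 / (B.card : ℝ)) ^ 2 := by
        norm_num only
        field_simp
    _ ≤ C * ((3 * (La : ℝ) ^ 20) ^ 2 * (3 * (La : ℝ) ^ 20) ^ 2) * (513 * (La : ℝ) ^ 20 * (t : ℝ) ^ 4) ^ 2 * N *
        (2 * (t : ℝ) ^ 20) * (L : ℝ) ^ 2 * ((L1 : ℝ) / t) ^ 13 * (La : ℝ) ^ 240 * (L1 / t ^ 8) ^ 2 := by
        gcongr
    _ = C * (3 ^ 4 * 513 ^ 2 * 2) * ((L : ℝ) ^ 2 * (La : ℝ) ^ 360 * (L1 : ℝ) ^ 15) * N / t := by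
        field_simp
        try ring
    _ ≤ C * (3 ^ 4 * 513 ^ 2 * 2) * (L : ℝ) ^ 450 * N / t := by
        have : (L : ℝ) ^ 2 * (La : ℝ) ^ 360 * (L1 : ℝ) ^ 15 ≤ (L : ℝ) ^ 450 := by
          calc (L : ℝ) ^ 2 * (La : ℝ) ^ 360 * (L1 : ℝ) ^ 15 ≤ (L : ℝ) ^ 2 * (L : ℝ) ^ 6 * L := by gcongr
            _ = (L : ℝ) ^ 9 := by ring
            _ ≤ (L : ℝ) ^ 450 := pow_le_pow_right₀ hL (by omega)
        gcongr

end Pool.Agent.Helper530.Sq
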