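import Pool.Agent.Helper530.Sq.Base
import Pool.Agent.Helper530.Sq.Kernel
import Pool.Agent.Helper530.Sq.Low
import Pool.Agent.Helper530.Sq.Cheb
import Pool.Agent.Helper530.Sq.Dich

namespace Pool.Agent.Helper530.Sq


open Finset Classical

theorem nongen1 (P L n k : ℕ) (B : Finset ℕ) (hB : B = (Ioc P (4 * P)).filter Nat.Prime)
    (hP : 2 ≤ P) (hL : 0 < L) (hk : 4 * (1 / (L : ℝ)) * P < k) (hkn : 2 * k ≤ n)
    (hn : 2 * n ≤ P ^ 60) :
    ∃ N : Finset ℕ, (N.card : ℝ) ≤ 180 * (8 * (1 / (L : ℝ)) * P + 1) ∧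
      ∀ p ∈ B, p ∉ N → ∀ m : ℤ, 1 / (L : ℝ) ≤ |(n : ℝ) / p - m| ∧
        1 / (L : ℝ) ≤ |(k : ℝ) / p - m| ∧ 1 / (L : ℝ) ≤ |(n : ℝ) / p - (k : ℝ) / p - m| := by
  have hL0 : (0 : ℝ) < L := by exact_mod_cast hL
  have hη : 0 < 1 / (L : ℝ) := by positivity
  let F : ℕ → Finset ℕ := fun z => (Ioc P (4 * P)).filter
      (fun p : ℕ => p.Prime ∧ ∃ m : ℤ, |(z : ℝ) / (p : ℝ) - m| < 1 / (L : ℝ))
  have hF : ∀ z : ℕ, k ≤ z → z ≤ n → ((F z).card : ℝ) ≤ 60 * (8 * (1 / (L : ℝ)) * P + 1) := by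
    intro z h1 h2
    have h3 : (k : ℝ) ≤ z := by exact_mod_cast h1
    have h4 := generic_one P z 60 (1 / (L : ℝ)) hP hη (lt_of_lt_of_le hk h3)
      ((Nat.mul_le_mul_left 2 h2).trans hn)
    exact_mod_cast h4
  refine ⟨F n ∪ F k ∪ F (n - k), ?_, ?_⟩
  · have h1 : ((F n ∪ F k ∪ F (n - k)).card : ℝ) ≤
        ((F n).card : ℝ) + ((F k).card : ℝ) + ((F (n - k)).card : ℝ) := by
      have h2 := Finset.card_union_le (F n ∪ F k) (F (n - k))
      have h3 := Finset.card_union_le (F n) (F k)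
      have h4 : (F n ∪ F k ∪ F (n - k)).card ≤ (F n).card + (F k).card + (F (n - k)).card := by
        omega
      exact_mod_cast h4
    have h2 := hF n (by omega) le_rfl
    have h3 := hF k le_rfl (by omega)
    have h4 := hF (n - k) (by omega) (by omega)
    linarith
  · intro p hp hpN m
    rw [hB, Finset.mem_filter] at hp
    rw [Finset.mem_union, Finset.mem_union, not_or, not_or] at hpN
    obtain ⟨⟨h1, h2⟩, h3⟩ := hpN
    have hgen : ∀ z : ℕ, p ∉ F z → ∀ m : ℤ, 1 / (L : ℝ) ≤ |(z : ℝ) / (p : ℝ) - m| := by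
      intro z hz m
      by_contra hcon
      push Not at hcon
      exact hz (Finset.mem_filter.2 ⟨hp.1, hp.2, m, hcon⟩)
    refine ⟨hgen n h1 m, hgen k h2 m, ?_⟩
    have h4 := hgen (n - k) h3 m
    rw [Nat.cast_sub (by omega), sub_div] at h4
    exact h4

theorem nongen2 (P L n k : ℕ) (B : Finset ℕ) (hB : B = (Ioc P (4 * P)).filter Nat.Prime)
    (hP : 1 ≤ P) (hL : 4 ≤ L) (hk : P ^ 2 ≤ k) (hkn : 2 * k ≤ n) :
    ∃ N : Finset ℕ, (N.card : ℝ) ≤ 3 * (768 * (1 / (L : ℝ)) * P + (n : ℝ) / (P : ℝ) ^ 2 + 2) ∧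
      ∀ p ∈ B, p ∉ N → ∀ m : ℤ, 1 / (L : ℝ) ≤ |(n : ℝ) / (p : ℝ) ^ 2 - m| ∧
        1 / (L : ℝ) ≤ |(k : ℝ) / (p : ℝ) ^ 2 - m| ∧
        1 / (L : ℝ) ≤ |(n : ℝ) / (p : ℝ) ^ 2 - (k : ℝ) / (p : ℝ) ^ 2 - m| := by
  have hL4 : (4 : ℝ) ≤ L := by exact_mod_cast hL
  have hL0 : (0 : ℝ) < L := by linarith
  have hη : 0 < 1 / (L : ℝ) := by positivity
  have hη4 : 1 / (L : ℝ) ≤ 1 / 4 := one_div_le_one_div_of_le (by norm_num) hL4
  have hP0 : (0 : ℝ) < P := by exact_mod_cast hP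
  let F : ℕ → Finset ℕ := fun z => (Ioc P (4 * P)).filter
      (fun p : ℕ => ∃ m : ℤ, |(z : ℝ) / (p : ℝ) ^ 2 - m| < 1 / (L : ℝ))
  have hF : ∀ z : ℕ, k ≤ z → z ≤ n →
      ((F z).card : ℝ) ≤ 768 * (1 / (L : ℝ)) * P + (n : ℝ) / (P : ℝ) ^ 2 + 2 := by
    intro z h1 h2
    have h4 := generic_two P z (1 / (L : ℝ)) hP hη hη4 (hk.trans h1)
    have h5 : (z : ℝ) / (P : ℝ) ^ 2 ≤ (n : ℝ) / (P : ℝ) ^ 2 :=
      div_le_div_of_nonneg_right (by exact_mod_cast h2) (by positivity)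
    linarith
  refine ⟨F n ∪ F k ∪ F (n - k), ?_, ?_⟩
  · have h1 : ((F n ∪ F k ∪ F (n - k)).card : ℝ) ≤
        ((F n).card : ℝ) + ((F k).card : ℝ) + ((F (n - k)).card : ℝ) := by
      have h2 := Finset.card_union_le (F n ∪ F k) (F (n - k))
      have h3 := Finset.card_union_le (F n) (F k)
      have h4 : (F n ∪ F k ∪ F (n - k)).card ≤ (F n).card + (F k).card + (F (n - k)).card := by
        omega
      exact_mod_cast h4
    have h2 := hF n (by omega) le_rfl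
    have h3 := hF k le_rfl (by omega)
    have h4 := hF (n - k) (by omega) (by omega)
    linarith
  · intro p hp hpN m
    rw [hB, Finset.mem_filter] at hp
    rw [Finset.mem_union, Finset.mem_union, not_or, not_or] at hpN
    obtain ⟨⟨h1, h2⟩, h3⟩ := hpN
    have hgen : ∀ z : ℕ, p ∉ F z → ∀ m : ℤ, 1 / (L : ℝ) ≤ |(z : ℝ) / (p : ℝ) ^ 2 - m| := by
      intro z hz m
      by_contra hcon
      push Not at hcon
      exact hz (Finset.mem_filter.2 ⟨hp.1, m, hcon⟩)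
    refine ⟨hgen n h1 m, hgen k h2 m, ?_⟩
    have h4 := hgen (n - k) h3 m
    rw [Nat.cast_sub (by omega), sub_div] at h4
    exact h4

theorem card_sdiff_real (C N : Finset ℕ) : (C.card : ℝ) - N.card ≤ ((C \ N).card : ℝ) := by
  have h := Finset.le_card_sdiff N C
  have h1 : C.card ≤ (C \ N).card + N.card := by omega
  have h2 : (C.card : ℝ) ≤ ((C \ N).card : ℝ) + N.card := by exact_mod_cast h1
  linarith

/-- TARGET 1 (range I): here `k < P^2 <= 4k` -/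
theorem range_one (P L1 L n k : ℕ) (B : Finset ℕ) (hB : B = (Ioc P (4 * P)).filter Nat.Prime)
    (hL1 : 1 ≤ L1) (hBL : (P : ℝ) ≤ L1 * B.card) (hL : 10 ^ 8 * L1 ≤ L) (hLP : L ^ 2 ≤ P)
    (hk1 : k < P ^ 2) (hk2 : P ^ 2 ≤ 4 * k) (hkn : 2 * k ≤ n) (hn : 2 * n ≤ P ^ 60)
    (hsq : Squarefree (n.choose k)) :
    (∃ l : ℤ, l ≠ 0 ∧ |l| ≤ 1024 ∧ (B.card : ℝ) / 10 ^ 4 ≤
      ‖∑ p ∈ B, e (((l : ℝ) / (p : ℝ) ^ 2) * n + 0 * k)‖) ∨ caseA1 B L n k := by
  by_cases hfirst : ∃ l : ℤ, l ≠ 0 ∧ |l| ≤ 1024 ∧ (B.card : ℝ) / 10 ^ 4 ≤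
      ‖∑ p ∈ B, e (((l : ℝ) / (p : ℝ) ^ 2) * n + 0 * k)‖
  · exact Or.inl hfirst
  right
  push Not at hfirst
  have hL1R : (1 : ℝ) ≤ L1 := by exact_mod_cast hL1
  have hLR : (10 : ℝ) ^ 8 * L1 ≤ L := by exact_mod_cast hL
  have hL8 : (10 : ℝ) ^ 8 ≤ L := by nlinarith
  have hL0 : (0 : ℝ) < L := by linarith
  have hLPR : (L : ℝ) ^ 2 ≤ P := by exact_mod_cast hLP
  have hP8 : (10 : ℝ) ^ 16 ≤ P := by nlinarith
  have hP0 : (0 : ℝ) < P := by linarith
  have hP2 : 2 ≤ P := by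
    have : (2 : ℝ) ≤ P := by linarith
    exact_mod_cast this
  have hk2R : (P : ℝ) ^ 2 ≤ 4 * k := by exact_mod_cast hk2
  -- size of B
  have hLB : (L : ℝ) * 10 ^ 8 ≤ B.card := by
    have h1 : (L : ℝ) * (10 ^ 8 * L1) ≤ L1 * B.card := by nlinarith
    have h2 : (L1 : ℝ) * (L * 10 ^ 8) ≤ L1 * B.card := by linarith
    exact le_of_mul_le_mul_left h2 (by linarith)
  have hB16 : (10 : ℝ) ^ 16 ≤ B.card := by nlinarith
  have hB0 : (0 : ℝ) < B.card := by linarith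
  have hPL : (1 / (L : ℝ)) * P ≤ B.card / 10 ^ 8 := by
    rw [one_div, inv_mul_le_iff₀ hL0, mul_div_assoc', le_div_iff₀ (by norm_num)]
    nlinarith
  obtain ⟨N, hNc, hN⟩ := nongen1 P L n k B hB hP2 (by exact_mod_cast hL0) (by
    have h1 : 4 * (1 / (L : ℝ)) * P ≤ 4 * P := by
      have : 1 / (L : ℝ) ≤ 1 := by
        rw [div_le_one hL0]; linarith
      nlinarith
    nlinarith) hkn hn
  have hNc' : (N.card : ℝ) ≤ B.card / 8000 := by
    have h1 : 180 * (8 * (1 / (L : ℝ)) * P + 1) ≤ 180 * (8 * (B.card / 10 ^ 8) + 1) := by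
      have : 8 * (1 / (L : ℝ)) * P = 8 * ((1 / (L : ℝ)) * P) := by ring
      rw [this]
      linarith
    linarith
  have hker := kernel_pos B 1 (fun _ p => (n : ℝ) / (p : ℝ) ^ 2) (fun _ => 1 / 128) 256
    (by norm_num) (1 / 10 ^ 4) (1 / 150) (by norm_num) (by norm_num) (by
      intro l hl hl2
      have hl0 : l 0 ≠ 0 := by
        intro h
        apply hl
        funext j
        have : j = 0 := Subsingleton.elim _ _
        rw [this, h]
        rfl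
      have h1 := hfirst (l 0) hl0 (by
        have := hl2 0
        exact_mod_cast this)
      have h2 : ∑ p ∈ B, e (∑ j : Fin 1, (l j : ℝ) * ((n : ℝ) / (p : ℝ) ^ 2)) =
          ∑ p ∈ B, e (((l 0 : ℝ) / (p : ℝ) ^ 2) * n + 0 * k) := by
        apply Finset.sum_congr rfl
        intro p _
        congr 1
        rw [Fin.sum_univ_one]
        ring
      rw [h2]
      refine h1.le.trans (le_of_eq ?_)
      ring)
  set G0 : Finset ℕ := B.filter (fun p : ℕ => ∀ j : Fin 1, ∃ m : ℤ,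
    |(n : ℝ) / (p : ℝ) ^ 2 - 1 / 128 - m| < 1 / 150) with hG0
  have hG0c : (B.card : ℝ) / 2000 ≤ G0.card := by
    refine le_trans ?_ hker
    have h1 : (1 : ℝ) / 2000 ≤ (1 / (4 * ((256 : ℕ) : ℝ))) ^ 1 - 1 / 10 ^ 4 -
        (1 / (2 * ((256 : ℕ) : ℝ) * (1 / 150))) ^ 8 := by norm_num
    have h2 := mul_le_mul_of_nonneg_right h1 hB0.le
    linarith
  let G : Finset ℕ := G0 \ N
  have hGc : (B.card : ℝ) / 4000 ≤ G.card := by
    have := card_sdiff_real G0 N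
    linarith
  have hGB : G ⊆ B := Finset.sdiff_subset.trans (Finset.filter_subset _ _)
  have hGne : G.Nonempty := by
    rw [← Finset.card_pos]
    have : (0 : ℝ) < G.card := by linarith
    exact_mod_cast this
  have hL20 : 2 ^ 20 ≤ L := by
    have : 10 ^ 8 * 1 ≤ L := (Nat.mul_le_mul_left _ hL1).trans hL
    omega
  rcases dichotomy L hL20 B G hGB hGne (by
      have h1 : (4000 : ℝ) ≤ L := by linarith
      have h2 : (4000 : ℝ) * (G.card : ℝ) ≤ L * G.card :=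
        mul_le_mul_of_nonneg_right h1 (Nat.cast_nonneg _)
      linarith) (fun p => (n : ℝ) / p) (fun p => (k : ℝ) / p)
      (fun p => (n : ℝ) / (p : ℝ) ^ 2) (fun p => (k : ℝ) / (p : ℝ) ^ 2)
      (by
        intro p hp m
        have hp' := Finset.mem_sdiff.1 hp
        exact hN p (hGB hp) hp'.2 m) with hA | hA
  · obtain ⟨a, b, hab, hdet, h1, h2⟩ := hA
    have heq : ∀ c : Fin 4 → ℤ, ∑ p ∈ B, e (c 0 * ((n : ℝ) / p) + c 1 * ((k : ℝ) / p) +
        c 2 * ((n : ℝ) / (p : ℝ) ^ 2) + c 3 * ((k : ℝ) / (p : ℝ) ^ 2)) =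
        ∑ p ∈ B, e (((c 0 : ℝ) / (p : ℝ) + (c 2 : ℝ) / (p : ℝ) ^ 2) * n
          + ((c 1 : ℝ) / (p : ℝ) + (c 3 : ℝ) / (p : ℝ) ^ 2) * k) := by
      intro c
      apply Finset.sum_congr rfl
      intro p _
      congr 1
      ring
    refine ⟨a, b, hab, hdet, ?_, ?_⟩
    · rw [← heq]; exact h1
    · rw [← heq]; exact h2
  · exfalso
    have hpos : (0 : ℝ) < (B.card : ℝ) / (L : ℝ) ^ 60 := by positivity
    have hpos2 := lt_of_lt_of_le hpos hA
    have hne : 0 < (B.filter (fun p : ℕ => Car ((n : ℝ) / p) ((k : ℝ) / p) (1 / (4 * L)) ∧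
        ∃ p0 ∈ G, near ((n : ℝ) / (p : ℝ) ^ 2) ((n : ℝ) / (p0 : ℝ) ^ 2) (1 / L) ∧
          near ((k : ℝ) / (p : ℝ) ^ 2) ((k : ℝ) / (p0 : ℝ) ^ 2) (1 / L))).card := by
      exact_mod_cast hpos2
    rw [Finset.card_pos] at hne
    obtain ⟨p, hp⟩ := hne
    rw [Finset.mem_filter] at hp
    obtain ⟨hpB, hcar, p0, hp0, hnear, -⟩ := hp
    rw [hB, Finset.mem_filter, Finset.mem_Ioc] at hpB
    obtain ⟨⟨hp1, hp2⟩, hpp⟩ := hpB
    have hc1 : n % p < k % p := carry_of_Car n k p hpp.pos (1 / (4 * L)) (by positivity) hcar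
    obtain ⟨m, hm⟩ := (Finset.mem_filter.1 (Finset.mem_sdiff.1 hp0).1).2 0
    obtain ⟨m', hm'⟩ := hnear
    have hLinv : 1 / (L : ℝ) ≤ 1 / 10 ^ 8 := one_div_le_one_div_of_le (by norm_num) hL8
    rw [abs_lt] at hm
    rw [abs_le] at hm'
    have hpR : (0 : ℝ) < (p : ℝ) := by exact_mod_cast hpp.pos
    have hp2R : (0 : ℝ) < (p : ℝ) ^ 2 := by positivity
    set M : ℤ := m + m' with hM
    have hMR : (M : ℝ) = m + m' := by rw [hM]; push_cast; ring
    have hlo : (0 : ℝ) < (n : ℝ) / (p : ℝ) ^ 2 - M := by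
      rw [hMR]
      have : (0 : ℝ) < 1 / 128 - 1 / 150 - 1 / 10 ^ 8 := by norm_num
      linarith [hm.1, hm'.1]
    have hhi : (n : ℝ) / (p : ℝ) ^ 2 - M < 1 / 64 := by
      rw [hMR]
      have : (1 : ℝ) / 128 + 1 / 150 + 1 / 10 ^ 8 < 1 / 64 := by norm_num
      linarith [hm.2, hm'.2]
    have hn0 : (0 : ℝ) ≤ (n : ℝ) / (p : ℝ) ^ 2 := by positivity
    have hM0 : 0 ≤ M := by
      have : (-1 : ℝ) < M := by linarith
      have h2 : (-1 : ℤ) < M := by exact_mod_cast this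
      omega
    obtain ⟨K, hK⟩ := Int.eq_ofNat_of_zero_le hM0
    have hKR : (M : ℝ) = (K : ℝ) := by rw [hK]; simp
    rw [hKR] at hlo hhi
    have hlo' : (K : ℝ) * (p : ℝ) ^ 2 < n := by
      have h1 : (K : ℝ) < (n : ℝ) / (p : ℝ) ^ 2 := by linarith
      rwa [lt_div_iff₀ hp2R] at h1
    have hhi' : 64 * (n : ℝ) < 64 * (K : ℝ) * (p : ℝ) ^ 2 + (p : ℝ) ^ 2 := by
      have h1 : (n : ℝ) / (p : ℝ) ^ 2 < K + 1 / 64 := by linarith
      rw [div_lt_iff₀ hp2R] at h1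
      linarith
    have hloN : K * p ^ 2 < n := by exact_mod_cast hlo'
    have hhiN : 64 * n < 64 * K * p ^ 2 + p ^ 2 := by exact_mod_cast hhi'
    obtain ⟨r, hr⟩ := Nat.exists_eq_add_of_lt hloN
    have hr2 : 64 * (r + 1) < p ^ 2 := by nlinarith
    have hmod : n % p ^ 2 = r + 1 := by
      have h1 : n = (r + 1) + p ^ 2 * K := by rw [hr]; ring
      rw [h1, Nat.add_mul_mod_self_left, Nat.mod_eq_of_lt (by omega)]
    have hkp : k < p ^ 2 := hk1.trans (Nat.pow_lt_pow_left hp1 (by norm_num))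
    have hp16 : p ^ 2 ≤ 16 * P ^ 2 := by
      calc p ^ 2 ≤ (4 * P) ^ 2 := Nat.pow_le_pow_left hp2 2
        _ = 16 * P ^ 2 := by ring
    have hc2 : n % p ^ 2 < k % p ^ 2 := by
      rw [hmod, Nat.mod_eq_of_lt hkp]
      omega
    have hdvd := two_carries n k p 1 2 hpp (by omega) le_rfl (by norm_num)
      (by simpa using hc1) hc2
    rw [Nat.squarefree_iff_prime_squarefree] at hsq
    exact hsq p hpp (by rw [← pow_two]; exact hdvd)

theorem Car_move {x y x0 y0 : ℝ} {La L : ℝ} (hLa : 0 < La) (hL : 16 * La ≤ L)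
    (h : Car x0 y0 (1 / (4 * La))) (hx : near x x0 (1 / L)) (hy : near y y0 (1 / L)) :
    Car x y (1 / (8 * La)) := by
  obtain ⟨a, b, h1, h2, h3⟩ := h
  obtain ⟨m, hm⟩ := hx
  obtain ⟨m', hm'⟩ := hy
  rw [abs_le] at hm hm'
  have hL0 : 0 < L := by linarith
  have hinv : 1 / L ≤ (1 / (8 * La)) / 2 := by
    rw [div_div]
    apply one_div_le_one_div_of_le (by positivity)
    linarith
  have hq : 1 / (4 * La) = 2 * (1 / (8 * La)) := by
    field_simp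
    norm_num
  have hg0 : 0 < 1 / (8 * La) := by positivity
  rw [hq] at h1 h2 h3
  set g := 1 / (8 * La)
  refine ⟨a + m, b + m', ?_, ?_, ?_⟩
  · push_cast
    linarith [hm.1]
  · push_cast
    linarith [hm.2, hm'.1]
  · push_cast
    linarith [hm'.2]

/-- TARGET 2 (range II): here `P^2 <= k` and `n` is much smaller than `P^3` -/
theorem range_two (P L1 La L n k : ℕ) (B : Finset ℕ)
    (hB : B = (Ioc P (4 * P)).filter Nat.Prime)
    (hL1 : 1 ≤ L1) (hBL : (P : ℝ) ≤ L1 * B.card) (hLa : 10 ^ 8 * L1 ≤ La)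
    (hL : La ^ 63 ≤ L) (hLP : L ^ 2 ≤ P)
    (hk : P ^ 2 ≤ k) (hkn : 2 * k ≤ n) (hn : 100 * L1 * n ≤ P ^ 3)
    (hsq : Squarefree (n.choose k)) :
    (∃ a b : Fin 2 → ℤ, (∀ j, |a j| ≤ (La : ℤ) ^ 20 ∧ |b j| ≤ (La : ℤ) ^ 20) ∧
      a 0 * b 1 - a 1 * b 0 ≠ 0 ∧
      (B.card : ℝ) / (La : ℝ) ^ 60 ≤
        ‖∑ p ∈ B, e (((a 0 : ℝ) / (p : ℝ) ^ 2) * n + ((a 1 : ℝ) / (p : ℝ) ^ 2) * k)‖ ∧
      (B.card : ℝ) / (La : ℝ) ^ 60 ≤
        ‖∑ p ∈ B, e (((b 0 : ℝ) / (p : ℝ) ^ 2) * n + ((b 1 : ℝ) / (p : ℝ) ^ 2) * k)‖) ∨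
    caseA1 B L n k := by
  have hL1R : (1 : ℝ) ≤ L1 := by exact_mod_cast hL1
  have hLaR : (10 : ℝ) ^ 8 * L1 ≤ La := by exact_mod_cast hLa
  have hLa8 : (10 : ℝ) ^ 8 ≤ La := by linarith
  have hLa0 : (0 : ℝ) < La := by linarith
  have hLa1 : (1 : ℝ) ≤ La := by linarith
  have hLR : (La : ℝ) ^ 63 ≤ L := by exact_mod_cast hL
  have hLa60 : (1 : ℝ) ≤ (La : ℝ) ^ 60 := one_le_pow₀ hLa1
  have hLa63 : (La : ℝ) ^ 60 * La ^ 3 ≤ L := by
    refine le_trans (le_of_eq ?_) hLR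
    rw [← pow_add]
  have hLa3 : (La : ℝ) ≤ La ^ 3 := by
    calc (La : ℝ) = La ^ 1 := (pow_one _).symm
      _ ≤ La ^ 3 := pow_le_pow_right₀ hLa1 (by norm_num)
  have hLaL3 : (La : ℝ) ^ 3 ≤ L := by
    calc (La : ℝ) ^ 3 ≤ (La : ℝ) ^ 60 * La ^ 3 := le_mul_of_one_le_left (by positivity) hLa60
      _ ≤ L := hLa63
  have hLLa : (La : ℝ) ≤ L := hLa3.trans hLaL3
  have h16 : 16 * (La : ℝ) ≤ L := by
    have h0 : (16 : ℝ) ≤ La ^ 2 := by
      calc (16 : ℝ) ≤ La := by linarith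
        _ = La ^ 1 := (pow_one _).symm
        _ ≤ La ^ 2 := pow_le_pow_right₀ hLa1 (by norm_num)
    have h1 : (16 : ℝ) * La ≤ La ^ 2 * La := mul_le_mul_of_nonneg_right h0 hLa0.le
    have h2 : (La : ℝ) ^ 2 * La = La ^ 3 := by ring
    linarith
  have hL0 : (0 : ℝ) < L := by linarith
  have hLPR : (L : ℝ) ^ 2 ≤ P := by exact_mod_cast hLP
  have hP16 : (10 : ℝ) ^ 16 ≤ P := by
    have h1 : (10 : ℝ) ^ 8 ≤ L := by linarith
    calc (10 : ℝ) ^ 16 = (10 ^ 8) ^ 2 := by norm_num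
      _ ≤ (L : ℝ) ^ 2 := pow_le_pow_left₀ (by norm_num) h1 2
      _ ≤ P := hLPR
  have hP0 : (0 : ℝ) < P := by linarith
  have hP2 : 2 ≤ P := by
    have : (2 : ℝ) ≤ P := by linarith
    exact_mod_cast this
  have hkR : (P : ℝ) ^ 2 ≤ k := by exact_mod_cast hk
  have hnR : 100 * (L1 : ℝ) * n ≤ (P : ℝ) ^ 3 := by exact_mod_cast hn
  have h4L : 4 * (1 / (L : ℝ)) * P < k := by
    have h1 : 1 / (L : ℝ) ≤ 1 := by
      rw [div_le_one hL0]; linarith
    have h2 : (1 / (L : ℝ)) * P ≤ 1 * P := mul_le_mul_of_nonneg_right h1 hP0.le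
    have h3 : 4 * (P : ℝ) < P * P := mul_lt_mul_of_pos_right (by linarith) hP0
    have h4 : (P : ℝ) * P = (P : ℝ) ^ 2 := by ring
    have h5 : 4 * (1 / (L : ℝ)) * P = 4 * ((1 / (L : ℝ)) * P) := by ring
    rw [h5]
    linarith
  have h2n : 2 * n ≤ P ^ 60 := by
    have h1 : 2 * n ≤ P ^ 3 := by
      calc 2 * n ≤ 100 * L1 * n := Nat.mul_le_mul_right n (by omega)
        _ ≤ P ^ 3 := hn
    exact h1.trans (Nat.pow_le_pow_right (by omega) (by norm_num))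
  -- size of B
  have hLB : (L : ℝ) * 10 ^ 8 ≤ B.card := by
    have h0 : (10 : ℝ) ^ 8 * L1 ≤ L := by linarith
    have h1 : (L : ℝ) * (10 ^ 8 * L1) ≤ L1 * B.card := by
      calc (L : ℝ) * (10 ^ 8 * L1) ≤ L * L := mul_le_mul_of_nonneg_left h0 hL0.le
        _ = (L : ℝ) ^ 2 := by ring
        _ ≤ P := hLPR
        _ ≤ L1 * B.card := hBL
    have h2 : (L1 : ℝ) * (L * 10 ^ 8) ≤ L1 * B.card := by linarith
    exact le_of_mul_le_mul_left h2 (by linarith)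
  have hB16 : (10 : ℝ) ^ 16 ≤ B.card := by
    have h1 : (10 : ℝ) ^ 8 ≤ L := by linarith
    linarith
  have hB0 : (0 : ℝ) < B.card := by linarith
  have hPLa : (1 / (La : ℝ)) * P ≤ B.card / 10 ^ 8 := by
    rw [one_div, inv_mul_le_iff₀ hLa0, mul_div_assoc', le_div_iff₀ (by norm_num)]
    calc (P : ℝ) * 10 ^ 8 ≤ (L1 * B.card) * 10 ^ 8 :=
          mul_le_mul_of_nonneg_right hBL (by norm_num)
      _ = (10 ^ 8 * L1) * B.card := by ring
      _ ≤ La * B.card := mul_le_mul_of_nonneg_right hLaR hB0.le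
  have hnP : (n : ℝ) / (P : ℝ) ^ 2 ≤ B.card / 100 := by
    rw [div_le_iff₀ (by positivity)]
    have h1 : (P : ℝ) ^ 3 ≤ L1 * B.card * (P : ℝ) ^ 2 := by
      calc (P : ℝ) ^ 3 = P * (P : ℝ) ^ 2 := by ring
        _ ≤ L1 * B.card * (P : ℝ) ^ 2 := mul_le_mul_of_nonneg_right hBL (by positivity)
    have h2 : (L1 : ℝ) * (100 * n) ≤ L1 * (B.card * (P : ℝ) ^ 2) := by linarith
    have h3 : 100 * (n : ℝ) ≤ B.card * (P : ℝ) ^ 2 := le_of_mul_le_mul_left h2 (by linarith)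
    linarith
  have hLa4 : 4 ≤ La := by
    have : (4 : ℝ) ≤ La := by linarith
    exact_mod_cast this
  obtain ⟨N2, hN2c, hN2⟩ := nongen2 P La n k B hB (by omega) hLa4 hk hkn
  have hN2c' : (N2.card : ℝ) ≤ B.card / 2 := by
    have h1 : 768 * (1 / (La : ℝ)) * P = 768 * ((1 / (La : ℝ)) * P) := by ring
    rw [h1] at hN2c
    linarith
  let G : Finset ℕ := B \ N2
  have hGc : (B.card : ℝ) / 2 ≤ G.card := by
    have := card_sdiff_real B N2
    linarith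
  have hGB : G ⊆ B := Finset.sdiff_subset
  have hGne : G.Nonempty := by
    rw [← Finset.card_pos]
    have : (0 : ℝ) < G.card := by linarith
    exact_mod_cast this
  have hLa20 : 2 ^ 20 ≤ La := by
    have : 10 ^ 8 * 1 ≤ La := (Nat.mul_le_mul_left _ hL1).trans hLa
    omega
  rcases dichotomy La hLa20 B G hGB hGne (by
      have h2 : (2 : ℝ) * (G.card : ℝ) ≤ La * G.card :=
        mul_le_mul_of_nonneg_right (by linarith) (Nat.cast_nonneg _)
      linarith) (fun p => (n : ℝ) / (p : ℝ) ^ 2) (fun p => (k : ℝ) / (p : ℝ) ^ 2)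
      (fun _ => 0) (fun _ => 0)
      (by
        intro p hp m
        have hp' := Finset.mem_sdiff.1 hp
        exact hN2 p (hGB hp) hp'.2 m) with hA | hA
  · left
    obtain ⟨a, b, hab, hdet, h1, h2⟩ := hA
    have heq : ∀ c : Fin 4 → ℤ, ∑ p ∈ B, e (c 0 * ((n : ℝ) / (p : ℝ) ^ 2) +
        c 1 * ((k : ℝ) / (p : ℝ) ^ 2) + c 2 * (0 : ℝ) + c 3 * (0 : ℝ)) =
        ∑ p ∈ B, e (((c 0 : ℝ) / (p : ℝ) ^ 2) * n + ((c 1 : ℝ) / (p : ℝ) ^ 2) * k) := by
      intro c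
      apply Finset.sum_congr rfl
      intro p _
      congr 1
      ring
    refine ⟨![a 0, a 1], ![b 0, b 1], ?_, ?_, ?_, ?_⟩
    · intro j
      fin_cases j
      · exact hab 0
      · exact hab 1
    · exact hdet
    · have h3 := h1
      rw [heq a] at h3
      exact h3
    · have h3 := h2
      rw [heq b] at h3
      exact h3
  · right
    let C : Finset ℕ := B.filter (fun p : ℕ =>
      Car ((n : ℝ) / (p : ℝ) ^ 2) ((k : ℝ) / (p : ℝ) ^ 2) (1 / (4 * La)))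
    have hCc : (B.card : ℝ) / (La : ℝ) ^ 60 ≤ C.card := by
      refine hA.trans ?_
      have : (B.filter (fun p : ℕ => Car ((n : ℝ) / (p : ℝ) ^ 2) ((k : ℝ) / (p : ℝ) ^ 2)
          (1 / (4 * La)) ∧ ∃ p0 ∈ G, near 0 0 (1 / La) ∧ near 0 0 (1 / La))).card ≤ C.card := by
        apply Finset.card_le_card
        intro p hp
        rw [Finset.mem_filter] at hp ⊢
        exact ⟨hp.1, hp.2.1⟩
      exact_mod_cast this
    have hPL : (1 / (L : ℝ)) * P ≤ (B.card / (La : ℝ) ^ 60) / 10 ^ 8 := by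
      rw [one_div, inv_mul_le_iff₀ hL0]
      have h1 : (P : ℝ) ≤ L1 * B.card := hBL
      have h2 : (L1 : ℝ) ≤ La ^ 3 / 10 ^ 8 := by
        rw [le_div_iff₀ (by norm_num)]
        linarith
      calc (P : ℝ) ≤ L1 * B.card := hBL
        _ ≤ (La ^ 3 / 10 ^ 8) * B.card := mul_le_mul_of_nonneg_right h2 hB0.le
        _ = ((La : ℝ) ^ 60 * La ^ 3) * ((B.card / (La : ℝ) ^ 60) / 10 ^ 8) := by
            field_simp
        _ ≤ L * ((B.card / (La : ℝ) ^ 60) / 10 ^ 8) :=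
            mul_le_mul_of_nonneg_right hLa63 (by positivity)
    have hBLa : (10 : ℝ) ^ 8 ≤ B.card / (La : ℝ) ^ 60 := by
      rw [le_div_iff₀ (by positivity)]
      have h1 : (La : ℝ) ^ 60 ≤ L := by
        have h2 : (La : ℝ) ^ 60 ≤ (La : ℝ) ^ 60 * (La : ℝ) ^ 3 :=
          le_mul_of_one_le_right (by positivity) (hLa1.trans hLa3)
        exact h2.trans hLa63
      linarith
    obtain ⟨N, hNc, hN⟩ := nongen1 P L n k B hB hP2 (by exact_mod_cast hL0) h4L hkn h2n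
    have hNc' : (N.card : ℝ) ≤ (B.card / (La : ℝ) ^ 60) / 2 := by
      have h1 : 8 * (1 / (L : ℝ)) * P = 8 * ((1 / (L : ℝ)) * P) := by ring
      rw [h1] at hNc
      linarith
    let G' : Finset ℕ := C \ N
    have hG'c : (B.card / (La : ℝ) ^ 60) / 2 ≤ G'.card := by
      have := card_sdiff_real C N
      linarith
    have hG'B : G' ⊆ B := Finset.sdiff_subset.trans (Finset.filter_subset _ _)
    have hG'ne : G'.Nonempty := by
      rw [← Finset.card_pos]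
      have : (0 : ℝ) < G'.card := by linarith
      exact_mod_cast this
    have hL20 : 2 ^ 20 ≤ L := by
      have h1 : La ≤ L := by exact_mod_cast hLLa
      omega
    rcases dichotomy L hL20 B G' hG'B hG'ne (by
        have h2 : (B.card : ℝ) ≤ (2 * (La : ℝ) ^ 60) * G'.card := by
          have h3 : (B.card : ℝ) = (2 * (La : ℝ) ^ 60) * ((B.card / (La : ℝ) ^ 60) / 2) := by
            field_simp
          rw [h3]
          exact mul_le_mul_of_nonneg_left hG'c (by positivity)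
        refine h2.trans (mul_le_mul_of_nonneg_right ?_ (Nat.cast_nonneg _))
        have h4 : (La : ℝ) ^ 60 * 2 ≤ (La : ℝ) ^ 60 * (La : ℝ) ^ 3 :=
          mul_le_mul_of_nonneg_left (by linarith) (by positivity)
        linarith) (fun p => (n : ℝ) / p) (fun p => (k : ℝ) / p)
        (fun p => (n : ℝ) / (p : ℝ) ^ 2) (fun p => (k : ℝ) / (p : ℝ) ^ 2)
        (by
          intro p hp m
          have hp' := Finset.mem_sdiff.1 hp
          exact hN p (hG'B hp) hp'.2 m) with hD | hD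
    · obtain ⟨a, b, hab, hdet, h1, h2⟩ := hD
      have heq : ∀ c : Fin 4 → ℤ, ∑ p ∈ B, e (c 0 * ((n : ℝ) / p) + c 1 * ((k : ℝ) / p) +
          c 2 * ((n : ℝ) / (p : ℝ) ^ 2) + c 3 * ((k : ℝ) / (p : ℝ) ^ 2)) =
          ∑ p ∈ B, e (((c 0 : ℝ) / (p : ℝ) + (c 2 : ℝ) / (p : ℝ) ^ 2) * n
            + ((c 1 : ℝ) / (p : ℝ) + (c 3 : ℝ) / (p : ℝ) ^ 2) * k) := by
        intro c
        apply Finset.sum_congr rfl
        intro p _
        congr 1
        ring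
      refine ⟨a, b, hab, hdet, ?_, ?_⟩
      · rw [← heq]; exact h1
      · rw [← heq]; exact h2
    · exfalso
      have hpos : (0 : ℝ) < (B.card : ℝ) / (L : ℝ) ^ 60 := by positivity
      have hpos2 := lt_of_lt_of_le hpos hD
      have hne : 0 < (B.filter (fun p : ℕ => Car ((n : ℝ) / p) ((k : ℝ) / p) (1 / (4 * L)) ∧
          ∃ p0 ∈ G', near ((n : ℝ) / (p : ℝ) ^ 2) ((n : ℝ) / (p0 : ℝ) ^ 2) (1 / L) ∧
            near ((k : ℝ) / (p : ℝ) ^ 2) ((k : ℝ) / (p0 : ℝ) ^ 2) (1 / L))).card := by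
        exact_mod_cast hpos2
      rw [Finset.card_pos] at hne
      obtain ⟨p, hp⟩ := hne
      rw [Finset.mem_filter] at hp
      obtain ⟨hpB, hcar, p0, hp0, hnear, hnear'⟩ := hp
      rw [hB, Finset.mem_filter, Finset.mem_Ioc] at hpB
      obtain ⟨⟨hp1, hp2⟩, hpp⟩ := hpB
      have hc1 : n % p < k % p := carry_of_Car n k p hpp.pos (1 / (4 * L)) (by positivity) hcar
      have hp0C := (Finset.mem_filter.1 (Finset.mem_sdiff.1 hp0).1).2
      have hcar2 := Car_move hLa0 h16 hp0C hnear hnear'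
      have hc2 : n % p ^ 2 < k % p ^ 2 := by
        apply carry_of_Car n k (p ^ 2) (pow_pos hpp.pos 2) (1 / (8 * La)) (by positivity)
        push_cast
        exact hcar2
      have hdvd := two_carries n k p 1 2 hpp (by omega) le_rfl (by norm_num)
        (by simpa using hc1) hc2
      rw [Nat.squarefree_iff_prime_squarefree] at hsq
      exact hsq p hpp (by rw [← pow_two]; exact hdvd)

end Pool.Agent.Helper530.Sq
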