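import Pool.Agent.Helper530.Sq.Base

namespace Pool.Agent.Helper530.Sq


open Finset

namespace RS

theorem carry {m n k : ℕ} (hkn : k ≤ n) (h : n % m < k % m) :
    m ≤ k % m + (n - k) % m := by
  by_contra hcon
  push Not at hcon
  have h1 : (k % m + (n - k) % m) % m = n % m := by
    rw [← Nat.add_mod, Nat.add_sub_cancel' hkn]
  rw [Nat.mod_eq_of_lt hcon] at h1
  omega

theorem not_sqfree {p n k : ℕ} (hp : p.Prime) (hk : k < p ^ 2) (h1 : n % p < k % p)
    (h2 : n % p ^ 2 < k) : ¬ Squarefree (n.choose k) := by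
  intro hsq
  rcases lt_or_ge n k with hnk | hkn
  · rw [Nat.choose_eq_zero_of_lt hnk] at hsq
    exact not_squarefree_zero hsq
  · have hne : n.choose k ≠ 0 := (Nat.choose_pos hkn).ne'
    have hfac := Nat.factorization_choose (p := p) hp hkn (lt_of_lt_of_le (Nat.lt_succ_self _)
      (le_max_left (Nat.log p n).succ 3))
    have hle : 2 ≤ (n.choose k).factorization p := by
      rw [hfac]
      have hsub : ({1, 2} : Finset ℕ) ⊆ {i ∈ Finset.Ico 1 (max (Nat.log p n).succ 3) |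
          p ^ i ≤ k % p ^ i + (n - k) % p ^ i} := by
        intro i hi
        rw [Finset.mem_insert, Finset.mem_singleton] at hi
        rw [Finset.mem_filter, Finset.mem_Ico]
        rcases hi with rfl | rfl
        · refine ⟨⟨le_refl _, by omega⟩, carry hkn ?_⟩
          simpa using h1
        · refine ⟨⟨by omega, by omega⟩, carry hkn ?_⟩
          rw [Nat.mod_eq_of_lt hk]
          exact h2
      have := Finset.card_le_card hsub
      simpa using this
    have hdvd : p ^ 2 ∣ n.choose k :=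
      (hp.pow_dvd_iff_le_factorization hne).2 hle
    have h3 := (Nat.squarefree_iff_prime_squarefree.1 hsq) p hp
    apply h3
    rw [← pow_two]
    exact hdvd

/-- the bad residues -/
def E (k p : ℕ) : Finset ℕ := (range (p ^ 2)).filter (fun r => r < k ∧ r % p < k % p)

theorem card_E {k p : ℕ} (hp : 0 < p) (hk : k < p ^ 2) : (k / p) * (k % p) ≤ (E k p).card := by
  have hinj : Set.InjOn (fun x : ℕ × ℕ => x.1 * p + x.2)
      ((range (k / p) ×ˢ range (k % p) : Finset (ℕ × ℕ)) : Set (ℕ × ℕ)) := by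
    rintro ⟨a, b⟩ h1 ⟨c, d⟩ h2 h
    simp only [Finset.coe_product, Set.mem_prod, Finset.coe_range, Set.mem_Iio] at h1 h2
    have hb : b < p := h1.2.trans (Nat.mod_lt _ hp)
    have hd : d < p := h2.2.trans (Nat.mod_lt _ hp)
    have h3 : a * p + b = c * p + d := h
    have h4 : (a * p + b) / p = a := by
      rw [Nat.add_comm, Nat.add_mul_div_right _ _ hp, Nat.div_eq_of_lt hb, zero_add]
    have h5 : (c * p + d) / p = c := by
      rw [Nat.add_comm, Nat.add_mul_div_right _ _ hp, Nat.div_eq_of_lt hd, zero_add]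
    have h6 : a = c := by rw [← h4, ← h5, h3]
    subst h6
    have : b = d := by omega
    rw [this]
  have h1 : ((range (k / p) ×ˢ range (k % p)).image (fun x : ℕ × ℕ => x.1 * p + x.2)).card =
      (k / p) * (k % p) := by
    rw [Finset.card_image_of_injOn hinj, Finset.card_product, card_range, card_range]
  rw [← h1]
  apply Finset.card_le_card
  intro r hr
  rw [Finset.mem_image] at hr
  obtain ⟨⟨a, b⟩, hab, rfl⟩ := hr
  rw [Finset.mem_product, mem_range, mem_range] at hab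
  obtain ⟨ha, hb⟩ := hab
  simp only at ha hb ⊢
  have hbp : b < p := hb.trans (Nat.mod_lt _ hp)
  have h2 : (a + 1) * p ≤ k := by
    calc (a + 1) * p ≤ (k / p) * p := Nat.mul_le_mul_right _ ha
      _ ≤ k := Nat.div_mul_le_self k p
  have h3 : a * p + b < k := by
    have : (a + 1) * p = a * p + p := by ring
    omega
  unfold E
  rw [Finset.mem_filter, mem_range]
  refine ⟨h3.trans hk, h3, ?_⟩
  rw [Nat.add_comm, Nat.add_mul_mod_self_right, Nat.mod_eq_of_lt hbp]
  exact hb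

theorem orth_period (m q : ℕ) (hm : 0 < m) (hq : 0 < q) (hc : Nat.Coprime m q) (g G : ℕ → ℝ)
    (hg : ∀ n, g (n % m) = g n) (hG : ∀ n, G (n % q) = G n) (h0 : ∑ r ∈ range m, g r = 0) :
    ∑ n ∈ range (m * q), g n * G n = 0 := by
  have hinj : Set.InjOn (fun n : ℕ => (n % m, n % q)) ((range (m * q) : Finset ℕ) : Set ℕ) := by
    intro a ha b hb hab
    rw [Finset.mem_coe, mem_range] at ha hb
    have h1 : a % m = b % m := congrArg Prod.fst hab
    have h2 : a % q = b % q := congrArg Prod.snd hab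
    have h3 : a ≡ b [MOD m * q] := (Nat.modEq_and_modEq_iff_modEq_mul hc).1 ⟨h1, h2⟩
    exact Nat.ModEq.eq_of_lt_of_lt h3 ha hb
  have himg : (range (m * q)).image (fun n : ℕ => (n % m, n % q)) = range m ×ˢ range q := by
    apply Finset.eq_of_subset_of_card_le
    · intro x hx
      rw [Finset.mem_image] at hx
      obtain ⟨n, -, rfl⟩ := hx
      rw [Finset.mem_product, mem_range, mem_range]
      exact ⟨Nat.mod_lt _ hm, Nat.mod_lt _ hq⟩
    · rw [Finset.card_image_of_injOn hinj, Finset.card_product, card_range, card_range, card_range]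
  have h1 : ∑ n ∈ range (m * q), g n * G n =
      ∑ x ∈ range m ×ˢ range q, g x.1 * G x.2 := by
    rw [← himg, Finset.sum_image hinj]
    apply Finset.sum_congr rfl
    intro n _
    simp only
    rw [hg, hG]
  rw [h1, Finset.sum_product]
  simp only
  simp_rw [← Finset.mul_sum]
  rw [← Finset.sum_mul, h0, zero_mul]

theorem periodic_bound (f : ℕ → ℝ) (N : ℕ) (hN : 0 < N) (hper : ∀ n, f (N + n) = f n)
    (h0 : ∑ n ∈ range N, f n = 0) (hb : ∀ n, |f n| ≤ 1) (M : ℕ) :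
    |∑ n ∈ range M, f n| ≤ N := by
  induction M using Nat.strong_induction_on with
  | _ M ih =>
    rcases le_or_gt M N with h | h
    · calc |∑ n ∈ range M, f n| ≤ ∑ n ∈ range M, |f n| := Finset.abs_sum_le_sum_abs _ _
        _ ≤ ∑ n ∈ range M, (1 : ℝ) := Finset.sum_le_sum fun n _ => hb n
        _ = M := by simp
        _ ≤ N := by exact_mod_cast h
    · obtain ⟨K, rfl⟩ := Nat.exists_eq_add_of_lt h
      have h1 : N + K + 1 = N + (K + 1) := by ring
      rw [h1, Finset.sum_range_add, h0, zero_add]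
      simp_rw [hper]
      exact ih (K + 1) (by omega)

theorem orth (m q : ℕ) (hm : 0 < m) (hq : 0 < q) (hc : Nat.Coprime m q) (g G : ℕ → ℝ)
    (hg : ∀ n, g (n % m) = g n) (hG : ∀ n, G (n % q) = G n) (h0 : ∑ r ∈ range m, g r = 0)
    (b1 : ∀ n, |g n| ≤ 1) (b2 : ∀ n, |G n| ≤ 1) (M : ℕ) :
    |∑ n ∈ range M, g n * G n| ≤ ((m * q : ℕ) : ℝ) := by
  apply periodic_bound (fun n => g n * G n) (m * q) (Nat.mul_pos hm hq)
  · intro n
    congr 1
    · rw [← hg, ← hg n, Nat.add_comm, Nat.add_mul_mod_self_left]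
    · rw [← hG, ← hG n, Nat.add_comm, Nat.add_mul_mod_self_right]
  · exact orth_period m q hm hq hc g G hg hG h0
  · intro n
    rw [abs_mul]
    exact mul_le_one₀ (b1 n) (abs_nonneg _) (b2 n)

theorem abs_prod_le_one {ι : Type} (s : Finset ι) (f : ι → ℝ) (h : ∀ i ∈ s, |f i| ≤ 1) :
    |∏ i ∈ s, f i| ≤ 1 := by
  rw [Finset.abs_prod]
  exact Finset.prod_le_one (fun i _ => abs_nonneg _) h

theorem main_bound (S : Fin 3 → Finset ℕ) (s W : ℕ) (hcard : ∀ l, (S l).card = s)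
    (hdisj : ∀ l l', l ≠ l' → Disjoint (S l) (S l')) (hprime : ∀ l, ∀ p ∈ S l, p.Prime)
    (hW : ∀ l, ∀ p ∈ S l, p ≤ W) (g : ℕ → ℕ → ℝ) (hper : ∀ p n, g p (n % p ^ 2) = g p n)
    (h0 : ∀ l, ∀ p ∈ S l, ∑ r ∈ range (p ^ 2), g p r = 0) (hb : ∀ p n, |g p n| ≤ 1) (M : ℕ) :
    ∑ n ∈ range M, (∏ l, ∑ p ∈ S l, g p n) ^ 2 ≤
      (s : ℝ) ^ 3 * M + (s : ℝ) ^ 6 * (W : ℝ) ^ 12 := by
  classical
  let idx : Fin 6 → Fin 3 := ![0, 0, 1, 1, 2, 2]
  let T : Fin 6 → Finset ℕ := fun i => S (idx i)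
  have e1 : ∀ n, (∏ l, ∑ p ∈ S l, g p n) ^ 2 = ∑ x ∈ Fintype.piFinset T, ∏ i, g (x i) n := by
    intro n
    rw [← Finset.prod_univ_sum (t := T) (f := fun _ p => g p n)]
    simp only [Fin.prod_univ_succ, Fin.prod_univ_zero, T, idx]
    simp
    ring
  have e2 : ∑ n ∈ range M, (∏ l, ∑ p ∈ S l, g p n) ^ 2 =
      ∑ x ∈ Fintype.piFinset T, ∑ n ∈ range M, ∏ i, g (x i) n := by
    rw [Finset.sum_comm]
    exact Finset.sum_congr rfl fun n _ => e1 n
  rw [e2]
  let D : Finset (Fin 6 → ℕ) := (Fintype.piFinset T).filter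
    (fun x => x 0 = x 1 ∧ x 2 = x 3 ∧ x 4 = x 5)
  have horth : ∀ x ∈ Fintype.piFinset T, ∀ j : Fin 6, (∀ i, i ≠ j → x i ≠ x j) →
      |∑ n ∈ range M, ∏ i, g (x i) n| ≤ (W : ℝ) ^ 12 := by
    intro x hx j hj
    rw [Fintype.mem_piFinset] at hx
    have hxp : ∀ i, (x i).Prime := fun i => hprime _ _ (hx i)
    have h1 : ∀ n, ∏ i, g (x i) n = g (x j) n * ∏ i ∈ univ.erase j, g (x i) n := fun n =>
      (Finset.mul_prod_erase univ (fun i => g (x i) n) (Finset.mem_univ j)).symm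
    simp_rw [h1]
    refine (orth (x j ^ 2) (∏ i ∈ univ.erase j, x i ^ 2) (pow_pos (hxp j).pos _)
      (Finset.prod_pos fun i _ => pow_pos (hxp i).pos _) ?_ (g (x j))
      (fun n => ∏ i ∈ univ.erase j, g (x i) n) (hper (x j)) ?_ (h0 _ _ (hx j)) (hb (x j)) ?_
      M).trans ?_
    · apply Nat.Coprime.prod_right
      intro i hi
      apply Nat.Coprime.pow
      rw [Nat.coprime_primes (hxp j) (hxp i)]
      exact (hj i (Finset.ne_of_mem_erase hi)).symm
    · intro n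
      apply Finset.prod_congr rfl
      intro i hi
      rw [← hper, Nat.mod_mod_of_dvd _ (Finset.dvd_prod_of_mem _ hi), hper]
    · intro n
      exact abs_prod_le_one _ _ fun i _ => hb _ _
    · rw [Finset.mul_prod_erase univ (fun i => x i ^ 2) (Finset.mem_univ j)]
      have h2 : ∏ i, x i ^ 2 ≤ ∏ _i : Fin 6, W ^ 2 :=
        Finset.prod_le_prod' fun i _ => Nat.pow_le_pow_left (hW _ _ (hx i)) 2
      have h3 : ∏ _i : Fin 6, W ^ 2 = W ^ 12 := by
        rw [Finset.prod_const, Finset.card_univ, Fintype.card_fin, ← pow_mul]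
      rw [h3] at h2
      exact_mod_cast h2
  have hne : ∀ x ∈ Fintype.piFinset T, ∀ i j, idx i ≠ idx j → x i ≠ x j := by
    intro x hx i j hij h
    rw [Fintype.mem_piFinset] at hx
    have h1 := hx i
    have h2 := hx j
    rw [h] at h1
    exact Finset.disjoint_left.1 (hdisj _ _ hij) h1 h2
  have hbd : ∀ x ∈ Fintype.piFinset T, ∑ n ∈ range M, ∏ i, g (x i) n ≤
      (if (x 0 = x 1 ∧ x 2 = x 3 ∧ x 4 = x 5) then (M : ℝ) else 0) + (W : ℝ) ^ 12 := by
    intro x hx
    by_cases hd : x 0 = x 1 ∧ x 2 = x 3 ∧ x 4 = x 5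
    · rw [if_pos hd]
      have h1 : ∑ n ∈ range M, ∏ i, g (x i) n ≤ M := by
        calc ∑ n ∈ range M, ∏ i, g (x i) n ≤ ∑ n ∈ range M, (1 : ℝ) :=
              Finset.sum_le_sum fun n _ => (le_abs_self _).trans
                (abs_prod_le_one _ _ fun i _ => hb _ _)
          _ = M := by simp
      have h2 : (0 : ℝ) ≤ (W : ℝ) ^ 12 := by positivity
      linarith
    · rw [if_neg hd, zero_add]
      refine (le_abs_self _).trans ?_
      by_cases h01 : x 0 = x 1
      · by_cases h23 : x 2 = x 3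
        · have h45 : x 4 ≠ x 5 := fun h => hd ⟨h01, h23, h⟩
          apply horth x hx 4
          intro i hi
          by_cases h5 : i = 5
          · rw [h5]; exact h45.symm
          · apply hne x hx
            revert hi h5
            fin_cases i <;> simp [idx]
        · apply horth x hx 2
          intro i hi
          by_cases h5 : i = 3
          · rw [h5]; exact fun h => h23 h.symm
          · apply hne x hx
            revert hi h5
            fin_cases i <;> simp [idx]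
      · apply horth x hx 0
        intro i hi
        by_cases h5 : i = 1
        · rw [h5]; exact fun h => h01 h.symm
        · apply hne x hx
          revert hi h5
          fin_cases i <;> simp [idx]
  refine (Finset.sum_le_sum hbd).trans ?_
  rw [Finset.sum_add_distrib, Finset.sum_const, ← Finset.sum_filter, Finset.sum_const,
    nsmul_eq_mul, nsmul_eq_mul]
  have c1 : (Fintype.piFinset T).card = s ^ 6 := by
    rw [Fintype.card_piFinset]
    simp only [T, hcard]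
    rw [Finset.prod_const, Finset.card_univ, Fintype.card_fin]
  have c2 : D.card ≤ s ^ 3 := by
    have h1 : (Fintype.piFinset S).card = s ^ 3 := by
      rw [Fintype.card_piFinset]
      simp only [hcard]
      rw [Finset.prod_const, Finset.card_univ, Fintype.card_fin]
    rw [← h1]
    apply Finset.card_le_card_of_injOn (fun x : Fin 6 → ℕ => ![x 0, x 2, x 4])
    · intro x hx
      have hx' := Finset.mem_filter.1 (Finset.mem_coe.1 hx)
      have hx'' := Fintype.mem_piFinset.1 hx'.1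
      rw [Finset.mem_coe, Fintype.mem_piFinset]
      intro l
      fin_cases l
      · exact hx'' 0
      · exact hx'' 2
      · exact hx'' 4
    · intro x hx y hy hxy
      have hx' := (Finset.mem_filter.1 (Finset.mem_coe.1 hx)).2
      have hy' := (Finset.mem_filter.1 (Finset.mem_coe.1 hy)).2
      have h00 : x 0 = y 0 := congrFun hxy 0
      have h22 : x 2 = y 2 := congrFun hxy 1
      have h44 : x 4 = y 4 := congrFun hxy 2
      funext i
      fin_cases i
      · exact h00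
      · show x 1 = y 1
        rw [← hx'.1, ← hy'.1, h00]
      · exact h22
      · show x 3 = y 3
        rw [← hx'.2.1, ← hy'.2.1, h22]
      · exact h44
      · show x 5 = y 5
        rw [← hx'.2.2, ← hy'.2.2, h44]
  have c2' : (D.card : ℝ) ≤ (s : ℝ) ^ 3 := by exact_mod_cast c2
  have c1' : ((Fintype.piFinset T).card : ℝ) = (s : ℝ) ^ 6 := by exact_mod_cast c1
  rw [c1']
  have hM : (0 : ℝ) ≤ M := Nat.cast_nonneg _
  have := mul_le_mul_of_nonneg_right c2' hM
  exact add_le_add this le_rfl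

theorem exists_three (B : Finset ℕ) (s : ℕ) (h : 3 * s ≤ B.card) :
    ∃ S : Fin 3 → Finset ℕ, (∀ l, S l ⊆ B) ∧ (∀ l, (S l).card = s) ∧
      (∀ l l', l ≠ l' → Disjoint (S l) (S l')) := by
  classical
  obtain ⟨S0, h0, c0⟩ := Finset.exists_subset_card_eq (show s ≤ B.card by omega)
  have hc1 : (B \ S0).card = B.card - s := by rw [Finset.card_sdiff_of_subset h0, c0]
  obtain ⟨S1, h1, c1⟩ := Finset.exists_subset_card_eq (show s ≤ (B \ S0).card by omega)
  have hc2 : ((B \ S0) \ S1).card = (B \ S0).card - s := by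
    rw [Finset.card_sdiff_of_subset h1, c1]
  obtain ⟨S2, h2, c2⟩ := Finset.exists_subset_card_eq (show s ≤ ((B \ S0) \ S1).card by omega)
  have d01 : Disjoint S0 S1 := (Finset.disjoint_sdiff (s := S0) (t := B)).mono_right h1
  have d12 : Disjoint S1 S2 := (Finset.disjoint_sdiff (s := S1) (t := B \ S0)).mono_right h2
  have d02 : Disjoint S0 S2 := (Finset.disjoint_sdiff (s := S0) (t := B)).mono_right
    (h2.trans Finset.sdiff_subset)
  refine ⟨![S0, S1, S2], ?_, ?_, ?_⟩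
  · intro l
    fin_cases l
    · exact h0
    · exact h1.trans Finset.sdiff_subset
    · exact (h2.trans Finset.sdiff_subset).trans Finset.sdiff_subset
  · intro l
    fin_cases l
    · exact c0
    · exact c1
    · exact c2
  · intro l l' hll
    fin_cases l <;> fin_cases l'
    · exact absurd rfl hll
    · exact d01
    · exact d02
    · exact d01.symm
    · exact absurd rfl hll
    · exact d12
    · exact d02.symm
    · exact d12.symm
    · exact absurd rfl hll

/-- the balanced indicator function -/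
noncomputable def gg (k p n : ℕ) : ℝ :=
  (if n % p ^ 2 ∈ E k p then 1 else 0) - ((E k p).card : ℝ) / ((p ^ 2 : ℕ) : ℝ)

theorem card_E_le (k p : ℕ) : (E k p).card ≤ p ^ 2 := by
  unfold E
  exact (Finset.card_filter_le _ _).trans (by rw [card_range])

theorem ratio_nonneg (k p : ℕ) : 0 ≤ ((E k p).card : ℝ) / ((p ^ 2 : ℕ) : ℝ) := by positivity

theorem ratio_le_one (k p : ℕ) : ((E k p).card : ℝ) / ((p ^ 2 : ℕ) : ℝ) ≤ 1 := by
  apply div_le_one_of_le₀
  · exact_mod_cast card_E_le k p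
  · positivity

theorem gg_abs (k p n : ℕ) : |gg k p n| ≤ 1 := by
  unfold gg
  have h1 := ratio_nonneg k p
  have h2 := ratio_le_one k p
  rw [abs_le]
  split_ifs <;> constructor <;> linarith

theorem gg_per (k p n : ℕ) : gg k p (n % p ^ 2) = gg k p n := by
  unfold gg
  rw [Nat.mod_mod]

theorem gg_mean (k p : ℕ) (hp : 0 < p) : ∑ r ∈ range (p ^ 2), gg k p r = 0 := by
  unfold gg
  rw [Finset.sum_sub_distrib, Finset.sum_const, card_range, nsmul_eq_mul]
  have h1 : ∑ r ∈ range (p ^ 2), (if r % p ^ 2 ∈ E k p then (1 : ℝ) else 0) =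
      ((E k p).card : ℝ) := by
    have h2 : ∑ r ∈ range (p ^ 2), (if r % p ^ 2 ∈ E k p then (1 : ℝ) else 0) =
        ∑ r ∈ range (p ^ 2), (if r ∈ E k p then (1 : ℝ) else 0) := by
      apply Finset.sum_congr rfl
      intro r hr
      rw [Nat.mod_eq_of_lt (mem_range.1 hr)]
    rw [h2, ← Finset.sum_filter, Finset.sum_const, nsmul_eq_mul, mul_one]
    congr 2
    ext r
    rw [Finset.mem_filter]
    constructor
    · exact fun h => h.2
    · intro h
      refine ⟨?_, h⟩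
      unfold E at h
      exact (Finset.mem_filter.1 h).1
  rw [h1]
  have h3 : ((p ^ 2 : ℕ) : ℝ) ≠ 0 := by positivity
  rw [mul_div_cancel₀ _ h3, sub_self]

theorem key (k P M : ℕ) (L : ℝ) (hk1 : (P - 1) ^ 2 ≤ k) (hk2 : k < P ^ 2) (hP : 7 ≤ P)
    (hL : 1 ≤ L) (hPL : 12 * L ≤ P)
    (hB : (P : ℝ) / L ≤ (((Ioc P (4 * P)).filter Nat.Prime).card : ℝ)) :
    ((((range M).filter (fun n => Squarefree (n.choose k))).card : ℕ) : ℝ) ≤
      (M : ℝ) * ((12 * L / P) ^ 3 * (2048 * L) ^ 6) + (4 * P : ℝ) ^ 12 * (2048 * L) ^ 6 := by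
  classical
  set B := (Ioc P (4 * P)).filter Nat.Prime with hBdef
  have hL0 : 0 < L := by linarith
  have hP0 : (0 : ℝ) < P := by
    have : 0 < P := by omega
    exact_mod_cast this
  let Bg := B.filter (fun p => (P : ℝ) / (4 * L) ≤ ((k % p : ℕ) : ℝ))
  let Bb := B.filter (fun p => ¬ ((P : ℝ) / (4 * L) ≤ ((k % p : ℕ) : ℝ)))
  have hBmem : ∀ p ∈ B, p.Prime ∧ P < p ∧ p ≤ 4 * P := by
    intro p hp
    rw [hBdef, Finset.mem_filter, Finset.mem_Ioc] at hp
    exact ⟨hp.2, hp.1.1, hp.1.2⟩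
  have hsplit : Bg.card + Bb.card = B.card := Finset.card_filter_add_card_filter_not _
  obtain ⟨P', rfl⟩ : ∃ P', P = P' + 1 := ⟨P - 1, by omega⟩
  have hkP : P' ^ 2 ≤ k := by simpa using hk1
  have hk4 : 4 * (P' + 1) < k + 1 := by nlinarith
  have hbad : Bb.card ≤ ⌈((P' + 1 : ℕ) : ℝ) / (4 * L)⌉₊ := by
    rw [← card_range ⌈((P' + 1 : ℕ) : ℝ) / (4 * L)⌉₊]
    apply Finset.card_le_card_of_injOn (fun p => k % p)
    · intro p hp
      have h1 := (Finset.mem_filter.1 (Finset.mem_coe.1 hp)).2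
      rw [not_le] at h1
      rw [Finset.mem_coe, mem_range]
      exact Nat.lt_ceil.2 h1
    · intro p hp q hq hpq
      have hpB := hBmem p (Finset.mem_filter.1 (Finset.mem_coe.1 hp)).1
      have hqB := hBmem q (Finset.mem_filter.1 (Finset.mem_coe.1 hq)).1
      by_contra hne
      have hpq' : k % p = k % q := hpq
      have h1 : p ∣ k - k % p := Nat.dvd_sub_mod k
      have h2 : q ∣ k - k % p := by rw [hpq']; exact Nat.dvd_sub_mod k
      have h3 : p * q ∣ k - k % p :=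
        ((Nat.coprime_primes hpB.1 hqB.1).2 hne).mul_dvd_of_dvd_of_dvd h1 h2
      have h4 : k % p < p := Nat.mod_lt _ hpB.1.pos
      have h5 : 0 < k - k % p := by omega
      have h6 := Nat.le_of_dvd h5 h3
      have h7 : (P' + 1) * (P' + 1) < p * q := Nat.mul_lt_mul'' hpB.2.1 hqB.2.1
      have h8 : (P' + 1) ^ 2 = (P' + 1) * (P' + 1) := by ring
      omega
  have hbad' : (Bb.card : ℝ) ≤ ((P' + 1 : ℕ) : ℝ) / (4 * L) + 1 := by
    have h1 : (Bb.card : ℝ) ≤ (⌈((P' + 1 : ℕ) : ℝ) / (4 * L)⌉₊ : ℝ) := by exact_mod_cast hbad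
    exact h1.trans (Nat.ceil_lt_add_one (by positivity)).le
  set X : ℝ := ((P' + 1 : ℕ) : ℝ) / L with hX
  have hX12 : 12 ≤ X := by rw [hX, le_div_iff₀ hL0]; exact hPL
  have hX4 : ((P' + 1 : ℕ) : ℝ) / (4 * L) = X / 4 := by rw [hX]; field_simp
  rw [hX4] at hbad'
  have hgood : X / 2 ≤ (Bg.card : ℝ) := by
    have h1 : (Bg.card : ℝ) + (Bb.card : ℝ) = (B.card : ℝ) := by exact_mod_cast hsplit
    linarith
  let s := Bg.card / 3
  have hs1 : 3 * s ≤ Bg.card := Nat.mul_div_le _ _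
  have hs2 : X / 12 ≤ (s : ℝ) := by
    have h1 : Bg.card < 3 * s + 3 := by
      have := Nat.div_add_mod Bg.card 3
      have := Nat.mod_lt Bg.card (show 0 < 3 by norm_num)
      omega
    have h2 : (Bg.card : ℝ) < 3 * (s : ℝ) + 3 := by exact_mod_cast h1
    linarith
  obtain ⟨S, hSB, hScard, hSdisj⟩ := exists_three Bg s hs1
  have hSmem : ∀ l, ∀ p ∈ S l, p.Prime ∧ P' + 1 < p ∧ p ≤ 4 * (P' + 1) := fun l p hp =>
    hBmem p (Finset.mem_filter.1 (hSB l hp)).1
  have hmain := main_bound S s (4 * (P' + 1)) hScard hSdisj (fun l p hp => (hSmem l p hp).1)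
    (fun l p hp => (hSmem l p hp).2.2) (gg k) (gg_per k)
    (fun l p hp => gg_mean k p (hSmem l p hp).1.pos) (gg_abs k) M
  -- lower bound of the ratio
  have hratio : ∀ l, ∀ p ∈ S l, 1 / (2048 * L) ≤ ((E k p).card : ℝ) / ((p ^ 2 : ℕ) : ℝ) := by
    intro l p hp
    obtain ⟨hpp, hp1, hp2⟩ := hSmem l p hp
    have hgp := (Finset.mem_filter.1 (hSB l hp)).2
    have hpk : k < p ^ 2 := hk2.trans (Nat.pow_lt_pow_left hp1 (by norm_num))
    have h1 := card_E hpp.pos hpk
    have h1' : ((k / p : ℕ) : ℝ) * ((k % p : ℕ) : ℝ) ≤ ((E k p).card : ℝ) := by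
      exact_mod_cast h1
    have hp0 : (0 : ℝ) < p := by exact_mod_cast hpp.pos
    have h2 : ((P' + 1 : ℕ) : ℝ) / 32 ≤ ((k / p : ℕ) : ℝ) := by
      have h3 : k < p * (k / p + 1) := Nat.lt_mul_div_succ k hpp.pos
      have h4 : (k : ℝ) < p * (((k / p : ℕ) : ℝ) + 1) := by exact_mod_cast h3
      have h5 : ((P' : ℝ)) ^ 2 ≤ k := by exact_mod_cast hkP
      have h6 : (p : ℝ) ≤ 4 * ((P' : ℝ) + 1) := by exact_mod_cast hp2
      have h7 : (6 : ℝ) ≤ P' := by
        have : 6 ≤ P' := by omega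
        exact_mod_cast this
      push_cast
      by_contra hcon
      push Not at hcon
      have h8 : (0 : ℝ) ≤ ((k / p : ℕ) : ℝ) := Nat.cast_nonneg _
      have h9 : (p : ℝ) * (((k / p : ℕ) : ℝ) + 1) ≤
          (4 * ((P' : ℝ) + 1)) * (((P' : ℝ) + 1) / 32 + 1) := by
        apply mul_le_mul h6 (by linarith) (by positivity) (by positivity)
      nlinarith
    rw [hX4] at hgp
    have h3 : ((P' + 1 : ℕ) : ℝ) / 32 * (X / 4) ≤ ((E k p).card : ℝ) := by
      refine le_trans ?_ h1'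
      apply mul_le_mul h2 hgp (by positivity) (Nat.cast_nonneg _)
    have h4 : ((p ^ 2 : ℕ) : ℝ) ≤ 16 * ((P' + 1 : ℕ) : ℝ) ^ 2 := by
      have h5 : p ^ 2 ≤ (4 * (P' + 1)) ^ 2 := Nat.pow_le_pow_left hp2 2
      have h6 : ((p ^ 2 : ℕ) : ℝ) ≤ (((4 * (P' + 1)) ^ 2 : ℕ) : ℝ) := by exact_mod_cast h5
      refine h6.trans (le_of_eq ?_)
      push_cast
      ring
    have h5 : (0 : ℝ) < ((p ^ 2 : ℕ) : ℝ) := by
      have : 0 < p ^ 2 := pow_pos hpp.pos 2
      exact_mod_cast this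
    rw [div_le_div_iff₀ (by positivity) h5, one_mul]
    calc ((p ^ 2 : ℕ) : ℝ) ≤ 16 * ((P' + 1 : ℕ) : ℝ) ^ 2 := h4
      _ = ((P' + 1 : ℕ) : ℝ) / 32 * (X / 4) * (2048 * L) := by
          rw [hX]
          field_simp
          ring
      _ ≤ ((E k p).card : ℝ) * (2048 * L) :=
          mul_le_mul_of_nonneg_right h3 (by positivity)
  set h : ℝ := 1 / (2048 * L) with hh
  have hh0 : 0 < h := by positivity
  set sf := (range M).filter (fun n => Squarefree (n.choose k)) with hsf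
  have hlow : ∀ n ∈ sf, ((s : ℝ) * h) ^ 6 ≤ (∏ l, ∑ p ∈ S l, gg k p n) ^ 2 := by
    intro n hn
    have hsq := (Finset.mem_filter.1 hn).2
    have h1 : ∀ l, (s : ℝ) * h ≤ -∑ p ∈ S l, gg k p n := by
      intro l
      rw [← Finset.sum_neg_distrib]
      calc (s : ℝ) * h = ∑ p ∈ S l, h := by
            rw [Finset.sum_const, hScard, nsmul_eq_mul]
        _ ≤ ∑ p ∈ S l, -gg k p n := by
            apply Finset.sum_le_sum
            intro p hp
            obtain ⟨hpp, hp1, hp2⟩ := hSmem l p hp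
            have hpk : k < p ^ 2 := hk2.trans (Nat.pow_lt_pow_left hp1 (by norm_num))
            have h2 : n % p ^ 2 ∉ E k p := by
              intro hE
              unfold E at hE
              rw [Finset.mem_filter] at hE
              obtain ⟨-, hE1, hE2⟩ := hE
              rw [Nat.mod_mod_of_dvd _ (Dvd.intro_left (p ^ 1) (by ring))] at hE2
              exact not_sqfree hpp hpk hE2 hE1 hsq
            unfold gg
            rw [if_neg h2]
            have := hratio l p hp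
            linarith
    have h2 : (∏ l, ∑ p ∈ S l, gg k p n) ^ 2 = ∏ l, (∑ p ∈ S l, gg k p n) ^ 2 := by
      rw [Finset.prod_pow]
    have h3 : ((s : ℝ) * h) ^ 6 = ∏ _l : Fin 3, ((s : ℝ) * h) ^ 2 := by
      rw [Finset.prod_const, Finset.card_univ, Fintype.card_fin, ← pow_mul]
    rw [h2, h3]
    apply Finset.prod_le_prod
    · intro l _
      positivity
    · intro l _
      have h4 := h1 l
      have h5 : 0 ≤ (s : ℝ) * h := by positivity
      rw [← neg_sq (∑ p ∈ S l, gg k p n)]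
      exact pow_le_pow_left₀ h5 h4 2
  have hsum : (sf.card : ℝ) * ((s : ℝ) * h) ^ 6 ≤
      (s : ℝ) ^ 3 * M + (s : ℝ) ^ 6 * ((4 * (P' + 1) : ℕ) : ℝ) ^ 12 := by
    refine le_trans ?_ hmain
    calc (sf.card : ℝ) * ((s : ℝ) * h) ^ 6 = ∑ n ∈ sf, ((s : ℝ) * h) ^ 6 := by
          rw [Finset.sum_const, nsmul_eq_mul]
      _ ≤ ∑ n ∈ sf, (∏ l, ∑ p ∈ S l, gg k p n) ^ 2 := Finset.sum_le_sum hlow
      _ ≤ ∑ n ∈ range M, (∏ l, ∑ p ∈ S l, gg k p n) ^ 2 := by
          apply Finset.sum_le_sum_of_subset_of_nonneg (Finset.filter_subset _ _)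
          intro n _ _
          positivity
  have hs0 : 0 < (s : ℝ) := by linarith
  have h1 : (sf.card : ℝ) ≤ M / ((s : ℝ) ^ 3 * h ^ 6) + ((4 * (P' + 1) : ℕ) : ℝ) ^ 12 / h ^ 6 := by
    have h2 : (sf.card : ℝ) ≤ ((s : ℝ) ^ 3 * M + (s : ℝ) ^ 6 * ((4 * (P' + 1) : ℕ) : ℝ) ^ 12) /
        ((s : ℝ) * h) ^ 6 := by
      rw [le_div_iff₀ (by positivity)]
      exact hsum
    refine h2.trans (le_of_eq ?_)
    field_simp
  refine h1.trans ?_
  have hinv : 1 / h = 2048 * L := by rw [hh]; field_simp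
  have h2 : ((4 * (P' + 1) : ℕ) : ℝ) ^ 12 / h ^ 6 =
      (4 * ((P' + 1 : ℕ) : ℝ)) ^ 12 * (2048 * L) ^ 6 := by
    rw [← hinv]
    push_cast
    field_simp
  have h3 : (M : ℝ) / ((s : ℝ) ^ 3 * h ^ 6) ≤
      M * ((12 * L / ((P' + 1 : ℕ) : ℝ)) ^ 3 * (2048 * L) ^ 6) := by
    have h4 : (M : ℝ) / ((s : ℝ) ^ 3 * h ^ 6) = M * ((1 / (s : ℝ)) ^ 3 * (1 / h) ^ 6) := by
      field_simp
    rw [h4, hinv]
    apply mul_le_mul_of_nonneg_left _ (Nat.cast_nonneg _)
    apply mul_le_mul_of_nonneg_right _ (by positivity)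
    apply pow_le_pow_left₀ (by positivity)
    have h5 : 12 * L / ((P' + 1 : ℕ) : ℝ) = 1 / (X / 12) := by
      rw [hX]
      field_simp
    rw [h5]
    apply one_div_le_one_div_of_le (by positivity) hs2
  rw [h2]
  exact add_le_add h3 le_rfl

theorem log_pow_bound (x : ℝ) (hx : 0 < x) (hl : 0 ≤ Real.log (4 * x)) :
    Real.log (4 * x) ^ 9 ≤ (18 ^ 9 * 2) * x ^ (1 / 2 : ℝ) := by
  have h1 : Real.log (4 * x) ≤ (4 * x) ^ (1 / 18 : ℝ) / (1 / 18) :=
    Real.log_le_rpow_div (by positivity) (by norm_num)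
  have h2 : Real.log (4 * x) ^ 9 ≤ ((4 * x) ^ (1 / 18 : ℝ) / (1 / 18)) ^ 9 :=
    pow_le_pow_left₀ hl h1 9
  refine h2.trans (le_of_eq ?_)
  rw [div_pow, ← Real.rpow_natCast, ← Real.rpow_mul (by positivity)]
  have h3 : (1 / 18 : ℝ) * ((9 : ℕ) : ℝ) = 1 / 2 := by norm_num
  rw [h3, Real.mul_rpow (by norm_num) hx.le]
  have h4 : (4 : ℝ) ^ (1 / 2 : ℝ) = 2 := by
    rw [← Real.sqrt_eq_rpow]
    rw [show (4 : ℝ) = 2 ^ 2 by norm_num]
    exact Real.sqrt_sq (by norm_num)
  rw [h4]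
  ring

end RS

/-- Range of small `k`: for fixed `k`, few `n < M` have squarefree `n.choose k`.
`hW` is Chebyshev's lower bound (proved separately, use it as a black box). -/
theorem range_small
    (hW : ∃ P0 : ℕ, ∀ P : ℕ, P0 ≤ P →
      (P : ℝ) / Real.log (4 * P) ≤ (((Ioc P (4 * P)).filter Nat.Prime).card : ℝ)) :
    ∃ C : ℝ, ∀ k M : ℕ, 1 ≤ k →
    ((((range M).filter (fun n => Squarefree (n.choose k))).card : ℕ) : ℝ)
      ≤ C * ((M : ℝ) * (k : ℝ) ^ (-(5 / 4) : ℝ) + (k : ℝ) ^ (10 : ℕ)) := by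
  classical
  obtain ⟨P0, hP0⟩ := hW
  let P1 : ℕ := max P0 2304
  let C0 : ℝ := ((P1 : ℝ) ^ 2) ^ (5 / 4 : ℝ)
  let C1 : ℝ := 12 ^ 3 * 2048 ^ 6 * (18 ^ 9 * 2)
  let C2 : ℝ := 4 ^ 12 * 2048 ^ 6 * 4 ^ 6 * 4 ^ 10
  have hC0 : 0 ≤ C0 := by positivity
  have hC1 : 0 ≤ C1 := by positivity
  have hC2 : 0 ≤ C2 := by positivity
  refine ⟨C0 + C1 + C2, fun k M hk => ?_⟩
  set sf := (range M).filter (fun n => Squarefree (n.choose k)) with hsf
  have hk0 : (0 : ℝ) < k := by exact_mod_cast hk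
  have hA : 0 ≤ (M : ℝ) * (k : ℝ) ^ (-(5 / 4) : ℝ) := by positivity
  have hD : (0 : ℝ) ≤ (k : ℝ) ^ (10 : ℕ) := by positivity
  let P := Nat.sqrt k + 1
  have hPk : k < P ^ 2 := by
    have := Nat.lt_succ_sqrt k
    show k < (Nat.sqrt k + 1) ^ 2
    rw [pow_two]
    exact this
  have hPk' : (P - 1) ^ 2 ≤ k := by
    have := Nat.sqrt_le k
    show (Nat.sqrt k + 1 - 1) ^ 2 ≤ k
    rw [Nat.add_sub_cancel, pow_two]
    exact this
  have hPpos : (0 : ℝ) < P := by
    have : 0 < P := Nat.succ_pos _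
    exact_mod_cast this
  have hPkR : (k : ℝ) ≤ (P : ℝ) ^ 2 := by exact_mod_cast hPk.le
  rcases lt_or_ge P P1 with hlt | hge
  · have h1 : (sf.card : ℝ) ≤ M := by
      have : sf.card ≤ (range M).card := Finset.card_filter_le _ _
      rw [card_range] at this
      exact_mod_cast this
    have h2 : (1 : ℝ) ≤ C0 * (k : ℝ) ^ (-(5 / 4) : ℝ) := by
      have h3 : (k : ℝ) ^ (5 / 4 : ℝ) ≤ C0 := by
        apply Real.rpow_le_rpow hk0.le _ (by norm_num)
        refine hPkR.trans ?_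
        have : (P : ℝ) ≤ P1 := by exact_mod_cast hlt.le
        exact pow_le_pow_left₀ hPpos.le this 2
      calc (1 : ℝ) = (k : ℝ) ^ (5 / 4 : ℝ) * (k : ℝ) ^ (-(5 / 4) : ℝ) := by
            rw [← Real.rpow_add hk0]
            norm_num
        _ ≤ C0 * (k : ℝ) ^ (-(5 / 4) : ℝ) :=
            mul_le_mul_of_nonneg_right h3 (by positivity)
    calc (sf.card : ℝ) ≤ M := h1
      _ ≤ M * (C0 * (k : ℝ) ^ (-(5 / 4) : ℝ)) :=
          le_mul_of_one_le_right (Nat.cast_nonneg _) h2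
      _ = C0 * ((M : ℝ) * (k : ℝ) ^ (-(5 / 4) : ℝ)) := by ring
      _ ≤ (C0 + C1 + C2) * ((M : ℝ) * (k : ℝ) ^ (-(5 / 4) : ℝ) + (k : ℝ) ^ (10 : ℕ)) := by
          have h4 : C0 ≤ C0 + C1 + C2 := by linarith
          have h5 : (M : ℝ) * (k : ℝ) ^ (-(5 / 4) : ℝ) ≤
            (M : ℝ) * (k : ℝ) ^ (-(5 / 4) : ℝ) + (k : ℝ) ^ (10 : ℕ) := by linarith
          exact mul_le_mul h4 h5 hA (by linarith)
  · have hP2304 : 2304 ≤ P := (le_max_right _ _).trans hge
    have hPP0 : P0 ≤ P := (le_max_left _ _).trans hge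
    have hPR : (2304 : ℝ) ≤ P := by exact_mod_cast hP2304
    set L := Real.log (4 * P) with hLdef
    have hL1 : 1 ≤ L := by
      rw [hLdef, Real.le_log_iff_exp_le (by positivity)]
      have := Real.exp_one_lt_d9
      linarith
    have hL0 : 0 < L := by linarith
    have hLs : L ≤ 4 * Real.sqrt P := by
      have h1 : Real.sqrt (4 * P) = 2 * Real.sqrt P := by
        rw [Real.sqrt_mul (by norm_num), show (4 : ℝ) = 2 ^ 2 by norm_num,
          Real.sqrt_sq (by norm_num)]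
      have h2 : L = 2 * Real.log (Real.sqrt (4 * P)) := by
        rw [Real.log_sqrt (by positivity)]
        ring
      have h3 : Real.log (Real.sqrt (4 * P)) ≤ Real.sqrt (4 * P) :=
        (Real.log_le_sub_one_of_pos (by positivity)).trans (by linarith)
      rw [h2]
      rw [h1] at h3 ⊢
      linarith
    have h48 : 48 ≤ Real.sqrt P := by
      apply Real.le_sqrt_of_sq_le
      calc (48 : ℝ) ^ 2 = 2304 := by norm_num
        _ ≤ P := hPR
    have hPL : 12 * L ≤ P := by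
      have h1 : Real.sqrt P * Real.sqrt P = P := Real.mul_self_sqrt hPpos.le
      have h2 : 48 * Real.sqrt P ≤ Real.sqrt P * Real.sqrt P :=
        mul_le_mul_of_nonneg_right h48 (Real.sqrt_nonneg _)
      rw [h1] at h2
      linarith
    have hmain := RS.key k P M L hPk' hPk (by omega) hL1 hPL (hP0 P hPP0)
    refine hmain.trans ?_
    have hL9 := RS.log_pow_bound (P : ℝ) hPpos hL0.le
    rw [← hLdef] at hL9
    -- first term
    have t1 : (12 * L / P) ^ 3 * (2048 * L) ^ 6 ≤ C1 * (k : ℝ) ^ (-(5 / 4) : ℝ) := by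
      have h1 : (12 * L / P) ^ 3 * (2048 * L) ^ 6 = 12 ^ 3 * 2048 ^ 6 * (L ^ 9 / (P : ℝ) ^ 3) := by
        rw [div_pow, mul_pow, mul_pow]
        ring
      have h2 : L ^ 9 / (P : ℝ) ^ 3 ≤ (18 ^ 9 * 2) * ((P : ℝ) ^ (1 / 2 : ℝ) / (P : ℝ) ^ 3) := by
        rw [← mul_div_assoc]
        exact div_le_div_of_nonneg_right hL9 (by positivity)
      have h3 : (P : ℝ) ^ (1 / 2 : ℝ) / (P : ℝ) ^ 3 ≤ (k : ℝ) ^ (-(5 / 4) : ℝ) := by
        have h4 : (P : ℝ) ^ (1 / 2 : ℝ) / (P : ℝ) ^ 3 = ((P : ℝ) ^ 2) ^ (-(5 / 4) : ℝ) := by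
          rw [← Real.rpow_natCast (P : ℝ) 3, ← Real.rpow_natCast (P : ℝ) 2,
            ← Real.rpow_sub hPpos, ← Real.rpow_mul hPpos.le]
          norm_num
        rw [h4]
        exact Real.rpow_le_rpow_of_nonpos hk0 hPkR (by norm_num)
      calc (12 * L / P) ^ 3 * (2048 * L) ^ 6
          = 12 ^ 3 * 2048 ^ 6 * (L ^ 9 / (P : ℝ) ^ 3) := h1
        _ ≤ 12 ^ 3 * 2048 ^ 6 * ((18 ^ 9 * 2) * ((P : ℝ) ^ (1 / 2 : ℝ) / (P : ℝ) ^ 3)) :=
            mul_le_mul_of_nonneg_left h2 (by positivity)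
        _ ≤ 12 ^ 3 * 2048 ^ 6 * ((18 ^ 9 * 2) * (k : ℝ) ^ (-(5 / 4) : ℝ)) :=
            mul_le_mul_of_nonneg_left (mul_le_mul_of_nonneg_left h3 (by positivity))
              (by positivity)
        _ = C1 * (k : ℝ) ^ (-(5 / 4) : ℝ) := by simp only [C1]; ring
    have t2 : (4 * P : ℝ) ^ 12 * (2048 * L) ^ 6 ≤ C2 * (k : ℝ) ^ (10 : ℕ) := by
      have h1 : L ≤ 4 * P := by linarith
      have h2 : (2048 * L) ^ 6 ≤ (2048 * (4 * P)) ^ 6 :=
        pow_le_pow_left₀ (by positivity) (by linarith) 6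
      have h3 : (P : ℝ) ^ 18 ≤ 4 ^ 10 * (k : ℝ) ^ 10 := by
        have h4 : (P : ℝ) ^ 2 ≤ 4 * k := by
          have h5 : P ≤ 2 * Nat.sqrt k := by
            show Nat.sqrt k + 1 ≤ 2 * Nat.sqrt k
            have : 1 ≤ Nat.sqrt k := Nat.sqrt_pos.2 hk
            omega
          have h6 : P ^ 2 ≤ 4 * k := by
            calc P ^ 2 ≤ (2 * Nat.sqrt k) ^ 2 := Nat.pow_le_pow_left h5 2
              _ = 4 * (Nat.sqrt k * Nat.sqrt k) := by ring
              _ ≤ 4 * k := Nat.mul_le_mul_left _ (Nat.sqrt_le k)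
          exact_mod_cast h6
        have h7 : (P : ℝ) ^ 18 ≤ (P : ℝ) ^ 20 :=
          pow_le_pow_right₀ (by linarith) (by norm_num)
        calc (P : ℝ) ^ 18 ≤ (P : ℝ) ^ 20 := h7
          _ = ((P : ℝ) ^ 2) ^ 10 := by ring
          _ ≤ (4 * k) ^ 10 := pow_le_pow_left₀ (by positivity) h4 10
          _ = 4 ^ 10 * (k : ℝ) ^ 10 := by ring
      calc (4 * P : ℝ) ^ 12 * (2048 * L) ^ 6
          ≤ (4 * P : ℝ) ^ 12 * (2048 * (4 * P)) ^ 6 :=
            mul_le_mul_of_nonneg_left h2 (by positivity)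
        _ = 4 ^ 12 * 2048 ^ 6 * 4 ^ 6 * (P : ℝ) ^ 18 := by ring
        _ ≤ 4 ^ 12 * 2048 ^ 6 * 4 ^ 6 * (4 ^ 10 * (k : ℝ) ^ 10) :=
            mul_le_mul_of_nonneg_left h3 (by positivity)
        _ = C2 * (k : ℝ) ^ (10 : ℕ) := by simp only [C2]; ring
    calc (M : ℝ) * ((12 * L / P) ^ 3 * (2048 * L) ^ 6) + (4 * P : ℝ) ^ 12 * (2048 * L) ^ 6
        ≤ M * (C1 * (k : ℝ) ^ (-(5 / 4) : ℝ)) + C2 * (k : ℝ) ^ (10 : ℕ) :=
          add_le_add (mul_le_mul_of_nonneg_left t1 (Nat.cast_nonneg _)) t2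
      _ = C1 * ((M : ℝ) * (k : ℝ) ^ (-(5 / 4) : ℝ)) + C2 * (k : ℝ) ^ (10 : ℕ) := by ring
      _ ≤ (C0 + C1 + C2) * ((M : ℝ) * (k : ℝ) ^ (-(5 / 4) : ℝ)) +
          (C0 + C1 + C2) * (k : ℝ) ^ (10 : ℕ) :=
          add_le_add (mul_le_mul_of_nonneg_right (by linarith) hA)
            (mul_le_mul_of_nonneg_right (by linarith) hD)
      _ = _ := by ring

end Pool.Agent.Helper530.Sq
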