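import Pool.Agent.Helper530.Sq.Base
import Pool.Agent.Helper530.Sq.RangeA
import Pool.Agent.Helper530.Sq.Cheb
import Pool.Agent.Helper530.Sq.Range12
import Pool.Agent.Helper530.Sq.Fin5a
import Pool.Agent.Helper530.Sq.BadBox

namespace Pool.Agent.Helper530.Sq


open Finset Classical

theorem growth_aux (A : ℝ) (m : ℕ) : ∀ᶠ t : ℕ in Filter.atTop, (A * Real.log t) ^ m ≤ t := by
  have h := (Real.isLittleO_pow_log_id_atTop (n := m)).const_mul_left (A ^ m)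
  have h2 := h.bound one_pos
  have h3 := tendsto_natCast_atTop_atTop (R := ℝ) |>.eventually h2
  filter_upwards [h3] with t ht
  rw [one_mul] at ht
  simp only [id, Real.norm_eq_abs] at ht
  rw [mul_pow]
  calc A ^ m * Real.log t ^ m ≤ |A ^ m * Real.log t ^ m| := le_abs_self _
    _ ≤ |(t : ℝ)| := ht
    _ = t := abs_of_nonneg (Nat.cast_nonneg t)

theorem growth : ∃ T0 : ℕ, ∀ t : ℕ, T0 ≤ t → ∀ L1 : ℕ,
    (L1 : ℝ) ≤ Real.log (8 * (t : ℝ) ^ 10) + 2 → ((10 ^ 8 * L1) ^ 63) ^ 900 ≤ t := by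
  have h1 := growth_aux (10 ^ 8 * 11) (63 * 900)
  have h2 : ∀ᶠ t : ℕ in Filter.atTop, Real.log 8 + 2 ≤ Real.log t :=
    (Real.tendsto_log_atTop.comp tendsto_natCast_atTop_atTop).eventually_ge_atTop _
  obtain ⟨T0, hT0⟩ := Filter.eventually_atTop.1 ((h1.and h2).and (Filter.eventually_ge_atTop 1))
  refine ⟨T0, fun t ht L1 hL1 => ?_⟩
  obtain ⟨⟨h3, h4⟩, h5⟩ := hT0 t ht
  have ht0 : (0 : ℝ) < t := by exact_mod_cast h5
  have h6 : Real.log (8 * (t : ℝ) ^ 10) = Real.log 8 + 10 * Real.log t := by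
    rw [Real.log_mul (by norm_num) (by positivity), Real.log_pow]
    push_cast
    ring
  have h7 : (L1 : ℝ) ≤ 11 * Real.log t := by
    rw [h6] at hL1
    linarith
  have h8 : ((10 : ℝ) ^ 8 * L1) ^ (63 * 900) ≤ t := by
    refine le_trans ?_ h3
    apply pow_le_pow_left₀ (by positivity)
    calc (10 : ℝ) ^ 8 * L1 ≤ 10 ^ 8 * (11 * Real.log t) := by gcongr
      _ = 10 ^ 8 * 11 * Real.log t := by ring
  rw [← pow_mul]
  have h9 : (((10 ^ 8 * L1) ^ (63 * 900) : ℕ) : ℝ) ≤ t := by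
    rw [Nat.cast_pow, Nat.cast_mul, Nat.cast_pow]
    exact h8
  exact_mod_cast h9

theorem le_of_sq_le_sq_aux {a b : ℝ} (_ : 0 ≤ a) (hb : 0 ≤ b) (h : a ^ 2 ≤ b ^ 2) : a ≤ b :=
  le_of_not_gt fun hab => by nlinarith

theorem pow20_aux (t : ℕ) (ht : 40 ≤ t) : (t + 1) ^ 20 ≤ 2 * t ^ 20 := by
  have ht0 : (0 : ℝ) < t := by
    have : 0 < t := by omega
    exact_mod_cast this
  have h1 : (1 + 1 / (t : ℝ)) ^ 20 ≤ 2 := by
    have h2 : 1 + 1 / (t : ℝ) ≤ Real.exp (1 / 40) := by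
      have h3 : 1 / (t : ℝ) ≤ 1 / 40 := by
        apply one_div_le_one_div_of_le (by norm_num)
        exact_mod_cast ht
      have h4 := Real.add_one_le_exp (1 / 40 : ℝ)
      linarith
    calc (1 + 1 / (t : ℝ)) ^ 20 ≤ Real.exp (1 / 40) ^ 20 := by gcongr
      _ = Real.exp (1 / 2) := by
          rw [← Real.exp_nat_mul]
          congr 1
          norm_num
      _ ≤ 2 := by
          have h5 : Real.exp (1 / 2) ^ 2 ≤ 2 ^ 2 := by
            rw [← Real.exp_nat_mul]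
            have : ((2 : ℕ) : ℝ) * (1 / 2) = 1 := by norm_num
            rw [this]
            have := Real.exp_one_lt_d9
            linarith
          exact le_of_sq_le_sq_aux (Real.exp_pos _).le (by norm_num) h5
  have h2 : ((t : ℝ) + 1) ^ 20 ≤ 2 * (t : ℝ) ^ 20 := by
    have e : (t : ℝ) + 1 = t * (1 + 1 / t) := by field_simp
    rw [e, mul_pow]
    have : (0 : ℝ) < (t : ℝ) ^ 20 := by positivity
    nlinarith
  exact_mod_cast h2

theorem mem_badBox {N K : ℕ} {x : ℕ × ℕ} : x ∈ badBox N K ↔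
    (N ≤ x.1 ∧ x.1 < 2 * N) ∧ (K ≤ x.2 ∧ x.2 < 2 * K) ∧ 2 * x.2 ≤ x.1 ∧
      Squarefree (x.1.choose x.2) := by
  unfold badBox
  rw [mem_filter, mem_product, mem_Ico, mem_Ico]
  tauto

theorem small_case (C1 : ℝ) (hC1 : ∀ k M : ℕ, 1 ≤ k →
    ((((range M).filter (fun n => Squarefree (n.choose k))).card : ℕ) : ℝ)
      ≤ C1 * ((M : ℝ) * (k : ℝ) ^ (-(5 / 4) : ℝ) + (k : ℝ) ^ (10 : ℕ))) (N K : ℕ)
    (hK : 1 ≤ K) (hKN : K ^ 20 ≤ N) :
    ((badBox N K).card : ℝ) ≤ 1026 * |C1| * N * (K : ℝ) ^ (-(1 / 4) : ℝ) := by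
  have hK0 : (0 : ℝ) < K := by exact_mod_cast hK
  have hK1 : (1 : ℝ) ≤ K := by exact_mod_cast hK
  have h1 : (badBox N K).card = ∑ k ∈ Ico K (2 * K), ((badBox N K).filter (fun x => x.2 = k)).card := by
    apply card_eq_sum_card_fiberwise
    intro x hx
    rw [mem_coe, mem_badBox] at hx
    rw [mem_coe, mem_Ico]
    exact hx.2.1
  have h2 : ∀ k ∈ Ico K (2 * K), (((badBox N K).filter (fun x => x.2 = k)).card : ℝ) ≤
      |C1| * (2 * N * (K : ℝ) ^ (-(5 / 4) : ℝ) + 1024 * (K : ℝ) ^ 10) := by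
    intro k hk
    rw [mem_Ico] at hk
    have hkK : (K : ℝ) ≤ k := by exact_mod_cast hk.1
    have hk2 : (k : ℝ) ≤ 2 * K := by
      have : k ≤ 2 * K := hk.2.le
      exact_mod_cast this
    have h3 : ((badBox N K).filter (fun x => x.2 = k)).card ≤
        ((range (2 * N)).filter (fun n => Squarefree (n.choose k))).card := by
      apply card_le_card_of_injOn Prod.fst
      · intro x hx
        rw [mem_coe, mem_filter, mem_badBox] at hx
        rw [mem_coe, mem_filter, mem_range]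
        obtain ⟨⟨h4, h5, h6, h7⟩, h8⟩ := hx
        rw [h8] at h7
        exact ⟨h4.2, h7⟩
      · intro x hx y hy hxy
        rw [mem_coe, mem_filter] at hx hy
        exact Prod.ext hxy (hx.2.trans hy.2.symm)
    have h4 := hC1 k (2 * N) (hK.trans hk.1)
    have h5 : (0 : ℝ) ≤ ((2 * N : ℕ) : ℝ) * (k : ℝ) ^ (-(5 / 4) : ℝ) + (k : ℝ) ^ (10 : ℕ) := by
      positivity
    calc (((badBox N K).filter (fun x => x.2 = k)).card : ℝ)
        ≤ (((range (2 * N)).filter (fun n => Squarefree (n.choose k))).card : ℝ) := by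
          exact_mod_cast h3
      _ ≤ C1 * (((2 * N : ℕ) : ℝ) * (k : ℝ) ^ (-(5 / 4) : ℝ) + (k : ℝ) ^ (10 : ℕ)) := h4
      _ ≤ |C1| * (((2 * N : ℕ) : ℝ) * (k : ℝ) ^ (-(5 / 4) : ℝ) + (k : ℝ) ^ (10 : ℕ)) := by
          apply mul_le_mul_of_nonneg_right (le_abs_self _) h5
      _ ≤ |C1| * (2 * N * (K : ℝ) ^ (-(5 / 4) : ℝ) + 1024 * (K : ℝ) ^ 10) := by
          apply mul_le_mul_of_nonneg_left _ (abs_nonneg _)
          apply add_le_add
          · rw [Nat.cast_mul, Nat.cast_ofNat]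
            apply mul_le_mul_of_nonneg_left _ (by positivity)
            exact Real.rpow_le_rpow_of_nonpos hK0 hkK (by norm_num)
          · calc (k : ℝ) ^ 10 ≤ (2 * K : ℝ) ^ 10 := by gcongr
              _ = 1024 * (K : ℝ) ^ 10 := by ring
  have h3 : ((badBox N K).card : ℝ) ≤
      ∑ k ∈ Ico K (2 * K), |C1| * (2 * N * (K : ℝ) ^ (-(5 / 4) : ℝ) + 1024 * (K : ℝ) ^ 10) := by
    rw [h1, Nat.cast_sum]
    exact sum_le_sum h2
  rw [sum_const, Nat.card_Ico, show 2 * K - K = K by omega, nsmul_eq_mul] at h3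
  have e1 : (K : ℝ) * (K : ℝ) ^ (-(5 / 4) : ℝ) = (K : ℝ) ^ (-(1 / 4) : ℝ) := by
    nth_rewrite 1 [← Real.rpow_one (K : ℝ)]
    rw [← Real.rpow_add hK0]
    norm_num
  have e2 : (K : ℝ) ^ 11 ≤ N * (K : ℝ) ^ (-(1 / 4) : ℝ) := by
    have h4 : (K : ℝ) ^ 20 ≤ N := by exact_mod_cast hKN
    have h5 : (K : ℝ) ^ 11 ≤ (K : ℝ) ^ 20 * (K : ℝ) ^ (-(1 / 4) : ℝ) := by
      rw [← Real.rpow_natCast, ← Real.rpow_natCast, ← Real.rpow_add hK0]
      apply Real.rpow_le_rpow_of_exponent_le hK1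
      norm_num
    exact h5.trans (by gcongr)
  calc ((badBox N K).card : ℝ)
      ≤ K * (|C1| * (2 * N * (K : ℝ) ^ (-(5 / 4) : ℝ) + 1024 * (K : ℝ) ^ 10)) := h3
    _ = |C1| * (2 * N * ((K : ℝ) * (K : ℝ) ^ (-(5 / 4) : ℝ)) + 1024 * (K : ℝ) ^ 11) := by ring
    _ ≤ |C1| * (2 * N * (K : ℝ) ^ (-(1 / 4) : ℝ) + 1024 * (N * (K : ℝ) ^ (-(1 / 4) : ℝ))) := by
        rw [e1]
        gcongr
    _ = 1026 * |C1| * N * (K : ℝ) ^ (-(1 / 4) : ℝ) := by ring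

theorem sqrt_aux (L t : ℕ) (h : L ^ 900 ≤ t) : (L : ℝ) ^ 450 ≤ Real.sqrt t := by
  apply Real.le_sqrt_of_sq_le
  rw [← pow_mul]
  have h2 : ((L ^ 900 : ℕ) : ℝ) ≤ t := Nat.cast_le.2 h
  rw [Nat.cast_pow] at h2
  exact h2

theorem log_aux (N t : ℕ) (ht : (0 : ℝ) < t) (h1 : ((N : ℝ) + 1) ≤ 2 ^ 20 * (t : ℝ) ^ 400) :
    Real.log (N + 1) ≤ 40 * Real.log (8 * (t : ℝ) ^ 10) := by
  have e1 : Real.log (2 ^ 20 * (t : ℝ) ^ 400) = 20 * Real.log 2 + 400 * Real.log t := by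
    rw [Real.log_mul (by norm_num) (pow_ne_zero _ ht.ne'), Real.log_pow, Real.log_pow]
    norm_num
  have e2 : Real.log (8 * (t : ℝ) ^ 10) = Real.log 8 + 10 * Real.log t := by
    rw [Real.log_mul (by norm_num) (pow_ne_zero _ ht.ne'), Real.log_pow]
    norm_num
  have e3 : Real.log (N + 1) ≤ Real.log (2 ^ 20 * (t : ℝ) ^ 400) :=
    Real.log_le_log (by have := Nat.cast_nonneg (α := ℝ) N; linarith) h1
  have h8 : Real.log 2 ≤ Real.log 8 := Real.log_le_log (by norm_num) (by norm_num)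
  have h2 : 0 ≤ Real.log 2 := Real.log_nonneg (by norm_num)
  rw [e1] at e3
  rw [e2]
  linarith

theorem nonneg_aux (C Y : ℝ) (hC : 0 < C) (hY : 0 ≤ Y) (N t : ℕ) : 0 ≤ C * Y * N / t := by
  positivity

theorem final_est (C2 Y : ℝ) (N K t : ℕ) (hC20 : 0 < C2) (h1 : Y ≤ Real.sqrt t)
    (h3 : (K : ℝ) ≤ 2 * (t : ℝ) ^ 20) (htR : (0 : ℝ) < t) (hK0 : (0 : ℝ) < K) :
    C2 * Y * N / t ≤ 2 * C2 * (N * (K : ℝ) ^ (-(1 / 40) : ℝ)) := by
  have h2 : (K : ℝ) ^ (1 / 40 : ℝ) ≤ 2 * Real.sqrt t := by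
    calc (K : ℝ) ^ (1 / 40 : ℝ) ≤ (2 * (t : ℝ) ^ 20) ^ (1 / 40 : ℝ) := by gcongr
      _ = 2 ^ (1 / 40 : ℝ) * ((t : ℝ) ^ 20) ^ (1 / 40 : ℝ) :=
          Real.mul_rpow (by norm_num) (by positivity)
      _ = 2 ^ (1 / 40 : ℝ) * Real.sqrt t := by
          congr 1
          rw [← Real.rpow_natCast, ← Real.rpow_mul htR.le, Real.sqrt_eq_rpow]
          norm_num
      _ ≤ 2 * Real.sqrt t := by
          apply mul_le_mul_of_nonneg_right _ (Real.sqrt_nonneg _)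
          calc (2 : ℝ) ^ (1 / 40 : ℝ) ≤ 2 ^ (1 : ℝ) :=
                Real.rpow_le_rpow_of_exponent_le (by norm_num) (by norm_num)
            _ = 2 := Real.rpow_one 2
  have hs : 0 < Real.sqrt t := Real.sqrt_pos.2 htR
  have h3 : 1 / Real.sqrt t ≤ 2 * (K : ℝ) ^ (-(1 / 40) : ℝ) := by
    rw [Real.rpow_neg hK0.le, div_le_iff₀ hs]
    have hKp : 0 < (K : ℝ) ^ (1 / 40 : ℝ) := by positivity
    have : 2 * ((K : ℝ) ^ (1 / 40 : ℝ))⁻¹ * Real.sqrt t =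
        (2 * Real.sqrt t) / (K : ℝ) ^ (1 / 40 : ℝ) := by
      field_simp
    rw [this, le_div_iff₀ hKp, one_mul]
    exact h2
  calc C2 * Y * N / t ≤ C2 * Real.sqrt t * N / t := by gcongr
    _ = C2 * N * (1 / Real.sqrt t) := by
        have e : (t : ℝ) = Real.sqrt t * Real.sqrt t := (Real.mul_self_sqrt htR.le).symm
        have e2 : C2 * Real.sqrt t * N / (Real.sqrt t * Real.sqrt t) =
          C2 * N * (1 / Real.sqrt t) := by
          field_simp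
        rw [← e] at e2
        exact e2
    _ ≤ C2 * N * (2 * (K : ℝ) ^ (-(1 / 40) : ℝ)) := by gcongr
    _ = 2 * C2 * (N * (K : ℝ) ^ (-(1 / 40) : ℝ)) := by ring

theorem small_t_est (N K T0 : ℕ) (h2 : (K : ℝ) ≤ (T0 : ℝ) ^ 20) (hK1 : (1 : ℝ) ≤ K) :
    (N : ℝ) * K ≤ (T0 : ℝ) ^ 40 * (N * (K : ℝ) ^ (-(1 / 40) : ℝ)) := by
  have hK0 : (0 : ℝ) < K := by linarith
  have h3 : (K : ℝ) ≤ (T0 : ℝ) ^ 40 * (K : ℝ) ^ (-(1 / 40) : ℝ) := by
    calc (K : ℝ) = (K : ℝ) ^ (1 + 1 / 40 : ℝ) * (K : ℝ) ^ (-(1 / 40) : ℝ) := by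
          rw [← Real.rpow_add hK0]
          norm_num
      _ ≤ (K : ℝ) ^ (2 : ℝ) * (K : ℝ) ^ (-(1 / 40) : ℝ) := by
          apply mul_le_mul_of_nonneg_right _ (by positivity)
          exact Real.rpow_le_rpow_of_exponent_le hK1 (by norm_num)
      _ ≤ (T0 : ℝ) ^ 40 * (K : ℝ) ^ (-(1 / 40) : ℝ) := by
          apply mul_le_mul_of_nonneg_right _ (by positivity)
          calc (K : ℝ) ^ (2 : ℝ) = (K : ℝ) ^ 2 := by
                rw [← Real.rpow_natCast]; norm_num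
            _ ≤ ((T0 : ℝ) ^ 20) ^ 2 := by gcongr
            _ = (T0 : ℝ) ^ 40 := by rw [← pow_mul]
  calc (N : ℝ) * K ≤ N * ((T0 : ℝ) ^ 40 * (K : ℝ) ^ (-(1 / 40) : ℝ)) := by gcongr
    _ = _ := by ring

theorem exists_par : ∃ T0 : ℕ, ∀ t N K : ℕ, T0 ≤ t → t ^ 20 ≤ K →
    K < (t + 1) ^ 20 → K < N → N < K ^ 20 →
    ∃ L1 La L : ℕ, Par t L1 La L N K ∧ L ^ 2 ≤ t ∧ La ≤ L ∧ 1 ≤ t ∧ N < 2 ^ 20 * t ^ 400 ∧
      ∀ P : ℕ, t ≤ P → 4 * P ≤ 8 * t ^ 10 → (P : ℝ) ≤ L1 * ((pr P).card : ℝ) := by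
  obtain ⟨P0, hP0⟩ := primes_window
  obtain ⟨T1, hT1⟩ := growth
  refine ⟨max (max T1 P0) 40, ?_⟩
  intro t N K ht htK htK2 hKN hNK
  have ht40 : 40 ≤ t := (le_max_right _ _).trans ht
  have htP0 : P0 ≤ t := ((le_max_right _ _).trans (le_max_left _ _)).trans ht
  have htT1 : T1 ≤ t := ((le_max_left _ _).trans (le_max_left _ _)).trans ht
  have ht0 : 0 < t := by omega
  have htR : (0 : ℝ) < t := by exact_mod_cast ht0
  have ht1R : (1 : ℝ) ≤ t := by exact_mod_cast ht0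
  have hK2 : K ≤ 2 * t ^ 20 := htK2.le.trans (pow20_aux t ht40)
  have hlog0 : 0 ≤ Real.log (8 * (t : ℝ) ^ 10) := by
    apply Real.log_nonneg
    have : (1 : ℝ) ≤ (t : ℝ) ^ 10 := one_le_pow₀ ht1R
    linarith
  obtain ⟨L1, hL1def⟩ : ∃ L1 : ℕ, L1 = ⌈Real.log (8 * (t : ℝ) ^ 10)⌉₊ + 1 := ⟨_, rfl⟩
  have hL1a : Real.log (8 * (t : ℝ) ^ 10) ≤ L1 := by
    rw [hL1def]
    have := Nat.le_ceil (Real.log (8 * (t : ℝ) ^ 10))
    push_cast
    linarith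
  have hL1b : (L1 : ℝ) ≤ Real.log (8 * (t : ℝ) ^ 10) + 2 := by
    rw [hL1def]
    have := Nat.ceil_lt_add_one hlog0
    push_cast
    linarith
  have hL11 : 1 ≤ L1 := by omega
  -- prime counting
  have hpr : ∀ P : ℕ, t ≤ P → 4 * P ≤ 8 * t ^ 10 → (P : ℝ) ≤ L1 * ((pr P).card : ℝ) := by
    intro P htP hP
    have h1 := hP0 P (htP0.trans htP)
    have hPpos : (0 : ℝ) < P := lt_of_lt_of_le htR (by exact_mod_cast htP)
    have h2 : (1 : ℝ) < 4 * P := by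
      have : (1 : ℝ) ≤ P := le_trans ht1R (by exact_mod_cast htP)
      linarith
    have h3 : 0 < Real.log (4 * P) := Real.log_pos h2
    have h4 : Real.log (4 * P) ≤ L1 := by
      refine le_trans ?_ hL1a
      apply Real.log_le_log (by linarith)
      exact_mod_cast hP
    have h1' : (P : ℝ) / Real.log (4 * P) ≤ ((pr P).card : ℝ) := h1
    rw [div_le_iff₀ h3] at h1'
    have h5 : ((pr P).card : ℝ) * Real.log (4 * P) ≤ ((pr P).card : ℝ) * L1 :=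
      mul_le_mul_of_nonneg_left h4 (Nat.cast_nonneg _)
    rw [mul_comm (L1 : ℝ)]
    exact h1'.trans h5
  have hprt : (t : ℝ) ≤ L1 * ((pr t).card : ℝ) := by
    apply hpr t le_rfl
    have : t ≤ t ^ 10 := Nat.le_self_pow (by norm_num) t
    omega
  have hNt : N < 2 ^ 20 * t ^ 400 := by
    have h1 : K ^ 20 ≤ (2 * t ^ 20) ^ 20 := Nat.pow_le_pow_left hK2 20
    rw [mul_pow, ← pow_mul] at h1
    exact lt_of_lt_of_le hNK h1
  obtain ⟨La, hLa⟩ : ∃ La : ℕ, La = 10 ^ 8 * L1 := ⟨_, rfl⟩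
  have hLa1 : 1 ≤ La := by omega
  obtain ⟨L, hL⟩ : ∃ L : ℕ, L = La ^ 63 := ⟨_, rfl⟩
  have hLaL : La ≤ L := by
    rw [hL]
    exact Nat.le_self_pow (by norm_num) La
  have hL1' : 1 ≤ L := hLa1.trans hLaL
  have hlog : 1 + Real.log (N + 1) ≤ L := by
    have h1 : ((N : ℝ) + 1) ≤ 2 ^ 20 * (t : ℝ) ^ 400 := by
      have h2 : ((N + 1 : ℕ) : ℝ) ≤ ((2 ^ 20 * t ^ 400 : ℕ) : ℝ) := Nat.cast_le.2 hNt
      rw [Nat.cast_add, Nat.cast_one, Nat.cast_mul, Nat.cast_pow, Nat.cast_pow] at h2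
      exact h2
    have h2 := log_aux N t htR h1
    have h3 : (1 : ℝ) ≤ L1 := by exact_mod_cast hL11
    have h4 : (10 ^ 8 * L1 : ℝ) ≤ L := by
      have : 10 ^ 8 * L1 ≤ L := by rw [← hLa]; exact hLaL
      exact_mod_cast this
    linarith
  have hLt : L ^ 900 ≤ t := by
    rw [hL, hLa]
    exact hT1 t htT1 L1 hL1b
  have hLt1 : L ^ 2 ≤ t := (Nat.pow_le_pow_right hL1' (Nat.le_of_ble_eq_true rfl)).trans hLt
  exact ⟨L1, La, L, ⟨hL11, hLa, hL, hLt, hlog, htK, hK2, hKN.le, hprt⟩, hLt1, hLaL, ht0, hNt, hpr⟩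

/-- the analytic part at scale `t` -/
theorem large_case : ∃ (C : ℝ) (T0 : ℕ), 0 < C ∧ ∀ t N K : ℕ, T0 ≤ t → t ^ 20 ≤ K →
    K < (t + 1) ^ 20 → K < N → N < K ^ 20 →
    ∃ Y : ℝ, 0 ≤ Y ∧ Y ≤ Real.sqrt t ∧ K ≤ 2 * t ^ 20 ∧
      ((badBox N K).card : ℝ) ≤ C * Y * N / t := by
  obtain ⟨CA, hCA0, hCA⟩ := final_A1
  obtain ⟨C2, hC20, hC2⟩ := final_T2
  obtain ⟨C3, hC30, hC3⟩ := final_T2b
  obtain ⟨T1, hT1⟩ := exists_par
  refine ⟨CA + C2 + C3, T1, by positivity, ?_⟩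
  intro t N K ht htK htK2 hKN hNK
  obtain ⟨L1, La, L, hPar, hLt1, hLaL, ht0, hNt, hpr⟩ := hT1 t N K ht htK htK2 hKN hNK
  have hL11 := hPar.hL1
  have hLa := hPar.hLa
  have hL := hPar.hL
  have hK2 := hPar.hK2
  have hY0 : 0 ≤ (L : ℝ) ^ 450 := pow_nonneg (Nat.cast_nonneg _) _
  refine ⟨(L : ℝ) ^ 450, hY0, sqrt_aux L t hPar.hLt, hK2, ?_⟩
  have hXA0 : 0 ≤ CA * (L : ℝ) ^ 450 * N / t := nonneg_aux _ _ hCA0 hY0 _ _
  have hX20 : 0 ≤ C2 * (L : ℝ) ^ 450 * N / t := nonneg_aux _ _ hC20 hY0 _ _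
  have hX30 : 0 ≤ C3 * (L : ℝ) ^ 450 * N / t := nonneg_aux _ _ hC30 hY0 _ _
  have hsplit : (CA + C2 + C3) * (L : ℝ) ^ 450 * N / t =
      CA * (L : ℝ) ^ 450 * N / t + C2 * (L : ℝ) ^ 450 * N / t + C3 * (L : ℝ) ^ 450 * N / t := by
    ring
  rw [hsplit]
  have hsub : badBox N K ⊆ (Ico N (2 * N)) ×ˢ (Ico K (2 * K)) := by
    intro x hx
    rw [mem_badBox] at hx
    rw [mem_product, mem_Ico, mem_Ico]
    exact ⟨hx.1, hx.2.1⟩
  by_cases hr : t ^ 24 ≤ 200 * L1 * N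
  · -- range one
    obtain ⟨P, hP⟩ : ∃ P : ℕ, P = 2 * t ^ 10 := ⟨_, rfl⟩
    have hPP : (P : ℝ) ≤ L1 * ((pr P).card : ℝ) := by
      apply hpr
      · rw [hP]
        have : t ≤ t ^ 10 := Nat.le_self_pow (by norm_num) t
        omega
      · rw [hP]; omega
    have hP8 : t ^ 8 ≤ P := by
      rw [hP]
      have : t ^ 8 ≤ t ^ 10 := Nat.pow_le_pow_right ht0 (by norm_num)
      omega
    have htP : t ≤ P := by
      rw [hP]
      have : t ≤ t ^ 10 := Nat.le_self_pow (by norm_num) t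
      omega
    have hPsq : P ^ 2 = 4 * t ^ 20 := by rw [hP]; ring
    have hkey : ∀ x ∈ badBox N K, (∃ l : ℤ, l ≠ 0 ∧ |l| ≤ 1024 ∧ ((pr P).card : ℝ) / 10 ^ 4 ≤
        ‖∑ p ∈ pr P, e (((l : ℝ) / (p : ℝ) ^ 2) * x.1 + 0 * x.2)‖) ∨ caseA1 (pr P) L x.1 x.2 := by
      intro x hx
      rw [mem_badBox] at hx
      obtain ⟨⟨hn1, hn2⟩, ⟨hk1, hk2⟩, hkn, hsq⟩ := hx
      refine range_one P L1 L x.1 x.2 (pr P) rfl hL11 hPP ?_ (hLt1.trans htP) ?_ ?_ hkn ?_ hsq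
      · rw [← hLa]; exact hLaL
      · rw [hPsq]; omega
      · rw [hPsq]; omega
      · have h1 : 2 * x.1 ≤ 2 ^ 22 * t ^ 400 := by
          have : (2 : ℕ) ^ 22 * t ^ 400 = 4 * (2 ^ 20 * t ^ 400) := by ring
          rw [this]
          omega
        refine h1.trans ?_
        rw [hP, mul_pow, ← pow_mul]
        exact Nat.mul_le_mul (Nat.pow_le_pow_right (by norm_num) (by norm_num))
          (Nat.pow_le_pow_right ht0 (by norm_num))
    set B1 := (badBox N K).filter (fun x => ∃ l : ℤ, l ≠ 0 ∧ |l| ≤ 1024 ∧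
      ((pr P).card : ℝ) / 10 ^ 4 ≤
        ‖∑ p ∈ pr P, e (((l : ℝ) / (p : ℝ) ^ 2) * x.1 + 0 * x.2)‖) with hB1
    set B2 := (badBox N K).filter (fun x => caseA1 (pr P) L x.1 x.2) with hB2
    have hcov : badBox N K ⊆ B1 ∪ B2 := by
      intro x hx
      rw [mem_union, hB1, hB2, mem_filter, mem_filter]
      rcases hkey x hx with h | h
      · exact Or.inl ⟨hx, h⟩
      · exact Or.inr ⟨hx, h⟩
    have hc1 : (B1.card : ℝ) ≤ C2 * (L : ℝ) ^ 450 * N / t := by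
      apply hC2 t L1 La L N K P B1 hPar hP hr hPP ((filter_subset _ _).trans hsub)
      intro x hx
      rw [hB1, mem_filter] at hx
      have hx1 := hx.1
      rw [mem_badBox] at hx1
      exact ⟨by omega, hx1.2.2.2, hx.2⟩
    have hc2 : (B2.card : ℝ) ≤ CA * (L : ℝ) ^ 450 * N / t := by
      apply hCA t L1 La L N K P B2 hPar hP8 (le_of_eq hP) hPP ((filter_subset _ _).trans hsub)
      intro x hx
      rw [hB2, mem_filter] at hx
      have hx1 := hx.1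
      rw [mem_badBox] at hx1
      exact ⟨by omega, hx1.2.2.2, hx.2⟩
    have hc : ((badBox N K).card : ℝ) ≤ B1.card + B2.card := by
      have := (card_le_card hcov).trans (card_union_le B1 B2)
      exact_mod_cast this
    linarith
  · -- range two
    push Not at hr
    obtain ⟨P, hP⟩ : ∃ P : ℕ, P = t ^ 8 := ⟨_, rfl⟩
    have htP : t ≤ P := by
      rw [hP]
      exact Nat.le_self_pow (by norm_num) t
    have h810 : t ^ 8 ≤ t ^ 10 := Nat.pow_le_pow_right ht0 (by norm_num)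
    have hPP : (P : ℝ) ≤ L1 * ((pr P).card : ℝ) := by
      apply hpr P htP
      rw [hP]; omega
    have hP10 : P ≤ 2 * t ^ 10 := by rw [hP]; omega
    have hPsq : P ^ 2 = t ^ 16 := by rw [hP, ← pow_mul]
    have hPcb : P ^ 3 = t ^ 24 := by rw [hP, ← pow_mul]
    have hkey : ∀ x ∈ badBox N K,
        (∃ a b : Fin 2 → ℤ, (∀ j, |a j| ≤ (La : ℤ) ^ 20 ∧ |b j| ≤ (La : ℤ) ^ 20) ∧
      a 0 * b 1 - a 1 * b 0 ≠ 0 ∧
      ((pr P).card : ℝ) / (La : ℝ) ^ 60 ≤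
        ‖∑ p ∈ pr P, e (((a 0 : ℝ) / (p : ℝ) ^ 2) * x.1 + ((a 1 : ℝ) / (p : ℝ) ^ 2) * x.2)‖ ∧
      ((pr P).card : ℝ) / (La : ℝ) ^ 60 ≤
        ‖∑ p ∈ pr P, e (((b 0 : ℝ) / (p : ℝ) ^ 2) * x.1 + ((b 1 : ℝ) / (p : ℝ) ^ 2) * x.2)‖) ∨
        caseA1 (pr P) L x.1 x.2 := by
      intro x hx
      rw [mem_badBox] at hx
      obtain ⟨⟨hn1, hn2⟩, ⟨hk1, hk2⟩, hkn, hsq⟩ := hx
      refine range_two P L1 La L x.1 x.2 (pr P) rfl hL11 hPP ?_ ?_ (hLt1.trans htP) ?_ hkn ?_ hsq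
      · rw [← hLa]
      · rw [← hL]
      · rw [hPsq]
        have : t ^ 16 ≤ t ^ 20 := Nat.pow_le_pow_right ht0 (by norm_num)
        omega
      · rw [hPcb]
        have h1 : 100 * L1 * x.1 ≤ 100 * L1 * (2 * N) := Nat.mul_le_mul_left _ hn2.le
        have h2 : 100 * L1 * (2 * N) = 200 * L1 * N := by ring
        omega
    set B1 := (badBox N K).filter (fun x =>
      ∃ a b : Fin 2 → ℤ, (∀ j, |a j| ≤ (La : ℤ) ^ 20 ∧ |b j| ≤ (La : ℤ) ^ 20) ∧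
      a 0 * b 1 - a 1 * b 0 ≠ 0 ∧
      ((pr P).card : ℝ) / (La : ℝ) ^ 60 ≤
        ‖∑ p ∈ pr P, e (((a 0 : ℝ) / (p : ℝ) ^ 2) * x.1 + ((a 1 : ℝ) / (p : ℝ) ^ 2) * x.2)‖ ∧
      ((pr P).card : ℝ) / (La : ℝ) ^ 60 ≤
        ‖∑ p ∈ pr P, e (((b 0 : ℝ) / (p : ℝ) ^ 2) * x.1 + ((b 1 : ℝ) / (p : ℝ) ^ 2) * x.2)‖)
      with hB1
    set B2 := (badBox N K).filter (fun x => caseA1 (pr P) L x.1 x.2) with hB2
    have hcov : badBox N K ⊆ B1 ∪ B2 := by
      intro x hx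
      rw [mem_union, hB1, hB2, mem_filter, mem_filter]
      rcases hkey x hx with h | h
      · exact Or.inl ⟨hx, h⟩
      · exact Or.inr ⟨hx, h⟩
    have hc1 : (B1.card : ℝ) ≤ C3 * (L : ℝ) ^ 450 * N / t := by
      apply hC3 t L1 La L N K P B1 hPar hP hPP ((filter_subset _ _).trans hsub)
      intro x hx
      rw [hB1, mem_filter] at hx
      have hx1 := hx.1
      rw [mem_badBox] at hx1
      exact ⟨by omega, hx1.2.2.2, hx.2⟩
    have hc2 : (B2.card : ℝ) ≤ CA * (L : ℝ) ^ 450 * N / t := by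
      apply hCA t L1 La L N K P B2 hPar (le_of_eq hP.symm) hP10 hPP ((filter_subset _ _).trans hsub)
      intro x hx
      rw [hB2, mem_filter] at hx
      have hx1 := hx.1
      rw [mem_badBox] at hx1
      exact ⟨by omega, hx1.2.2.2, hx.2⟩
    have hc : ((badBox N K).card : ℝ) ≤ B1.card + B2.card := by
      have := (card_le_card hcov).trans (card_union_le B1 B2)
      exact_mod_cast this
    linarith

theorem exists_root (K : ℕ) : ∃ t : ℕ, t ^ 20 ≤ K ∧ K < (t + 1) ^ 20 := by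
  have hex : ∃ s : ℕ, K < (s + 1) ^ 20 :=
    ⟨K, lt_of_lt_of_le (Nat.lt_succ_self K) (Nat.le_self_pow (by norm_num) _)⟩
  classical
  refine ⟨Nat.find hex, ?_, Nat.find_spec hex⟩
  rcases Nat.eq_zero_or_pos (Nat.find hex) with h | h
  · rw [h]; simp
  · have := Nat.find_min hex (Nat.sub_lt h one_pos)
    have e : Nat.find hex - 1 + 1 = Nat.find hex := by omega
    rw [not_lt, e] at this
    exact this

/-- TARGET -/
theorem main_bound : ∃ C c : ℝ, 0 < c ∧ ∀ N K : ℕ, 1 ≤ N → 1 ≤ K →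
    ((badBox N K).card : ℝ) ≤ C * N * (K : ℝ) ^ (-c) := by
  obtain ⟨C1, hC1⟩ := range_small primes_window
  obtain ⟨C2, T0, hC20, hC2⟩ := large_case
  refine ⟨1026 * |C1| + (T0 : ℝ) ^ 40 + 2 * C2, 1 / 40, by norm_num, ?_⟩
  intro N K hN hK
  have hK0 : (0 : ℝ) < K := by exact_mod_cast hK
  have hK1 : (1 : ℝ) ≤ K := by exact_mod_cast hK
  have hN0 : (0 : ℝ) < N := by exact_mod_cast hN
  have hX : 0 < (N : ℝ) * (K : ℝ) ^ (-(1 / 40) : ℝ) := by positivity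
  have hT : 0 ≤ (T0 : ℝ) ^ 40 := by positivity
  have habs := abs_nonneg C1
  have hexp : (1026 * |C1| + (T0 : ℝ) ^ 40 + 2 * C2) * N * (K : ℝ) ^ (-(1 / 40) : ℝ) =
      1026 * |C1| * (N * (K : ℝ) ^ (-(1 / 40) : ℝ)) + (T0 : ℝ) ^ 40 * (N * (K : ℝ) ^ (-(1 / 40) : ℝ))
      + 2 * C2 * (N * (K : ℝ) ^ (-(1 / 40) : ℝ)) := by ring
  rw [hexp]
  have p1 : 0 ≤ 1026 * |C1| * (N * (K : ℝ) ^ (-(1 / 40) : ℝ)) := by positivity
  have p2 : 0 ≤ (T0 : ℝ) ^ 40 * (N * (K : ℝ) ^ (-(1 / 40) : ℝ)) := by positivity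
  have p3 : 0 ≤ 2 * C2 * (N * (K : ℝ) ^ (-(1 / 40) : ℝ)) := by positivity
  rcases (badBox N K).eq_empty_or_nonempty with hemp | ⟨x, hx⟩
  · rw [hemp, card_empty, Nat.cast_zero]
    linarith
  have hKN : K < N := by
    rw [mem_badBox] at hx
    omega
  by_cases hc : K ^ 20 ≤ N
  · have h1 := small_case C1 hC1 N K hK hc
    have h2 : (K : ℝ) ^ (-(1 / 4) : ℝ) ≤ (K : ℝ) ^ (-(1 / 40) : ℝ) :=
      Real.rpow_le_rpow_of_exponent_le hK1 (by norm_num)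
    have h3 : 1026 * |C1| * N * (K : ℝ) ^ (-(1 / 4) : ℝ) ≤
        1026 * |C1| * (N * (K : ℝ) ^ (-(1 / 40) : ℝ)) := by
      rw [mul_assoc (1026 * |C1|)]
      gcongr
    linarith
  push Not at hc
  obtain ⟨t, ht1, ht2⟩ := exists_root K
  by_cases htT : T0 ≤ t
  · obtain ⟨Y, hY0, h1, hL2, hL3⟩ := hC2 t N K htT ht1 ht2 hKN hc
    have ht0 : 0 < t := by
      rcases Nat.eq_zero_or_pos t with h | h
      · subst h
        simp at ht2
        omega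
      · exact h
    have htR : (0 : ℝ) < t := by exact_mod_cast ht0
    have h3 : (K : ℝ) ≤ 2 * (t : ℝ) ^ 20 := by exact_mod_cast hL2
    have h4 := final_est C2 Y N K t hC20 h1 h3 htR hK0
    linarith
  · push Not at htT
    have h1 : ((badBox N K).card : ℝ) ≤ N * K := by
      have h2 : (badBox N K).card ≤ N * K := by
        have h3 : badBox N K ⊆ (Ico N (2 * N)) ×ˢ (Ico K (2 * K)) := by
          intro y hy
          rw [mem_badBox] at hy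
          rw [mem_product, mem_Ico, mem_Ico]
          exact ⟨hy.1, hy.2.1⟩
        refine (card_le_card h3).trans ?_
        rw [card_product, Nat.card_Ico, Nat.card_Ico, show 2 * N - N = N by omega,
          show 2 * K - K = K by omega]
      exact_mod_cast h2
    have h2 : (K : ℝ) ≤ (T0 : ℝ) ^ 20 := by
      have h3 : K ≤ T0 ^ 20 := ht2.le.trans (Nat.pow_le_pow_left htT 20)
      exact_mod_cast h3
    have h4 := small_t_est N K T0 h2 hK1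
    linarith

end Pool.Agent.Helper530.Sq
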